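import Pool.Agent.H203.MC.Defs
import Pool.Agent.H203.GE.APX

set_option autoImplicit false

/-! Leaf AM: approximation in mean at fixed distances (compare GE/APX.lean). -/

open Complex Filter Topology Set MeasureTheory

namespace Pool.Agent.H203.MC

open Pool.Agent.H203.ME (ee gR WR om FF KF C2c)
open Pool.Agent.H203.GE (Lf ZG XG)

namespace AML

/-- the zeros of a window, as a real sum -/
lemma XM_eq {G : ℂ → ℂ} {w : ℕ → ℂ} (hG : Lf G w) {F : ℝ → ℝ} (hF : C2c F) {q U1 U2 t : ℝ} (hU : 1 ≤ U1)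
    (h1 : U1 + 1 ≤ t) (h2 : t ≤ U2 - 1) :
    XM G q F t = (∑ s ∈ H370.Zf G U1 U2, (H370.mult G s : ℝ) * F (s.im - t)) -
      Real.log (q * t / (2 * Real.pi)) / (2 * Real.pi) * ∫ x : ℝ, F x := by
  have h := GE.XG_eq (T := 1) hG hF hU h1 h2
  unfold XG at h
  unfold XM
  have h3 : (∑ᶠ s ∈ ZG G, (H370.mult G s : ℝ) * F (s.im - t)) =
      ∑ s ∈ H370.Zf G U1 U2, (H370.mult G s : ℝ) * F (s.im - t) := by linarith
  rw [h3]

/-- the local density changes little -/
lemma log_shift {q t s : ℝ} (hq : 0 < q) (ht : 2 ≤ t) (hs : |s| ≤ 1) :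
    |Real.log (q * (t + s) / (2 * Real.pi)) - Real.log (q * t / (2 * Real.pi))| ≤ 2 / t := by
  have hpi := Real.pi_pos
  obtain ⟨hs1, hs2⟩ := abs_le.1 hs
  have ht0 : 0 < t := by linarith
  have hts : 0 < t + s := by linarith
  have e1 : Real.log (q * (t + s) / (2 * Real.pi)) - Real.log (q * t / (2 * Real.pi)) = Real.log (t + s) - Real.log t := by
    have a1 : Real.log (q * (t + s) / (2 * Real.pi)) = Real.log q + Real.log (t + s) - Real.log (2 * Real.pi) := by
      rw [Real.log_div (by positivity) (by positivity), Real.log_mul hq.ne' hts.ne']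
    have a2 : Real.log (q * t / (2 * Real.pi)) = Real.log q + Real.log t - Real.log (2 * Real.pi) := by
      rw [Real.log_div (by positivity) (by positivity), Real.log_mul hq.ne' ht0.ne']
    rw [a1, a2]
    ring
  rw [e1, ← Real.log_div (by positivity) (by positivity), abs_le]
  have e2 : (t + s) / t = 1 + s / t := by field_simp
  constructor
  · have h3 : 1 - ((t + s) / t)⁻¹ ≤ Real.log ((t + s) / t) := Real.one_sub_inv_le_log_of_pos (by positivity)
    have h4 : -(2 / t) ≤ 1 - ((t + s) / t)⁻¹ := by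
      have h5 : 1 - ((t + s) / t)⁻¹ = s / (t + s) := by field_simp; ring
      rw [h5, neg_le_iff_add_nonneg, div_add_div _ _ (by positivity) (by positivity)]
      apply div_nonneg _ (by positivity)
      nlinarith
    linarith
  · have h3 : Real.log ((t + s) / t) ≤ (t + s) / t - 1 := Real.log_le_sub_one_of_pos (by positivity)
    have h4 : (t + s) / t - 1 ≤ 2 / t := by
      rw [e2, add_sub_cancel_left]
      apply div_le_div_of_nonneg_right _ ht0.le
      linarith
    linarith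

/-- the size of the local density -/
lemma log_size {q T t : ℝ} (hq : 0 < q) (hT : 10 ≤ T) (hL : 1 ≤ Real.log T) (h1 : T ≤ t) (h2 : t ≤ 2 * T) :
    |Real.log (q * t / (2 * Real.pi))| ≤ (|Real.log (q / (2 * Real.pi))| + 2) * Real.log T := by
  have hpi := Real.pi_pos
  have ht0 : 0 < t := by linarith
  have hT0 : 0 < T := by linarith
  have e1 : Real.log (q * t / (2 * Real.pi)) = Real.log (q / (2 * Real.pi)) + Real.log t := by
    rw [← Real.log_mul (by positivity) (by positivity)]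
    congr 1
    ring
  have h3 : 0 ≤ Real.log t := Real.log_nonneg (by linarith)
  have h4 : Real.log t ≤ Real.log 2 + Real.log T := by
    rw [← Real.log_mul (by norm_num) (by positivity)]
    exact Real.log_le_log ht0 h2
  have h5 : Real.log 2 ≤ 1 := by
    have := Real.log_two_lt_d9
    linarith
  rw [e1]
  calc |Real.log (q / (2 * Real.pi)) + Real.log t| ≤ |Real.log (q / (2 * Real.pi))| + |Real.log t| := abs_add_le _ _
    _ = |Real.log (q / (2 * Real.pi))| + Real.log t := by rw [abs_of_nonneg h3]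
    _ ≤ _ := by nlinarith [abs_nonneg (Real.log (q / (2 * Real.pi)))]

/-- the explicit formula integrated against `F` -/
lemma Z_eq {G : ℂ → ℂ} {w : ℕ → ℂ} (hw : ∀ n, ‖w n‖ ≤ 1) (hBB : S_B3) {F : ℝ → ℝ} (hF : C2c F) {q C T U1 U2 R t : ℝ}
    (hq : 0 < q) (hT : 10 ≤ T) (hL : 1 ≤ Real.log T) (hR : 1 ≤ R)
    (hE : ∀ t : ℝ, T + Real.log T ≤ t → t ≤ 2 * T - Real.log T →
      ‖(∑ s ∈ H370.Zf G U1 U2, (H370.mult G s : ℂ) * WR R (H370.zz s - t)) -
        ((Real.log (q * t / (2 * Real.pi)) / (2 * Real.pi) * om R - P3 w R t : ℝ) : ℂ)‖ ≤ C)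
    (h1 : T + Real.log T + 1 ≤ t) (h2 : t ≤ 2 * T - Real.log T - 1) :
    ‖(∑ s ∈ H370.Zf G U1 U2, (H370.mult G s : ℂ) * KF F R (H370.zz s - t)) -
      ((Real.log (q * t / (2 * Real.pi)) / (2 * Real.pi) * om R * (∫ x : ℝ, F x) - B3 w F R t : ℝ) : ℂ)‖ ≤
      (C + |om R| / T) * ∫ x : ℝ, |F x| := by
  have hpi := Real.pi_gt_three
  have hW := ME.WR_cont R
  have hP := (hBB w hw F hF R hR).1
  have hT0 : 0 < T := by linarith
  have ht2 : 2 ≤ t := by linarith
  have hC0 : 0 ≤ C := (norm_nonneg _).trans (hE (T + Real.log T) le_rfl (by linarith))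
  -- the first sum as an integral
  have e1 : (∑ s ∈ H370.Zf G U1 U2, (H370.mult G s : ℂ) * KF F R (H370.zz s - t)) =
      ∫ s : ℝ, (F s : ℂ) * ∑ ρ ∈ H370.Zf G U1 U2, (H370.mult G ρ : ℂ) * WR R (H370.zz ρ - (t + s : ℝ)) := by
    simp only [Finset.mul_sum]
    rw [integral_finsetSum]
    · refine Finset.sum_congr rfl fun ρ _ => ?_
      unfold KF
      rw [← integral_const_mul]
      congr 1
      funext s
      have : H370.zz ρ - (t : ℂ) - (s : ℂ) = H370.zz ρ - ((t + s : ℝ) : ℂ) := by push_cast; ring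
      rw [this]; ring
    · intro ρ _
      apply hF.intmul
      fun_prop
  set D : ℝ := Real.log (q * t / (2 * Real.pi)) with hD
  have e2 : ((D / (2 * Real.pi) * om R * (∫ x : ℝ, F x) - B3 w F R t : ℝ) : ℂ) =
      ∫ s : ℝ, (F s : ℂ) * ((D / (2 * Real.pi) * om R - P3 w R (t + s) : ℝ) : ℂ) := by
    rw [← (hBB w hw F hF R hR).2.2 t]
    have h3 : ∫ s : ℝ, F s * (D / (2 * Real.pi) * om R - P3 w R (t + s)) =
        D / (2 * Real.pi) * om R * (∫ x : ℝ, F x) - ∫ s : ℝ, F s * P3 w R (t + s) := by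
      rw [← integral_const_mul, ← integral_sub]
      · congr 1
        funext s
        ring
      · exact hF.int.const_mul _
      · apply Continuous.integrable_of_hasCompactSupport
        · have := hF.cont; fun_prop
        · exact hF.hcs.mul_right
    rw [← h3, ← integral_complex_ofReal]
    congr 1
    funext s
    push_cast
    ring
  rw [e1, e2, ← integral_sub]
  · calc ‖∫ s : ℝ, ((F s : ℂ) * ∑ ρ ∈ H370.Zf G U1 U2, (H370.mult G ρ : ℂ) * WR R (H370.zz ρ - (t + s : ℝ)) -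
          (F s : ℂ) * ((D / (2 * Real.pi) * om R - P3 w R (t + s) : ℝ) : ℂ))‖ ≤
        ∫ s : ℝ, (C + |om R| / T) * |F s| := by
          apply norm_integral_le_of_norm_le (hF.int.abs.const_mul _)
          refine Eventually.of_forall fun s => ?_
          rw [← mul_sub, norm_mul, Complex.norm_real, Real.norm_eq_abs, mul_comm]
          by_cases hs : 1 ≤ |s|
          · rw [hF.supp s hs]; simp
          · push Not at hs
            have hs' := abs_lt.1 hs
            apply mul_le_mul_of_nonneg_right _ (abs_nonneg _)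
            have h4 := hE (t + s) (by linarith) (by linarith)
            have h5 := log_shift (q := q) (t := t) (s := s) hq ht2 hs.le
            have h6 : (∑ ρ ∈ H370.Zf G U1 U2, (H370.mult G ρ : ℂ) * WR R (H370.zz ρ - (t + s : ℝ))) -
                ((D / (2 * Real.pi) * om R - P3 w R (t + s) : ℝ) : ℂ) =
              ((∑ ρ ∈ H370.Zf G U1 U2, (H370.mult G ρ : ℂ) * WR R (H370.zz ρ - (t + s : ℝ))) -
                ((Real.log (q * (t + s) / (2 * Real.pi)) / (2 * Real.pi) * om R - P3 w R (t + s) : ℝ) : ℂ)) +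
              (((Real.log (q * (t + s) / (2 * Real.pi)) - D) / (2 * Real.pi) * om R : ℝ) : ℂ) := by
              push_cast; ring
            rw [h6]
            refine (norm_add_le _ _).trans (add_le_add h4 ?_)
            rw [Complex.norm_real, Real.norm_eq_abs, abs_mul, abs_div]
            have h7 : |2 * Real.pi| = 2 * Real.pi := abs_of_nonneg (by positivity)
            rw [h7, div_mul_eq_mul_div, div_le_div_iff₀ (by positivity) hT0]
            have h8 : |Real.log (q * (t + s) / (2 * Real.pi)) - D| * T ≤ 2 := by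
              have h9 : 2 / t ≤ 2 / T := div_le_div_of_nonneg_left (by norm_num) hT0 (by linarith)
              have h10 := h5.trans h9
              rwa [le_div_iff₀ hT0] at h10
            nlinarith [abs_nonneg (om R), mul_le_mul_of_nonneg_right h8 (abs_nonneg (om R))]
      _ = (C + |om R| / T) * ∫ x : ℝ, |F x| := integral_const_mul _ _
  · apply hF.intmul
    fun_prop
  · apply hF.intmul
    fun_prop

end AML

theorem t_AM (hEF : S_EFW3) (hB : S_B3) (_hC : S_C3) : S_AM := by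
  intro G w q hG hq hFE F hF
  obtain ⟨C1, T1, hC1, hT1, hEF⟩ := hEF G w q hG hq hFE
  have hA := ME.t_L1A ME.t_KER ME.t_OM
  have hL := ME.t_L1B ME.t_KER
  have hO := ME.t_OM
  obtain ⟨C2, hC2, hA⟩ := hA
  obtain ⟨C3, hC3, hL⟩ := hL
  obtain ⟨C4, T4, hC4, hT4, hD⟩ := hG.dens
  obtain ⟨C5, hC5, hO⟩ := hO
  obtain ⟨C6, T6, hC6, hT6, hN⟩ := H370.nn_asymp hG.good
  have hc2 := hF
  have hFc := hc2.cont
  set IF := ∫ x : ℝ, F x with hIF
  set I1 := ∫ x : ℝ, |F x| with hI1
  set I2 := ∫ x : ℝ, |deriv (deriv F) x| with hI2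
  have hI10 : 0 ≤ I1 := integral_nonneg fun _ => abs_nonneg _
  have hI20 : 0 ≤ I2 := integral_nonneg fun _ => abs_nonneg _
  set cq : ℝ := |Real.log (q / (2 * Real.pi))| + 2 with hcq
  have hcq0 : 0 ≤ cq := by positivity
  refine ⟨(1 + C6) * (16 * C2) * (I1 + I2) + C3 * I2 * C4 + (C1 + (1 + C5) + 16 * C5 * cq) * I1 + 1,
    max (max T1 T4) (max T6 (Real.exp 20)),
    by positivity, le_trans hT1 ((le_max_left _ _).trans (le_max_left _ _)), fun T hT => ?_⟩
  have hTT1 : T1 ≤ T := ((le_max_left _ _).trans (le_max_left _ _)).trans hT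
  have hTT4 : T4 ≤ T := ((le_max_right _ _).trans (le_max_left _ _)).trans hT
  have hTT6 : T6 ≤ T := ((le_max_left _ _).trans (le_max_right _ _)).trans hT
  have hTe : Real.exp 20 ≤ T := ((le_max_right _ _).trans (le_max_right _ _)).trans hT
  have hT0 : 0 < T := (Real.exp_pos _).trans_le hTe
  have hL20 : 20 ≤ Real.log T := by rw [Real.le_log_iff_exp_le hT0]; exact hTe
  have hLT := ME.log_le_tenth hTe
  have hT10 : 10 ≤ T := hT1.trans hTT1
  have hpi := Real.pi_gt_three
  obtain ⟨U1, U2, hU1, hU1', hU2, hU2', hE⟩ := hEF T hTT1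
  set L := Real.log T with hLd
  have hL0 : 0 < L := by linarith
  have hab : T + 2 * L ≤ 2 * T - 2 * L := by linarith
  have hU : 1 ≤ U1 := by linarith
  have hR : 1 ≤ L / 4 := by linarith
  set Z := H370.Zf G U1 U2 with hZ
  have hKc := ME.KF_cont hc2 (L / 4)
  have hBc := (hB w hG.le1 F hc2 (L / 4) hR).2.1
  -- the statistic on the window
  have hXF : ∀ t ∈ Icc (T + 2 * L) (2 * T - 2 * L), XM G q F t =
      (∑ s ∈ Z, (H370.mult G s : ℝ) * F (s.im - t)) - Real.log (q * t / (2 * Real.pi)) / (2 * Real.pi) * IF := by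
    intro t ht
    exact AML.XM_eq hG hc2 hU (by linarith [ht.1]) (by linarith [ht.2])
  have hlogc : ContinuousOn (fun t : ℝ => Real.log (q * t / (2 * Real.pi))) (Icc (T + 2 * L) (2 * T - 2 * L)) := by
    apply ContinuousOn.log
    · fun_prop
    · intro t ht
      have : 0 < t := by linarith [ht.1]
      positivity
  have hSc : Continuous fun t : ℝ => ∑ s ∈ Z, (H370.mult G s : ℝ) * F (s.im - t) := by
    fun_prop
  have hXc : ContinuousOn (fun t : ℝ => (∑ s ∈ Z, (H370.mult G s : ℝ) * F (s.im - t)) -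
      Real.log (q * t / (2 * Real.pi)) / (2 * Real.pi) * IF) (Icc (T + 2 * L) (2 * T - 2 * L)) := by
    exact hSc.continuousOn.sub ((hlogc.div_const _).mul_const _)
  refine ⟨hab, hXc.congr hXF, ?_⟩
  -- the bound functions
  set g1 : ℝ → ℝ := fun x => ‖KF F (L / 4) x - F x‖ with hg1
  set g2 : ℂ → ℝ → ℝ := fun s x => ‖KF F (L / 4) ((x : ℂ) + ((s.re - 1 / 2 : ℝ) : ℂ) * I) +
        KF F (L / 4) ((x : ℂ) - ((s.re - 1 / 2 : ℝ) : ℂ) * I) - 2 * KF F (L / 4) x‖ with hg2
  have hg1c : Continuous g1 := by rw [hg1]; fun_prop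
  have hg2c : ∀ s, Continuous (g2 s) := by intro s; rw [hg2]; fun_prop
  set E0 : ℝ := (C1 / L ^ 2 + |om (L / 4)| / T) * I1 + cq * L / (2 * Real.pi) * (C5 / (L / 4) ^ 2) * I1 with hE0
  have hpt : ∀ t ∈ Icc (T + 2 * L) (2 * T - 2 * L), |XM G q F t + B3 w F (L / 4) t| ≤
      (∑ s ∈ Z, (H370.mult G s : ℝ) * (g1 (s.im - t) + g2 s (s.im - t))) + E0 := by
    intro t ht
    have h1 := GE.point_diff hG (F := F) (R := L / 4) (U2 := U2) (t := t) hU
    have h2 := AML.Z_eq (G := G) hG.le1 hB hc2 (q := q) (C := C1 / L ^ 2) (T := T) (U1 := U1) (U2 := U2) (t := t) hq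
      hT10 (by rw [← hLd]; linarith) hR
      (fun t h1 h2 => hE (L / 4) t hR (by linarith) h1 h2) (by rw [← hLd]; linarith [ht.1]) (by rw [← hLd]; linarith [ht.2])
    have h3 : |XM G q F t + B3 w F (L / 4) t| = ‖(((XM G q F t + B3 w F (L / 4) t : ℝ)) : ℂ)‖ := by
      rw [Complex.norm_real, Real.norm_eq_abs]
    rw [h3, hXF t ht]
    have hsize := AML.log_size (q := q) (T := T) (t := t) hq hT10 (by rw [← hLd]; linarith) (by linarith [ht.1]) (by linarith [ht.2])
    rw [← hLd, ← hcq] at hsize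
    set D : ℝ := Real.log (q * t / (2 * Real.pi)) with hD
    have h4 : (((∑ s ∈ Z, (H370.mult G s : ℝ) * F (s.im - t)) - D / (2 * Real.pi) * IF + B3 w F (L / 4) t : ℝ) : ℂ) =
        (((∑ s ∈ Z, (H370.mult G s : ℝ) * F (s.im - t) : ℝ) : ℂ) -
          ∑ s ∈ Z, (H370.mult G s : ℂ) * KF F (L / 4) (H370.zz s - t)) +
        ((∑ s ∈ Z, (H370.mult G s : ℂ) * KF F (L / 4) (H370.zz s - t)) -
          ((D / (2 * Real.pi) * om (L / 4) * IF - B3 w F (L / 4) t : ℝ) : ℂ)) +
        ((D / (2 * Real.pi) * (om (L / 4) - 1) * IF : ℝ) : ℂ) := by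
      push_cast; ring
    rw [h4]
    refine (norm_add_le _ _).trans ?_
    have h5 : ‖((D / (2 * Real.pi) * (om (L / 4) - 1) * IF : ℝ) : ℂ)‖ ≤
        cq * L / (2 * Real.pi) * (C5 / (L / 4) ^ 2) * I1 := by
      rw [Complex.norm_real, Real.norm_eq_abs, abs_mul, abs_mul, abs_div]
      have h6 : |IF| ≤ I1 := by
        rw [hIF, ← Real.norm_eq_abs]
        exact norm_integral_le_integral_norm _
      have h7 : |2 * Real.pi| = 2 * Real.pi := abs_of_nonneg (by positivity)
      rw [h7]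
      have h8 := hO (L / 4) hR
      have h9 : |D| / (2 * Real.pi) ≤ cq * L / (2 * Real.pi) := div_le_div_of_nonneg_right hsize (by positivity)
      exact mul_le_mul (mul_le_mul h9 h8 (abs_nonneg _) (by positivity)) h6 (abs_nonneg _) (by positivity)
    have h9 := norm_add_le (((∑ s ∈ Z, (H370.mult G s : ℝ) * F (s.im - t) : ℝ) : ℂ) -
          ∑ s ∈ Z, (H370.mult G s : ℂ) * KF F (L / 4) (H370.zz s - t))
        ((∑ s ∈ Z, (H370.mult G s : ℂ) * KF F (L / 4) (H370.zz s - t)) -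
          ((D / (2 * Real.pi) * om (L / 4) * IF - B3 w F (L / 4) t : ℝ) : ℂ))
    have h10 : ‖((∑ s ∈ Z, (H370.mult G s : ℝ) * F (s.im - t) : ℝ) : ℂ) -
          ∑ s ∈ Z, (H370.mult G s : ℂ) * KF F (L / 4) (H370.zz s - t)‖ ≤
        ∑ s ∈ Z, (H370.mult G s : ℝ) * (g1 (s.im - t) + g2 s (s.im - t)) := h1
    rw [hE0]
    linarith
  -- integrate
  have hint : ∫ t in (T + 2 * L)..(2 * T - 2 * L), |XM G q F t + B3 w F (L / 4) t| ≤
      ∫ t in (T + 2 * L)..(2 * T - 2 * L), ((∑ s ∈ Z, (H370.mult G s : ℝ) * (g1 (s.im - t) + g2 s (s.im - t))) +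
        E0) := by
    apply intervalIntegral.integral_mono_on hab
    · apply ContinuousOn.intervalIntegrable
      rw [uIcc_of_le hab]
      exact ((hXc.congr hXF).add hBc.continuousOn).abs
    · exact Continuous.intervalIntegrable (by fun_prop) _ _
    · exact hpt
  refine hint.trans ?_
  have hsplit : ∫ t in (T + 2 * L)..(2 * T - 2 * L), ((∑ s ∈ Z, (H370.mult G s : ℝ) * (g1 (s.im - t) + g2 s (s.im - t))) +
        E0) =
      (∑ s ∈ Z, (H370.mult G s : ℝ) * ((∫ t in (T + 2 * L)..(2 * T - 2 * L), g1 (s.im - t)) +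
        ∫ t in (T + 2 * L)..(2 * T - 2 * L), g2 s (s.im - t))) +
      (2 * T - 2 * L - (T + 2 * L)) * E0 := by
    rw [intervalIntegral.integral_add, intervalIntegral.integral_const, smul_eq_mul]
    · congr 1
      rw [intervalIntegral.integral_finsetSum]
      · refine Finset.sum_congr rfl fun s _ => ?_
        rw [intervalIntegral.integral_const_mul, intervalIntegral.integral_add]
        · exact (hg1c.comp (by fun_prop)).intervalIntegrable _ _
        · exact ((hg2c s).comp (by fun_prop)).intervalIntegrable _ _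
      · intro s _
        have := hg2c s
        exact Continuous.intervalIntegrable (by fun_prop) _ _
    · have := hg2c
      exact Continuous.intervalIntegrable (by fun_prop) _ _
    · exact intervalIntegrable_const
  rw [hsplit]
  -- the two parts
  obtain ⟨ha1, ha2⟩ := hA F hc2 (L / 4) hR
  have hb : ∀ s ∈ Z, (H370.mult G s : ℝ) * ((∫ t in (T + 2 * L)..(2 * T - 2 * L), g1 (s.im - t)) +
        ∫ t in (T + 2 * L)..(2 * T - 2 * L), g2 s (s.im - t)) ≤
      (H370.mult G s : ℝ) * (C2 / (L / 4) ^ 2 * (I1 + I2)) +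
        C3 * I2 * ((H370.mult G s : ℝ) * ((s.re - 1 / 2) ^ 2 * Real.exp (L * |s.re - 1 / 2| / 4))) := by
    intro s hs
    rw [hZ, H370.mem_Zf hG.good hU] at hs
    obtain ⟨hs1, hs2, -⟩ := hs
    have hy : |s.re - 1 / 2| ≤ 1 / 2 := by rw [abs_le]; constructor <;> linarith
    obtain ⟨hb1, hb2⟩ := hL F hc2 (L / 4) (s.re - 1 / 2) hR hy
    have h1 := ME.int_shift_le ha1.norm (fun _ => norm_nonneg _) s.im (T + 2 * L) (2 * T - 2 * L) hab
    have h2 := ME.int_shift_le hb1.norm (fun _ => norm_nonneg _) s.im (T + 2 * L) (2 * T - 2 * L) hab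
    have h3 : ∫ t in (T + 2 * L)..(2 * T - 2 * L), g1 (s.im - t) ≤ C2 / (L / 4) ^ 2 * (I1 + I2) := h1.trans ha2
    have h4 : ∫ t in (T + 2 * L)..(2 * T - 2 * L), g2 s (s.im - t) ≤
        C3 * (s.re - 1 / 2) ^ 2 * Real.exp (L / 4 * |s.re - 1 / 2|) * I2 := h2.trans hb2
    have h5 : Real.exp (L / 4 * |s.re - 1 / 2|) ≤ Real.exp (L * |s.re - 1 / 2| / 4) := by
      apply Real.exp_le_exp.2
      nlinarith [mul_nonneg (by linarith : (0:ℝ) ≤ L) (abs_nonneg (s.re - 1 / 2))]
    have h6 : C3 * (s.re - 1 / 2) ^ 2 * Real.exp (L / 4 * |s.re - 1 / 2|) * I2 ≤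
        C3 * I2 * ((s.re - 1 / 2) ^ 2 * Real.exp (L * |s.re - 1 / 2| / 4)) := by
      have : C3 * (s.re - 1 / 2) ^ 2 * Real.exp (L / 4 * |s.re - 1 / 2|) * I2 =
        C3 * I2 * ((s.re - 1 / 2) ^ 2 * Real.exp (L / 4 * |s.re - 1 / 2|)) := by ring
      rw [this]
      gcongr
    have hm : (0 : ℝ) ≤ H370.mult G s := Nat.cast_nonneg _
    calc _ ≤ (H370.mult G s : ℝ) * (C2 / (L / 4) ^ 2 * (I1 + I2) +
          C3 * I2 * ((s.re - 1 / 2) ^ 2 * Real.exp (L * |s.re - 1 / 2| / 4))) :=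
          mul_le_mul_of_nonneg_left (by linarith) hm
      _ = _ := by ring
  have hsum := Finset.sum_le_sum hb
  rw [Finset.sum_add_distrib, ← Finset.sum_mul, ← Finset.mul_sum] at hsum
  have hNN : ∑ s ∈ Z, (H370.mult G s : ℝ) ≤ (1 + C6) * T * L := by
    have h1 := hN T hTT6 U1 U2 hU1 hU1' hU2 hU2'
    have h2 : (H370.NN G U1 U2 : ℝ) = ∑ s ∈ Z, (H370.mult G s : ℝ) := by
      rw [H370.NN_eq hG.good hU]
      push_cast
      rfl
    rw [h2] at h1
    have h3 := (abs_le.1 h1).2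
    have h4 : T * L / (2 * Real.pi) ≤ T * L := by
      apply div_le_self (by positivity); linarith
    nlinarith [mul_pos hT0 (by linarith : (0:ℝ) < L), mul_le_mul_of_nonneg_left (by linarith : (1:ℝ) ≤ L) (by positivity : (0:ℝ) ≤ C6 * T)]
  have hDD := hD T hTT4 U1 U2 hU1 hU1' hU2 hU2'
  have p1 : (∑ s ∈ Z, (H370.mult G s : ℝ)) * (C2 / (L / 4) ^ 2 * (I1 + I2)) ≤
      (1 + C6) * (16 * C2) * (I1 + I2) * (T / L) := by
    calc (∑ s ∈ Z, (H370.mult G s : ℝ)) * (C2 / (L / 4) ^ 2 * (I1 + I2)) ≤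
        ((1 + C6) * T * L) * (C2 / (L / 4) ^ 2 * (I1 + I2)) := by gcongr
      _ = (1 + C6) * (16 * C2) * (I1 + I2) * (T / L) := by field_simp; ring
  have p2 : C3 * I2 * (∑ s ∈ Z, (H370.mult G s : ℝ) * ((s.re - 1 / 2) ^ 2 * Real.exp (L * |s.re - 1 / 2| / 4))) ≤
      C3 * I2 * C4 * (T / L) := by
    calc C3 * I2 * (∑ s ∈ Z, (H370.mult G s : ℝ) * ((s.re - 1 / 2) ^ 2 * Real.exp (L * |s.re - 1 / 2| / 4))) ≤
        C3 * I2 * (C4 * T / L) := mul_le_mul_of_nonneg_left hDD (by positivity)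
      _ = _ := by ring
  have hom : |om (L / 4)| ≤ 1 + C5 := by
    have h1 := hO (L / 4) hR
    have h2 : C5 / (L / 4) ^ 2 ≤ C5 := by
      apply div_le_self hC5.le
      exact one_le_pow₀ hR
    have h3 : |om (L / 4)| ≤ |om (L / 4) - 1| + |(1 : ℝ)| := by
      have := abs_add_le (om (L / 4) - 1) 1
      simpa using this
    rw [abs_one] at h3
    linarith
  have hL2T : L ≤ T := by linarith
  have p3 : (2 * T - 2 * L - (T + 2 * L)) * E0 ≤ (C1 + (1 + C5) + 16 * C5 * cq) * I1 * (T / L) := by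
    have hE00 : 0 ≤ E0 := by positivity
    have q1 : C1 / L ^ 2 ≤ C1 / L := by
      apply div_le_div_of_nonneg_left hC1.le hL0
      nlinarith
    have q2 : |om (L / 4)| / T ≤ (1 + C5) / L := by
      calc |om (L / 4)| / T ≤ (1 + C5) / T := div_le_div_of_nonneg_right hom hT0.le
        _ ≤ (1 + C5) / L := div_le_div_of_nonneg_left (by positivity) hL0 hL2T
    have q3 : cq * L / (2 * Real.pi) * (C5 / (L / 4) ^ 2) ≤ 16 * C5 * cq / L := by
      have : cq * L / (2 * Real.pi) * (C5 / (L / 4) ^ 2) = 16 * C5 * cq / (2 * Real.pi * L) := by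
        field_simp
        ring
      rw [this]
      apply div_le_div_of_nonneg_left (by positivity) hL0
      nlinarith
    have q4 : E0 ≤ (C1 + (1 + C5) + 16 * C5 * cq) * I1 / L := by
      calc E0 ≤ (C1 / L + (1 + C5) / L) * I1 + 16 * C5 * cq / L * I1 := by
            rw [hE0]; gcongr
        _ = _ := by ring
    calc (2 * T - 2 * L - (T + 2 * L)) * E0 ≤ T * E0 := mul_le_mul_of_nonneg_right (by linarith) hE00
      _ ≤ T * ((C1 + (1 + C5) + 16 * C5 * cq) * I1 / L) := mul_le_mul_of_nonneg_left q4 hT0.le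
      _ = _ := by ring
  have hTL : 0 ≤ T / L := by positivity
  calc _ ≤ (1 + C6) * (16 * C2) * (I1 + I2) * (T / L) + C3 * I2 * C4 * (T / L) +
        (C1 + (1 + C5) + 16 * C5 * cq) * I1 * (T / L) := by linarith
    _ ≤ ((1 + C6) * (16 * C2) * (I1 + I2) + C3 * I2 * C4 + (C1 + (1 + C5) + 16 * C5 * cq) * I1 + 1) * T / L := by
        have : ((1 + C6) * (16 * C2) * (I1 + I2) + C3 * I2 * C4 + (C1 + (1 + C5) + 16 * C5 * cq) * I1 + 1) * T / L =
          (1 + C6) * (16 * C2) * (I1 + I2) * (T / L) + C3 * I2 * C4 * (T / L) +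
            (C1 + (1 + C5) + 16 * C5 * cq) * I1 * (T / L) + T / L := by ring
        rw [this]
        linarith

end Pool.Agent.H203.MC

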