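import Pool.Agent.H203.MC.Defs

set_option autoImplicit false

/-! Project MC (helper203), part AS (helper34): the abstract assembly (weak convergence and
moments). -/

open Complex Filter Topology Set MeasureTheory

namespace Pool.Agent.H203.MC

namespace ASL

lemma norm_le_sum {k : ℕ} (x : Fin k → ℝ) : ‖x‖ ≤ ∑ j, |x j| := by
  rw [pi_norm_le_iff_of_nonneg (Finset.sum_nonneg fun j _ => abs_nonneg _)]
  intro i
  rw [Real.norm_eq_abs]
  exact Finset.single_le_sum (f := fun j => |x j|) (fun j _ => abs_nonneg _) (Finset.mem_univ i)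

lemma norm_pow_le {k : ℕ} (x : Fin k → ℝ) (p : ℕ) (hp : p ≠ 0) : ‖x‖ ^ p ≤ ∑ j, |x j| ^ p := by
  by_contra hcon
  push Not at hcon
  have h0 : 0 ≤ ∑ j, |x j| ^ p := Finset.sum_nonneg fun j _ => pow_nonneg (abs_nonneg _) p
  have h1 : 0 < ‖x‖ := by
    rcases (norm_nonneg x).eq_or_lt with h | h
    · rw [← h, zero_pow hp] at hcon
      exact absurd hcon (not_lt.mpr h0)
    · exact h
  have h2 : ‖x‖ < ‖x‖ := by
    rw [pi_norm_lt_iff h1]
    intro i
    rw [Real.norm_eq_abs]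
    refine lt_of_pow_lt_pow_left₀ p (norm_nonneg x) (lt_of_le_of_lt ?_ hcon)
    exact Finset.single_le_sum (f := fun j => |x j| ^ p)
      (fun j _ => pow_nonneg (abs_nonneg _) p) (Finset.mem_univ i)
  exact lt_irrefl _ h2

lemma growth {k : ℕ} (x : Fin k → ℝ) (m : ℕ) :
    (1 + ‖x‖) ^ (m + 1) ≤ 2 ^ m * (1 + ∑ j, |x j| ^ (m + 1)) := by
  have h1 := add_pow_le (zero_le_one' ℝ) (norm_nonneg x) (m + 1)
  rw [one_pow, Nat.add_sub_cancel] at h1
  refine h1.trans (mul_le_mul_of_nonneg_left ?_ (by positivity))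
  exact add_le_add le_rfl (norm_pow_le x (m + 1) (Nat.succ_ne_zero m))

lemma mean_sub_le {f g h : ℝ → ℝ} {T : ℝ} (hT : 0 < T) (hf : ContinuousOn f (Icc T (2 * T)))
    (hg : ContinuousOn g (Icc T (2 * T))) (hh : ContinuousOn h (Icc T (2 * T)))
    (hle : ∀ t ∈ Icc T (2 * T), |f t - g t| ≤ h t) :
    |1 / T * (∫ t in T..(2 * T), f t) - 1 / T * ∫ t in T..(2 * T), g t| ≤
      1 / T * ∫ t in T..(2 * T), h t := by
  have hle2 : T ≤ 2 * T := by linarith
  have u := uIcc_of_le hle2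
  have hf' : IntervalIntegrable f volume T (2 * T) := ContinuousOn.intervalIntegrable (by rwa [u])
  have hg' : IntervalIntegrable g volume T (2 * T) := ContinuousOn.intervalIntegrable (by rwa [u])
  have hh' : IntervalIntegrable h volume T (2 * T) := ContinuousOn.intervalIntegrable (by rwa [u])
  rw [← mul_sub, ← intervalIntegral.integral_sub hf' hg', abs_mul,
    abs_of_pos (by positivity : (0 : ℝ) < 1 / T)]
  refine mul_le_mul_of_nonneg_left ?_ (by positivity)
  refine (intervalIntegral.abs_integral_le_integral_abs hle2).trans ?_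
  exact intervalIntegral.integral_mono_on hle2 (hf'.sub hg').abs hh' hle

/-- the mean of `a + b ∑ h_j` over `[T, 2T]` -/
lemma mean_comb {k : ℕ} {h : Fin k → ℝ → ℝ} {T a b : ℝ} (hT : 0 < T)
    (hh : ∀ j, ContinuousOn (h j) (Icc T (2 * T))) :
    1 / T * ∫ t in T..(2 * T), (a + b * ∑ j, h j t) =
      a + b * ∑ j, 1 / T * ∫ t in T..(2 * T), h j t := by
  have hle2 : T ≤ 2 * T := by linarith
  have u := uIcc_of_le hle2
  have hh' : ∀ j, IntervalIntegrable (h j) volume T (2 * T) := fun j =>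
    ContinuousOn.intervalIntegrable (by rw [u]; exact hh j)
  have h1 : IntervalIntegrable (fun t => b * ∑ j, h j t) volume T (2 * T) := by
    refine ContinuousOn.intervalIntegrable ?_
    rw [u]
    exact continuousOn_const.mul (continuousOn_finsetSum _ fun j _ => hh j)
  rw [intervalIntegral.integral_add intervalIntegrable_const h1, intervalIntegral.integral_const,
    intervalIntegral.integral_const_mul, intervalIntegral.integral_finsetSum fun j _ => hh' j,
    smul_eq_mul, ← Finset.mul_sum]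
  field_simp
  ring

section st

variable {Ω : Type} [MeasurableSpace Ω] {P : Measure Ω} [IsProbabilityMeasure P] {k : ℕ}
  {X : Fin k → ℝ → ℝ} {Z : ℕ → Fin k → ℝ → ℝ} {W : ℕ → Fin k → Ω → ℝ} {Y : Fin k → Ω → ℝ}

lemma step1 (h1 : ∀ j, ∀ᶠ T : ℝ in atTop, ContinuousOn (X j) (Icc T (2 * T)))
    (h2 : ∀ N j, Continuous (Z N j)) (h3 : ∀ N j, Measurable (W N j))
    (h4 : ∀ N j, ∃ B : ℝ, ∀ ω, |W N j ω| ≤ B) (h5 : ∀ j, Measurable (Y j))
    (h7 : ∀ j, ∀ ε : ℝ, 0 < ε → ∃ N0 : ℕ, ∀ N : ℕ, N0 ≤ N →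
      ∀ᶠ T : ℝ in atTop, ∫ t in T..(2 * T), |X j t - Z N j t| ≤ ε * T)
    (h8 : ∀ (N : ℕ) (Φ : (Fin k → ℝ) → ℝ), Continuous Φ →
      Tendsto (fun T : ℝ => 1 / T * ∫ t in T..(2 * T), Φ (fun j => Z N j t)) atTop
        (𝓝 (∫ ω, Φ (fun j => W N j ω) ∂P)))
    (h9 : ∀ (j : Fin k) (m : ℕ), Integrable (fun ω => |Y j ω| ^ m) P)
    (h10 : ∀ j, Tendsto (fun N : ℕ => ∫ ω, (Y j ω - W N j ω) ^ 2 ∂P) atTop (𝓝 0))
    (Ψ : (Fin k → ℝ) → ℝ) (hΨ : Continuous Ψ) (B : ℝ) (hB : ∀ x, |Ψ x| ≤ B)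
    (hU : ∀ η : ℝ, 0 < η → ∃ K : ℝ, 0 ≤ K ∧ ∀ x y, |Ψ x - Ψ y| ≤ η + K * ‖x - y‖)
    (ε : ℝ) (hε : 0 < ε) :
    ∀ᶠ T : ℝ in atTop, |1 / T * (∫ t in T..(2 * T), Ψ (fun j => X j t)) -
      ∫ ω, Ψ (fun j => Y j ω) ∂P| ≤ ε := by
  obtain ⟨K, hK0, hK⟩ := hU (ε / 8) (by positivity)
  have hden : 0 < 16 * (K + 1) * (k + 1) := by positivity
  obtain ⟨δ, hδ⟩ : ∃ δ : ℝ, δ = ε / (16 * (K + 1) * (k + 1)) := ⟨_, rfl⟩
  have hδ0 : 0 < δ := by rw [hδ]; positivity
  have hKδ : K * (k * δ) ≤ ε / 16 := by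
    have e1 : δ * (16 * (K + 1) * (k + 1)) = ε := by rw [hδ]; field_simp
    have e2 : 0 ≤ (k : ℝ) := Nat.cast_nonneg k
    have e3 : 0 ≤ K * δ := by positivity
    have e4 : 0 ≤ (k : ℝ) * δ := by positivity
    nlinarith
  -- choice of `N`
  have hN : ∀ᶠ N : ℕ in atTop, ∀ j, (∀ᶠ T : ℝ in atTop,
      ∫ t in T..(2 * T), |X j t - Z N j t| ≤ δ * T) ∧
      ∫ ω, (Y j ω - W N j ω) ^ 2 ∂P ≤ δ ^ 2 := by
    rw [eventually_all]
    intro j
    obtain ⟨N0, hN0⟩ := h7 j δ hδ0
    have e1 : ∀ᶠ N : ℕ in atTop, ∫ ω, (Y j ω - W N j ω) ^ 2 ∂P ≤ δ ^ 2 :=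
      (h10 j).eventually_le_const (by positivity)
    filter_upwards [eventually_ge_atTop N0, e1] with N a1 a2
    exact ⟨hN0 N a1, a2⟩
  obtain ⟨N, hN⟩ := hN.exists
  -- the probability side
  have hprob : |(∫ ω, Ψ (fun j => W N j ω) ∂P) - ∫ ω, Ψ (fun j => Y j ω) ∂P| ≤
      ε / 8 + K * (k * (2 * δ)) := by
    have iW : Integrable (fun ω => Ψ (fun j => W N j ω)) P := by
      refine Integrable.of_bound (C := B) ?_ ?_
      · exact (hΨ.measurable.comp (measurable_pi_lambda _ fun j => h3 N j)).aestronglyMeasurable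
      · exact Eventually.of_forall fun ω => hB _
    have iY : Integrable (fun ω => Ψ (fun j => Y j ω)) P := by
      refine Integrable.of_bound (C := B) ?_ ?_
      · exact (hΨ.measurable.comp (measurable_pi_lambda _ fun j => h5 j)).aestronglyMeasurable
      · exact Eventually.of_forall fun ω => hB _
    have iD : ∀ j, Integrable (fun ω => (Y j ω - W N j ω) ^ 2) P := by
      intro j
      obtain ⟨b, hb⟩ := h4 N j
      have i1 : Integrable (fun ω => 2 * |Y j ω| ^ 2 + 2 * b ^ 2) P :=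
        ((h9 j 2).const_mul 2).add (integrable_const _)
      refine i1.mono' (((h5 j).sub (h3 N j)).pow_const 2).aestronglyMeasurable ?_
      refine Eventually.of_forall fun ω => ?_
      have hb1 := hb ω
      have hb2 : (W N j ω) ^ 2 ≤ b ^ 2 := by
        rw [← sq_abs (W N j ω)]
        exact pow_le_pow_left₀ (abs_nonneg _) hb1 2
      rw [Real.norm_eq_abs, abs_of_nonneg (sq_nonneg _), sq_abs]
      nlinarith [sq_nonneg (Y j ω + W N j ω)]
    rw [← integral_sub iW iY]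
    refine (abs_integral_le_integral_abs).trans ?_
    have i2 : Integrable (fun ω => ε / 8 + K * ∑ j, (δ + (Y j ω - W N j ω) ^ 2 / δ)) P := by
      refine (integrable_const _).add (Integrable.const_mul ?_ K)
      refine integrable_finsetSum _ fun j _ => ?_
      exact (integrable_const _).add ((iD j).div_const δ)
    refine (integral_mono (iW.sub iY).abs i2 fun ω => ?_).trans ?_
    · refine (hK _ _).trans (add_le_add le_rfl (mul_le_mul_of_nonneg_left ?_ hK0))
      refine (norm_le_sum _).trans (Finset.sum_le_sum fun j _ => ?_)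
      show |W N j ω - Y j ω| ≤ δ + (Y j ω - W N j ω) ^ 2 / δ
      rw [abs_sub_comm, ← sq_abs (Y j ω - W N j ω)]
      have e1 : δ + |Y j ω - W N j ω| ^ 2 / δ = (δ ^ 2 + |Y j ω - W N j ω| ^ 2) / δ := by
        field_simp
      rw [e1, le_div_iff₀ hδ0]
      nlinarith [sq_nonneg (|Y j ω - W N j ω| - δ), abs_nonneg (Y j ω - W N j ω)]
    · have i3 : ∀ j, Integrable (fun ω => δ + (Y j ω - W N j ω) ^ 2 / δ) P := fun j =>
        (integrable_const _).add ((iD j).div_const δ)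
      rw [integral_add (integrable_const _) (Integrable.const_mul
        (integrable_finsetSum _ fun j _ => i3 j) K), integral_const_mul,
        integral_finsetSum _ fun j _ => i3 j, integral_const]
      simp only [probReal_univ, one_smul]
      refine add_le_add le_rfl (mul_le_mul_of_nonneg_left ?_ hK0)
      have e2 : ∀ j : Fin k, ∫ ω, (δ + (Y j ω - W N j ω) ^ 2 / δ) ∂P ≤ 2 * δ := by
        intro j
        rw [integral_add (integrable_const _) ((iD j).div_const δ), integral_const,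
          integral_div]
        simp only [probReal_univ, one_smul]
        have e3 : (∫ ω, (Y j ω - W N j ω) ^ 2 ∂P) / δ ≤ δ := by
          rw [div_le_iff₀ hδ0]
          have := (hN j).2
          nlinarith
        linarith
      refine (Finset.sum_le_sum fun j _ => e2 j).trans ?_
      simp
  -- the mean side
  have hb := (h8 N Ψ hΨ)
  rw [Metric.tendsto_nhds] at hb
  have hb1 := hb (ε / 4) (by positivity)
  have hc : ∀ᶠ T : ℝ in atTop, ∀ j, ContinuousOn (X j) (Icc T (2 * T)) := eventually_all.2 h1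
  have hd : ∀ᶠ T : ℝ in atTop, ∀ j, ∫ t in T..(2 * T), |X j t - Z N j t| ≤ δ * T :=
    eventually_all.2 fun j => (hN j).1
  filter_upwards [hb1, hc, hd, eventually_gt_atTop 0] with T t1 t2 t3 t4
  rw [Real.dist_eq] at t1
  have cX : ContinuousOn (fun t => Ψ (fun j => X j t)) (Icc T (2 * T)) :=
    hΨ.comp_continuousOn (continuousOn_pi.2 t2)
  have cZ : ContinuousOn (fun t => Ψ (fun j => Z N j t)) (Icc T (2 * T)) :=
    hΨ.comp_continuousOn (continuousOn_pi.2 fun j => (h2 N j).continuousOn)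
  have cD : ∀ j, ContinuousOn (fun t => |X j t - Z N j t|) (Icc T (2 * T)) := fun j =>
    ((t2 j).sub (h2 N j).continuousOn).abs
  have a1 : |1 / T * (∫ t in T..(2 * T), Ψ (fun j => X j t)) -
      1 / T * ∫ t in T..(2 * T), Ψ (fun j => Z N j t)| ≤ ε / 8 + K * (k * δ) := by
    refine (mean_sub_le t4 cX cZ (h := fun t => ε / 8 + K * ∑ j, |X j t - Z N j t|)
      (continuousOn_const.add (continuousOn_const.mul (continuousOn_finsetSum _ fun j _ => cD j)))
      fun t _ => ?_).trans ?_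
    · refine (hK _ _).trans (add_le_add le_rfl (mul_le_mul_of_nonneg_left ?_ hK0))
      exact norm_le_sum _
    · rw [mean_comb t4 cD]
      refine add_le_add le_rfl (mul_le_mul_of_nonneg_left ?_ hK0)
      have e2 : ∀ j : Fin k, 1 / T * ∫ t in T..(2 * T), |X j t - Z N j t| ≤ δ := by
        intro j
        rw [one_div, inv_mul_le_iff₀ t4, mul_comm T δ]
        exact t3 j
      refine (Finset.sum_le_sum fun j _ => e2 j).trans ?_
      simp
  have e9 : |1 / T * (∫ t in T..(2 * T), Ψ (fun j => X j t)) - ∫ ω, Ψ (fun j => Y j ω) ∂P| ≤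
      |1 / T * (∫ t in T..(2 * T), Ψ (fun j => X j t)) -
        1 / T * ∫ t in T..(2 * T), Ψ (fun j => Z N j t)| +
      |1 / T * (∫ t in T..(2 * T), Ψ (fun j => Z N j t)) - ∫ ω, Ψ (fun j => W N j ω) ∂P| +
      |(∫ ω, Ψ (fun j => W N j ω) ∂P) - ∫ ω, Ψ (fun j => Y j ω) ∂P| := by
    have := abs_add_three (1 / T * (∫ t in T..(2 * T), Ψ (fun j => X j t)) -
        1 / T * ∫ t in T..(2 * T), Ψ (fun j => Z N j t))
      (1 / T * (∫ t in T..(2 * T), Ψ (fun j => Z N j t)) - ∫ ω, Ψ (fun j => W N j ω) ∂P)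
      ((∫ ω, Ψ (fun j => W N j ω) ∂P) - ∫ ω, Ψ (fun j => Y j ω) ∂P)
    refine le_trans (le_of_eq (congrArg _ ?_)) this
    ring
  have e10 : K * (k * (2 * δ)) = 2 * (K * (k * δ)) := by ring
  linarith

end st

end ASL

open ASL in
/-- (AS) abstract assembly -/
theorem t_AS : S_AS := by
  intro Ω _ P _ k X Z W Y h1 h2 h3 h4 h5 h6 h7 h8 h9 h10 Φ hΦ hg
  obtain ⟨C0, m, hC0⟩ := hg
  obtain ⟨C, hC⟩ : ∃ C : ℝ, C = |C0| := ⟨_, rfl⟩
  have hCn : 0 ≤ C := by rw [hC]; exact abs_nonneg _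
  have hCΦ : ∀ x, |Φ x| ≤ C * (1 + ‖x‖) ^ m := fun x => (hC0 x).trans
    (mul_le_mul_of_nonneg_right (by rw [hC]; exact le_abs_self _) (by positivity))
  choose c hc using fun j : Fin k => h6 j (m + 1)
  -- constants
  obtain ⟨D, hD⟩ : ∃ D : ℝ, D = C * 2 ^ m * (1 + ∑ j, (|c j| + ∫ ω, |Y j ω| ^ (m + 1) ∂P)) :=
    ⟨_, rfl⟩
  have hE0 : ∀ j, 0 ≤ ∫ ω, |Y j ω| ^ (m + 1) ∂P := fun j =>
    integral_nonneg fun ω => pow_nonneg (abs_nonneg _) _
  have hD0 : 0 ≤ D := by
    rw [hD]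
    have := Finset.sum_nonneg (s := Finset.univ) fun (j : Fin k) _ =>
      add_nonneg (abs_nonneg (c j)) (hE0 j)
    positivity
  rw [Metric.tendsto_nhds]
  intro ε hε
  obtain ⟨M, hM⟩ : ∃ M : ℝ, M = 8 * (D + 1) / ε := ⟨_, rfl⟩
  have hM0 : 0 < M := by rw [hM]; positivity
  have hDM : D / M ≤ ε / 8 := by
    rw [hM, div_le_iff₀ (by positivity)]
    have : ε / 8 * (8 * (D + 1) / ε) = D + 1 := by field_simp
    rw [this]
    linarith
  -- the cutoff
  let χ : (Fin k → ℝ) → ℝ := fun x => max 0 (min 1 (M + 1 - ‖x‖))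
  have hχc : Continuous χ := continuous_const.max (continuous_const.min
    (continuous_const.sub continuous_norm))
  have hχ0 : ∀ x, 0 ≤ χ x := fun x => le_max_left _ _
  have hχ1 : ∀ x, χ x ≤ 1 := fun x => max_le zero_le_one (min_le_left _ _)
  have hχa : ∀ x, ‖x‖ ≤ M → χ x = 1 := by
    intro x hx
    show max 0 (min 1 (M + 1 - ‖x‖)) = 1
    rw [min_eq_left (by linarith), max_eq_right zero_le_one]
  have hχb : ∀ x, M + 1 ≤ ‖x‖ → χ x = 0 := by
    intro x hx
    show max 0 (min 1 (M + 1 - ‖x‖)) = 0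
    exact max_eq_left ((min_le_right _ _).trans (by linarith))
  let Ψ : (Fin k → ℝ) → ℝ := fun x => Φ x * χ x
  have hΨc : Continuous Ψ := hΦ.mul hχc
  have hΨs : HasCompactSupport Ψ := by
    refine HasCompactSupport.of_support_subset_isCompact (isCompact_closedBall 0 (M + 1)) ?_
    intro x hx
    rw [Function.mem_support] at hx
    rw [mem_closedBall_zero_iff]
    by_contra hcon
    push Not at hcon
    exact hx (by show Φ x * χ x = 0; rw [hχb x hcon.le, mul_zero])
  obtain ⟨B, hB⟩ := hΨc.bounded_above_of_compact_support hΨs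
  have hB' : ∀ x, |Ψ x| ≤ B := fun x => hB x
  have hB0 : 0 ≤ B := (abs_nonneg (Ψ 0)).trans (hB' 0)
  have hUC : UniformContinuous Ψ := hΨs.uniformContinuous_of_continuous hΨc
  have hU : ∀ η : ℝ, 0 < η → ∃ K : ℝ, 0 ≤ K ∧ ∀ x y, |Ψ x - Ψ y| ≤ η + K * ‖x - y‖ := by
    intro η hη
    obtain ⟨δ, hδ0, hδ⟩ := Metric.uniformContinuous_iff.1 hUC η hη
    refine ⟨2 * B / δ, by positivity, fun x y => ?_⟩
    by_cases hxy : dist x y < δ
    · have e1 := hδ hxy
      rw [Real.dist_eq] at e1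
      have e2 : 0 ≤ 2 * B / δ * ‖x - y‖ := by positivity
      linarith
    · rw [dist_eq_norm, not_lt] at hxy
      have e1 : |Ψ x - Ψ y| ≤ 2 * B := by
        have := abs_sub (Ψ x) (Ψ y)
        have := hB' x
        have := hB' y
        linarith
      have e2 : 2 * B ≤ 2 * B / δ * ‖x - y‖ := by
        rw [div_mul_eq_mul_div, le_div_iff₀ hδ0]
        exact mul_le_mul_of_nonneg_left hxy (by positivity)
      linarith
  -- the error of the cutoff
  have herr : ∀ x, |Φ x - Ψ x| ≤ C * 2 ^ m / M + C * 2 ^ m / M * ∑ j, |x j| ^ (m + 1) := by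
    intro x
    have e0 : Φ x - Ψ x = Φ x * (1 - χ x) := by show Φ x - Φ x * χ x = _; ring
    have e1 : C * 2 ^ m / M + C * 2 ^ m / M * ∑ j, |x j| ^ (m + 1) =
        C / M * (2 ^ m * (1 + ∑ j, |x j| ^ (m + 1))) := by ring
    rw [e0, e1, abs_mul, abs_of_nonneg (sub_nonneg.2 (hχ1 x))]
    have e2 := growth x m
    by_cases hx : ‖x‖ ≤ M
    · rw [hχa x hx, sub_self, mul_zero]
      have : 0 ≤ ∑ j, |x j| ^ (m + 1) := Finset.sum_nonneg fun j _ => pow_nonneg (abs_nonneg _) _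
      positivity
    · push Not at hx
      have e3 : |Φ x| * (1 - χ x) ≤ C * (1 + ‖x‖) ^ m := by
        have a1 := hCΦ x
        have a2 := hχ0 x
        have a3 := hχ1 x
        have a4 := abs_nonneg (Φ x)
        nlinarith
      refine e3.trans ?_
      have e4 : C * (1 + ‖x‖) ^ m ≤ C / M * (1 + ‖x‖) ^ (m + 1) := by
        have a1 : C / M * (1 + ‖x‖) ^ (m + 1) = C * (1 + ‖x‖) ^ m * ((1 + ‖x‖) / M) := by
          rw [pow_succ]; ring
        rw [a1]
        refine le_mul_of_one_le_right (by positivity) ?_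
        rw [one_le_div hM0]
        linarith
      exact e4.trans (mul_le_mul_of_nonneg_left e2 (by positivity))
  have hCM : 0 ≤ C * 2 ^ m / M := by positivity
  -- the probability side
  have iYm : ∀ j, Integrable (fun ω => |Y j ω| ^ (m + 1)) P := fun j => h9 j (m + 1)
  have mY : Measurable fun ω => (fun j => Y j ω) := measurable_pi_lambda _ fun j => h5 j
  have iΨ : Integrable (fun ω => Ψ (fun j => Y j ω)) P := by
    refine Integrable.of_bound (C := B) ?_ ?_
    · exact (hΨc.measurable.comp mY).aestronglyMeasurable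
    · exact Eventually.of_forall fun ω => hB _
  have ie : Integrable (fun ω => C * 2 ^ m / M + C * 2 ^ m / M * ∑ j, |Y j ω| ^ (m + 1)) P :=
    (integrable_const _).add (Integrable.const_mul (integrable_finsetSum _ fun j _ => iYm j) _)
  have iΦ : Integrable (fun ω => Φ (fun j => Y j ω)) P := by
    have i1 : Integrable (fun ω => Φ (fun j => Y j ω) - Ψ (fun j => Y j ω)) P := by
      refine ie.mono' ?_ (Eventually.of_forall fun ω => herr _)
      exact ((hΦ.sub hΨc).measurable.comp mY).aestronglyMeasurable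
    have i2 := i1.add iΨ
    refine i2.congr (Eventually.of_forall fun ω => ?_)
    simp
  have hP : |(∫ ω, Φ (fun j => Y j ω) ∂P) - ∫ ω, Ψ (fun j => Y j ω) ∂P| ≤ D / M := by
    rw [← integral_sub iΦ iΨ]
    refine (abs_integral_le_integral_abs).trans ?_
    refine (integral_mono (iΦ.sub iΨ).abs ie fun ω => herr _).trans ?_
    rw [integral_add (integrable_const _) (Integrable.const_mul
      (integrable_finsetSum _ fun j _ => iYm j) _), integral_const_mul,
      integral_finsetSum _ fun j _ => iYm j, integral_const]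
    simp only [probReal_univ, one_smul]
    have e1 : D / M = C * 2 ^ m / M + C * 2 ^ m / M * ∑ j, (|c j| + ∫ ω, |Y j ω| ^ (m + 1) ∂P) := by
      rw [hD]; ring
    rw [e1]
    refine add_le_add le_rfl (mul_le_mul_of_nonneg_left (Finset.sum_le_sum fun j _ => ?_) hCM)
    have := abs_nonneg (c j)
    linarith
  -- the mean side
  have hs1 := step1 h1 h2 h3 h4 h5 h7 h8 h9 h10 Ψ hΨc B hB' hU (ε / 8) (by positivity)
  have hcon : ∀ᶠ T : ℝ in atTop, ∀ j, ContinuousOn (X j) (Icc T (2 * T)) := eventually_all.2 h1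
  have hmom : ∀ᶠ T : ℝ in atTop, ∀ j, ∫ t in T..(2 * T), |X j t| ^ (m + 1) ≤ c j * T :=
    eventually_all.2 hc
  filter_upwards [hs1, hcon, hmom, eventually_gt_atTop 0] with T t1 t2 t3 t4
  rw [Real.dist_eq]
  have cΦ : ContinuousOn (fun t => Φ (fun j => X j t)) (Icc T (2 * T)) :=
    hΦ.comp_continuousOn (continuousOn_pi.2 t2)
  have cΨ : ContinuousOn (fun t => Ψ (fun j => X j t)) (Icc T (2 * T)) :=
    hΨc.comp_continuousOn (continuousOn_pi.2 t2)
  have cX : ∀ j, ContinuousOn (fun t => |X j t| ^ (m + 1)) (Icc T (2 * T)) := fun j =>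
    ((t2 j).abs).pow _
  have a1 : |1 / T * (∫ t in T..(2 * T), Φ (fun j => X j t)) -
      1 / T * ∫ t in T..(2 * T), Ψ (fun j => X j t)| ≤ D / M := by
    refine (mean_sub_le t4 cΦ cΨ (h := fun t => C * 2 ^ m / M + C * 2 ^ m / M *
      ∑ j, |X j t| ^ (m + 1))
      (continuousOn_const.add (continuousOn_const.mul (continuousOn_finsetSum _ fun j _ => cX j)))
      fun t _ => herr _).trans ?_
    rw [mean_comb t4 cX]
    have e1 : D / M = C * 2 ^ m / M + C * 2 ^ m / M * ∑ j, (|c j| + ∫ ω, |Y j ω| ^ (m + 1) ∂P) := by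
      rw [hD]; ring
    rw [e1]
    refine add_le_add le_rfl (mul_le_mul_of_nonneg_left (Finset.sum_le_sum fun j _ => ?_) hCM)
    have e2 : 1 / T * ∫ t in T..(2 * T), |X j t| ^ (m + 1) ≤ c j := by
      rw [one_div, inv_mul_le_iff₀ t4, mul_comm T (c j)]
      exact t3 j
    have := le_abs_self (c j)
    have := hE0 j
    linarith
  have e9 : |1 / T * (∫ t in T..(2 * T), Φ (fun j => X j t)) - ∫ ω, Φ (fun j => Y j ω) ∂P| ≤
      |1 / T * (∫ t in T..(2 * T), Φ (fun j => X j t)) -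
        1 / T * ∫ t in T..(2 * T), Ψ (fun j => X j t)| +
      |1 / T * (∫ t in T..(2 * T), Ψ (fun j => X j t)) - ∫ ω, Ψ (fun j => Y j ω) ∂P| +
      |(∫ ω, Ψ (fun j => Y j ω) ∂P) - ∫ ω, Φ (fun j => Y j ω) ∂P| := by
    have := abs_add_three (1 / T * (∫ t in T..(2 * T), Φ (fun j => X j t)) -
        1 / T * ∫ t in T..(2 * T), Ψ (fun j => X j t))
      (1 / T * (∫ t in T..(2 * T), Ψ (fun j => X j t)) - ∫ ω, Ψ (fun j => Y j ω) ∂P)
      ((∫ ω, Ψ (fun j => Y j ω) ∂P) - ∫ ω, Φ (fun j => Y j ω) ∂P)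
    refine le_trans (le_of_eq (congrArg _ ?_)) this
    ring
  rw [abs_sub_comm (∫ ω, Ψ (fun j => Y j ω) ∂P)] at e9
  linarith

end Pool.Agent.H203.MC
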