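import Pool.Agent.H203.MC.Defs

set_option autoImplicit false

/-! Leaf B3 (helper399): the prime side with coefficients and the symmetric weights (copy of GE/BBI.lean). -/

open Complex Filter Topology Set MeasureTheory

namespace Pool.Agent.H203.MC

open Pool.Agent.H203.ME (ee gR WR om FF KF C2c)
open Pool.Agent.H203.GE (Lf ZG XG)

namespace B3L

lemma gR_abs {R u : ℝ} (hR : 1 ≤ R) (hu : -R ≤ u) (huR : u ≤ R) : |gR R u| ≤ 1 := by
  have h := Pool.Agent.H203.ME.BBIL.gR_abs hR (abs_nonneg u) (abs_le.2 ⟨hu, huR⟩)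
  have h1 : gR R |u| = gR R u := by
    unfold gR
    rw [div_pow, div_pow, sq_abs]
  rwa [h1] at h

lemma c3_abs {R : ℝ} (hR : 1 ≤ R) (x : ℝ) :
    |c3 R x| ≤ (2 * R) * Real.exp (R ^ 2 / 2 + 9) * Real.exp (-(3 * x)) := by
  unfold c3
  have h := intervalIntegral.norm_integral_le_of_norm_le_const (a := -R) (b := R)
    (f := fun u => gR R u * Real.exp (-(u - x) ^ 2 / 2))
    (C := Real.exp (R ^ 2 / 2 + 9) * Real.exp (-(3 * x))) (by
      intro u hu
      rw [uIoc_of_le (by linarith)] at hu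
      obtain ⟨hu0, huR⟩ := hu
      rw [Real.norm_eq_abs, abs_mul, abs_of_pos (Real.exp_pos _)]
      have h1 := gR_abs hR hu0.le huR
      have h2 : Real.exp (-(u - x) ^ 2 / 2) ≤ Real.exp (R ^ 2 / 2 + 9) * Real.exp (-(3 * x)) := by
        rw [← Real.exp_add]
        apply Real.exp_le_exp.mpr
        have hu2 : u ^ 2 ≤ R ^ 2 := by nlinarith
        nlinarith [sq_nonneg (x / 2 - 3), sq_nonneg (x / 2 - u)]
      calc |gR R u| * Real.exp (-(u - x) ^ 2 / 2) ≤ 1 * Real.exp (-(u - x) ^ 2 / 2) := by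
            apply mul_le_mul_of_nonneg_right h1 (Real.exp_pos _).le
        _ ≤ _ := by rw [one_mul]; exact h2)
  rw [Real.norm_eq_abs] at h
  refine h.trans (le_of_eq ?_)
  rw [sub_neg_eq_add, abs_of_nonneg (by linarith : (0:ℝ) ≤ R + R)]
  ring

lemma coef_abs {R : ℝ} (hR : 1 ≤ R) (n : ℕ) :
    |ArithmeticFunction.vonMangoldt n / Real.sqrt n * c3 R (Real.log n)| ≤
      (2 * R) * Real.exp (R ^ 2 / 2 + 9) * (1 / (n : ℝ) ^ 2) := by
  rcases Nat.eq_zero_or_pos n with hn | hn
  · subst hn
    simp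
  have hn1 : (1 : ℝ) ≤ n := by exact_mod_cast hn
  have hn0 : (0 : ℝ) < n := by linarith
  have h1 : ArithmeticFunction.vonMangoldt n ≤ (n : ℝ) :=
    ArithmeticFunction.vonMangoldt_le_log.trans (by
      have := Real.log_le_sub_one_of_pos hn0
      linarith)
  have h2 : 0 ≤ ArithmeticFunction.vonMangoldt n := ArithmeticFunction.vonMangoldt_nonneg
  have h3 : 1 ≤ Real.sqrt n := by
    rw [Real.one_le_sqrt]; exact hn1
  have h4 : |ArithmeticFunction.vonMangoldt n / Real.sqrt n| ≤ n := by
    rw [abs_of_nonneg (by positivity)]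
    calc ArithmeticFunction.vonMangoldt n / Real.sqrt n ≤ ArithmeticFunction.vonMangoldt n :=
          div_le_self h2 h3
      _ ≤ n := h1
  rw [abs_mul]
  have h5 := c3_abs hR (Real.log n)
  have h6 : Real.exp (-(3 * Real.log n)) = 1 / (n : ℝ) ^ 3 := by
    rw [Real.exp_neg, show 3 * Real.log n = Real.log ((n : ℝ) ^ 3) by rw [Real.log_pow]; norm_num,
      Real.exp_log (by positivity)]
    rw [one_div]
  rw [h6] at h5
  calc |ArithmeticFunction.vonMangoldt n / Real.sqrt n| * |c3 R (Real.log n)|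
      ≤ n * ((2 * R) * Real.exp (R ^ 2 / 2 + 9) * (1 / (n : ℝ) ^ 3)) :=
        mul_le_mul h4 h5 (abs_nonneg _) hn0.le
    _ = (2 * R) * Real.exp (R ^ 2 / 2 + 9) * (1 / (n : ℝ) ^ 2) := by
        field_simp

lemma coef_summable {R : ℝ} (hR : 1 ≤ R) :
    Summable (fun n : ℕ => |ArithmeticFunction.vonMangoldt n / Real.sqrt n * c3 R (Real.log n)|) := by
  refine Summable.of_nonneg_of_le (fun n => abs_nonneg _) (fun n => coef_abs hR n) ?_
  apply Summable.mul_left
  exact Real.summable_one_div_nat_pow.mpr (by norm_num)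

lemma cf_norm {w : ℕ → ℂ} (hw : ∀ n, ‖w n‖ ≤ 1) (c : ℝ) (n : ℕ) (t : ℝ) :
    ‖(c : ℂ) * (w n * ee n t)‖ ≤ |c| := by
  rw [norm_mul, norm_mul, Pool.Agent.H203.ME.BBIL.norm_ee, mul_one, Complex.norm_real, Real.norm_eq_abs]
  exact mul_le_of_le_one_right (abs_nonneg _) (hw n)

lemma inter {w : ℕ → ℂ} (hw : ∀ n, ‖w n‖ ≤ 1) {F : ℝ → ℝ} (hF : C2c F) {R : ℝ} (hR : 1 ≤ R) (t : ℝ) :
    ∫ s : ℝ, F s * P3 w R (t + s) = B3 w F R t := by
  set c : ℕ → ℝ := fun n => ArithmeticFunction.vonMangoldt n / Real.sqrt n * c3 R (Real.log n) with hc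
  have hcs : Summable (fun n => |c n|) := coef_summable hR
  have hFc : Continuous F := hF.cd.continuous
  have hFk : HasCompactSupport F := Pool.Agent.H203.ME.BBIL.hcs hF
  have hFi : Integrable F := hFc.integrable_of_hasCompactSupport hFk
  -- the series
  set S : ℝ → ℂ := fun s => ∑' n : ℕ, (c n : ℂ) * (w n * ee n (t + s)) with hS
  have hce : ∀ n, Continuous (fun s : ℝ => w n * ee n (t + s)) := fun n =>
    continuous_const.mul (Pool.Agent.H203.ME.BBIL.cont_ee n t)
  have hScont : Continuous S := by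
    apply continuous_tsum (u := fun n => |c n|)
    · intro n
      exact continuous_const.mul (hce n)
    · exact hcs
    · intro n s
      exact cf_norm hw _ n _
  have hfc : Continuous (fun s : ℝ => (F s : ℂ) * S s) :=
    (Complex.continuous_ofReal.comp hFc).mul hScont
  have hfk : HasCompactSupport (fun s : ℝ => (F s : ℂ) * S s) := by
    apply HasCompactSupport.mul_right
    exact hFk.comp_left (g := fun x : ℝ => (x : ℂ)) (by simp)
  have hfi : Integrable (fun s : ℝ => (F s : ℂ) * S s) := hfc.integrable_of_hasCompactSupport hfk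
  -- interchange
  set G : ℕ → ℝ → ℂ := fun n s => (F s : ℂ) * ((c n : ℂ) * (w n * ee n (t + s))) with hG
  have hGc : ∀ n, Continuous (G n) := fun n =>
    (Complex.continuous_ofReal.comp hFc).mul (continuous_const.mul (hce n))
  have hGi : ∀ n, Integrable (G n) := by
    intro n
    apply (hGc n).integrable_of_hasCompactSupport
    apply HasCompactSupport.mul_right
    exact hFk.comp_left (g := fun x : ℝ => (x : ℂ)) (by simp)
  have hGn : ∀ n s, ‖G n s‖ ≤ |c n| * |F s| := by
    intro n s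
    rw [hG]
    simp only
    rw [norm_mul, Complex.norm_real, Real.norm_eq_abs, mul_comm]
    exact mul_le_mul_of_nonneg_right (cf_norm hw _ n _) (abs_nonneg _)
  have hGs : Summable (fun n => ∫ s, ‖G n s‖) := by
    refine Summable.of_nonneg_of_le (fun n => integral_nonneg fun _ => norm_nonneg _) (fun n => ?_)
      (hcs.mul_right (∫ s, |F s|))
    rw [← integral_const_mul]
    exact integral_mono (hGi n).norm (hFi.abs.const_mul _) (hGn n)
  have hsum := hasSum_integral_of_summable_integral_norm hGi hGs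
  have hGS : ∀ s, ∑' n, G n s = (F s : ℂ) * S s := by
    intro s
    rw [hG, hS]
    simp only
    rw [tsum_mul_left]
  simp_rw [hGS] at hsum
  have hGint : ∀ n, ∫ s, G n s = (c n : ℂ) * FF F (Real.log n) * (w n * ee n t) := by
    intro n
    unfold FF
    rw [show (c n : ℂ) * (∫ s : ℝ, (F s : ℂ) * cexp (-(((Real.log n * s : ℝ) : ℂ) * I))) * (w n * ee n t) =
      ((c n : ℂ) * (w n * ee n t)) * ∫ s : ℝ, (F s : ℂ) * cexp (-(((Real.log n * s : ℝ) : ℂ) * I)) by ring]
    rw [← integral_const_mul]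
    congr 1
    funext s
    rw [hG]
    simp only
    rw [Pool.Agent.H203.ME.BBIL.ee_add]
    ring
  simp_rw [hGint] at hsum
  -- conclusion
  unfold B3
  rw [hsum.tsum_eq]
  have hre : (∫ s : ℝ, (F s : ℂ) * S s).re = ∫ s : ℝ, ((F s : ℂ) * S s).re :=
    (integral_re hfi).symm
  rw [hre, ← integral_const_mul]
  congr 1
  funext s
  unfold P3
  rw [Complex.re_ofReal_mul]
  simp only [hS, hc]
  ring

end B3L

open B3L in
theorem t_B3 (h : S_C3) : S_B3 := by
  intro w hw F hF R hR
  refine ⟨?_, ?_, fun t => B3L.inter hw hF hR t⟩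
  · unfold P3
    refine continuous_const.mul (Complex.continuous_re.comp ?_)
    refine continuous_tsum (u := fun n : ℕ =>
      |ArithmeticFunction.vonMangoldt n / Real.sqrt n * c3 R (Real.log n)|) (fun n => ?_)
      (coef_summable hR) ?_
    · unfold ee; fun_prop
    · intro n t
      exact B3L.cf_norm hw _ n _
  · unfold B3
    refine continuous_const.mul (Complex.continuous_re.comp ?_)
    refine continuous_tsum (u := fun n : ℕ =>
      |ArithmeticFunction.vonMangoldt n / Real.sqrt n * c3 R (Real.log n)| * ∫ x : ℝ, |F x|) (fun n => ?_)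
      ((coef_summable hR).mul_right _) ?_
    · unfold ee; fun_prop
    · intro n t
      rw [mul_right_comm, norm_mul]
      exact mul_le_mul (B3L.cf_norm hw _ n _) (Pool.Agent.H203.ME.FF_norm_le F _) (norm_nonneg _) (abs_nonneg _)

end Pool.Agent.H203.MC
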