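import Pool.Agent.H203.MC.Defs

set_option autoImplicit false

/-! The size of the weights `c3`. -/

open Complex Filter Topology Set MeasureTheory

namespace Pool.Agent.H203.MC

open Pool.Agent.H203.ME (ee gR WR om FF KF C2c)

namespace C3L

/-- the Gaussian centred at `x` -/
noncomputable def gx (x u : ℝ) : ℝ := Real.exp (-(u - x) ^ 2 / 2)

lemma gx_pos (x u : ℝ) : 0 < gx x u := Real.exp_pos _

lemma gx_cont (x : ℝ) : Continuous (gx x) := by
  unfold gx; fun_prop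

lemma gx_eq (x : ℝ) : gx x = fun u => (fun v : ℝ => Real.exp (-(1 / 2) * v ^ 2)) (u - x) := by
  funext u
  simp only [gx]
  ring_nf

lemma gx_int (x : ℝ) : Integrable (gx x) := by
  rw [gx_eq]
  exact (integrable_exp_neg_mul_sq (by norm_num : (0 : ℝ) < 1 / 2)).comp_sub_right x

lemma gx_val (x : ℝ) : ∫ u : ℝ, gx x u = Real.sqrt (2 * Real.pi) := by
  rw [gx_eq, integral_sub_right_eq_self (fun v : ℝ => Real.exp (-(1 / 2) * v ^ 2)) x,
    integral_gaussian]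
  congr 1
  ring

/-- the second moment -/
noncomputable def m2 : ℝ := ∫ v : ℝ, v ^ 2 * Real.exp (-(1 / 2) * v ^ 2)

lemma m2_int : Integrable (fun v : ℝ => v ^ 2 * Real.exp (-(1 / 2) * v ^ 2)) := by
  have h := integrable_rpow_mul_exp_neg_mul_sq (by norm_num : (0 : ℝ) < 1 / 2)
    (by norm_num : (-1 : ℝ) < 2)
  simpa only [Real.rpow_two] using h

lemma m2_nonneg : 0 ≤ m2 := integral_nonneg fun v => by positivity

lemma mx_eq (x : ℝ) : (fun u => (u - x) ^ 2 * gx x u) =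
    fun u => (fun v : ℝ => v ^ 2 * Real.exp (-(1 / 2) * v ^ 2)) (u - x) := by
  funext u
  rw [gx_eq]

lemma mx_int (x : ℝ) : Integrable (fun u => (u - x) ^ 2 * gx x u) := by
  rw [mx_eq]
  exact m2_int.comp_sub_right x

lemma mx_val (x : ℝ) : ∫ u : ℝ, (u - x) ^ 2 * gx x u = m2 := by
  rw [mx_eq, integral_sub_right_eq_self (fun v : ℝ => v ^ 2 * Real.exp (-(1 / 2) * v ^ 2)) x]
  rfl

lemma c3_eq (R x : ℝ) : c3 R x = 1 / (2 * Real.pi) * ∫ u in (-R)..R, (1 - (u / R) ^ 2) ^ 5 * gx x u := by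
  rw [c3, ← intervalIntegral.integral_const_mul]
  apply intervalIntegral.integral_congr
  intro u hu
  simp only [gR, gx]
  ring

lemma s_mem {R u : ℝ} (hR : 1 ≤ R) (hu : u ∈ Icc (-R) R) : (u / R) ^ 2 ≤ 1 := by
  have hR0 : 0 < R := by linarith
  rw [div_pow, div_le_one (by positivity)]
  exact sq_le_sq' hu.1 hu.2

lemma pow_le {s : ℝ} (h0 : 0 ≤ s) (h1 : s ≤ 1) : 0 ≤ (1 - s) ^ 5 ∧ (1 - s) ^ 5 ≤ 1 ∧
    1 - (1 - s) ^ 5 ≤ 5 * s := by
  refine ⟨pow_nonneg (by linarith) 5, pow_le_one₀ (by linarith) (by linarith), ?_⟩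
  have h := one_add_mul_le_pow (show (-2 : ℝ) ≤ -s by linarith) 5
  have h2 : (1 + -s) ^ 5 = (1 - s) ^ 5 := by ring
  rw [h2] at h
  push_cast at h
  linarith

lemma w_cont (R x : ℝ) : Continuous (fun u => (1 - (u / R) ^ 2) ^ 5 * gx x u) := by
  unfold gx; fun_prop

/-- the truncated integrand -/
noncomputable def hx (R x : ℝ) : ℝ → ℝ :=
  (Ioc (-R) R).indicator (fun u => (1 - (u / R) ^ 2) ^ 5 * gx x u)

lemma hx_int (R x : ℝ) : Integrable (hx R x) := by
  have h : IntegrableOn (fun u => (1 - (u / R) ^ 2) ^ 5 * gx x u) (Ioc (-R) R) :=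
    (w_cont R x).integrableOn_Ioc
  exact h.integrable_indicator measurableSet_Ioc

lemma hx_val {R : ℝ} (hR : 1 ≤ R) (x : ℝ) :
    ∫ u : ℝ, hx R x u = ∫ u in (-R)..R, (1 - (u / R) ^ 2) ^ 5 * gx x u := by
  rw [hx, integral_indicator measurableSet_Ioc, intervalIntegral.integral_of_le (by linarith)]

lemma hx_le {R : ℝ} (hR : 1 ≤ R) (x u : ℝ) : hx R x u ≤ gx x u := by
  unfold hx
  by_cases hu : u ∈ Ioc (-R) R
  · rw [indicator_of_mem hu]
    have h := pow_le (sq_nonneg (u / R)) (s_mem hR ⟨hu.1.le, hu.2⟩)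
    have hg := gx_pos x u
    nlinarith [h.2.1]
  · rw [indicator_of_notMem hu]
    exact (gx_pos x u).le

lemma hx_nonneg {R : ℝ} (hR : 1 ≤ R) (x u : ℝ) : 0 ≤ hx R x u := by
  unfold hx
  apply indicator_nonneg
  intro u hu
  exact mul_nonneg (pow_le (sq_nonneg (u / R)) (s_mem hR ⟨hu.1.le, hu.2⟩)).1 (gx_pos x u).le

lemma hx_sub {R : ℝ} (hR : 1 ≤ R) (x u : ℝ) :
    gx x u - hx R x u ≤ 10 / R ^ 2 * ((u - x) ^ 2 * gx x u + x ^ 2 * gx x u) := by
  have hR0 : 0 < R := by linarith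
  have hg := gx_pos x u
  have h1 : gx x u - hx R x u ≤ 5 * (u / R) ^ 2 * gx x u := by
    unfold hx
    by_cases hu : u ∈ Ioc (-R) R
    · rw [indicator_of_mem hu]
      have h := pow_le (sq_nonneg (u / R)) (s_mem hR ⟨hu.1.le, hu.2⟩)
      nlinarith [h.2.2]
    · rw [indicator_of_notMem hu, sub_zero]
      have h2 : 1 ≤ (u / R) ^ 2 := by
        rw [div_pow, one_le_div (by positivity)]
        rw [mem_Ioc, not_and_or, not_lt, not_le] at hu
        rcases hu with hu | hu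
        · nlinarith
        · nlinarith
      nlinarith
  have h2 : u ^ 2 ≤ 2 * (u - x) ^ 2 + 2 * x ^ 2 := by nlinarith [sq_nonneg (u - 2 * x)]
  calc gx x u - hx R x u ≤ 5 * (u / R) ^ 2 * gx x u := h1
    _ = 5 / R ^ 2 * (u ^ 2 * gx x u) := by rw [div_pow]; ring
    _ ≤ 5 / R ^ 2 * ((2 * (u - x) ^ 2 + 2 * x ^ 2) * gx x u) := by gcongr
    _ = _ := by ring

lemma c3_le {R : ℝ} (hR : 1 ≤ R) (x : ℝ) :
    (∫ u in (-R)..R, (1 - (u / R) ^ 2) ^ 5 * gx x u) ≤ Real.sqrt (2 * Real.pi) := by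
  rw [← hx_val hR, ← gx_val x]
  exact integral_mono (hx_int R x) (gx_int x) (hx_le hR x)

lemma c3_nonneg {R : ℝ} (hR : 1 ≤ R) (x : ℝ) :
    0 ≤ ∫ u in (-R)..R, (1 - (u / R) ^ 2) ^ 5 * gx x u := by
  rw [← hx_val hR]
  exact integral_nonneg (hx_nonneg hR x)

lemma c3_ge {R : ℝ} (hR : 1 ≤ R) (x : ℝ) :
    Real.sqrt (2 * Real.pi) - (∫ u in (-R)..R, (1 - (u / R) ^ 2) ^ 5 * gx x u) ≤
      10 / R ^ 2 * (m2 + x ^ 2 * Real.sqrt (2 * Real.pi)) := by
  rw [← hx_val hR]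
  have h1 : Real.sqrt (2 * Real.pi) - (∫ u : ℝ, hx R x u) = ∫ u : ℝ, (gx x u - hx R x u) := by
    rw [integral_sub (gx_int x) (hx_int R x), gx_val]
  have h2 : ∫ u : ℝ, 10 / R ^ 2 * ((u - x) ^ 2 * gx x u + x ^ 2 * gx x u) =
      10 / R ^ 2 * (m2 + x ^ 2 * Real.sqrt (2 * Real.pi)) := by
    rw [integral_const_mul, integral_add (mx_int x) ((gx_int x).const_mul _), mx_val,
      integral_const_mul, gx_val]
  rw [h1, ← h2]
  exact integral_mono ((gx_int x).sub (hx_int R x))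
    (((mx_int x).add ((gx_int x).const_mul _)).const_mul _) (hx_sub hR x)

lemma c3_far {R x : ℝ} (hR : 1 ≤ R) (hx2 : 2 * R ≤ x) :
    (∫ u in (-R)..R, (1 - (u / R) ^ 2) ^ 5 * gx x u) ≤ 2 * R * Real.exp (-x ^ 2 / 8) := by
  have hR0 : 0 < R := by linarith
  have h1 : (∫ u in (-R)..R, (1 - (u / R) ^ 2) ^ 5 * gx x u) ≤
      ∫ u in (-R)..R, Real.exp (-x ^ 2 / 8) := by
    apply intervalIntegral.integral_mono_on (by linarith) ((w_cont R x).intervalIntegrable _ _)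
      (continuous_const.intervalIntegrable _ _)
    intro u hu
    have h := pow_le (sq_nonneg (u / R)) (s_mem hR hu)
    have h3 : gx x u ≤ Real.exp (-x ^ 2 / 8) := by
      unfold gx
      apply Real.exp_le_exp.2
      have h4 : x / 2 ≤ x - u := by linarith [hu.2]
      have h5 : (x / 2) ^ 2 ≤ (x - u) ^ 2 := pow_le_pow_left₀ (by linarith) h4 2
      nlinarith
    calc (1 - (u / R) ^ 2) ^ 5 * gx x u ≤ 1 * gx x u :=
          mul_le_mul_of_nonneg_right h.2.1 (gx_pos x u).le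
      _ ≤ Real.exp (-x ^ 2 / 8) := by rw [one_mul]; exact h3
  refine h1.trans (le_of_eq ?_)
  rw [intervalIntegral.integral_const, smul_eq_mul]
  ring

end C3L

open C3L in
theorem t_C3 : S_C3 := by
  have hp := Real.pi_pos
  have hp3 := Real.pi_gt_three
  have hs0 : 0 < Real.sqrt (2 * Real.pi) := Real.sqrt_pos.2 (by positivity)
  have hs1 : 1 ≤ Real.sqrt (2 * Real.pi) := by
    rw [Real.one_le_sqrt]; linarith
  have hm := m2_nonneg
  refine ⟨10 * (m2 + Real.sqrt (2 * Real.pi)) + 1, by positivity, ?_⟩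
  intro R x hR hx0
  have hR0 : 0 < R := by linarith
  set J : ℝ := ∫ u in (-R)..R, (1 - (u / R) ^ 2) ^ 5 * gx x u with hJ
  have hc : c3 R x = 1 / (2 * Real.pi) * J := c3_eq R x
  have h1 : 0 ≤ J := c3_nonneg hR x
  have h2 : J ≤ Real.sqrt (2 * Real.pi) := c3_le hR x
  have h3 := c3_ge hR x
  rw [← hJ] at h3
  have e1 : 2 / Real.sqrt (2 * Real.pi) * c3 R x = 1 / Real.pi * (J / Real.sqrt (2 * Real.pi)) := by
    rw [hc]; field_simp
  have e2 : 1 / Real.pi - 2 / Real.sqrt (2 * Real.pi) * c3 R x =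
      1 / (Real.pi * Real.sqrt (2 * Real.pi)) * (Real.sqrt (2 * Real.pi) - J) := by
    rw [e1]; field_simp
  have h4 : 2 / Real.sqrt (2 * Real.pi) * c3 R x ≤ 1 / Real.pi := by
    have : 0 ≤ 1 / Real.pi - 2 / Real.sqrt (2 * Real.pi) * c3 R x := by
      rw [e2]
      exact mul_nonneg (by positivity) (by linarith)
    linarith
  refine ⟨by rw [hc]; positivity, h4, ?_, ?_⟩
  · rw [abs_of_nonpos (by linarith), neg_sub, e2]
    have h5 : 1 / (Real.pi * Real.sqrt (2 * Real.pi)) ≤ 1 := by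
      rw [div_le_one (by positivity)]
      nlinarith
    have h6 : 0 ≤ Real.sqrt (2 * Real.pi) - J := by linarith
    calc 1 / (Real.pi * Real.sqrt (2 * Real.pi)) * (Real.sqrt (2 * Real.pi) - J)
        ≤ 1 * (Real.sqrt (2 * Real.pi) - J) := mul_le_mul_of_nonneg_right h5 h6
      _ ≤ 10 / R ^ 2 * (m2 + x ^ 2 * Real.sqrt (2 * Real.pi)) := by rw [one_mul]; exact h3
      _ ≤ 10 / R ^ 2 * ((m2 + Real.sqrt (2 * Real.pi)) * (1 + x ^ 2)) := by
          apply mul_le_mul_of_nonneg_left _ (by positivity)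
          have h7 : 0 ≤ x ^ 2 * m2 := by positivity
          nlinarith
      _ = (10 * (m2 + Real.sqrt (2 * Real.pi))) * (1 + x ^ 2) / R ^ 2 := by ring
      _ ≤ (10 * (m2 + Real.sqrt (2 * Real.pi)) + 1) * (1 + x ^ 2) / R ^ 2 := by
          gcongr
          linarith
  · intro hx2
    have h8 := c3_far hR hx2
    rw [← hJ] at h8
    have he : 0 < Real.exp (-x ^ 2 / 8) := Real.exp_pos _
    have h9 : 1 / (2 * Real.pi) ≤ 1 / 2 := by
      apply one_div_le_one_div_of_le (by norm_num)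
      linarith
    calc c3 R x = 1 / (2 * Real.pi) * J := hc
      _ ≤ 1 / 2 * J := mul_le_mul_of_nonneg_right h9 h1
      _ ≤ 1 / 2 * (2 * R * Real.exp (-x ^ 2 / 8)) := by linarith
      _ = 1 * R * Real.exp (-x ^ 2 / 8) := by ring
      _ ≤ (10 * (m2 + Real.sqrt (2 * Real.pi)) + 1) * R * Real.exp (-x ^ 2 / 8) := by
          gcongr
          linarith

end Pool.Agent.H203.MC
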