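import Pool.Agent.H203.MC.Defs
import Pool.Graph.R_seed8.H345R2.A2.EFa

set_option autoImplicit false
set_option maxHeartbeats 4000000

/-! Project MC, part EF3: the exact explicit formula with Gaussian weight. -/

open Complex Filter Topology Set MeasureTheory
open scoped BigOperators ComplexConjugate

namespace Pool.Agent.H203.MC

namespace EF3L

open H370

/-- the reflected prime side as an integral -/
lemma PQ_integral (a : ℕ → ℂ) (ha : ∀ n, ‖a n‖ ≤ ArithmeticFunction.vonMangoldt n) (u t : ℝ) :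
    (∫ v : ℝ, (starRingEnd ℂ) (DD a (⟨3 / 2, v⟩ : ℂ)) * hh u t (⟨-1 / 2, v⟩ : ℂ)) =
      Real.sqrt (2 * Real.pi) * PQ a u t := by
  set f : ℕ → ℝ → ℂ := fun n v => (starRingEnd ℂ) (a n * (n : ℂ) ^ (-(⟨3 / 2, v⟩ : ℂ))) *
    hh u t (⟨-1 / 2, v⟩ : ℂ) with hf
  have hcl := hh_cont_line u t (-1 / 2)
  have hnb : ∀ n v, ‖f n v‖ ≤ (ArithmeticFunction.vonMangoldt n * (n : ℝ) ^ (-(3 / 2 : ℝ))) *
      (Real.exp (u * (-1 / 2 - 1 / 2)) * Real.exp (1 / 2) * Real.exp (-(1 / 2) * (v - t) ^ 2)) := by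
    intro n v
    simp only [hf]
    rw [norm_mul, norm_hh, RCLike.norm_conj]
    apply mul_le_mul (norm_npow n v (a n) (ha n)) (le_of_eq _) (by positivity)
      (mul_nonneg ArithmeticFunction.vonMangoldt_nonneg (by positivity))
    rw [mul_assoc, ← Real.exp_add (1 / 2)]
    congr 2; ring
  have hcont : ∀ n, Continuous (f n) := by
    intro n
    rcases Nat.eq_zero_or_pos n with h | h
    · have h0 : a n = 0 := by
        have h0 : ‖a n‖ ≤ 0 := by simpa [h] using ha n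
        exact norm_le_zero_iff.1 h0
      simp only [hf, h0, zero_mul, map_zero]
      exact continuous_const
    · simp only [hf]
      have : (fun v : ℝ => a n * (n : ℂ) ^ (-(⟨3 / 2, v⟩ : ℂ))) =
          fun v : ℝ => a n * cexp (-((Real.log n : ℝ) : ℂ) * ((3 / 2 : ℝ) + v * I)) := by
        funext v
        rw [term_eq n h, mk_eq]
      refine Continuous.mul (Complex.continuous_conj.comp ?_) hcl
      rw [this]
      fun_prop
  have hG : Integrable (fun v : ℝ => Real.exp (u * (-1 / 2 - 1 / 2)) * Real.exp (1 / 2) *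
      Real.exp (-(1 / 2) * (v - t) ^ 2)) := (gauss_int t (1 / 2) (by norm_num)).const_mul _
  have hint : ∀ n, Integrable (f n) := fun n =>
    (hG.const_mul (ArithmeticFunction.vonMangoldt n * (n : ℝ) ^ (-(3 / 2 : ℝ)))).mono'
      (hcont n).aestronglyMeasurable (Eventually.of_forall (hnb n))
  have hsum : Summable fun n => ∫ v, ‖f n v‖ := by
    refine Summable.of_nonneg_of_le (fun n => integral_nonneg fun v => norm_nonneg _) (fun n => ?_)
      (lam_summable.mul_right (∫ v : ℝ, Real.exp (u * (-1 / 2 - 1 / 2)) * Real.exp (1 / 2) *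
      Real.exp (-(1 / 2) * (v - t) ^ 2)))
    rw [← integral_const_mul]
    exact integral_mono (hint n).norm (hG.const_mul _) (fun v => hnb n v)
  have key := hasSum_integral_of_summable_integral_norm hint hsum
  have e1 : (fun v : ℝ => (starRingEnd ℂ) (DD a (⟨3 / 2, v⟩ : ℂ)) * hh u t (⟨-1 / 2, v⟩ : ℂ)) =
      fun v => ∑' n, f n v := by
    funext v
    simp only [hf, DD]
    rw [tsum_mul_right, Complex.conj_tsum]
  rw [e1, ← key.tsum_eq]
  unfold PQ
  rw [← tsum_mul_left]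
  congr 1
  funext n
  rcases Nat.eq_zero_or_pos n with h | h
  · have h0 : a n = 0 := by
      have h0 : ‖a n‖ ≤ 0 := by simpa [h] using ha n
      exact norm_le_zero_iff.1 h0
    simp [hf, h0]
  · have hn0 : (n : ℝ) ≠ 0 := by exact_mod_cast h.ne'
    have hn1 : (0 : ℝ) < n := by exact_mod_cast h
    have e2 : ∀ v : ℝ, f n v = ((starRingEnd ℂ) (a n) * ((n : ℝ)⁻¹ : ℝ)) * (hh u t (⟨-1 / 2, v⟩ : ℂ) *
        cexp (-(((-Real.log n : ℝ)) : ℂ) * (⟨-1 / 2, v⟩ : ℂ))) := by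
      intro v
      simp only [hf]
      rw [term_eq n h, map_mul, ← Complex.exp_conj]
      have e3 : (starRingEnd ℂ) (-((Real.log n : ℝ) : ℂ) * (⟨3 / 2, v⟩ : ℂ)) =
          -((Real.log n : ℝ) : ℂ) + -(((-Real.log n : ℝ)) : ℂ) * (⟨-1 / 2, v⟩ : ℂ) := by
        rw [mk_eq, mk_eq]
        simp only [map_mul, map_neg, map_add, Complex.conj_ofReal, Complex.conj_I]
        push_cast
        ring
      have e4 : cexp (-((Real.log n : ℝ) : ℂ)) = ((n : ℝ)⁻¹ : ℝ) := by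
        rw [← Complex.ofReal_neg, ← Complex.ofReal_exp, Real.exp_neg, Real.exp_log hn1]
      rw [e3, Complex.exp_add, e4]
      ring
    simp_rw [e2]
    rw [integral_const_mul, gauss_line]
    have e3 : Real.exp (-(-Real.log n) / 2) = Real.sqrt n := by
      rw [Real.sqrt_eq_rpow, Real.rpow_def_of_pos hn1]
      congr 1; ring
    have e5 : (((n : ℝ)⁻¹ : ℝ) : ℂ) * (Real.sqrt n : ℂ) = (Real.sqrt n : ℂ)⁻¹ := by
      have h1 : Real.sqrt n ≠ 0 := (Real.sqrt_pos.2 hn1).ne'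
      have h2 : (n : ℝ)⁻¹ * Real.sqrt n = (Real.sqrt n)⁻¹ := by
        have h3 := Real.mul_self_sqrt hn1.le
        rw [inv_mul_eq_iff_eq_mul₀ hn0]
        nth_rewrite 2 [← h3]
        field_simp
      rw [← Complex.ofReal_mul, h2, Complex.ofReal_inv]
    rw [e3]
    calc _ = ((((n : ℝ)⁻¹ : ℝ) : ℂ) * (Real.sqrt n : ℂ)) * (Real.sqrt (2 * Real.pi) *
          ((starRingEnd ℂ) (a n) * (cexp (I * t * (u - ((-Real.log n : ℝ) : ℂ))) *
            Real.exp (-(u - -Real.log n) ^ 2 / 2)))) := by ring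
      _ = _ := by
        rw [e5, sub_neg_eq_add]
        push_cast
        rw [sub_neg_eq_add]
        ring

/-- integral bound with a wider Gaussian -/
lemma int_bound4 {f : ℝ → ℂ} {K t U1 U2 : ℝ} (hU : U1 ≤ U2)
    (hK : 0 ≤ K) (hb : ∀ v ∈ Ioc U1 U2, ‖f v‖ ≤ K * Real.exp (-(1 / 4) * (v - t) ^ 2)) :
    ‖∫ v in U1..U2, f v‖ ≤ K * 4 := by
  have hg2 : Integrable (fun v : ℝ => K * Real.exp (-(1 / 4) * (v - t) ^ 2)) :=
    (gauss_int t (1 / 4) (by norm_num)).const_mul K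
  calc ‖∫ v in U1..U2, f v‖ ≤ ∫ v in U1..U2, K * Real.exp (-(1 / 4) * (v - t) ^ 2) := by
        apply intervalIntegral.norm_integral_le_of_norm_le hU
        · exact Eventually.of_forall fun v hv => hb v hv
        · exact hg2.intervalIntegrable
    _ = ∫ v in Ioc U1 U2, K * Real.exp (-(1 / 4) * (v - t) ^ 2) := by
        rw [intervalIntegral.integral_of_le hU]
    _ ≤ ∫ v : ℝ, K * Real.exp (-(1 / 4) * (v - t) ^ 2) := by
        apply setIntegral_le_integral hg2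
        exact Eventually.of_forall fun v => by positivity
    _ = K * Real.sqrt (Real.pi / (1 / 4)) := by
        rw [integral_const_mul, gauss_val]
    _ ≤ K * 4 := by
        apply mul_le_mul_of_nonneg_left _ hK
        rw [show (4 : ℝ) = Real.sqrt 16 by
          rw [show (16 : ℝ) = 4 ^ 2 by norm_num]; simp]
        apply Real.sqrt_le_sqrt
        have := Real.pi_le_four
        linarith

lemma abs_exp_le (x : ℝ) : |x| * Real.exp (-x ^ 2 / 2) ≤ Real.exp (-(1 / 4) * x ^ 2) := by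
  have h1 : |x| ≤ Real.exp (x ^ 2 / 4) := by
    have h2 := Real.add_one_le_exp (x ^ 2 / 4)
    have h3 : |x| ≤ x ^ 2 / 4 + 1 := by
      have h4 := sq_nonneg (|x| / 2 - 1)
      have h5 := sq_abs x
      nlinarith
    linarith
  calc |x| * Real.exp (-x ^ 2 / 2) ≤ Real.exp (x ^ 2 / 4) * Real.exp (-x ^ 2 / 2) :=
        mul_le_mul_of_nonneg_right h1 (Real.exp_pos _).le
    _ = _ := by
        rw [← Real.exp_add]
        congr 1
        ring

/-- the logarithm is Lipschitz -/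
lemma log_lip {T x y : ℝ} (hT : 0 < T) (hx : T ≤ x) (hy : T ≤ y) :
    |Real.log x - Real.log y| ≤ |x - y| / T := by
  have key : ∀ x y : ℝ, T ≤ x → T ≤ y → Real.log x - Real.log y ≤ |x - y| / T := by
    intro x y hx hy
    have hx0 : 0 < x := by linarith
    have hy0 : 0 < y := by linarith
    rw [← Real.log_div hx0.ne' hy0.ne']
    have h1 := Real.log_le_sub_one_of_pos (div_pos hx0 hy0)
    refine h1.trans ?_
    have h2 : x / y - 1 = (x - y) / y := by field_simp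
    rw [h2]
    calc (x - y) / y ≤ |x - y| / y := by gcongr; exact le_abs_self _
      _ ≤ |x - y| / T := by gcongr
  rw [abs_le]
  constructor
  · have := key y x hy hx
    rw [abs_sub_comm] at this
    linarith
  · exact key x y hx hy

end EF3L

open H370 H370.SI H370.AS EF3L

set_option maxHeartbeats 8000000 in
theorem t_EF3 : S_EF3 := by
  intro F q a hF hq hFE ha hld
  obtain ⟨C1, hC1, hgh⟩ := good_height hF
  obtain ⟨C2', hleft'⟩ := hFE
  set C2 := max C2' 0 with hC2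
  have hC20 : 0 ≤ C2 := le_max_right _ _
  have hleft : ∀ s : ℂ, -1 / 2 ≤ s.re → s.re ≤ 1 / 2 → 1 ≤ s.im → F s ≠ 0 →
    ‖deriv F s / F s + (Real.log (q * s.im / (2 * Real.pi)) : ℝ) +
      (starRingEnd ℂ) (deriv F (1 - (starRingEnd ℂ) s) / F (1 - (starRingEnd ℂ) s))‖ ≤ C2 / s.im :=
    fun s h1 h2 h3 h4 => (hleft' s h1 h2 h3 h4).trans
      (div_le_div_of_nonneg_right (le_max_left _ _) (by linarith))
  have hD0 := D0_nonneg
  obtain ⟨cq, hcq⟩ : ∃ cq : ℝ, cq = |Real.log (q / (2 * Real.pi))| := ⟨_, rfl⟩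
  have hcq0 : 0 ≤ cq := by rw [hcq]; exact abs_nonneg _
  refine ⟨20 * C1 + 16 * D0 + 8 * (cq + 2) + 8 + 8 * C2 + 1, Real.exp 20, by positivity, ?_, ?_⟩
  · have := Real.add_one_le_exp (20 : ℝ)
    linarith
  intro T hT
  have hTpos : 0 < T := (Real.exp_pos _).trans_le hT
  set L := Real.log T with hL
  have hL20 : 20 ≤ L := by
    rw [hL, Real.le_log_iff_exp_le hTpos]; exact hT
  have hT21 : 21 ≤ T := by
    have := Real.add_one_le_exp (20 : ℝ)
    linarith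
  obtain ⟨U1, hU1, hg1⟩ := hgh T (by linarith)
  obtain ⟨U2, hU2, hg2⟩ := hgh (2 * T - 1) (by linarith)
  have hU2' : U2 ≤ 2 * T := by linarith [hU2.2]
  refine ⟨U1, U2, hU1.1, hU1.2, hU2.1, hU2', ?_⟩
  intro u t hu huL ht1 ht2
  have hU12 : U1 < U2 := by linarith [hU1.2, hU2.1]
  have hW1 : U1 ≤ t - (L - 1) := by linarith [hU1.2]
  have hW2 : t + (L - 1) ≤ U2 := by linarith [hU2.1]
  have hW0 : 0 ≤ L - 1 := by linarith
  -- residue theorem
  have hK : ∀ s ∈ Set.Icc (-1 / 2 : ℝ) (3 / 2) ×ℂ Set.Icc U1 U2, 1 ≤ s.im ∧ U1 ≤ s.im ∧ s.im ≤ U2 ∧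
      -1 / 2 ≤ s.re ∧ s.re ≤ 3 / 2 := by
    intro s hs
    obtain ⟨h1, h2⟩ := hs
    rw [mem_preimage] at h1 h2
    exact ⟨by linarith [h2.1, hU1.1], h2.1, h2.2, h1.1, h1.2⟩
  have hzero : ∀ s ∈ Set.Icc (-1 / 2 : ℝ) (3 / 2) ×ℂ Set.Icc U1 U2, F s = 0 →
      0 < s.re ∧ s.re < 1 ∧ U1 < s.im ∧ s.im < U2 := by
    intro s hs h0
    obtain ⟨h1, h2, h3, h4, h5⟩ := hK s hs
    refine ⟨?_, ?_, ?_, ?_⟩
    · by_contra hc
      exact hF.nzl s (not_lt.1 hc) h1 h0
    · by_contra hc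
      exact hF.nzr s (not_lt.1 hc) h1 h0
    · refine lt_of_le_of_ne h2 (fun he => ?_)
      have := (hg1 s.re ⟨h4, h5⟩).1
      rw [he] at this
      exact this h0
    · refine lt_of_le_of_ne h3 (fun he => ?_)
      have := (hg2 s.re ⟨h4, h5⟩).1
      rw [← he] at this
      exact this h0
  have hres := (rect_residue F (hh u t) (-1 / 2) (3 / 2) U1 U2 (by norm_num) hU12
    (fun s hs => hF.an s (by linarith [(hK s hs).1])) (hh_diff u t)
    (fun s hs h0 => by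
      obtain ⟨h1, h2, h3, h4⟩ := hzero s hs h0
      exact ⟨⟨by linarith, by linarith⟩, ⟨h3, h4⟩⟩)).2
  have hset : {s | s ∈ Set.Ioo (-1 / 2 : ℝ) (3 / 2) ×ℂ Set.Ioo U1 U2 ∧ F s = 0} = zset F U1 U2 := by
    ext s
    constructor
    · rintro ⟨h1, h2⟩
      obtain ⟨h3, h4, h5, h6⟩ := hzero s ⟨Ioo_subset_Icc_self h1.1, Ioo_subset_Icc_self h1.2⟩ h2
      exact ⟨h3, h4, h5, h6.le, h2⟩
    · rintro ⟨h3, h4, h5, h6, h7⟩
      obtain ⟨k1, k2, k3, k4⟩ := hzero s ⟨⟨by linarith, by linarith⟩, ⟨h5.le, h6⟩⟩ h7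
      exact ⟨⟨⟨by linarith, by linarith⟩, ⟨k3, k4⟩⟩, h7⟩
  rw [hset] at hres
  have hAA : AA F U1 U2 u t = ∑ᶠ s ∈ zset F U1 U2, (mult F s : ℂ) * hh u t s := rfl
  rw [← hAA] at hres
  set HB := ∫ x in (-1 / 2 : ℝ)..(3 / 2), deriv F (⟨x, U1⟩ : ℂ) / F ⟨x, U1⟩ * hh u t ⟨x, U1⟩ with hHB
  set HT := ∫ x in (-1 / 2 : ℝ)..(3 / 2), deriv F (⟨x, U2⟩ : ℂ) / F ⟨x, U2⟩ * hh u t ⟨x, U2⟩ with hHT
  set R := ∫ y in U1..U2, deriv F (⟨3 / 2, y⟩ : ℂ) / F ⟨3 / 2, y⟩ * hh u t ⟨3 / 2, y⟩ with hR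
  set Lf := ∫ y in U1..U2, deriv F (⟨-1 / 2, y⟩ : ℂ) / F ⟨-1 / 2, y⟩ * hh u t ⟨-1 / 2, y⟩ with hLf
  -- the small quantity
  have hδ : 0 < Real.exp (-(L - 1) ^ 2 / 4) := Real.exp_pos _
  have hTi : Real.exp (-L) = 1 / T := by
    rw [Real.exp_neg, hL, Real.exp_log hTpos, one_div]
  have hsm : Real.exp u * (L ^ 2 * Real.exp (-(L - 1) ^ 2 / 4)) ≤ 1 / T := by
    have h1 := small_aux hL20 (by linarith : (0 : ℝ) ≤ L) le_rfl
    rw [hTi] at h1
    refine le_trans ?_ h1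
    apply mul_le_mul_of_nonneg_right (Real.exp_le_exp.2 huL) (by positivity)
  have hTT : (0 : ℝ) ≤ 1 / T := by positivity
  have heu1 : (1 : ℝ) ≤ Real.exp u := Real.one_le_exp hu
  have hemu : Real.exp (-u) ≤ 1 := by
    rw [← Real.exp_zero]
    exact Real.exp_le_exp.2 (by linarith)
  have hsm2 : L ^ 2 * Real.exp (-(L - 1) ^ 2 / 4) ≤ 1 / T :=
    le_trans (le_mul_of_one_le_left (by positivity) heu1) hsm
  have hsm3 : Real.exp (-(L - 1) ^ 2 / 4) ≤ 1 / T := by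
    refine le_trans ?_ hsm2
    exact le_mul_of_one_le_left hδ.le (by nlinarith)
  have hhor : ∀ (U : ℝ) (x : ℝ), (L - 1) ^ 2 ≤ (U - t) ^ 2 → x ∈ Set.Icc (-1 / 2 : ℝ) (3 / 2) →
      ‖hh u t (⟨x, U⟩ : ℂ)‖ ≤ Real.exp u * (2 * Real.exp (-(L - 1) ^ 2 / 4)) := by
    intro U x hU hx
    rw [norm_hh]
    have h1 : Real.exp (u * (x - 1 / 2)) ≤ Real.exp u := by
      apply Real.exp_le_exp.2
      nlinarith [hx.2]
    have h2 : Real.exp (((x - 1 / 2) ^ 2 - (U - t) ^ 2) / 2) ≤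
        Real.exp (1 / 2) * Real.exp (-(L - 1) ^ 2 / 4) := by
      rw [← Real.exp_add]
      apply Real.exp_le_exp.2
      have : (x - 1 / 2) ^ 2 ≤ 1 := by
        have h3 := hx.1
        have h4 := hx.2
        nlinarith
      nlinarith
    have h3 : Real.exp (1 / 2) * Real.exp (-(L - 1) ^ 2 / 4) ≤ 2 * Real.exp (-(L - 1) ^ 2 / 4) :=
      mul_le_mul_of_nonneg_right exp_half_le hδ.le
    exact mul_le_mul h1 (h2.trans h3) (Real.exp_pos _).le (Real.exp_pos _).le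
  have hHBb : ‖HB‖ ≤ 4 * C1 * (1 / T) := by
    have : ‖HB‖ ≤ (C1 * L ^ 2 * (Real.exp u * (2 * Real.exp (-(L - 1) ^ 2 / 4)))) *
        |(3 / 2 : ℝ) - (-1 / 2)| := by
      apply intervalIntegral.norm_integral_le_of_norm_le_const
      intro x hx
      rw [uIoc_of_le (by norm_num)] at hx
      have hx' : x ∈ Set.Icc (-1 / 2 : ℝ) (3 / 2) := ⟨hx.1.le, hx.2⟩
      rw [norm_mul]
      apply mul_le_mul (hg1 x hx').2 _ (norm_nonneg _) (by positivity)
      apply hhor U1 x _ hx'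
      nlinarith
    rw [show |(3 / 2 : ℝ) - (-1 / 2)| = 2 by norm_num] at this
    calc ‖HB‖ ≤ _ := this
      _ = 4 * C1 * (Real.exp u * (L ^ 2 * Real.exp (-(L - 1) ^ 2 / 4))) := by ring
      _ ≤ 4 * C1 * (1 / T) := by
          apply mul_le_mul_of_nonneg_left hsm (by positivity)
  have hlog2 : Real.log (2 * T - 1) ≤ 2 * L := by
    have : Real.log (2 * T - 1) ≤ Real.log (T ^ 2) := by
      apply Real.log_le_log (by linarith)
      nlinarith
    rw [Real.log_pow] at this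
    exact_mod_cast this
  have hlog20 : 0 ≤ Real.log (2 * T - 1) := Real.log_nonneg (by linarith)
  have hHTb : ‖HT‖ ≤ 16 * C1 * (1 / T) := by
    have : ‖HT‖ ≤ (C1 * (2 * L) ^ 2 * (Real.exp u * (2 * Real.exp (-(L - 1) ^ 2 / 4)))) *
        |(3 / 2 : ℝ) - (-1 / 2)| := by
      apply intervalIntegral.norm_integral_le_of_norm_le_const
      intro x hx
      rw [uIoc_of_le (by norm_num)] at hx
      have hx' : x ∈ Set.Icc (-1 / 2 : ℝ) (3 / 2) := ⟨hx.1.le, hx.2⟩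
      rw [norm_mul]
      apply mul_le_mul _ _ (norm_nonneg _) (by positivity)
      · refine (hg2 x hx').2.trans ?_
        apply mul_le_mul_of_nonneg_left _ hC1.le
        exact pow_le_pow_left₀ hlog20 hlog2 2
      apply hhor U2 x _ hx'
      nlinarith
    rw [show |(3 / 2 : ℝ) - (-1 / 2)| = 2 by norm_num] at this
    calc ‖HT‖ ≤ _ := this
      _ = 16 * C1 * (Real.exp u * (L ^ 2 * Real.exp (-(L - 1) ^ 2 / 4))) := by ring
      _ ≤ 16 * C1 * (1 / T) := by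
          apply mul_le_mul_of_nonneg_left hsm (by positivity)
  -- right side
  have hRD : ∀ y ∈ Icc U1 U2, deriv F (⟨3 / 2, y⟩ : ℂ) / F ⟨3 / 2, y⟩ = - DD a (⟨3 / 2, y⟩ : ℂ) := by
    intro y hy
    exact hld _ (by norm_num) (by show (1 : ℝ) ≤ y; linarith [hy.1, hU1.1])
  have hReq : R = - ∫ y in U1..U2, DD a (⟨3 / 2, y⟩ : ℂ) * hh u t ⟨3 / 2, y⟩ := by
    rw [hR, ← intervalIntegral.integral_neg]
    apply intervalIntegral.integral_congr
    intro y hy
    rw [uIcc_of_le hU12.le] at hy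
    simp only
    rw [hRD y hy]; ring
  have heR : ‖(∫ v : ℝ, DD a (⟨3 / 2, v⟩ : ℂ) * hh u t (⟨3 / 2, v⟩ : ℂ)) -
      ∫ y in U1..U2, DD a (⟨3 / 2, y⟩ : ℂ) * hh u t ⟨3 / 2, y⟩‖ ≤ 8 * D0 * (1 / T) := by
    have hb : ∀ v : ℝ, ‖DD a (⟨3 / 2, v⟩ : ℂ) * hh u t (⟨3 / 2, v⟩ : ℂ)‖ ≤
        (D0 * (Real.exp u * 2)) * Real.exp (-(v - t) ^ 2 / 2) := by
      intro v
      rw [norm_mul, norm_hh, mul_assoc]
      apply mul_le_mul (norm_DD a ha v) _ (by positivity) hD0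
      have e1 : u * (3 / 2 - 1 / 2 : ℝ) = u := by ring
      have e2 : ((3 / 2 - 1 / 2 : ℝ) ^ 2 - (v - t) ^ 2) / 2 = 1 / 2 + -(v - t) ^ 2 / 2 := by ring
      rw [e1, e2, Real.exp_add, mul_assoc]
      apply mul_le_mul_of_nonneg_left _ (Real.exp_pos _).le
      exact mul_le_mul_of_nonneg_right exp_half_le (Real.exp_pos _).le
    have := tail_bound (((DD_cont a ha).mul (hh_cont_line u t (3 / 2))).aestronglyMeasurable)
      (by positivity) hb hW0 hW1 hW2
    refine this.trans ?_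
    have h1 : 1 ≤ L ^ 2 := by nlinarith
    calc D0 * (Real.exp u * 2) * (4 * Real.exp (-(L - 1) ^ 2 / 4))
        = 8 * D0 * (Real.exp u * (1 * Real.exp (-(L - 1) ^ 2 / 4))) := by ring
      _ ≤ 8 * D0 * (Real.exp u * (L ^ 2 * Real.exp (-(L - 1) ^ 2 / 4))) := by gcongr
      _ ≤ 8 * D0 * (1 / T) := mul_le_mul_of_nonneg_left hsm (by positivity)
  rw [PP_integral a ha u t] at heR
  -- left side
  have hnorml : ∀ v : ℝ, ‖hh u t (⟨-1 / 2, v⟩ : ℂ)‖ ≤ 2 * Real.exp (-(v - t) ^ 2 / 2) := by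
    intro v
    rw [norm_hh]
    have e1 : u * (-1 / 2 - 1 / 2 : ℝ) = -u := by ring
    have e2 : ((-1 / 2 - 1 / 2 : ℝ) ^ 2 - (v - t) ^ 2) / 2 = 1 / 2 + -(v - t) ^ 2 / 2 := by ring
    rw [e1, e2, Real.exp_add]
    calc Real.exp (-u) * (Real.exp (1 / 2) * Real.exp (-(v - t) ^ 2 / 2))
        ≤ 1 * (2 * Real.exp (-(v - t) ^ 2 / 2)) := by
          apply mul_le_mul hemu _ (by positivity) zero_le_one
          exact mul_le_mul_of_nonneg_right exp_half_le (Real.exp_pos _).le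
      _ = _ := one_mul _
  have hGl : (∫ v : ℝ, hh u t (⟨-1 / 2, v⟩ : ℂ)) =
      Real.sqrt (2 * Real.pi) * (cexp (I * u * t) * Real.exp (-u ^ 2 / 2)) := by
    have h := gauss_line (-1 / 2) u t 0
    simp only [ofReal_zero, neg_zero, zero_mul, Complex.exp_zero, mul_one, zero_div, Real.exp_zero,
      sub_zero, ofReal_one] at h
    rw [h, mul_assoc]
    congr 3; ring
  have heG : ‖(∫ v : ℝ, hh u t (⟨-1 / 2, v⟩ : ℂ)) - ∫ y in U1..U2, hh u t (⟨-1 / 2, y⟩ : ℂ)‖ ≤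
      2 * (4 * Real.exp (-(L - 1) ^ 2 / 4)) :=
    tail_bound (hh_cont_line u t (-1 / 2)).aestronglyMeasurable (by positivity) hnorml hW0 hW1 hW2
  have ht0 : 0 < t := by linarith
  have htT : T ≤ t := by linarith
  set M := Real.log (q * t / (2 * Real.pi)) with hM
  have hMb : |M| ≤ (cq + 2) * L ^ 2 := by
    have h1 : M = Real.log (q / (2 * Real.pi)) + Real.log t := by
      rw [hM, ← Real.log_mul (by positivity) ht0.ne']
      congr 1; ring
    have h2 : Real.log t ≤ 2 * L := by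
      have : Real.log t ≤ Real.log (T ^ 2) := by
        apply Real.log_le_log ht0
        nlinarith
      rw [Real.log_pow] at this
      exact_mod_cast this
    have h3 : 0 ≤ Real.log t := Real.log_nonneg (by linarith)
    have h4 : L ≤ L ^ 2 := by nlinarith
    have h5 : cq ≤ cq * L ^ 2 := le_mul_of_one_le_right hcq0 (by nlinarith)
    calc |M| ≤ cq + |Real.log t| := by
          rw [h1, hcq]
          exact abs_add_le _ _
      _ ≤ cq + 2 * L := by rw [abs_of_nonneg h3]; linarith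
      _ ≤ _ := by nlinarith
  have hLe : ‖(M : ℂ) * ((∫ v : ℝ, hh u t (⟨-1 / 2, v⟩ : ℂ)) -
      ∫ y in U1..U2, hh u t (⟨-1 / 2, y⟩ : ℂ))‖ ≤ 8 * (cq + 2) * (1 / T) := by
    rw [norm_mul, Complex.norm_real, Real.norm_eq_abs]
    calc |M| * ‖_‖ ≤ ((cq + 2) * L ^ 2) * (2 * (4 * Real.exp (-(L - 1) ^ 2 / 4))) :=
          mul_le_mul hMb heG (norm_nonneg _) (by positivity)
      _ = 8 * (cq + 2) * (L ^ 2 * Real.exp (-(L - 1) ^ 2 / 4)) := by ring
      _ ≤ 8 * (cq + 2) * (1 / T) := mul_le_mul_of_nonneg_left hsm2 (by positivity)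
  -- the reflected prime side
  have hcl := hh_cont_line u t (-1 / 2)
  have hcD : Continuous (fun v : ℝ => (starRingEnd ℂ) (DD a (⟨3 / 2, v⟩ : ℂ))) :=
    Complex.continuous_conj.comp (DD_cont a ha)
  have heQ : ‖(∫ v : ℝ, (starRingEnd ℂ) (DD a (⟨3 / 2, v⟩ : ℂ)) * hh u t (⟨-1 / 2, v⟩ : ℂ)) -
      ∫ y in U1..U2, (starRingEnd ℂ) (DD a (⟨3 / 2, y⟩ : ℂ)) * hh u t ⟨-1 / 2, y⟩‖ ≤
        8 * D0 * (1 / T) := by
    have hb : ∀ v : ℝ, ‖(starRingEnd ℂ) (DD a (⟨3 / 2, v⟩ : ℂ)) * hh u t (⟨-1 / 2, v⟩ : ℂ)‖ ≤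
        (D0 * 2) * Real.exp (-(v - t) ^ 2 / 2) := by
      intro v
      rw [norm_mul, RCLike.norm_conj, mul_assoc]
      exact mul_le_mul (norm_DD a ha v) (hnorml v) (norm_nonneg _) hD0
    have := tail_bound ((hcD.mul hcl).aestronglyMeasurable)
      (by positivity) hb hW0 hW1 hW2
    refine this.trans ?_
    calc D0 * 2 * (4 * Real.exp (-(L - 1) ^ 2 / 4))
        = 8 * D0 * (Real.exp (-(L - 1) ^ 2 / 4)) := by ring
      _ ≤ 8 * D0 * (1 / T) := mul_le_mul_of_nonneg_left hsm3 (by positivity)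
  rw [PQ_integral a ha u t] at heQ
  have hFl : ∀ y ∈ Icc U1 U2, F (⟨-1 / 2, y⟩ : ℂ) ≠ 0 := by
    intro y hy
    exact hF.nzl _ (by norm_num) (by show (1 : ℝ) ≤ y; linarith [hy.1, hU1.1])
  have hcontl : ContinuousOn (fun y : ℝ => deriv F (⟨-1 / 2, y⟩ : ℂ) / F ⟨-1 / 2, y⟩) (Icc U1 U2) := by
    intro y hy
    have han := hF.an (⟨-1 / 2, y⟩ : ℂ) (by show (0 : ℝ) < y; linarith [hy.1, hU1.1])
    have h1 : ContinuousAt (fun z => deriv F z / F z) (⟨-1 / 2, y⟩ : ℂ) :=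
      han.deriv.continuousAt.div han.continuousAt (hFl y hy)
    have h2 : ContinuousAt (fun y : ℝ => (⟨-1 / 2, y⟩ : ℂ)) y := by
      have : (fun y : ℝ => (⟨-1 / 2, y⟩ : ℂ)) = fun y : ℝ => ((-1 / 2 : ℝ) : ℂ) + y * I := by
        funext v; exact mk_eq _ v
      rw [this]; fun_prop
    exact (ContinuousAt.comp (f := fun y : ℝ => (⟨-1 / 2, y⟩ : ℂ)) (x := y) h1 h2).continuousWithinAt
  set E : ℝ → ℂ := fun y => deriv F (⟨-1 / 2, y⟩ : ℂ) / F ⟨-1 / 2, y⟩ + M -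
    (starRingEnd ℂ) (DD a (⟨3 / 2, y⟩ : ℂ)) with hE
  have hEb : ∀ y ∈ Icc U1 U2, ‖E y‖ ≤ C2 / T + |y - t| / T := by
    intro y hy
    have hyT : T ≤ y := hU1.1.trans hy.1
    have hy1 : 1 ≤ y := by linarith
    have hy0 : 0 < y := by linarith
    have h1 := hleft (⟨-1 / 2, y⟩ : ℂ) (by norm_num) (by norm_num) hy1 (hFl y hy)
    have h2 : (1 : ℂ) - (starRingEnd ℂ) (⟨-1 / 2, y⟩ : ℂ) = ⟨3 / 2, y⟩ := by
      apply Complex.ext <;> simp <;> norm_num
    rw [h2, hRD y hy] at h1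
    have h3 : C2 / (⟨-1 / 2, y⟩ : ℂ).im ≤ C2 / T := by
      show C2 / y ≤ C2 / T
      gcongr
    have h4 : |M - Real.log (q * y / (2 * Real.pi))| ≤ |y - t| / T := by
      have h5 : M - Real.log (q * y / (2 * Real.pi)) = Real.log t - Real.log y := by
        rw [hM, show q * t / (2 * Real.pi) = (q / (2 * Real.pi)) * t by ring,
          show q * y / (2 * Real.pi) = (q / (2 * Real.pi)) * y by ring,
          Real.log_mul (by positivity) ht0.ne', Real.log_mul (by positivity) hy0.ne']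
        ring
      rw [h5, abs_sub_comm y t]
      exact log_lip hTpos htT hyT
    have h5 : E y = (deriv F (⟨-1 / 2, y⟩ : ℂ) / F ⟨-1 / 2, y⟩ +
        (Real.log (q * (⟨-1 / 2, y⟩ : ℂ).im / (2 * Real.pi)) : ℝ) +
        (starRingEnd ℂ) (-DD a (⟨3 / 2, y⟩ : ℂ))) +
        ((M - Real.log (q * y / (2 * Real.pi)) : ℝ) : ℂ) := by
      simp only [hE, map_neg]
      push_cast
      ring
    rw [h5]
    refine (norm_add_le _ _).trans (add_le_add (h1.trans h3) ?_)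
    rw [Complex.norm_real, Real.norm_eq_abs]
    exact h4
  have hcE : ContinuousOn E (Icc U1 U2) := (hcontl.add continuousOn_const).sub hcD.continuousOn
  have hLsplit : Lf = ((∫ y in U1..U2, E y * hh u t (⟨-1 / 2, y⟩ : ℂ)) -
      M * ∫ y in U1..U2, hh u t (⟨-1 / 2, y⟩ : ℂ)) +
      ∫ y in U1..U2, (starRingEnd ℂ) (DD a (⟨3 / 2, y⟩ : ℂ)) * hh u t ⟨-1 / 2, y⟩ := by
    have i1 : IntervalIntegrable (fun y => E y * hh u t (⟨-1 / 2, y⟩ : ℂ)) volume U1 U2 := by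
      apply ContinuousOn.intervalIntegrable
      rw [uIcc_of_le hU12.le]
      exact hcE.mul hcl.continuousOn
    have i2 : IntervalIntegrable (fun y => (M : ℂ) * hh u t (⟨-1 / 2, y⟩ : ℂ)) volume U1 U2 :=
      (continuous_const.mul hcl).intervalIntegrable _ _
    have i3 : IntervalIntegrable (fun y => (starRingEnd ℂ) (DD a (⟨3 / 2, y⟩ : ℂ)) *
        hh u t (⟨-1 / 2, y⟩ : ℂ)) volume U1 U2 := (hcD.mul hcl).intervalIntegrable _ _
    rw [hLf, ← intervalIntegral.integral_const_mul, ← intervalIntegral.integral_sub i1 i2,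
      ← intervalIntegral.integral_add (i1.sub i2) i3]
    apply intervalIntegral.integral_congr
    intro y _
    simp only [hE]
    ring
  have heE : ‖∫ y in U1..U2, E y * hh u t (⟨-1 / 2, y⟩ : ℂ)‖ ≤ (8 * C2 + 8) * (1 / T) := by
    have := int_bound4 (f := fun y => E y * hh u t (⟨-1 / 2, y⟩ : ℂ))
      (K := (C2 + 1) * (1 / T) * 2)
      (t := t) hU12.le (by positivity) (by
        intro v hv
        rw [norm_mul]
        have h1 := hEb v (Ioc_subset_Icc_self hv)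
        have h2 := hnorml v
        have h3 := abs_exp_le (v - t)
        have h4 : Real.exp (-(v - t) ^ 2 / 2) ≤ Real.exp (-(1 / 4) * (v - t) ^ 2) := by
          apply Real.exp_le_exp.2
          nlinarith [sq_nonneg (v - t)]
        calc ‖E v‖ * ‖hh u t (⟨-1 / 2, v⟩ : ℂ)‖
            ≤ (C2 / T + |v - t| / T) * (2 * Real.exp (-(v - t) ^ 2 / 2)) :=
              mul_le_mul h1 h2 (norm_nonneg _) (by positivity)
          _ = (2 * (1 / T)) * (C2 * Real.exp (-(v - t) ^ 2 / 2) +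
              |v - t| * Real.exp (-(v - t) ^ 2 / 2)) := by ring
          _ ≤ (2 * (1 / T)) * (C2 * Real.exp (-(1 / 4) * (v - t) ^ 2) +
              Real.exp (-(1 / 4) * (v - t) ^ 2)) := by gcongr
          _ = _ := by ring)
    refine this.trans (le_of_eq ?_)
    ring
  -- assembling
  set Q : ℂ := cexp (I * u * t) * Real.exp (-u ^ 2 / 2) with hQ
  set IR := ∫ y in U1..U2, DD a (⟨3 / 2, y⟩ : ℂ) * hh u t ⟨3 / 2, y⟩ with hIR
  set IG := ∫ y in U1..U2, hh u t (⟨-1 / 2, y⟩ : ℂ) with hIG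
  set IE := ∫ y in U1..U2, E y * hh u t (⟨-1 / 2, y⟩ : ℂ) with hIE
  set IQ := ∫ y in U1..U2, (starRingEnd ℂ) (DD a (⟨3 / 2, y⟩ : ℂ)) * hh u t ⟨-1 / 2, y⟩ with hIQ
  set GG := ∫ v : ℝ, hh u t (⟨-1 / 2, v⟩ : ℂ) with hGG
  set A := AA F U1 U2 u t with hA
  set P := PP a u t with hP
  set P' := PQ a u t with hP'
  set w : ℂ := (Real.sqrt (2 * Real.pi) : ℂ) with hw
  have hw2 : w * w = 2 * Real.pi := by
    rw [hw, ← ofReal_mul, Real.mul_self_sqrt (by positivity)]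
    push_cast; ring
  have hw0 : w ≠ 0 := by
    rw [hw, ofReal_ne_zero]; positivity
  have hpi0 : (Real.pi : ℂ) ≠ 0 := by exact_mod_cast Real.pi_ne_zero
  have hmain : A - (1 / Real.sqrt (2 * Real.pi) : ℝ) * ((M : ℂ) * cexp (I * u * t) *
              Real.exp (-u ^ 2 / 2) - P - P') =
      (1 / (2 * Real.pi)) * ((-I) * (HB - HT) + (w * P - IR) - (M : ℂ) * (GG - IG) +
        (w * P' - IQ) - IE) := by
    have h1 : (((1 / Real.sqrt (2 * Real.pi) : ℝ)) : ℂ) = w / (2 * Real.pi) := by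
      push_cast
      rw [← hw, ← hw2]
      field_simp
    have h2 : GG = w * Q := hGl
    have h3 : A = (1 / (2 * Real.pi)) * ((-I) * (HB - HT) + R - Lf) := by
      have hI : I ≠ 0 := I_ne_zero
      have h4 : 2 * Real.pi * I * A = HB - HT + I * R - I * Lf := hres.symm
      field_simp
      have h5 : I * (2 * Real.pi * A) = I * (-(I * (HB - HT)) + R - Lf) := by
        linear_combination h4 + (HB - HT) * I_sq
      have h6 := mul_left_cancel₀ hI h5
      linear_combination h6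
    rw [h1, h3, hReq, hLsplit, h2, hQ]
    field_simp
    ring
  rw [hmain, norm_mul]
  have hn1 : ‖(1 / (2 * Real.pi) : ℂ)‖ ≤ 1 := by
    rw [norm_div, norm_mul]
    simp only [norm_one, Complex.norm_ofNat, Complex.norm_real, Real.norm_eq_abs, abs_of_pos Real.pi_pos]
    rw [div_le_one (by positivity)]
    have := Real.pi_gt_three
    linarith
  have hn2 : ‖(-I) * (HB - HT) + (w * P - IR) - (M : ℂ) * (GG - IG) + (w * P' - IQ) - IE‖ ≤
      4 * C1 * (1 / T) + 16 * C1 * (1 / T) + 8 * D0 * (1 / T) +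
      8 * (cq + 2) * (1 / T) + 8 * D0 * (1 / T) + (8 * C2 + 8) * (1 / T) := by
    have h1 : ‖(-I) * (HB - HT)‖ ≤ 4 * C1 * (1 / T) + 16 * C1 * (1 / T) := by
      rw [norm_mul, norm_neg, norm_I, one_mul]
      exact (norm_sub_le _ _).trans (add_le_add hHBb hHTb)
    refine (norm_sub_le _ _).trans (add_le_add ?_ heE)
    refine (norm_add_le _ _).trans (add_le_add ?_ heQ)
    refine (norm_sub_le _ _).trans (add_le_add ?_ hLe)
    exact (norm_add_le _ _).trans (add_le_add h1 heR)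
  have hTs : 1 / T ≤ 1 / Real.sqrt T := by
    apply one_div_le_one_div_of_le (Real.sqrt_pos.2 hTpos)
    rw [Real.sqrt_le_left hTpos.le]
    nlinarith
  calc ‖(1 / (2 * Real.pi) : ℂ)‖ * ‖_‖ ≤ 1 * _ := by
        apply mul_le_mul hn1 hn2 (norm_nonneg _) zero_le_one
    _ ≤ (20 * C1 + 16 * D0 + 8 * (cq + 2) + 8 + 8 * C2 + 1) * (1 / T) := by
        nlinarith
    _ ≤ (20 * C1 + 16 * D0 + 8 * (cq + 2) + 8 + 8 * C2 + 1) * (1 / Real.sqrt T) := by
        gcongr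
    _ = _ := by rw [mul_one_div]

end Pool.Agent.H203.MC
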