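import Pool.Agent.H203.MC.Defs
import Pool.Agent.H203.GE.EFW

set_option autoImplicit false

/-! Project MC, part EFW3: the exact explicit formula for the band-limited kernel. -/

open Complex Filter Topology Set MeasureTheory

namespace Pool.Agent.H203.MC

open Pool.Agent.H203.ME (ee gR WR om FF KF C2c)
open Pool.Agent.H203.GE (Lf ZG XG)

namespace EFW3L

open Pool.Agent.H203.ME.EFWL (gR_even gR_cont gR_nonneg gR_le gR_le_one split_int om_eq norm_ee)
open Pool.Agent.H203.GE.EFWL (DD DD_sum DD_cont sum_WR FN FN_cont FN_bound FN_summable FN_tsum)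

lemma PQ_eq (a : ℕ → ℂ) (u t : ℝ) : PQ a u t = (starRingEnd ℂ) (H370.PP a (-u) t) := by
  unfold PQ H370.PP
  rw [Complex.conj_tsum]
  refine tsum_congr fun n => ?_
  simp only [map_mul, map_inv₀, Complex.conj_ofReal, ← Complex.exp_conj, Complex.conj_I, map_sub]
  have e1 : (-I * (t : ℂ) * (((-u : ℝ) : ℂ) - ((Real.log n : ℝ) : ℂ))) =
      I * t * (u + (Real.log n : ℂ)) := by
    push_cast
    ring
  have e2 : (-u - Real.log n) ^ 2 = (u + Real.log n) ^ 2 := by ring
  rw [e1, e2]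

lemma FN_neg_bound {w : ℕ → ℂ} (hw : ∀ n, ‖w n‖ ≤ 1) {R : ℝ} (hR : 0 < R) (t : ℝ) (n : ℕ) {u : ℝ}
    (hu : u ∈ Icc (0 : ℝ) R) :
    ‖FN w R t n (-u)‖ ≤ Real.exp ((R + 1) ^ 2 / 2) *
      (ArithmeticFunction.vonMangoldt n * (n : ℝ) ^ (-(3 / 2 : ℝ))) := by
  refine le_trans ?_ (FN_bound hw hR t n hu)
  unfold FN
  rw [gR_even, norm_mul, norm_mul (_ * _) (((gR R u * Real.exp (-(u - Real.log n) ^ 2 / 2) : ℝ)) : ℂ)]
  refine mul_le_mul_of_nonneg_left ?_ (norm_nonneg _)
  have habs : |u| ≤ R := by rw [abs_of_nonneg hu.1]; exact hu.2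
  have hg0 := gR_nonneg hR habs
  rw [Complex.norm_real, Complex.norm_real, Real.norm_eq_abs, Real.norm_eq_abs,
    abs_of_nonneg (by positivity), abs_of_nonneg (by positivity)]
  refine mul_le_mul_of_nonneg_left (Real.exp_le_exp.2 ?_) hg0
  have hx0 : 0 ≤ Real.log n := Real.log_natCast_nonneg n
  nlinarith [mul_nonneg hu.1 hx0]

lemma FN_bound_all {w : ℕ → ℂ} (hw : ∀ n, ‖w n‖ ≤ 1) {R : ℝ} (hR : 0 < R) (t : ℝ) (n : ℕ) {u : ℝ}
    (hu : u ∈ Icc (-R) R) :
    ‖FN w R t n u‖ ≤ Real.exp ((R + 1) ^ 2 / 2) *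
      (ArithmeticFunction.vonMangoldt n * (n : ℝ) ^ (-(3 / 2 : ℝ))) := by
  rcases le_total 0 u with h | h
  · exact FN_bound hw hR t n ⟨h, hu.2⟩
  · have h1 := FN_neg_bound hw hR t n (u := -u) ⟨by linarith, by linarith [hu.1]⟩
    rwa [neg_neg] at h1

lemma FN_hasSum {w : ℕ → ℂ} (hw : ∀ n, ‖w n‖ ≤ 1) {R : ℝ} (hR : 0 < R) (t : ℝ) :
    HasSum (fun n : ℕ => ∫ u in (-R)..R, FN w R t n u) (∫ u in (-R)..R, ∑' n : ℕ, FN w R t n u) := by
  have hRR : -R ≤ R := by linarith
  have hb : ∀ n : ℕ, ∀ u : ℝ, u ∈ uIoc (-R) R → ‖FN w R t n u‖ ≤ Real.exp ((R + 1) ^ 2 / 2) *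
      (ArithmeticFunction.vonMangoldt n * (n : ℝ) ^ (-(3 / 2 : ℝ))) := by
    intro n u hu
    rw [uIoc_of_le hRR] at hu
    exact FN_bound_all hw hR t n ⟨hu.1.le, hu.2⟩
  refine intervalIntegral.hasSum_integral_of_dominated_convergence
    (fun n _ => Real.exp ((R + 1) ^ 2 / 2) *
      (ArithmeticFunction.vonMangoldt n * (n : ℝ) ^ (-(3 / 2 : ℝ)))) ?_ ?_ ?_ ?_ ?_
  · intro n
    exact (FN_cont w R t n).aestronglyMeasurable
  · intro n
    exact Eventually.of_forall fun u hu => hb n u hu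
  · exact Eventually.of_forall fun u _ => FN_summable R
  · exact intervalIntegrable_const
  · exact Eventually.of_forall fun u hu =>
      (Summable.of_norm_bounded (FN_summable R) fun n => hb n u hu).hasSum

lemma FN_contOn {w : ℕ → ℂ} (hw : ∀ n, ‖w n‖ ≤ 1) {R : ℝ} (hR : 0 < R) (t : ℝ) :
    ContinuousOn (fun u : ℝ => ∑' n : ℕ, FN w R t n u) (Icc (-R) R) :=
  continuousOn_tsum (fun n => (FN_cont w R t n).continuousOn) (FN_summable R)
    (fun n _ hu => FN_bound_all hw hR t n hu)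

lemma FN_integral (w : ℕ → ℂ) (R t : ℝ) (n : ℕ) : ∫ u in (-R)..R, FN w R t n u =
    ((ArithmeticFunction.vonMangoldt n / Real.sqrt n * c3 R (Real.log n) : ℝ) : ℂ) *
      (w n * ee n t) := by
  unfold FN c3
  rw [intervalIntegral.integral_const_mul, intervalIntegral.integral_ofReal]
  push_cast
  ring

lemma P3_eq {w : ℕ → ℂ} (hw : ∀ n, ‖w n‖ ≤ 1) {R : ℝ} (hR : 0 < R) (t : ℝ) : P3 w R t =
    2 / Real.sqrt (2 * Real.pi) * ∫ u in (0 : ℝ)..R, ((∑' n : ℕ, FN w R t n u).re +
      (∑' n : ℕ, FN w R t n (-u)).re) := by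
  unfold P3
  congr 1
  have hRR : -R ≤ R := by linarith
  have h1 := (FN_hasSum hw hR t).tsum_eq
  simp_rw [FN_integral] at h1
  rw [h1]
  have hc := FN_contOn hw hR t
  have hint : IntervalIntegrable (fun u : ℝ => ∑' n : ℕ, FN w R t n u) volume (-R) R := by
    apply ContinuousOn.intervalIntegrable
    rwa [uIcc_of_le hRR]
  have h2 : (∫ u in (-R)..R, ∑' n : ℕ, FN w R t n u).re =
      ∫ u in (-R)..R, (∑' n : ℕ, FN w R t n u).re := by
    rw [intervalIntegral.integral_of_le hRR, intervalIntegral.integral_of_le hRR]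
    exact (integral_re hint.1).symm
  rw [h2]
  have hre : ContinuousOn (fun u : ℝ => (∑' n : ℕ, FN w R t n u).re) (Icc (-R) R) :=
    Complex.continuous_re.comp_continuousOn hc
  have i1 : IntervalIntegrable (fun u : ℝ => (∑' n : ℕ, FN w R t n u).re) volume (-R) 0 := by
    apply ContinuousOn.intervalIntegrable
    rw [uIcc_of_le (by linarith)]
    exact hre.mono (Icc_subset_Icc_right hR.le)
  have i2 : IntervalIntegrable (fun u : ℝ => (∑' n : ℕ, FN w R t n u).re) volume 0 R := by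
    apply ContinuousOn.intervalIntegrable
    rw [uIcc_of_le hR.le]
    exact hre.mono (Icc_subset_Icc_left (by linarith))
  have i3 : IntervalIntegrable (fun u : ℝ => (∑' n : ℕ, FN w R t n (-u)).re) volume 0 R := by
    have h3 := (IntervalIntegrable.iff_comp_neg (f := fun u : ℝ => (∑' n : ℕ, FN w R t n u).re)
      (a := -R) (b := 0)).1 i1
    rw [neg_neg, neg_zero] at h3
    exact h3.symm
  rw [← intervalIntegral.integral_add_adjacent_intervals i1 i2,
    intervalIntegral.integral_add i2 i3, add_comm]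
  congr 1
  rw [intervalIntegral.integral_comp_neg (fun u : ℝ => (∑' n : ℕ, FN w R t n u).re), neg_zero]

lemma cube_le {T : ℝ} (hT : 1 ≤ T) : (Real.log T) ^ 3 ≤ 216 * Real.sqrt T := by
  have hT0 : 0 < T := by linarith
  have hL0 : 0 ≤ Real.log T := Real.log_nonneg hT
  have h1 := Real.add_one_le_exp (Real.log T / 6)
  have h2 : Real.log T / 6 ≤ Real.exp (Real.log T / 6) := by linarith
  have h3 : (Real.log T / 6) ^ 3 ≤ (Real.exp (Real.log T / 6)) ^ 3 :=
    pow_le_pow_left₀ (by positivity) h2 3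
  have h4 : (Real.exp (Real.log T / 6)) ^ 3 = Real.sqrt T := by
    rw [← Real.exp_nat_mul, Real.sqrt_eq_rpow, Real.rpow_def_of_pos hT0]
    congr 1
    push_cast
    ring
  rw [h4] at h3
  nlinarith

end EFW3L

open Pool.Agent.H203.ME.EFWL (gR_even gR_cont gR_nonneg gR_le gR_le_one om_eq) in
open Pool.Agent.H203.GE.EFWL (DD DD_cont sum_WR FN FN_tsum) in
open EFW3L in
theorem t_EFW3 (h : S_EF3) : S_EFW3 := by
  intro G w q hG hq hFE
  have hw := hG.le1
  obtain ⟨C, T0, hC, hT0, hmain⟩ := h G q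
    (fun n => (ArithmeticFunction.vonMangoldt n : ℂ) * w n) hG.good hq hFE (fun n => by
      rw [norm_mul, Complex.norm_real, Real.norm_eq_abs, abs_of_nonneg ArithmeticFunction.vonMangoldt_nonneg]
      exact mul_le_of_le_one_right ArithmeticFunction.vonMangoldt_nonneg (hw n))
    hG.ld
  refine ⟨216 * C, T0, by positivity, hT0, fun T hT => ?_⟩
  obtain ⟨U1, U2, hU1, hU1', hU2, hU2', hm⟩ := hmain T hT
  refine ⟨U1, U2, hU1, hU1', hU2, hU2', fun R t hR1 hRL ht1 ht2 => ?_⟩
  have hU : 1 ≤ U1 := by linarith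
  have hR : 0 < R := by linarith
  have hT1 : 1 ≤ T := by linarith
  have hTp : 0 < T := by linarith
  rw [sum_WR hG hU]
  set L := Real.log T with hL
  set M := Real.log (q * t / (2 * Real.pi)) with hM
  have hs2 : (0 : ℝ) < Real.sqrt (2 * Real.pi) := by positivity
  have hsq : Real.sqrt (2 * Real.pi) * Real.sqrt (2 * Real.pi) = 2 * Real.pi :=
    Real.mul_self_sqrt (by positivity)
  -- the approximation
  set EE : ℝ → ℝ := fun u => (1 / Real.sqrt (2 * Real.pi)) *
    (M * (gR R u * Real.exp (-u ^ 2 / 2)) - ((∑' n : ℕ, FN w R t n u).re +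
      (∑' n : ℕ, FN w R t n (-u)).re)) with hEE
  have hFc := FN_contOn hw hR t
  have hFre0 : ContinuousOn (fun u : ℝ => (∑' n : ℕ, FN w R t n u).re) (Icc (-R) R) :=
    Complex.continuous_re.comp_continuousOn hFc
  have hFre : ContinuousOn (fun u : ℝ => (∑' n : ℕ, FN w R t n u).re +
      (∑' n : ℕ, FN w R t n (-u)).re) (Icc (0 : ℝ) R) := by
    refine (hFre0.mono (Icc_subset_Icc_left (by linarith))).add ?_
    refine hFre0.comp (f := fun u : ℝ => -u) continuous_neg.continuousOn ?_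
    intro u hu
    exact ⟨by linarith [hu.2], by linarith [hu.1]⟩
  have hgc := gR_cont R
  have hEc : ContinuousOn EE (Icc (0 : ℝ) R) := by
    rw [hEE]
    refine continuousOn_const.mul (ContinuousOn.sub ?_ hFre)
    apply Continuous.continuousOn
    fun_prop
  have hEint : IntervalIntegrable EE volume 0 R := by
    apply ContinuousOn.intervalIntegrable
    rwa [uIcc_of_le hR.le]
  have hval : M / (2 * Real.pi) * om R - P3 w R t = ∫ u in (0 : ℝ)..R, 2 * EE u := by
    have hi1 : IntervalIntegrable (fun u : ℝ => M * (gR R u * Real.exp (-u ^ 2 / 2))) volume 0 R := by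
      apply Continuous.intervalIntegrable
      fun_prop
    have hi2 : IntervalIntegrable (fun u : ℝ => (∑' n : ℕ, FN w R t n u).re +
      (∑' n : ℕ, FN w R t n (-u)).re) volume 0 R := by
      apply ContinuousOn.intervalIntegrable
      rwa [uIcc_of_le hR.le]
    rw [intervalIntegral.integral_const_mul, hEE, intervalIntegral.integral_const_mul,
      intervalIntegral.integral_sub hi1 hi2, intervalIntegral.integral_const_mul, P3_eq hw hR,
      om_eq hR.le]
    generalize Real.sqrt (2 * Real.pi) = s at hs2 hsq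
    rw [← hsq]
    field_simp
  rw [hval, ← Complex.ofReal_sub, Complex.norm_real, Real.norm_eq_abs]
  have hDc := DD_cont hG (U1 := U1) (U2 := U2) hU t
  have hDi : Continuous fun u : ℝ => gR R u * (2 * (DD G U1 U2 t u).re) :=
    hgc.mul (continuous_const.mul (Complex.continuous_re.comp hDc))
  rw [← intervalIntegral.integral_sub (hDi.intervalIntegrable _ _) (hEint.const_mul 2)]
  have hpt : ∀ u ∈ Icc (0 : ℝ) R,
      ‖gR R u * (2 * (DD G U1 U2 t u).re) - 2 * EE u‖ ≤ C / Real.sqrt T := by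
    intro u hu
    have h1 := hm u t hu.1 (hu.2.trans hRL) ht1 ht2
    have habs : |u| ≤ R := by rw [abs_of_nonneg hu.1]; exact hu.2
    have hg0 := gR_nonneg hR habs
    have hg1 := gR_le hR habs
    rw [PQ_eq] at h1
    set P := H370.PP (fun n => (ArithmeticFunction.vonMangoldt n : ℂ) * w n) u t with hP
    set P' := H370.PP (fun n => (ArithmeticFunction.vonMangoldt n : ℂ) * w n) (-u) t with hP'
    have hE : EE u = gR R u * ((1 / Real.sqrt (2 * Real.pi)) *
        (M * Real.exp (-u ^ 2 / 2) - (cexp (-(I * u * t)) * P).re -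
          (cexp (-(I * u * t)) * (starRingEnd ℂ) P').re)) := by
      rw [hEE]
      simp only
      have h2 : (cexp (-(I * ((-u : ℝ) : ℂ) * t)) * P').re =
          (cexp (-(I * u * t)) * (starRingEnd ℂ) P').re := by
        rw [← Complex.conj_re, map_mul, ← Complex.exp_conj]
        congr 3
        simp only [map_neg, map_mul, Complex.conj_I, Complex.conj_ofReal]
        push_cast
        ring
      rw [FN_tsum, FN_tsum, ← hP, ← hP', Complex.re_ofReal_mul, Complex.re_ofReal_mul, h2, gR_even]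
      ring
    have hdiff : DD G U1 U2 t u - ((1 / Real.sqrt (2 * Real.pi) : ℝ) : ℂ) *
        (((M * Real.exp (-u ^ 2 / 2) : ℝ) : ℂ) - cexp (-(I * u * t)) * P -
          cexp (-(I * u * t)) * (starRingEnd ℂ) P') =
        cexp (-(I * u * t)) * (H370.AA G U1 U2 u t -
          ((1 / Real.sqrt (2 * Real.pi) : ℝ) : ℂ) * ((M : ℂ) * cexp (I * u * t) *
              (Real.exp (-u ^ 2 / 2) : ℂ) - P - (starRingEnd ℂ) P')) := by
      unfold DD
      have : cexp (-(I * u * t)) * cexp (I * u * t) = 1 := by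
        rw [← Complex.exp_add]; simp
      push_cast
      linear_combination ((1 / (Real.sqrt (2 * Real.pi) : ℂ)) * M * cexp (-(u : ℂ) ^ 2 / 2)) * this
    have hn1 : ‖cexp (-(I * (u : ℂ) * t))‖ = 1 := by
      rw [show -(I * (u : ℂ) * t) = ((-(u * t) : ℝ) : ℂ) * I by push_cast; ring,
        Complex.norm_exp_ofReal_mul_I]
    have hre : |(DD G U1 U2 t u).re - (1 / Real.sqrt (2 * Real.pi)) *
        (M * Real.exp (-u ^ 2 / 2) - (cexp (-(I * u * t)) * P).re -
          (cexp (-(I * u * t)) * (starRingEnd ℂ) P').re)| ≤ C / Real.sqrt T := by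
      have h2 : (DD G U1 U2 t u).re - (1 / Real.sqrt (2 * Real.pi)) *
        (M * Real.exp (-u ^ 2 / 2) - (cexp (-(I * u * t)) * P).re -
          (cexp (-(I * u * t)) * (starRingEnd ℂ) P').re) =
        (DD G U1 U2 t u - ((1 / Real.sqrt (2 * Real.pi) : ℝ) : ℂ) *
        (((M * Real.exp (-u ^ 2 / 2) : ℝ) : ℂ) - cexp (-(I * u * t)) * P -
          cexp (-(I * u * t)) * (starRingEnd ℂ) P')).re := by
        rw [Complex.sub_re, Complex.re_ofReal_mul, Complex.sub_re, Complex.sub_re, Complex.ofReal_re]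
      rw [h2]
      refine (Complex.abs_re_le_norm _).trans ?_
      rw [hdiff, norm_mul, hn1, one_mul]
      exact h1
    rw [hE, Real.norm_eq_abs]
    have h3 : gR R u * (2 * (DD G U1 U2 t u).re) - 2 * (gR R u * ((1 / Real.sqrt (2 * Real.pi)) *
        (M * Real.exp (-u ^ 2 / 2) - (cexp (-(I * u * t)) * P).re -
          (cexp (-(I * u * t)) * (starRingEnd ℂ) P').re))) =
        2 * gR R u * ((DD G U1 U2 t u).re - (1 / Real.sqrt (2 * Real.pi)) *
        (M * Real.exp (-u ^ 2 / 2) - (cexp (-(I * u * t)) * P).re -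
          (cexp (-(I * u * t)) * (starRingEnd ℂ) P').re)) := by ring
    rw [h3, abs_mul, abs_of_nonneg (by positivity)]
    have h4 : 2 * gR R u ≤ 1 := by
      have h5 : 1 / (2 * Real.pi) ≤ 1 / 2 := by
        apply one_div_le_one_div_of_le (by norm_num)
        linarith [Real.pi_gt_three]
      linarith
    calc _ ≤ 1 * (C / Real.sqrt T) :=
          mul_le_mul h4 hre (abs_nonneg _) zero_le_one
      _ = _ := one_mul _
  have hfin : ‖∫ u in (0 : ℝ)..R, (gR R u * (2 * (DD G U1 U2 t u).re) - 2 * EE u)‖ ≤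
      C / Real.sqrt T * |R - 0| := by
    apply intervalIntegral.norm_integral_le_of_norm_le_const
    intro u hu
    rw [uIoc_of_le hR.le] at hu
    exact hpt u ⟨hu.1.le, hu.2⟩
  rw [Real.norm_eq_abs, sub_zero, abs_of_pos hR] at hfin
  refine hfin.trans ?_
  have hsT : 0 < Real.sqrt T := Real.sqrt_pos.2 hTp
  have hL1 : 1 ≤ L := hR1.trans hRL
  have hc := cube_le hT1
  rw [← hL] at hc
  calc C / Real.sqrt T * R ≤ C / Real.sqrt T * L := by gcongr
    _ ≤ 216 * C / L ^ 2 := by
        rw [div_mul_eq_mul_div, div_le_div_iff₀ hsT (by positivity)]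
        calc C * L * L ^ 2 = C * L ^ 3 := by ring
          _ ≤ C * (216 * Real.sqrt T) := by gcongr
          _ = _ := by ring

end Pool.Agent.H203.MC
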