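import Pool.Agent.H203.MC.Defs

set_option autoImplicit false

/-! Project MC (helper203), leaf EQD (helper139): equidistribution of the phases. -/

open Complex Filter Topology Set MeasureTheory

namespace Pool.Agent.H203.MC

open Pool.Agent.H203.ME (ee)

namespace EQDL

theorem prob_PM : IsProbabilityMeasure PM := by
  unfold PM
  infer_instance

theorem ee_mul {a b : ℕ} (ha : a ≠ 0) (hb : b ≠ 0) (t : ℝ) : ee (a * b) t = ee a t * ee b t := by
  unfold ee
  rw [← Complex.exp_add, Nat.cast_mul,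
    Real.log_mul (Nat.cast_ne_zero.2 ha) (Nat.cast_ne_zero.2 hb)]
  congr 1
  push_cast
  ring

theorem norm_ee (n : ℕ) (t : ℝ) : ‖ee n t‖ = 1 := by
  unfold ee
  rw [show -(((t * Real.log n : ℝ) : ℂ) * I) = ((-(t * Real.log n) : ℝ) : ℂ) * I by
    push_cast; ring, Complex.norm_exp_ofReal_mul_I]

theorem cont_ee (n : ℕ) : Continuous (ee n) := by
  unfold ee
  fun_prop

theorem ee_one (t : ℝ) : ee 1 t = 1 := by
  unfold ee
  rw [Nat.cast_one, Real.log_one, mul_zero, Complex.ofReal_zero, zero_mul, neg_zero,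
    Complex.exp_zero]

theorem rn_one (h : S_RN) (ω : Om) : rn ω 1 = 1 := by
  have h1 := h.2.2.1 ω 1 1 one_ne_zero one_ne_zero
  rw [mul_one] at h1
  have h2 : rn ω 1 ≠ 0 := by
    intro h0
    have := h.2.1 ω 1
    rw [h0, norm_zero] at this
    exact zero_ne_one this
  have h3 : rn ω 1 * 1 = rn ω 1 * rn ω 1 := by rw [mul_one]; exact h1
  exact (mul_left_cancel₀ h2 h3).symm

/-- corresponding trigonometric polynomials -/
inductive Tr : (ℝ → ℂ) → (Om → ℂ) → Prop
  | base (a b : ℕ) (ha : a ≠ 0) (hb : b ≠ 0) (d : ℂ) :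
      Tr (fun t => d * (ee a t * (starRingEnd ℂ) (ee b t)))
        (fun ω => d * (rn ω a * (starRingEnd ℂ) (rn ω b)))
  | add (f : ℝ → ℂ) (g : Om → ℂ) (f' : ℝ → ℂ) (g' : Om → ℂ) : Tr f g → Tr f' g' →
      Tr (fun t => f t + f' t) (fun ω => g ω + g' ω)

theorem Tr.cast {f f' : ℝ → ℂ} {g g' : Om → ℂ} (h : Tr f g) (h1 : ∀ t, f' t = f t)
    (h2 : ∀ ω, g' ω = g ω) : Tr f' g' := by
  have e1 : f' = f := funext h1
  have e2 : g' = g := funext h2
  rw [e1, e2]
  exact h

theorem Tr.mul (hRN : S_RN) {f : ℝ → ℂ} {g : Om → ℂ} (h : Tr f g) :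
    ∀ {f' : ℝ → ℂ} {g' : Om → ℂ}, Tr f' g' → Tr (fun t => f t * f' t) (fun ω => g ω * g' ω) := by
  induction h with
  | base a b ha hb d =>
    intro f' g' h'
    induction h' with
    | base a' b' ha' hb' d' =>
      refine (Tr.base (a * a') (b * b') (mul_ne_zero ha ha') (mul_ne_zero hb hb')
        (d * d')).cast ?_ ?_
      · intro t
        rw [ee_mul ha ha', ee_mul hb hb', map_mul]
        ring
      · intro ω
        rw [hRN.2.2.1 ω a a' ha ha', hRN.2.2.1 ω b b' hb hb', map_mul]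
        ring
    | add f1 g1 f2 g2 _ _ ih1 ih2 =>
      refine (Tr.add _ _ _ _ ih1 ih2).cast ?_ ?_
      · intro t
        exact mul_add _ _ _
      · intro ω
        exact mul_add _ _ _
  | add f1 g1 f2 g2 _ _ ih1 ih2 =>
    intro f' g' h'
    refine (Tr.add _ _ _ _ (ih1 h') (ih2 h')).cast ?_ ?_
    · intro t
      exact add_mul _ _ _
    · intro ω
      exact add_mul _ _ _

theorem Tr.const (hRN : S_RN) (d : ℂ) : Tr (fun _ => d) (fun _ => d) := by
  refine (Tr.base 1 1 one_ne_zero one_ne_zero d).cast ?_ ?_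
  · intro t
    rw [ee_one, map_one, mul_one, mul_one]
  · intro ω
    rw [rn_one hRN, map_one, mul_one, mul_one]

theorem Tr.sum (hRN : S_RN) (s : Finset ℕ) (f : ℕ → ℝ → ℂ) (g : ℕ → Om → ℂ)
    (h : ∀ n ∈ s, Tr (f n) (g n)) : Tr (fun t => ∑ n ∈ s, f n t) (fun ω => ∑ n ∈ s, g n ω) := by
  classical
  induction s using Finset.induction_on with
  | empty =>
    refine (Tr.const hRN 0).cast ?_ ?_
    · intro t
      rw [Finset.sum_empty]
    · intro ω
      rw [Finset.sum_empty]
  | insert n s hn ih =>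
    refine (Tr.add _ _ _ _ (h n (Finset.mem_insert_self n s))
      (ih fun m hm => h m (Finset.mem_insert_of_mem hm))).cast ?_ ?_
    · intro t
      rw [Finset.sum_insert hn]
    · intro ω
      rw [Finset.sum_insert hn]

theorem re_eq (s : Finset ℕ) (c : ℕ → ℂ) (x : ℕ → ℂ) :
    ((∑ n ∈ s, c n * x n).re : ℂ) =
      ∑ n ∈ s, (c n / 2 * (x n * 1) + (starRingEnd ℂ) (c n) / 2 * (1 * (starRingEnd ℂ) (x n))) := by
  rw [Complex.re_eq_add_conj, map_sum, ← Finset.sum_add_distrib, Finset.sum_div]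
  refine Finset.sum_congr rfl fun n _ => ?_
  rw [map_mul]
  ring

theorem Tr.coord (hRN : S_RN) (N : ℕ) (c : ℕ → ℂ) :
    Tr (fun t => ((∑ n ∈ Finset.Icc 1 N, c n * ee n t).re : ℂ))
      (fun ω => ((∑ n ∈ Finset.Icc 1 N, c n * rn ω n).re : ℂ)) := by
  refine (Tr.sum hRN (Finset.Icc 1 N)
    (fun n t => c n / 2 * (ee n t * (starRingEnd ℂ) (ee 1 t)) +
      (starRingEnd ℂ) (c n) / 2 * (ee 1 t * (starRingEnd ℂ) (ee n t)))
    (fun n ω => c n / 2 * (rn ω n * (starRingEnd ℂ) (rn ω 1)) +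
      (starRingEnd ℂ) (c n) / 2 * (rn ω 1 * (starRingEnd ℂ) (rn ω n))) ?_).cast ?_ ?_
  · intro n hn
    have hn0 : n ≠ 0 := by
      have := (Finset.mem_Icc.1 hn).1
      omega
    exact Tr.add _ _ _ _ (Tr.base n 1 hn0 one_ne_zero _) (Tr.base 1 n one_ne_zero hn0 _)
  · intro t
    rw [re_eq]
    refine Finset.sum_congr rfl fun n _ => ?_
    rw [ee_one, map_one]
  · intro ω
    rw [re_eq]
    refine Finset.sum_congr rfl fun n _ => ?_
    rw [rn_one hRN, map_one]

theorem mean_base {a b : ℕ} (ha : a ≠ 0) (hb : b ≠ 0) (d : ℂ) :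
    Tendsto (fun T : ℝ => (1 / T : ℂ) * ∫ t in T..(2 * T), d * (ee a t * (starRingEnd ℂ) (ee b t)))
      atTop (𝓝 (d * if a = b then 1 else 0)) := by
  by_cases hab : a = b
  · subst hab
    rw [if_pos rfl, mul_one]
    refine tendsto_const_nhds.congr' ?_
    filter_upwards [eventually_gt_atTop (0 : ℝ)] with T hT
    have h1 : (fun t : ℝ => d * (ee a t * (starRingEnd ℂ) (ee a t))) = fun _ => d := by
      funext t
      rw [Complex.mul_conj, Complex.normSq_eq_norm_sq, norm_ee, one_pow, Complex.ofReal_one,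
        mul_one]
    rw [h1, intervalIntegral.integral_const, show 2 * T - T = T by ring, Complex.real_smul]
    have hT' : (T : ℂ) ≠ 0 := Complex.ofReal_ne_zero.2 hT.ne'
    field_simp
  · rw [if_neg hab, mul_zero]
    have hlog : Real.log b - Real.log a ≠ 0 := by
      rw [sub_ne_zero]
      intro h
      have ha' : (0 : ℝ) < a := Nat.cast_pos.2 (Nat.pos_of_ne_zero ha)
      have hb' : (0 : ℝ) < b := Nat.cast_pos.2 (Nat.pos_of_ne_zero hb)
      exact hab (Nat.cast_injective (R := ℝ) (Real.log_injOn_pos ha' hb' h.symm))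
    obtain ⟨l, hl⟩ : ∃ l : ℝ, l = Real.log b - Real.log a := ⟨_, rfl⟩
    rw [← hl] at hlog
    have hc : (I * (l : ℂ)) ≠ 0 := mul_ne_zero I_ne_zero (Complex.ofReal_ne_zero.2 hlog)
    have h1 : (fun t : ℝ => d * (ee a t * (starRingEnd ℂ) (ee b t))) =
        fun t : ℝ => d * cexp ((I * (l : ℂ)) * t) := by
      funext t
      unfold ee
      rw [← Complex.exp_conj, ← Complex.exp_add]
      congr 2
      rw [hl, map_neg, map_mul, Complex.conj_ofReal, Complex.conj_I]
      push_cast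
      ring
    have h2 : ∀ T : ℝ, ‖∫ t in T..(2 * T), d * (ee a t * (starRingEnd ℂ) (ee b t))‖ ≤
        ‖d‖ * (2 / |l|) := by
      intro T
      rw [h1, intervalIntegral.integral_const_mul, integral_exp_mul_complex hc, norm_mul, norm_div]
      refine mul_le_mul_of_nonneg_left ?_ (norm_nonneg _)
      have h3 : ‖I * (l : ℂ)‖ = |l| := by
        rw [norm_mul, Complex.norm_I, one_mul, Complex.norm_real, Real.norm_eq_abs]
      have h4 : ∀ x : ℝ, ‖cexp (I * (l : ℂ) * x)‖ = 1 := by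
        intro x
        rw [show I * (l : ℂ) * x = ((l * x : ℝ) : ℂ) * I by push_cast; ring,
          Complex.norm_exp_ofReal_mul_I]
      rw [h3]
      refine div_le_div_of_nonneg_right ?_ (abs_nonneg _)
      refine (norm_sub_le _ _).trans ?_
      rw [h4, h4]
      norm_num
    rw [tendsto_zero_iff_norm_tendsto_zero]
    have h5 : Tendsto (fun T : ℝ => ‖d‖ * (2 / |l|) * T⁻¹) atTop (𝓝 (‖d‖ * (2 / |l|) * 0)) :=
      tendsto_inv_atTop_zero.const_mul _
    rw [mul_zero] at h5
    refine squeeze_zero' (Eventually.of_forall fun T => norm_nonneg _) ?_ h5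
    filter_upwards [eventually_gt_atTop (0 : ℝ)] with T hT
    rw [norm_mul, norm_div, norm_one, Complex.norm_real, Real.norm_eq_abs, abs_of_pos hT, one_div,
      mul_comm]
    exact mul_le_mul_of_nonneg_right (h2 T) (inv_nonneg.2 hT.le)

theorem Tr.lim (hRN : S_RN) {f : ℝ → ℂ} {g : Om → ℂ} (h : Tr f g) :
    Continuous f ∧ Integrable g PM ∧
      Tendsto (fun T : ℝ => (1 / T : ℂ) * ∫ t in T..(2 * T), f t) atTop (𝓝 (∫ ω, g ω ∂PM)) := by
  have := prob_PM
  induction h with
  | base a b ha hb d =>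
    refine ⟨?_, ?_, ?_⟩
    · exact continuous_const.mul ((cont_ee a).mul (Complex.continuous_conj.comp (cont_ee b)))
    · refine (Integrable.of_bound (C := 1) ?_ ?_).const_mul d
      · exact ((hRN.1 a).mul (Complex.continuous_conj.measurable.comp (hRN.1 b))).aestronglyMeasurable
      · refine Eventually.of_forall fun ω => ?_
        rw [norm_mul, RCLike.norm_conj, hRN.2.1, hRN.2.1, mul_one]
    · rw [integral_const_mul, hRN.2.2.2 a b ha hb]
      exact mean_base ha hb d
  | add f1 g1 f2 g2 _ _ ih1 ih2 =>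
    refine ⟨ih1.1.add ih2.1, ih1.2.1.add ih2.2.1, ?_⟩
    rw [integral_add ih1.2.1 ih2.2.1]
    refine (ih1.2.2.add ih2.2.2).congr fun T => ?_
    rw [intervalIntegral.integral_add (ih1.1.intervalIntegrable _ _)
      (ih2.1.intervalIntegrable _ _), mul_add]

end EQDL

open EQDL in
theorem t_EQD (hRN : S_RN) : S_EQD := by
  intro k N c Φ hΦ
  have := prob_PM
  obtain ⟨v, hv⟩ : ∃ v : ℝ → Fin k → ℝ, ∀ t j, v t j = (∑ n ∈ Finset.Icc 1 N, c j n * ee n t).re :=
    ⟨_, fun _ _ => rfl⟩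
  obtain ⟨V, hV⟩ : ∃ V : Om → Fin k → ℝ, ∀ ω j, V ω j = (∑ n ∈ Finset.Icc 1 N, c j n * rn ω n).re :=
    ⟨_, fun _ _ => rfl⟩
  have ev : (fun T : ℝ => 1 / T * ∫ t in T..(2 * T),
      Φ (fun j => (∑ n ∈ Finset.Icc 1 N, c j n * ee n t).re)) =
      fun T : ℝ => 1 / T * ∫ t in T..(2 * T), Φ (v t) := by
    have : ∀ t, (fun j => (∑ n ∈ Finset.Icc 1 N, c j n * ee n t).re) = v t :=
      fun t => funext fun j => (hv t j).symm
    simp only [this]
  have eV : (∫ ω, Φ (fun j => (∑ n ∈ Finset.Icc 1 N, c j n * rn ω n).re) ∂PM) =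
      ∫ ω, Φ (V ω) ∂PM := by
    have : ∀ ω, (fun j => (∑ n ∈ Finset.Icc 1 N, c j n * rn ω n).re) = V ω :=
      fun ω => funext fun j => (hV ω j).symm
    simp only [this]
  rw [ev, eV]
  -- the box
  let B : Fin k → ℝ := fun j => ∑ n ∈ Finset.Icc 1 N, ‖c j n‖
  let K : Set (Fin k → ℝ) := Set.pi Set.univ fun j => Icc (-B j) (B j)
  have hK : IsCompact K := isCompact_univ_pi fun j => isCompact_Icc
  have hbd : ∀ (j : Fin k) (x : ℕ → ℂ), (∀ n, ‖x n‖ = 1) →
      (∑ n ∈ Finset.Icc 1 N, c j n * x n).re ∈ Icc (-B j) (B j) := by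
    intro j x hx
    have h1 : ‖∑ n ∈ Finset.Icc 1 N, c j n * x n‖ ≤ B j := by
      refine (norm_sum_le _ _).trans (le_of_eq ?_)
      refine Finset.sum_congr rfl fun n _ => ?_
      rw [norm_mul, hx, mul_one]
    have h2 := abs_le.1 ((Complex.abs_re_le_norm _).trans h1)
    exact ⟨h2.1, h2.2⟩
  have hvK : ∀ t, v t ∈ K := by
    intro t j _
    rw [hv]
    exact hbd j (fun n => ee n t) (fun n => norm_ee n t)
  have hVK : ∀ ω, V ω ∈ K := by
    intro ω j _
    rw [hV]
    exact hbd j (rn ω) (hRN.2.1 ω)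
  have hvc : Continuous v := by
    refine continuous_pi fun j => ?_
    have : (fun t => v t j) = fun t => (∑ n ∈ Finset.Icc 1 N, c j n * ee n t).re :=
      funext fun t => hv t j
    rw [this]
    exact Complex.continuous_re.comp
      (continuous_finsetSum _ fun n _ => continuous_const.mul (cont_ee n))
  have hVm : Measurable V := by
    refine measurable_pi_lambda _ fun j => ?_
    have : (fun ω => V ω j) = fun ω => (∑ n ∈ Finset.Icc 1 N, c j n * rn ω n).re :=
      funext fun ω => hV ω j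
    rw [this]
    exact Complex.measurable_re.comp
      (Finset.measurable_fun_sum _ fun n _ => (hRN.1 n).const_mul (c j n))
  -- the subalgebra of the polynomials
  let A : Subalgebra ℝ C(Fin k → ℝ, ℝ) :=
    Algebra.adjoin ℝ (Set.range fun j : Fin k => (⟨fun x => x j, continuous_apply j⟩ : C(Fin k → ℝ, ℝ)))
  have hsep : A.SeparatesPoints := by
    intro x y hxy
    obtain ⟨j, hj⟩ := Function.ne_iff.1 hxy
    exact ⟨fun z => z j, ⟨⟨fun z => z j, continuous_apply j⟩,
      Algebra.subset_adjoin ⟨j, rfl⟩, rfl⟩, hj⟩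
  have hTr : ∀ p ∈ A, Tr (fun t => ((p (v t) : ℝ) : ℂ)) (fun ω => ((p (V ω) : ℝ) : ℂ)) := by
    intro p hp
    induction hp using Algebra.adjoin_induction with
    | mem x hx =>
      obtain ⟨j, rfl⟩ := hx
      refine (Tr.coord hRN N (c j)).cast ?_ ?_
      · intro t
        show ((v t j : ℝ) : ℂ) = _
        rw [hv]
      · intro ω
        show ((V ω j : ℝ) : ℂ) = _
        rw [hV]
    | algebraMap r =>
      exact (Tr.const hRN (r : ℂ)).cast (fun t => rfl) (fun ω => rfl)
    | add x y _ _ hx hy =>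
      refine (Tr.add _ _ _ _ hx hy).cast ?_ ?_
      · intro t
        rw [ContinuousMap.add_apply, Complex.ofReal_add]
      · intro ω
        rw [ContinuousMap.add_apply, Complex.ofReal_add]
    | mul x y _ _ hx hy =>
      refine (Tr.mul hRN hx hy).cast ?_ ?_
      · intro t
        rw [ContinuousMap.mul_apply, Complex.ofReal_mul]
      · intro ω
        rw [ContinuousMap.mul_apply, Complex.ofReal_mul]
  have hlim : ∀ p ∈ A, Tendsto (fun T : ℝ => 1 / T * ∫ t in T..(2 * T), p (v t)) atTop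
      (𝓝 (∫ ω, p (V ω) ∂PM)) := by
    intro p hp
    have h1 := ((hTr p hp).lim hRN).2.2
    have h2 := (Complex.continuous_re.tendsto _).comp h1
    rw [integral_complex_ofReal, Complex.ofReal_re] at h2
    refine h2.congr fun T => ?_
    show ((1 / T : ℂ) * ∫ t in T..(2 * T), ((p (v t) : ℝ) : ℂ)).re = _
    rw [intervalIntegral.integral_ofReal, ← Complex.ofReal_one, ← Complex.ofReal_div,
      ← Complex.ofReal_mul, Complex.ofReal_re]
  have hint : ∀ Ψ : (Fin k → ℝ) → ℝ, Continuous Ψ → Integrable (fun ω => Ψ (V ω)) PM := by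
    intro Ψ hΨ
    obtain ⟨M, hM⟩ := hK.exists_bound_of_continuousOn hΨ.continuousOn
    exact Integrable.of_bound (C := M) (hΨ.measurable.comp hVm).aestronglyMeasurable
      (Eventually.of_forall fun ω => hM _ (hVK ω))
  rw [Metric.tendsto_nhds]
  intro ε hε
  obtain ⟨p, hpA, hp⟩ :=
    ContinuousMap.exists_mem_subalgebra_near_continuous_of_isCompact_of_separatesPoints hsep
      ⟨Φ, hΦ⟩ hK (show 0 < ε / 4 by positivity)
  have hp' : ∀ x ∈ K, ‖Φ x - p x‖ ≤ ε / 4 := fun x hx => by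
    rw [norm_sub_rev]
    exact (hp x hx).le
  have h1 : |(∫ ω, Φ (V ω) ∂PM) - ∫ ω, p (V ω) ∂PM| ≤ ε / 4 := by
    rw [← integral_sub (hint Φ hΦ) (hint p p.continuous), ← Real.norm_eq_abs]
    have h2 := norm_integral_le_of_norm_le_const (μ := PM) (f := fun ω => Φ (V ω) - p (V ω))
      (C := ε / 4) (Eventually.of_forall fun ω => hp' _ (hVK ω))
    rwa [probReal_univ, mul_one] at h2
  filter_upwards [(Metric.tendsto_nhds.1 (hlim p hpA)) (ε / 4) (by positivity),
    eventually_gt_atTop (0 : ℝ)] with T hT1 hT0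
  have h3 : |1 / T * (∫ t in T..(2 * T), Φ (v t)) - 1 / T * ∫ t in T..(2 * T), p (v t)| ≤
      ε / 4 := by
    have i1 : IntervalIntegrable (fun t => Φ (v t)) volume T (2 * T) :=
      (hΦ.comp hvc).intervalIntegrable _ _
    have i2 : IntervalIntegrable (fun t => p (v t)) volume T (2 * T) :=
      (p.continuous.comp hvc).intervalIntegrable _ _
    rw [← mul_sub, ← intervalIntegral.integral_sub i1 i2, abs_mul, ← Real.norm_eq_abs
      (∫ t in T..(2 * T), (Φ (v t) - p (v t)))]
    have h4 := intervalIntegral.norm_integral_le_of_norm_le_const (a := T) (b := 2 * T)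
      (f := fun t => Φ (v t) - p (v t)) (C := ε / 4) (fun t _ => hp' _ (hvK t))
    rw [show 2 * T - T = T by ring, abs_of_pos hT0] at h4
    rw [abs_of_pos (by positivity)]
    calc 1 / T * ‖∫ t in T..(2 * T), (Φ (v t) - p (v t))‖ ≤ 1 / T * (ε / 4 * T) :=
          mul_le_mul_of_nonneg_left h4 (by positivity)
      _ = ε / 4 := by field_simp
  rw [Real.dist_eq] at hT1 ⊢
  rw [abs_le] at h1 h3
  rw [abs_lt] at hT1 ⊢
  constructor <;> linarith [h1.1, h1.2, h3.1, h3.2, hT1.1, hT1.2]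

end Pool.Agent.H203.MC
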