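import Pool.Agent.H203.MC.FIN

set_option autoImplicit false

/-! The statistics of the zeros of `L(s, χ)` at fixed distances are statistics of the zeros of `ζ`. -/

open Complex Filter Topology Set MeasureTheory

namespace Pool.Agent.H203.MC

open Pool.Agent.H203.ME (ee gR WR om FF KF C2c)
open Pool.Agent.H203.GE (Lf ZG XG)

lemma one_val (n : ℕ) : (1 : DirichletCharacter ℂ 1) n = 1 := by
  have : IsUnit ((n : ZMod 1)) := isUnit_of_subsingleton _
  exact MulChar.one_apply this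

lemma one_prim : (1 : DirichletCharacter ℂ 1).IsPrimitive := DirichletCharacter.isPrimitive_one_level_one

theorem fin2 (hF : S_REF) (hL : S_ML) (hM : S_MM) (hR : S_RN) (hE : S_EQD) (hV : S_VR) (hG : S_GX) (hA : S_AS)
    (hI : S_IN) (q : ℕ) [hq : NeZero q] (χ : DirichletCharacter ℂ q) (hχ : χ.IsPrimitive) (F : ℝ → ℝ)
    (hFd : ContDiff ℝ 2 F) (hFs : HasCompactSupport F) {ε : ℝ} (hε : 0 < ε) :
    ∃ F' : ℝ → ℝ, ContDiff ℝ 2 F' ∧ HasCompactSupport F' ∧ ∀ᶠ T : ℝ in atTop, 1 / T * ∫ t in T..(2 * T),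
      (XM (DirichletCharacter.LFunction χ) q F t -
        XM (DirichletCharacter.LFunction (1 : DirichletCharacter ℂ 1)) 1 F' t) ^ 2 ≤ ε := by
  have hlf := Pool.Agent.H203.GE.t_LFX q χ hχ
  have hu : ∀ n, ‖(fun n : ℕ => χ n) n‖ ≤ 1 := hlf.le1
  obtain ⟨F', hd', hs', hN⟩ := hI (fun n : ℕ => χ n) hu F hFd hFs ε hε
  refine ⟨F', hd', hs', ?_⟩
  set qq : Fin 2 → ℕ := ![q, 1] with hqq
  have hqn : ∀ j, NeZero (qq j) := by
    intro j
    fin_cases j
    · exact hq
    · exact ⟨one_ne_zero⟩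
  set cc : (j : Fin 2) → DirichletCharacter ℂ (qq j) := Fin.cons χ (Fin.cons (1 : DirichletCharacter ℂ 1) finZeroElim)
    with hcc
  have hc0 : cc 0 = χ := rfl
  have hc1 : cc 1 = (1 : DirichletCharacter ℂ 1) := rfl
  have hprim : ∀ j, (cc j).IsPrimitive := by
    intro j
    fin_cases j
    · exact hχ
    · exact one_prim
  set FF2 : Fin 2 → ℝ → ℝ := ![F, F'] with hFF2
  have hdd : ∀ j, ContDiff ℝ 2 (FF2 j) := by
    intro j
    fin_cases j
    · exact hFd
    · exact hd'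
  have hss : ∀ j, HasCompactSupport (FF2 j) := by
    intro j
    fin_cases j
    · exact hFs
    · exact hs'
  obtain ⟨X, hXm, hXi, hXt, hXc, hX⟩ := fin1 hF hL hM hR hE hV hG hA 2 qq hqn cc hprim FF2 hdd hss
  have hΦ := hX (fun x => (x 0 - x 1) ^ 2) (by fun_prop) ⟨4, 2, fun x => by
    have h0 : |x 0| ≤ ‖x‖ := norm_le_pi_norm x 0
    have h1 : |x 1| ≤ ‖x‖ := norm_le_pi_norm x 1
    rw [abs_of_nonneg (sq_nonneg _)]
    have h2 : |x 0 - x 1| ≤ 2 * ‖x‖ := by
      refine (abs_sub _ _).trans ?_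
      linarith
    have h3 := norm_nonneg x
    have h4 : (x 0 - x 1) ^ 2 ≤ (2 * ‖x‖) ^ 2 := by
      rw [← sq_abs (x 0 - x 1)]
      exact pow_le_pow_left₀ (abs_nonneg _) h2 2
    nlinarith⟩
  -- the value of the limit
  have hsq : ∀ j, Integrable (fun ω => X j ω ^ 2) PM := fun j => by
    have := hXi j 2
    simpa [sq_abs] using this
  have hm2 : ∀ j, MemLp (X j) 2 PM := fun j => (memLp_two_iff_integrable_sq (hXm j).aestronglyMeasurable).2 (hsq j)
  have hlim : ∫ ω, (X 0 ω - X 1 ω) ^ 2 ∂PM ≤ ε / 2 := by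
    have e1 : ∫ ω, (X 0 ω - X 1 ω) ^ 2 ∂PM =
        (∫ ω, X 0 ω * X 0 ω ∂PM) - (∫ ω, X 0 ω * X 1 ω ∂PM) - (∫ ω, X 1 ω * X 0 ω ∂PM) + ∫ ω, X 1 ω * X 1 ω ∂PM := by
      have i00 : Integrable (fun ω => X 0 ω * X 0 ω) PM := (hm2 0).integrable_mul (hm2 0)
      have i01 : Integrable (fun ω => X 0 ω * X 1 ω) PM := (hm2 0).integrable_mul (hm2 1)
      have i10 : Integrable (fun ω => X 1 ω * X 0 ω) PM := (hm2 1).integrable_mul (hm2 0)
      have i11 : Integrable (fun ω => X 1 ω * X 1 ω) PM := (hm2 1).integrable_mul (hm2 1)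
      have j1 : Integrable (fun ω => X 0 ω * X 0 ω - X 0 ω * X 1 ω) PM := i00.sub i01
      have j2 : Integrable (fun ω => X 0 ω * X 0 ω - X 0 ω * X 1 ω - X 1 ω * X 0 ω) PM := j1.sub i10
      rw [← integral_sub i00 i01, ← integral_sub j1 i10, ← integral_add j2 i11]
      refine integral_congr_ae (Eventually.of_forall fun ω => ?_)
      simp only
      ring
    rw [e1]
    have hT := (((hXc 0 0).sub (hXc 0 1)).sub (hXc 1 0)).add (hXc 1 1)
    refine le_of_tendsto hT (Eventually.of_forall fun N => ?_)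
    rw [← mul_sub, ← mul_sub, ← mul_add, ← Finset.sum_sub_distrib, ← Finset.sum_sub_distrib, ← Finset.sum_add_distrib]
    have hle := hN N
    have hterm : ∀ n ∈ Finset.Icc 1 N,
        (co (fun n : ℕ => cc 0 n) (FF2 0) n * (starRingEnd ℂ) (co (fun n : ℕ => cc 0 n) (FF2 0) n)).re -
        (co (fun n : ℕ => cc 0 n) (FF2 0) n * (starRingEnd ℂ) (co (fun n : ℕ => cc 1 n) (FF2 1) n)).re -
        (co (fun n : ℕ => cc 1 n) (FF2 1) n * (starRingEnd ℂ) (co (fun n : ℕ => cc 0 n) (FF2 0) n)).re +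
        (co (fun n : ℕ => cc 1 n) (FF2 1) n * (starRingEnd ℂ) (co (fun n : ℕ => cc 1 n) (FF2 1) n)).re ≤
        (ArithmeticFunction.vonMangoldt n) ^ 2 / n * ‖χ n * FF F (Real.log n) - FF F' (Real.log n)‖ ^ 2 := by
      intro n hn
      have hn1 : 1 ≤ n := (Finset.mem_Icc.1 hn).1
      have hn0 : (0 : ℝ) < n := by exact_mod_cast hn1
      set a := co (fun n : ℕ => cc 0 n) (FF2 0) n with ha
      set b := co (fun n : ℕ => cc 1 n) (FF2 1) n with hb
      have e2 : (a * (starRingEnd ℂ) a).re - (a * (starRingEnd ℂ) b).re - (b * (starRingEnd ℂ) a).re +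
          (b * (starRingEnd ℂ) b).re = ‖a - b‖ ^ 2 := by
        rw [← Complex.normSq_eq_norm_sq, Complex.normSq_apply]
        simp only [Complex.mul_re, Complex.conj_re, Complex.conj_im, Complex.sub_re, Complex.sub_im]
        ring
      rw [e2]
      have e3 : a - b = -(((1 / Real.pi * (ArithmeticFunction.vonMangoldt n / Real.sqrt n) : ℝ) : ℂ) *
          (χ n * FF F (Real.log n) - FF F' (Real.log n))) := by
        have e4 : a = -(((1 / Real.pi * (ArithmeticFunction.vonMangoldt n / Real.sqrt n) : ℝ) : ℂ) *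
          FF F (Real.log n) * χ n) := rfl
        have e5 : b = -(((1 / Real.pi * (ArithmeticFunction.vonMangoldt n / Real.sqrt n) : ℝ) : ℂ) *
          FF F' (Real.log n) * (1 : DirichletCharacter ℂ 1) n) := rfl
        rw [e4, e5, one_val]
        ring
      rw [e3, norm_neg, norm_mul, mul_pow]
      apply mul_le_mul_of_nonneg_right _ (sq_nonneg _)
      rw [Complex.norm_real, Real.norm_eq_abs, sq_abs, mul_pow, div_pow, div_pow, Real.sq_sqrt hn0.le, one_pow]
      have h6 : 1 / Real.pi ^ 2 ≤ 1 := by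
        rw [div_le_one (by positivity)]
        nlinarith [Real.pi_gt_three]
      have h7 : 0 ≤ (ArithmeticFunction.vonMangoldt n) ^ 2 / (n : ℝ) := by positivity
      nlinarith
    have hsum := Finset.sum_le_sum hterm
    have : 1 / 2 * (∑ i ∈ Finset.Icc 1 N, ((co (fun n : ℕ => cc 0 n) (FF2 0) i * (starRingEnd ℂ) (co (fun n : ℕ => cc 0 n) (FF2 0) i)).re -
        (co (fun n : ℕ => cc 0 n) (FF2 0) i * (starRingEnd ℂ) (co (fun n : ℕ => cc 1 n) (FF2 1) i)).re -
        (co (fun n : ℕ => cc 1 n) (FF2 1) i * (starRingEnd ℂ) (co (fun n : ℕ => cc 0 n) (FF2 0) i)).re +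
        (co (fun n : ℕ => cc 1 n) (FF2 1) i * (starRingEnd ℂ) (co (fun n : ℕ => cc 1 n) (FF2 1) i)).re)) ≤ 1 / 2 * ε := by
      have := hsum.trans hle
      linarith
    calc _ ≤ 1 / 2 * ε := this
      _ = ε / 2 := by ring
  have hfin := hΦ.eventually (gt_mem_nhds (lt_of_le_of_lt hlim (by linarith : ε / 2 < ε)))
  filter_upwards [hfin] with T hT
  refine le_trans (le_of_eq ?_) hT.le
  congr 1
  apply intervalIntegral.integral_congr
  intro t _
  simp only
  have e6 : XM (@DirichletCharacter.LFunction (qq 1) (hqn 1) (cc 1)) (qq 1) (FF2 1) t =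
      XM (DirichletCharacter.LFunction (1 : DirichletCharacter ℂ 1)) 1 F' t := by
    have : ((qq 1 : ℕ) : ℝ) = 1 := by simp [hqq]
    rw [this]
    rfl
  rw [e6]
  rfl

end Pool.Agent.H203.MC
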