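import Pool.Agent.H203.MC.Defs

set_option autoImplicit false

/-! (GX) the limit of the random sums (helper627 for helper203). -/

open Complex Filter Topology Set MeasureTheory
open scoped ENNReal

namespace Pool.Agent.H203.MC

open Pool.Agent.H203.ME (FF)

namespace GXL

instance : IsProbabilityMeasure PM := by
  unfold PM
  infer_instance

/-- the coefficients -/
noncomputable def cf (u : ℕ → ℂ) (F : ℝ → ℝ) (n : ℕ) : ℂ :=
  ((1 / Real.pi * (ArithmeticFunction.vonMangoldt n / Real.sqrt n) : ℝ) : ℂ) * FF F (Real.log n) * u n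

lemma Zs_eq (u : ℕ → ℂ) (F : ℝ → ℝ) (N : ℕ) (x : ℕ → ℂ) :
    Zs u F N x = (∑ n ∈ Finset.Icc 1 N, cf u F n * x n).re := by
  unfold Zs cf
  congr 1
  refine Finset.sum_congr rfl fun n _ => ?_
  ring

/-- the terms of the convergent series -/
noncomputable def at2 (F : ℝ → ℝ) (n : ℕ) : ℝ :=
  (ArithmeticFunction.vonMangoldt n) ^ 2 / n * ‖FF F (Real.log n)‖ ^ 2

lemma at2_nonneg (F : ℝ → ℝ) (n : ℕ) : 0 ≤ at2 F n := by
  unfold at2
  positivity

lemma cf_sq {u : ℕ → ℂ} (hu : ∀ n, ‖u n‖ ≤ 1) (F : ℝ → ℝ) (n : ℕ) : ‖cf u F n‖ ^ 2 ≤ at2 F n := by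
  unfold cf at2
  have e : (ArithmeticFunction.vonMangoldt n / Real.sqrt n) ^ 2 =
      ArithmeticFunction.vonMangoldt n ^ 2 / n := by
    rw [div_pow, Real.sq_sqrt (Nat.cast_nonneg n)]
  rw [norm_mul, norm_mul, mul_pow, mul_pow, Complex.norm_real, Real.norm_eq_abs, sq_abs, mul_pow, e]
  have h1 : (1 / Real.pi) ^ 2 ≤ 1 := by
    rw [div_pow, one_pow, div_le_one (by positivity)]
    have := Real.pi_gt_three
    nlinarith
  have h2 : ‖u n‖ ^ 2 ≤ 1 := pow_le_one₀ (norm_nonneg _) (hu n)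
  have h3 : 0 ≤ (ArithmeticFunction.vonMangoldt n) ^ 2 / (n : ℝ) := by positivity
  have h4 : 0 ≤ ‖FF F (Real.log n)‖ ^ 2 := by positivity
  calc (1 / Real.pi) ^ 2 * ((ArithmeticFunction.vonMangoldt n) ^ 2 / (n : ℝ)) * ‖FF F (Real.log n)‖ ^ 2 *
        ‖u n‖ ^ 2 ≤
      1 * ((ArithmeticFunction.vonMangoldt n) ^ 2 / (n : ℝ)) * ‖FF F (Real.log n)‖ ^ 2 * 1 := by
        gcongr
    _ = _ := by ring

/-- the random sum -/
noncomputable def Wn (u : ℕ → ℂ) (F : ℝ → ℝ) (N : ℕ) (ω : Om) : ℝ := -Zs u F N (rn ω)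

lemma Wn_meas (hR : S_RN) (u : ℕ → ℂ) (F : ℝ → ℝ) (N : ℕ) : Measurable (Wn u F N) := by
  have h : Wn u F N = fun ω => -(∑ n ∈ Finset.Icc 1 N, cf u F n * rn ω n).re := by
    funext ω
    unfold Wn
    rw [Zs_eq]
  rw [h]
  refine (Complex.measurable_re.comp ?_).neg
  exact Finset.measurable_fun_sum _ fun n _ => (hR.1 n).const_mul _

lemma Wn_bd (hR : S_RN) (u : ℕ → ℂ) (F : ℝ → ℝ) (N : ℕ) (ω : Om) :
    ‖Wn u F N ω‖ ≤ ∑ n ∈ Finset.Icc 1 N, ‖cf u F n‖ := by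
  unfold Wn
  rw [Zs_eq, norm_neg, Real.norm_eq_abs]
  refine (Complex.abs_re_le_norm _).trans ((norm_sum_le _ _).trans ?_)
  refine Finset.sum_le_sum fun n _ => ?_
  rw [norm_mul, hR.2.1, mul_one]

lemma Wn_memLp (hR : S_RN) (u : ℕ → ℂ) (F : ℝ → ℝ) (N : ℕ) (p : ℝ≥0∞) : MemLp (Wn u F N) p PM :=
  MemLp.of_bound (Wn_meas hR u F N).aestronglyMeasurable _ (ae_of_all _ fun ω => Wn_bd hR u F N ω)

/-- the square of the norm -/
lemma dsq {f g : Om → ℝ} (hf : MemLp f 2 PM) (hg : MemLp g 2 PM) :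
    dist (hf.toLp f) (hg.toLp g) ^ 2 = ∫ ω, (f ω - g ω) ^ 2 ∂PM := by
  have h1 : dist (hf.toLp f) (hg.toLp g) = (eLpNorm (f - g) 2 PM).toReal := by
    rw [dist_eq_norm, ← MemLp.toLp_sub, Lp.norm_toLp]
  have h2 := (hf.sub hg).eLpNorm_eq_integral_rpow_norm (by norm_num) (by norm_num)
  rw [h1, h2]
  have h3 : (2 : ℝ≥0∞).toReal = 2 := by norm_num
  rw [h3]
  have h4 : ∀ ω, ‖(f - g) ω‖ ^ (2 : ℝ) = (f ω - g ω) ^ 2 := by
    intro ω
    rw [show (2 : ℝ) = ((2 : ℕ) : ℝ) by norm_num, Real.rpow_natCast, Real.norm_eq_abs, sq_abs]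
    rfl
  simp_rw [h4]
  have h5 : 0 ≤ ∫ ω, (f ω - g ω) ^ 2 ∂PM := integral_nonneg fun ω => sq_nonneg _
  rw [ENNReal.toReal_ofReal (Real.rpow_nonneg h5 _), ← Real.rpow_natCast, ← Real.rpow_mul h5]
  norm_num

/-- the variance of the differences -/
lemma var_le (hV : S_VR) {u : ℕ → ℂ} (hu : ∀ n, ‖u n‖ ≤ 1) (F : ℝ → ℝ) {M N : ℕ} (h : M ≤ N) :
    ∫ ω, (Wn u F M ω - Wn u F N ω) ^ 2 ∂PM ≤
      ∑ n ∈ Finset.range (N + 1), at2 F n - ∑ n ∈ Finset.range (M + 1), at2 F n := by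
  have hN : Finset.Icc 1 M ⊆ Finset.Icc 1 N := Finset.Icc_subset_Icc le_rfl h
  have h1 : ∀ ω, Wn u F M ω - Wn u F N ω =
      (∑ n ∈ Finset.Icc 1 N, (if n ≤ M then 0 else cf u F n) * rn ω n).re := by
    intro ω
    have e1 : ∑ n ∈ Finset.Icc 1 N, (if n ≤ M then 0 else cf u F n) * rn ω n =
        ∑ n ∈ Finset.Icc 1 N, cf u F n * rn ω n - ∑ n ∈ Finset.Icc 1 M, cf u F n * rn ω n := by
      have e2 : ∑ n ∈ Finset.Icc 1 M, cf u F n * rn ω n =
          ∑ n ∈ Finset.Icc 1 N, (if n ≤ M then cf u F n * rn ω n else 0) := by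
        rw [← Finset.sum_filter]
        refine Finset.sum_congr ?_ fun _ _ => rfl
        ext n
        simp only [Finset.mem_filter, Finset.mem_Icc]
        omega
      rw [e2, ← Finset.sum_sub_distrib]
      refine Finset.sum_congr rfl fun n _ => ?_
      split_ifs <;> simp
    unfold Wn
    rw [Zs_eq, Zs_eq, e1, Complex.sub_re]
    ring
  simp_rw [h1, sq]
  rw [hV N _ _ (by
    have : cf u F 1 = 0 := by
      unfold cf
      simp
    simp [this])]
  have h2 : ∑ n ∈ Finset.Icc 1 N, ((if n ≤ M then 0 else cf u F n) *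
      (starRingEnd ℂ) (if n ≤ M then 0 else cf u F n)).re ≤
      ∑ n ∈ Finset.Icc 1 N, (if n ≤ M then 0 else at2 F n) := by
    refine Finset.sum_le_sum fun n _ => ?_
    split_ifs
    · simp
    · rw [Complex.mul_conj, Complex.ofReal_re, Complex.normSq_eq_norm_sq]
      exact cf_sq hu F n
  have h3 : ∑ n ∈ Finset.Icc 1 N, (if n ≤ M then 0 else at2 F n) =
      ∑ n ∈ Finset.range (N + 1), at2 F n - ∑ n ∈ Finset.range (M + 1), at2 F n := by
    have e1 : ∑ n ∈ Finset.range (M + 1), at2 F n =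
        ∑ n ∈ Finset.range (N + 1), (if n ≤ M then at2 F n else 0) := by
      rw [← Finset.sum_filter]
      refine Finset.sum_congr ?_ fun _ _ => rfl
      ext n
      simp only [Finset.mem_filter, Finset.mem_range]
      omega
    rw [e1, ← Finset.sum_sub_distrib]
    have e2 : ∀ n ∈ Finset.range (N + 1), at2 F n - (if n ≤ M then at2 F n else 0) =
        if n ≤ M then 0 else at2 F n := by
      intro n _
      split_ifs <;> simp
    rw [Finset.sum_congr rfl e2]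
    refine Finset.sum_subset ?_ ?_
    · intro n hn
      rw [Finset.mem_Icc] at hn
      rw [Finset.mem_range]
      omega
    · intro n hn hn'
      rw [Finset.mem_range] at hn
      rw [Finset.mem_Icc] at hn'
      rw [if_pos (by omega)]
  have h4 : 0 ≤ ∑ n ∈ Finset.Icc 1 N, (if n ≤ M then 0 else at2 F n) := by
    refine Finset.sum_nonneg fun n _ => ?_
    split_ifs
    · exact le_rfl
    · exact at2_nonneg F n
  rw [← h3]
  linarith

end GXL

open GXL in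
theorem t_GX (hR : S_RN) (hV : S_VR) (hT : S_TL) (hH : S_HY) : S_GX := by
  intro u hu F hF hFs
  have hsum : Summable (at2 F) := hT F hF hFs
  obtain ⟨A, hA⟩ : ∃ A, A = ∑' n, at2 F n := ⟨_, rfl⟩
  obtain ⟨f, hf⟩ : ∃ f : ℕ → Lp ℝ 2 PM, f = fun N => (Wn_memLp hR u F N 2).toLp (Wn u F N) := ⟨_, rfl⟩
  have hfN : ∀ N, f N = (Wn_memLp hR u F N 2).toLp (Wn u F N) := fun N => by rw [hf]
  -- Cauchy
  have hb : Tendsto (fun M : ℕ => Real.sqrt (A - ∑ n ∈ Finset.range (M + 1), at2 F n)) atTop (𝓝 0) := by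
    have h1 : Tendsto (fun M : ℕ => ∑ n ∈ Finset.range (M + 1), at2 F n) atTop (𝓝 A) := by
      rw [hA]
      exact hsum.hasSum.tendsto_sum_nat.comp (tendsto_add_atTop_nat 1)
    have h2 := (tendsto_const_nhds (x := A)).sub h1
    rw [sub_self] at h2
    have h3 := (Real.continuous_sqrt.tendsto 0).comp h2
    rw [Real.sqrt_zero] at h3
    exact h3
  have hcau : CauchySeq f := by
    refine cauchySeq_of_le_tendsto_0' _ (fun M N hMN => ?_) hb
    refine Real.le_sqrt_of_sq_le ?_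
    rw [hfN, hfN, dsq]
    refine (var_le hV hu F hMN).trans ?_
    have h1 := hsum.sum_le_tsum (Finset.range (N + 1)) (fun n _ => at2_nonneg F n)
    rw [← hA] at h1
    linarith
  obtain ⟨g, hg⟩ := cauchySeq_tendsto_of_complete hcau
  have hgm : MemLp (g : Om → ℝ) 2 PM := Lp.memLp g
  refine ⟨g, (Lp.stronglyMeasurable g).measurable, ?_, ?_⟩
  · -- the moments
    obtain ⟨ns, -, hns⟩ := (tendstoInMeasure_of_tendsto_Lp hg).exists_seq_tendsto_ae
    intro m
    rcases Nat.eq_zero_or_pos m with rfl | hm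
    · simp only [pow_zero]
      exact integrable_const _
    obtain ⟨C, hC⟩ := hH m F hF hFs
    have hCu := hC u hu
    have hC0 : 0 ≤ C := by
      refine le_trans (integral_nonneg fun ω => ?_) (hCu 0)
      rw [pow_mul]
      positivity
    have h2m : ((2 * m : ℕ) : ℝ≥0∞) ≠ 0 := by
      rw [Nat.cast_ne_zero]
      omega
    have h2m' : ((2 * m : ℕ) : ℝ≥0∞) ≠ ⊤ := ENNReal.natCast_ne_top _
    have hbd : ∀ N, eLpNorm (f N) ((2 * m : ℕ) : ℝ≥0∞) PM ≤
        ENNReal.ofReal (C ^ ((2 * m : ℕ) : ℝ)⁻¹) := by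
      intro N
      have e1 : (f N : Om → ℝ) =ᵐ[PM] Wn u F N := by
        rw [hfN]
        exact MemLp.coeFn_toLp _
      rw [eLpNorm_congr_ae e1,
        (Wn_memLp hR u F N _).eLpNorm_eq_integral_rpow_norm h2m h2m', ENNReal.toReal_natCast]
      refine ENNReal.ofReal_le_ofReal (Real.rpow_le_rpow (integral_nonneg fun ω => by positivity) ?_
        (by positivity))
      have e2 : ∀ ω, ‖Wn u F N ω‖ ^ ((2 * m : ℕ) : ℝ) = (Zs u F N (rn ω)) ^ (2 * m) := by
        intro ω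
        rw [Real.rpow_natCast, Real.norm_eq_abs]
        unfold Wn
        rw [abs_neg, pow_mul, sq_abs, ← pow_mul]
      simp_rw [e2]
      exact hCu N
    have hlim := Lp.eLpNorm_lim_le_liminf_eLpNorm (p := ((2 * m : ℕ) : ℝ≥0∞)) (μ := PM)
      (f := fun i => (f (ns i) : Om → ℝ)) (fun i => (Lp.memLp (f (ns i))).1) (g : Om → ℝ) hns
    have hlim2 : eLpNorm (g : Om → ℝ) ((2 * m : ℕ) : ℝ≥0∞) PM ≤ ENNReal.ofReal (C ^ ((2 * m : ℕ) : ℝ)⁻¹) := by
      refine hlim.trans (Filter.liminf_le_of_le ?_ ?_)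
      · isBoundedDefault
      · intro b hb
        obtain ⟨i, hi⟩ := hb.exists
        exact hi.trans (hbd _)
    have hmem : MemLp (g : Om → ℝ) ((2 * m : ℕ) : ℝ≥0∞) PM := ⟨hgm.1, hlim2.trans_lt ENNReal.ofReal_lt_top⟩
    have hmem2 : MemLp (g : Om → ℝ) ((m : ℕ) : ℝ≥0∞) PM := hmem.mono_exponent (by
      exact_mod_cast (by omega : m ≤ 2 * m))
    exact hmem2.integrable_norm_pow (by omega)
  · have h1 : ∀ N, ∫ ω, ((g : Om → ℝ) ω - -Zs u F N (rn ω)) ^ 2 ∂PM = dist g (f N) ^ 2 := by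
      intro N
      have h2 := dsq hgm (Wn_memLp hR u F N 2)
      rw [Lp.toLp_coeFn, ← hfN] at h2
      rw [h2]
      rfl
    simp_rw [h1]
    have h3 : Tendsto (fun N => dist g (f N)) atTop (𝓝 0) := by
      have h4 := tendsto_iff_dist_tendsto_zero.1 hg
      simp_rw [dist_comm] at h4 ⊢
      exact h4
    have h5 := h3.pow 2
    rw [zero_pow (by norm_num)] at h5
    exact h5

end Pool.Agent.H203.MC
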