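import Pool.Agent.H203.MC.Defs

set_option autoImplicit false

/-! (HY) the moments of the random sums are bounded. -/

open Complex Filter Topology Set MeasureTheory

namespace Pool.Agent.H203.MC

open Pool.Agent.H203.ME (ee gR WR om FF KF C2c)
open Pool.Agent.H203.GE (Lf ZG XG)

namespace HYL

theorem prob : IsProbabilityMeasure PM := by
  unfold PM
  infer_instance

/-- the number of the sequences with a given product -/
theorem count {A : Finset ℕ} (hA1 : ∀ a ∈ A, 1 < a)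
    (hA : ∀ a ∈ A, ∀ b ∈ A, a ≠ b → a.Coprime b) (m : ℕ) (f : Fin m → ℕ)
    (hf : f ∈ Fintype.piFinset (fun _ : Fin m => A)) :
    ((Fintype.piFinset (fun _ : Fin m => A)).filter (fun g => ∏ i, g i = ∏ i, f i)).card ≤
      m ^ m := by
  have hsub : (Fintype.piFinset (fun _ : Fin m => A)).filter (fun g => ∏ i, g i = ∏ i, f i) ⊆
      Fintype.piFinset (fun _ : Fin m => Finset.univ.image f) := by
    intro g hg
    rw [Finset.mem_filter, Fintype.mem_piFinset] at hg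
    rw [Fintype.mem_piFinset] at hf ⊢
    intro i
    by_contra hi
    have h1 : ∀ j, (g i).Coprime (f j) := by
      intro j
      refine hA _ (hg.1 i) _ (hf j) fun h0 => hi ?_
      rw [h0]
      exact Finset.mem_image_of_mem f (Finset.mem_univ j)
    have h2 : (g i).Coprime (∏ j, f j) := Nat.Coprime.prod_right fun j _ => h1 j
    have h3 : g i ∣ ∏ j, f j := by
      rw [← hg.2]
      exact Finset.dvd_prod_of_mem g (Finset.mem_univ i)
    have h4 := Nat.Coprime.eq_one_of_dvd h2 h3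
    have h5 := hA1 _ (hg.1 i)
    omega
  refine (Finset.card_le_card hsub).trans ?_
  rw [Fintype.card_piFinset, Finset.prod_const, Finset.card_univ, Fintype.card_fin]
  apply Nat.pow_le_pow_left
  refine Finset.card_image_le.trans ?_
  rw [Finset.card_univ, Fintype.card_fin]

theorem rn_prod (h : S_RN) (ω : Om) {m : ℕ} (f : Fin m → ℕ) (hf : ∀ i, f i ≠ 0) :
    rn ω (∏ i, f i) = ∏ i, rn ω (f i) := by
  have h1 : rn ω 1 = 1 := by simp [rn]
  have h2 : ∀ s : Finset (Fin m), rn ω (∏ i ∈ s, f i) = ∏ i ∈ s, rn ω (f i) := by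
    intro s
    induction s using Finset.induction_on with
    | empty => simpa using h1
    | insert a s ha ih =>
      rw [Finset.prod_insert ha, Finset.prod_insert ha, h.2.2.1 ω _ _ (hf a)
        (Finset.prod_ne_zero_iff.2 fun i _ => hf i), ih]
  exact h2 Finset.univ

/-- moments of sums over pairwise coprime numbers -/
theorem moment (h : S_RN) {A : Finset ℕ} (hA1 : ∀ a ∈ A, 1 < a)
    (hA : ∀ a ∈ A, ∀ b ∈ A, a ≠ b → a.Coprime b) (c : ℕ → ℂ) (m : ℕ) :
    ∫ ω, ‖∑ n ∈ A, c n * rn ω n‖ ^ (2 * m) ∂PM ≤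
      (m : ℝ) ^ m * (∑ n ∈ A, ‖c n‖ ^ 2) ^ m := by
  classical
  have hP := prob
  set T := Fintype.piFinset (fun _ : Fin m => A) with hT
  set K : (Fin m → ℕ) → ℂ := fun f => ∏ i, c (f i) with hK
  set M : (Fin m → ℕ) → ℕ := fun f => ∏ i, f i with hM
  have hne : ∀ f ∈ T, ∀ i, f i ≠ 0 := by
    intro f hf i
    have := hA1 _ (Fintype.mem_piFinset.1 hf i)
    omega
  have hMne : ∀ f ∈ T, M f ≠ 0 := fun f hf => Finset.prod_ne_zero_iff.2 fun i _ => hne f hf i
  have hpow : ∀ ω, (∑ n ∈ A, c n * rn ω n) ^ m = ∑ f ∈ T, K f * rn ω (M f) := by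
    intro ω
    have h1 := Finset.prod_univ_sum (fun _ : Fin m => A) (fun _ n => c n * rn ω n)
    rw [Finset.prod_const, Finset.card_univ, Fintype.card_fin] at h1
    rw [h1]
    refine Finset.sum_congr rfl fun f hf => ?_
    rw [Finset.prod_mul_distrib, hK, hM, rn_prod h ω f (hne f hf)]
  have hsq : ∀ ω, ‖∑ n ∈ A, c n * rn ω n‖ ^ (2 * m) =
      (∑ f ∈ T, ∑ g ∈ T, (K f * (starRingEnd ℂ) (K g)) *
        (rn ω (M f) * (starRingEnd ℂ) (rn ω (M g)))).re := by
    intro ω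
    rw [mul_comm 2 m, pow_mul, ← norm_pow, hpow, ← Complex.normSq_eq_norm_sq,
      ← Complex.ofReal_re (Complex.normSq _), ← Complex.mul_conj, map_sum, Finset.sum_mul_sum]
    congr 1
    refine Finset.sum_congr rfl fun f _ => Finset.sum_congr rfl fun g _ => ?_
    rw [map_mul]
    ring
  have hmeas : ∀ a b : ℕ, Measurable fun ω : Om => rn ω a * (starRingEnd ℂ) (rn ω b) := by
    intro a b
    exact (h.1 a).mul (Complex.continuous_conj.measurable.comp (h.1 b))
  have hint : ∀ a b : ℕ, Integrable (fun ω : Om => rn ω a * (starRingEnd ℂ) (rn ω b)) PM := by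
    intro a b
    refine Integrable.of_bound (hmeas a b).aestronglyMeasurable 1 (ae_of_all _ fun ω => ?_)
    rw [norm_mul, RCLike.norm_conj, h.2.1, h.2.1, mul_one]
  have hInt : ∫ ω, (∑ f ∈ T, ∑ g ∈ T, (K f * (starRingEnd ℂ) (K g)) *
        (rn ω (M f) * (starRingEnd ℂ) (rn ω (M g)))) ∂PM =
      ∑ f ∈ T, ∑ g ∈ T, (K f * (starRingEnd ℂ) (K g)) * (if M f = M g then 1 else 0) := by
    rw [integral_finsetSum _ fun f _ => integrable_finsetSum _ fun g _ =>
      (hint _ _).const_mul _]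
    refine Finset.sum_congr rfl fun f hf => ?_
    rw [integral_finsetSum _ fun g _ => (hint _ _).const_mul _]
    refine Finset.sum_congr rfl fun g hg => ?_
    rw [integral_const_mul, h.2.2.2 _ _ (hMne f hf) (hMne g hg)]
  have hInt2 : Integrable (fun ω => ∑ f ∈ T, ∑ g ∈ T, (K f * (starRingEnd ℂ) (K g)) *
        (rn ω (M f) * (starRingEnd ℂ) (rn ω (M g)))) PM :=
    integrable_finsetSum _ fun f _ => integrable_finsetSum _ fun g _ =>
      (hint _ _).const_mul _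
  have h1 : ∫ ω, ‖∑ n ∈ A, c n * rn ω n‖ ^ (2 * m) ∂PM =
      (∑ f ∈ T, ∑ g ∈ T, (K f * (starRingEnd ℂ) (K g)) * (if M f = M g then 1 else 0)).re := by
    rw [integral_congr_ae (ae_of_all _ hsq), ← hInt]
    exact integral_re hInt2
  have hKK : ∑ f ∈ T, ‖K f‖ ^ 2 = (∑ n ∈ A, ‖c n‖ ^ 2) ^ m := by
    have h2 := Finset.prod_univ_sum (fun _ : Fin m => A) (fun _ n => ‖c n‖ ^ 2)
    rw [Finset.prod_const, Finset.card_univ, Fintype.card_fin] at h2
    rw [h2]
    refine Finset.sum_congr rfl fun f _ => ?_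
    rw [hK, norm_prod, Finset.prod_pow]
  rw [h1]
  calc (∑ f ∈ T, ∑ g ∈ T, (K f * (starRingEnd ℂ) (K g)) * (if M f = M g then 1 else 0)).re
      ≤ ‖∑ f ∈ T, ∑ g ∈ T, (K f * (starRingEnd ℂ) (K g)) * (if M f = M g then 1 else 0)‖ :=
        Complex.re_le_norm _
    _ ≤ ∑ f ∈ T, ∑ g ∈ T, ‖(K f * (starRingEnd ℂ) (K g)) * (if M f = M g then 1 else 0)‖ :=
        (norm_sum_le _ _).trans (Finset.sum_le_sum fun f _ => norm_sum_le _ _)
    _ ≤ ∑ f ∈ T, ∑ g ∈ T, ((if M f = M g then ‖K f‖ ^ 2 / 2 else 0) +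
        (if M f = M g then ‖K g‖ ^ 2 / 2 else 0)) := by
        refine Finset.sum_le_sum fun f _ => Finset.sum_le_sum fun g _ => ?_
        split_ifs with h3
        · rw [mul_one, norm_mul, RCLike.norm_conj]
          nlinarith [sq_nonneg (‖K f‖ - ‖K g‖)]
        · simp
    _ = ∑ f ∈ T, ∑ g ∈ T, (if M f = M g then ‖K f‖ ^ 2 / 2 else 0) +
        ∑ g ∈ T, ∑ f ∈ T, (if M f = M g then ‖K g‖ ^ 2 / 2 else 0) := by
        simp only [Finset.sum_add_distrib]
        congr 1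
        exact Finset.sum_comm
    _ = ∑ f ∈ T, ((T.filter (fun g => M g = M f)).card : ℝ) * ‖K f‖ ^ 2 := by
        rw [← Finset.sum_add_distrib]
        refine Finset.sum_congr rfl fun f _ => ?_
        have e1 : ∀ g, (if M f = M g then ‖K f‖ ^ 2 / 2 else 0) =
            (if M g = M f then ‖K f‖ ^ 2 / 2 else 0) := by
          intro g
          by_cases h3 : M f = M g
          · rw [if_pos h3, if_pos h3.symm]
          · rw [if_neg h3, if_neg (Ne.symm h3)]
        simp only [e1]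
        rw [← Finset.sum_filter, Finset.sum_const, nsmul_eq_mul]
        ring
    _ ≤ ∑ f ∈ T, (m : ℝ) ^ m * ‖K f‖ ^ 2 := by
        refine Finset.sum_le_sum fun f hf => ?_
        apply mul_le_mul_of_nonneg_right _ (sq_nonneg _)
        exact_mod_cast count hA1 hA m f hf
    _ = (m : ℝ) ^ m * (∑ n ∈ A, ‖c n‖ ^ 2) ^ m := by
        rw [← Finset.mul_sum, hKK]

/-- the exponent of a prime power -/
def ke (n : ℕ) : ℕ := n.factorization n.minFac

theorem pp_eq {n : ℕ} (h : IsPrimePow n) : n.minFac ^ ke n = n :=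
  h.minFac_pow_factorization_eq

theorem pp_prime {n : ℕ} (h : IsPrimePow n) : n.minFac.Prime :=
  Nat.minFac_prime h.one_lt.ne'

theorem pp_pos {n : ℕ} (h : IsPrimePow n) : 1 ≤ ke n := by
  by_contra h0
  have h1 : ke n = 0 := by omega
  have h2 := pp_eq h
  rw [h1, pow_zero] at h2
  exact h.one_lt.ne h2

theorem pp_cop {a b : ℕ} (ha : IsPrimePow a) (hb : IsPrimePow b) (hk : ke a = ke b)
    (hab : a ≠ b) : a.Coprime b := by
  rw [← pp_eq ha, ← pp_eq hb]
  apply Nat.Coprime.pow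
  rw [Nat.coprime_primes (pp_prime ha) (pp_prime hb)]
  intro h0
  apply hab
  rw [← pp_eq ha, ← pp_eq hb, h0, hk]

/-- the size of the transform -/
theorem FF_bd (F : ℝ → ℝ) (ξ : ℝ) : ‖FF F ξ‖ ≤ ∫ x : ℝ, |F x| := by
  unfold FF
  refine (norm_integral_le_integral_norm _).trans (le_of_eq ?_)
  refine integral_congr_ae (ae_of_all _ fun x => ?_)
  simp only
  rw [norm_mul, Complex.norm_real, Real.norm_eq_abs, Complex.norm_exp]
  have : (-(((ξ * x : ℝ) : ℂ) * I)).re = 0 := by simp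
  rw [this, Real.exp_zero, mul_one]

theorem log_bd (p : ℕ) : Real.log p / (Real.sqrt p) ^ 3 ≤ 4 * (p : ℝ) ^ (-(5 / 4) : ℝ) := by
  rcases Nat.eq_zero_or_pos p with rfl | hp
  · simp
  have hp0 : (0 : ℝ) < p := by exact_mod_cast hp
  have h1 := Real.log_le_rpow_div hp0.le (show (0 : ℝ) < 1 / 4 by norm_num)
  have h2 : (Real.sqrt p) ^ 3 = (p : ℝ) ^ (3 / 2 : ℝ) := by
    rw [Real.sqrt_eq_rpow, ← Real.rpow_natCast, ← Real.rpow_mul hp0.le]
    norm_num
  rw [h2, div_le_iff₀ (by positivity), mul_assoc, ← Real.rpow_add hp0]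
  refine h1.trans (le_of_eq ?_)
  norm_num
  ring

theorem sum_h : Summable fun q : ℕ × ℕ =>
    (4 * (q.1 : ℝ) ^ (-(5 / 4) : ℝ)) * (1 / Real.sqrt 2) ^ q.2 := by
  have h1 : Summable fun p : ℕ => 4 * (p : ℝ) ^ (-(5 / 4) : ℝ) :=
    (Real.summable_nat_rpow.2 (by norm_num)).mul_left 4
  have hs : (1 : ℝ) < Real.sqrt 2 := by
    rw [Real.lt_sqrt (by norm_num)]
    norm_num
  have h2 : Summable fun k : ℕ => (1 / Real.sqrt 2) ^ k := by
    apply summable_geometric_of_lt_one (by positivity)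
    rw [div_lt_one (by linarith)]
    exact hs
  exact h1.mul_of_nonneg h2 (fun p => by positivity) (fun k => by positivity)

/-- prime powers with exponent at least three -/
theorem high : ∃ W : ℝ, 0 ≤ W ∧ ∀ A : Finset ℕ, (∀ n ∈ A, IsPrimePow n ∧ 3 ≤ ke n) →
    ∑ n ∈ A, ArithmeticFunction.vonMangoldt n / Real.sqrt n ≤ W := by
  classical
  refine ⟨∑' q : ℕ × ℕ, (4 * (q.1 : ℝ) ^ (-(5 / 4) : ℝ)) * (1 / Real.sqrt 2) ^ q.2,
    tsum_nonneg fun q => by positivity, fun A hA => ?_⟩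
  have hterm : ∀ n ∈ A, ArithmeticFunction.vonMangoldt n / Real.sqrt n ≤
      (4 * (n.minFac : ℝ) ^ (-(5 / 4) : ℝ)) * (1 / Real.sqrt 2) ^ (ke n - 3) := by
    intro n hn
    obtain ⟨h1, h2⟩ := hA n hn
    have hp := pp_prime h1
    rw [ArithmeticFunction.vonMangoldt_apply, if_pos h1]
    obtain ⟨j, hj⟩ : ∃ j, ke n = j + 3 := ⟨ke n - 3, by omega⟩
    have e1 : (n : ℝ) = (n.minFac : ℝ) ^ (j + 3) := by
      rw [← hj]
      exact_mod_cast (pp_eq h1).symm
    have hp2 : (2 : ℝ) ≤ n.minFac := by exact_mod_cast hp.two_le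
    have hsp : Real.sqrt 2 ≤ Real.sqrt (n.minFac : ℝ) := Real.sqrt_le_sqrt hp2
    have hs2 : 0 < Real.sqrt 2 := by positivity
    have hsp0 : 0 < Real.sqrt (n.minFac : ℝ) := lt_of_lt_of_le hs2 hsp
    have e2 : Real.sqrt (n : ℝ) = Real.sqrt (n.minFac : ℝ) ^ 3 * Real.sqrt (n.minFac : ℝ) ^ j := by
      rw [e1, ← pow_add, add_comm 3 j]
      rw [Real.sqrt_eq_iff_mul_self_eq (by positivity) (by positivity), ← mul_pow,
        Real.mul_self_sqrt (by positivity)]
    rw [e2, hj, Nat.add_sub_cancel, ← div_div]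
    have hlog : 0 ≤ Real.log (n.minFac : ℝ) := Real.log_nonneg (by linarith)
    have h3 := log_bd n.minFac
    calc Real.log (n.minFac : ℝ) / Real.sqrt (n.minFac : ℝ) ^ 3 / Real.sqrt (n.minFac : ℝ) ^ j
        ≤ (4 * (n.minFac : ℝ) ^ (-(5 / 4) : ℝ)) / Real.sqrt (n.minFac : ℝ) ^ j :=
          div_le_div_of_nonneg_right h3 (by positivity)
      _ ≤ (4 * (n.minFac : ℝ) ^ (-(5 / 4) : ℝ)) / Real.sqrt 2 ^ j := by
          apply div_le_div_of_nonneg_left (by positivity) (by positivity)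
          exact pow_le_pow_left₀ hs2.le hsp j
      _ = _ := by rw [one_div, inv_pow, div_eq_mul_inv]
  refine (Finset.sum_le_sum hterm).trans ?_
  have hinj : Set.InjOn (fun n : ℕ => (n.minFac, ke n - 3)) (A : Set ℕ) := by
    intro a ha b hb hab
    obtain ⟨h1, h2⟩ := hA a ha
    obtain ⟨h3, h4⟩ := hA b hb
    have e1 : a.minFac = b.minFac := congrArg Prod.fst hab
    have e2 : ke a - 3 = ke b - 3 := congrArg Prod.snd hab
    rw [← pp_eq h1, ← pp_eq h3, e1]
    congr 1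
    omega
  have h5 : ∑ n ∈ A, (4 * (n.minFac : ℝ) ^ (-(5 / 4) : ℝ)) * (1 / Real.sqrt 2) ^ (ke n - 3) =
      ∑ q ∈ A.image (fun n : ℕ => (n.minFac, ke n - 3)),
        (4 * (q.1 : ℝ) ^ (-(5 / 4) : ℝ)) * (1 / Real.sqrt 2) ^ q.2 := by
    rw [Finset.sum_image hinj]
  rw [h5]
  exact sum_h.sum_le_tsum _ fun q _ => by positivity

theorem three {a b c : ℝ} (ha : 0 ≤ a) (hb : 0 ≤ b) (hc : 0 ≤ c) (k : ℕ) :
    (a + b + c) ^ k ≤ 3 ^ k * (a ^ k + b ^ k + c ^ k) := by
  have key : ∀ x : ℝ, 0 ≤ x → a ≤ x → b ≤ x → c ≤ x → (a + b + c) ^ k ≤ 3 ^ k * x ^ k := by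
    intro x _ h1 h2 h3
    rw [← mul_pow]
    exact pow_le_pow_left₀ (by positivity) (by linarith) k
  have ha' : 0 ≤ a ^ k := by positivity
  have hb' : 0 ≤ b ^ k := by positivity
  have hc' : 0 ≤ c ^ k := by positivity
  have h3 : (0 : ℝ) < 3 ^ k := by positivity
  rcases le_total a b with h1 | h1
  · rcases le_total b c with h2 | h2
    · refine (key c hc (h1.trans h2) h2 le_rfl).trans ?_
      exact mul_le_mul_of_nonneg_left (by linarith) h3.le
    · refine (key b hb h1 le_rfl h2).trans ?_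
      exact mul_le_mul_of_nonneg_left (by linarith) h3.le
  · rcases le_total a c with h2 | h2
    · refine (key c hc h2 (h1.trans h2) le_rfl).trans ?_
      exact mul_le_mul_of_nonneg_left (by linarith) h3.le
    · refine (key a ha le_rfl h1 h2).trans ?_
      exact mul_le_mul_of_nonneg_left (by linarith) h3.le

end HYL

open HYL in
theorem t_HY (h : S_RN) (hT : S_TL) : S_HY := by
  classical
  intro m F hF hFc
  have hP := prob
  obtain ⟨W, hW0, hW⟩ := high
  have hsum := hT F hF hFc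
  set V : ℝ := ∑' n : ℕ, (ArithmeticFunction.vonMangoldt n) ^ 2 / n * ‖FF F (Real.log n)‖ ^ 2
    with hV
  have hV0 : 0 ≤ V := tsum_nonneg fun n => by positivity
  set B : ℝ := ∫ x : ℝ, |F x| with hB
  have hB0 : 0 ≤ B := integral_nonneg fun x => abs_nonneg _
  refine ⟨3 ^ (2 * m) * ((m : ℝ) ^ m * V ^ m + (m : ℝ) ^ m * V ^ m + (B * W) ^ (2 * m)),
    fun u hu N => ?_⟩
  set d : ℕ → ℂ := fun n => ((1 / Real.pi * (ArithmeticFunction.vonMangoldt n / Real.sqrt n) : ℝ) : ℂ) *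
    FF F (Real.log n) * u n with hd
  have hΛ : ∀ n : ℕ, 0 ≤ ArithmeticFunction.vonMangoldt n / Real.sqrt n := fun n =>
    div_nonneg ArithmeticFunction.vonMangoldt_nonneg (Real.sqrt_nonneg _)
  have hpi : 1 / Real.pi ≤ 1 := by
    rw [div_le_one Real.pi_pos]
    linarith [Real.pi_gt_three]
  have hdn : ∀ n, ‖d n‖ ≤ ArithmeticFunction.vonMangoldt n / Real.sqrt n *
      ‖FF F (Real.log n)‖ := by
    intro n
    rw [hd]
    simp only
    rw [norm_mul, norm_mul, Complex.norm_real, Real.norm_eq_abs,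
      abs_of_nonneg (mul_nonneg (by positivity) (hΛ n))]
    calc 1 / Real.pi * (ArithmeticFunction.vonMangoldt n / Real.sqrt n) *
          ‖FF F (Real.log n)‖ * ‖u n‖
        ≤ 1 / Real.pi * (ArithmeticFunction.vonMangoldt n / Real.sqrt n) *
          ‖FF F (Real.log n)‖ * 1 := by
          apply mul_le_mul_of_nonneg_left (hu n)
          have := hΛ n
          positivity
      _ ≤ 1 * (ArithmeticFunction.vonMangoldt n / Real.sqrt n) * ‖FF F (Real.log n)‖ := by
          rw [mul_one]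
          apply mul_le_mul_of_nonneg_right _ (norm_nonneg _)
          exact mul_le_mul_of_nonneg_right hpi (hΛ n)
      _ = _ := by rw [one_mul]
  set A1 := (Finset.Icc 1 N).filter (fun n => IsPrimePow n ∧ ke n = 1) with hA1
  set A2 := (Finset.Icc 1 N).filter (fun n => IsPrimePow n ∧ ke n = 2) with hA2
  set A3 := (Finset.Icc 1 N).filter (fun n => IsPrimePow n ∧ 3 ≤ ke n) with hA3
  have hsplit : ∀ x : ℕ → ℂ, ∑ n ∈ Finset.Icc 1 N, d n * x n =
      ∑ n ∈ A1, d n * x n + ∑ n ∈ A2, d n * x n + ∑ n ∈ A3, d n * x n := by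
    intro x
    rw [hA1, hA2, hA3, Finset.sum_filter, Finset.sum_filter, Finset.sum_filter,
      ← Finset.sum_add_distrib, ← Finset.sum_add_distrib]
    refine Finset.sum_congr rfl fun n _ => ?_
    by_cases hn : IsPrimePow n
    · have h1 := pp_pos hn
      rcases Nat.lt_trichotomy (ke n) 2 with h2 | h2 | h2
      · have h3 : ke n = 1 := by omega
        simp [hn, h3]
      · simp [hn, h2]
      · have h3 : ke n ≠ 1 := by omega
        have h4 : ke n ≠ 2 := by omega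
        have h5 : 3 ≤ ke n := h2
        simp [hn, h3, h4, h5]
    · have h1 : d n = 0 := by
        rw [hd]
        simp only
        rw [ArithmeticFunction.vonMangoldt_apply, if_neg hn]
        simp
      simp [hn, h1]
  have hZ : ∀ ω, Zs u F N (rn ω) = (∑ n ∈ Finset.Icc 1 N, d n * rn ω n).re := by
    intro ω
    unfold Zs
    congr 1
    refine Finset.sum_congr rfl fun n _ => ?_
    rw [hd]
    ring
  have hsq : ∀ A : Finset ℕ, ∑ n ∈ A, ‖d n‖ ^ 2 ≤ V := by
    intro A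
    refine le_trans (Finset.sum_le_sum fun n _ => ?_)
      (hsum.sum_le_tsum A fun n _ => by positivity)
    calc ‖d n‖ ^ 2 ≤ (ArithmeticFunction.vonMangoldt n / Real.sqrt n *
          ‖FF F (Real.log n)‖) ^ 2 := pow_le_pow_left₀ (norm_nonneg _) (hdn n) 2
      _ = _ := by
        rw [mul_pow, div_pow, Real.sq_sqrt (Nat.cast_nonneg n)]
  -- the bounds of the three parts
  have hmeas : ∀ A : Finset ℕ, Measurable fun ω : Om => ∑ n ∈ A, d n * rn ω n := by
    intro A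
    exact Finset.measurable_sum _ fun n _ => (h.1 n).const_mul _
  have hbd : ∀ (A : Finset ℕ) (ω : Om), ‖∑ n ∈ A, d n * rn ω n‖ ≤ ∑ n ∈ A, ‖d n‖ := by
    intro A ω
    refine (norm_sum_le _ _).trans (Finset.sum_le_sum fun n _ => ?_)
    rw [norm_mul, h.2.1, mul_one]
  have hint : ∀ A : Finset ℕ,
      Integrable (fun ω : Om => ‖∑ n ∈ A, d n * rn ω n‖ ^ (2 * m)) PM := by
    intro A
    refine Integrable.of_bound ((hmeas A).norm.pow_const _).aestronglyMeasurable
      ((∑ n ∈ A, ‖d n‖) ^ (2 * m)) (ae_of_all _ fun ω => ?_)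
    rw [Real.norm_eq_abs, abs_of_nonneg (by positivity)]
    exact pow_le_pow_left₀ (norm_nonneg _) (hbd A ω) _
  have hmom : ∀ A : Finset ℕ, (∀ a ∈ A, 1 < a) → (∀ a ∈ A, ∀ b ∈ A, a ≠ b → a.Coprime b) →
      ∫ ω, ‖∑ n ∈ A, d n * rn ω n‖ ^ (2 * m) ∂PM ≤ (m : ℝ) ^ m * V ^ m := by
    intro A a1 a2
    refine (moment h a1 a2 d m).trans ?_
    apply mul_le_mul_of_nonneg_left _ (by positivity)
    exact pow_le_pow_left₀ (Finset.sum_nonneg fun n _ => sq_nonneg _) (hsq A) m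
  have hm1 := hmom A1 (fun a ha => (Finset.mem_filter.1 ha).2.1.one_lt)
    (fun a ha b hb hab => pp_cop (Finset.mem_filter.1 ha).2.1 (Finset.mem_filter.1 hb).2.1
      ((Finset.mem_filter.1 ha).2.2.trans (Finset.mem_filter.1 hb).2.2.symm) hab)
  have hm2 := hmom A2 (fun a ha => (Finset.mem_filter.1 ha).2.1.one_lt)
    (fun a ha b hb hab => pp_cop (Finset.mem_filter.1 ha).2.1 (Finset.mem_filter.1 hb).2.1
      ((Finset.mem_filter.1 ha).2.2.trans (Finset.mem_filter.1 hb).2.2.symm) hab)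
  have hm3 : ∫ ω, ‖∑ n ∈ A3, d n * rn ω n‖ ^ (2 * m) ∂PM ≤ (B * W) ^ (2 * m) := by
    have h1 : ∀ ω, ‖∑ n ∈ A3, d n * rn ω n‖ ^ (2 * m) ≤ (B * W) ^ (2 * m) := by
      intro ω
      apply pow_le_pow_left₀ (norm_nonneg _)
      refine (hbd A3 ω).trans ?_
      calc ∑ n ∈ A3, ‖d n‖ ≤ ∑ n ∈ A3, B * (ArithmeticFunction.vonMangoldt n / Real.sqrt n) := by
            refine Finset.sum_le_sum fun n _ => (hdn n).trans ?_
            rw [mul_comm]
            exact mul_le_mul_of_nonneg_right (FF_bd F _) (hΛ n)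
        _ = B * ∑ n ∈ A3, ArithmeticFunction.vonMangoldt n / Real.sqrt n := by
            rw [Finset.mul_sum]
        _ ≤ B * W := mul_le_mul_of_nonneg_left
            (hW A3 fun n hn => (Finset.mem_filter.1 hn).2) hB0
    calc ∫ ω, ‖∑ n ∈ A3, d n * rn ω n‖ ^ (2 * m) ∂PM
        ≤ ∫ ω : Om, (B * W) ^ (2 * m) ∂PM := integral_mono (hint A3) (integrable_const _) h1
      _ = (B * W) ^ (2 * m) := by simp
  have hpt : ∀ ω, (Zs u F N (rn ω)) ^ (2 * m) ≤ 3 ^ (2 * m) *
      (‖∑ n ∈ A1, d n * rn ω n‖ ^ (2 * m) + ‖∑ n ∈ A2, d n * rn ω n‖ ^ (2 * m) +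
        ‖∑ n ∈ A3, d n * rn ω n‖ ^ (2 * m)) := by
    intro ω
    have h1 : |Zs u F N (rn ω)| ≤ ‖∑ n ∈ A1, d n * rn ω n‖ + ‖∑ n ∈ A2, d n * rn ω n‖ +
        ‖∑ n ∈ A3, d n * rn ω n‖ := by
      rw [hZ ω, hsplit]
      refine (Complex.abs_re_le_norm _).trans ?_
      exact (norm_add_le _ _).trans (add_le_add (norm_add_le _ _) le_rfl)
    calc (Zs u F N (rn ω)) ^ (2 * m) = |Zs u F N (rn ω)| ^ (2 * m) := by
          rw [pow_mul, pow_mul, sq_abs]
      _ ≤ (‖∑ n ∈ A1, d n * rn ω n‖ + ‖∑ n ∈ A2, d n * rn ω n‖ +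
        ‖∑ n ∈ A3, d n * rn ω n‖) ^ (2 * m) := pow_le_pow_left₀ (abs_nonneg _) h1 _
      _ ≤ _ := three (norm_nonneg _) (norm_nonneg _) (norm_nonneg _) _
  calc ∫ ω, (Zs u F N (rn ω)) ^ (2 * m) ∂PM
      ≤ ∫ ω, 3 ^ (2 * m) * (‖∑ n ∈ A1, d n * rn ω n‖ ^ (2 * m) +
        ‖∑ n ∈ A2, d n * rn ω n‖ ^ (2 * m) + ‖∑ n ∈ A3, d n * rn ω n‖ ^ (2 * m)) ∂PM := by
        refine integral_mono_of_nonneg (ae_of_all _ fun ω => ?_)
          ((((hint A1).add (hint A2)).add (hint A3)).const_mul _) (ae_of_all _ hpt)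
        simp only [Pi.zero_apply]
        rw [pow_mul]
        positivity
    _ = 3 ^ (2 * m) * (∫ ω, ‖∑ n ∈ A1, d n * rn ω n‖ ^ (2 * m) ∂PM +
        ∫ ω, ‖∑ n ∈ A2, d n * rn ω n‖ ^ (2 * m) ∂PM +
          ∫ ω, ‖∑ n ∈ A3, d n * rn ω n‖ ^ (2 * m) ∂PM) := by
        have e12 : Integrable (fun ω : Om => ‖∑ n ∈ A1, d n * rn ω n‖ ^ (2 * m) +
            ‖∑ n ∈ A2, d n * rn ω n‖ ^ (2 * m)) PM := (hint A1).add (hint A2)
        rw [integral_const_mul, integral_add e12 (hint A3), integral_add (hint A1) (hint A2)]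
    _ ≤ _ := by
        apply mul_le_mul_of_nonneg_left _ (by positivity)
        exact add_le_add (add_le_add hm1 hm2) hm3

end Pool.Agent.H203.MC
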