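import Pool.Agent.H203.MC.Defs
import Pool.Agent.H203.ME.VAR
import Mathlib.Analysis.Calculus.BumpFunction.Normed

set_option autoImplicit false

/-! The zeros of all Dirichlet L-functions at fixed distances (project MC): interpolation. -/

open Complex Filter Topology Set MeasureTheory

namespace Pool.Agent.H203.MC

open Pool.Agent.H203.ME (FF C2c)

namespace INL

/-- the bump function -/
noncomputable def bf : ContDiffBump (0 : ℝ) := ⟨1 / 2, 1, by norm_num, by norm_num⟩

/-- the normalized bump function -/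
noncomputable def w (x : ℝ) : ℝ := bf.normed volume x

theorem w_c2c : C2c w where
  cd := bf.contDiff_normed
  supp := by
    intro x hx
    have h := bf.support_normed_eq (μ := volume)
    have h1 : x ∉ Function.support (bf.normed volume) := by
      rw [h, Metric.mem_ball, dist_zero_right, Real.norm_eq_abs, not_lt]
      exact hx
    exact Function.notMem_support.1 h1

theorem w_int : ∫ x : ℝ, w x = 1 := bf.integral_normed

theorem w_FF0 : FF w 0 = 1 := by
  unfold FF
  simp only [zero_mul, ofReal_zero, neg_zero, Complex.exp_zero, mul_one]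
  rw [integral_complex_ofReal, w_int, ofReal_one]

theorem w_cont : Continuous w := w_c2c.cd.continuous

/-- the kernel `w (x / M) / M` -/
noncomputable def wM (M x : ℝ) : ℝ := w (x / M) / M

theorem wM_cont (M : ℝ) : Continuous (wM M) := by
  unfold wM
  exact (w_cont.comp (continuous_id.div_const M)).div_const M

theorem wM_zero {M : ℝ} (hM : 0 < M) (x : ℝ) (hx : x ∉ Icc (-M) M) : wM M x = 0 := by
  unfold wM
  rw [w_c2c.supp, zero_div]
  rw [abs_div, abs_of_pos hM, le_div_iff₀ hM, one_mul]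
  by_contra h
  rw [not_le, abs_lt] at h
  exact hx ⟨h.1.le, h.2.le⟩

theorem wM_supp {M : ℝ} (hM : 0 < M) : HasCompactSupport (wM M) :=
  HasCompactSupport.intro isCompact_Icc fun x hx => wM_zero hM x hx

theorem wM_integrable {M : ℝ} (hM : 0 < M) (η : ℝ) :
    Integrable fun x : ℝ => (wM M x : ℂ) * cexp (-(((η * x : ℝ) : ℂ) * I)) := by
  have h1 : Continuous fun x : ℝ => (wM M x : ℂ) * cexp (-(((η * x : ℝ) : ℂ) * I)) := by
    have := wM_cont M
    fun_prop
  refine h1.integrable_of_hasCompactSupport ?_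
  refine HasCompactSupport.intro (K := Icc (-M) M) isCompact_Icc fun x hx => ?_
  rw [wM_zero hM x hx]
  simp

theorem wM_FF {M : ℝ} (hM : 0 < M) (η : ℝ) :
    ∫ x : ℝ, (wM M x : ℂ) * cexp (-(((η * x : ℝ) : ℂ) * I)) = FF w (M * η) := by
  have h := Measure.integral_comp_div (fun y : ℝ => (w y : ℂ) * cexp (-(((M * η * y : ℝ) : ℂ) * I))) M
  have hM' : (M : ℂ) ≠ 0 := by exact_mod_cast hM.ne'
  have e : ∀ x : ℝ, (wM M x : ℂ) * cexp (-(((η * x : ℝ) : ℂ) * I)) =
      (M : ℂ)⁻¹ * ((w (x / M) : ℂ) * cexp (-(((M * η * (x / M) : ℝ) : ℂ) * I))) := by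
    intro x
    have e1 : M * η * (x / M) = η * x := by field_simp
    rw [e1]
    unfold wM
    push_cast
    field_simp
  simp only [e]
  rw [integral_const_mul, h, abs_of_pos hM]
  unfold FF
  rw [Complex.real_smul, ← mul_assoc, inv_mul_cancel₀ hM', one_mul]

/-- the interpolating function -/
noncomputable def Fi (M : ℝ) (S : Finset ℕ) (c : ℕ → ℂ) (x : ℝ) : ℝ :=
  wM M x * ∑ n ∈ S, 2 * ((c n).re * Real.cos (Real.log n * x) - (c n).im * Real.sin (Real.log n * x))

theorem Fi_cd (M : ℝ) (S : Finset ℕ) (c : ℕ → ℂ) : ContDiff ℝ 2 (Fi M S c) := by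
  unfold Fi wM
  refine ContDiff.mul ?_ ?_
  · exact (w_c2c.cd.comp (contDiff_id.div_const M)).div_const M
  · refine ContDiff.sum fun n _ => ?_
    have h1 : ContDiff ℝ 2 fun x : ℝ => Real.log n * x := contDiff_const.mul contDiff_id
    exact contDiff_const.mul ((contDiff_const.mul (Real.contDiff_cos.comp h1)).sub
      (contDiff_const.mul (Real.contDiff_sin.comp h1)))

theorem Fi_supp {M : ℝ} (hM : 0 < M) (S : Finset ℕ) (c : ℕ → ℂ) : HasCompactSupport (Fi M S c) := by
  refine HasCompactSupport.intro (K := Icc (-M) M) isCompact_Icc fun x hx => ?_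
  unfold Fi
  rw [wM_zero hM x hx, zero_mul]

theorem two_re (c : ℂ) (θ : ℝ) :
    ((2 * (c.re * Real.cos θ - c.im * Real.sin θ) : ℝ) : ℂ) =
      c * cexp ((θ : ℂ) * I) + (starRingEnd ℂ) c * cexp (-((θ : ℂ) * I)) := by
  apply Complex.ext
  · rw [ofReal_re, add_re, mul_re, mul_re, Complex.exp_ofReal_mul_I_re, Complex.exp_ofReal_mul_I_im]
    have e : -((θ : ℂ) * I) = ((-θ : ℝ) : ℂ) * I := by push_cast; ring
    rw [e, Complex.exp_ofReal_mul_I_re, Complex.exp_ofReal_mul_I_im, Real.cos_neg, Real.sin_neg,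
      conj_re, conj_im]
    ring
  · rw [ofReal_im, add_im, mul_im, mul_im, Complex.exp_ofReal_mul_I_re, Complex.exp_ofReal_mul_I_im]
    have e : -((θ : ℂ) * I) = ((-θ : ℝ) : ℂ) * I := by push_cast; ring
    rw [e, Complex.exp_ofReal_mul_I_re, Complex.exp_ofReal_mul_I_im, Real.cos_neg, Real.sin_neg,
      conj_re, conj_im]
    ring

/-- the Fourier transform of the interpolating function -/
theorem Fi_FF {M : ℝ} (hM : 0 < M) (S : Finset ℕ) (c : ℕ → ℂ) (ξ : ℝ) :
    FF (Fi M S c) ξ = ∑ n ∈ S, (c n * FF w (M * (ξ - Real.log n)) +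
      (starRingEnd ℂ) (c n) * FF w (M * (ξ + Real.log n))) := by
  have e : ∀ s : ℝ, (Fi M S c s : ℂ) * cexp (-(((ξ * s : ℝ) : ℂ) * I)) =
      ∑ n ∈ S, (c n * ((wM M s : ℂ) * cexp (-((((ξ - Real.log n) * s : ℝ) : ℂ) * I))) +
        (starRingEnd ℂ) (c n) * ((wM M s : ℂ) * cexp (-((((ξ + Real.log n) * s : ℝ) : ℂ) * I)))) := by
    intro s
    unfold Fi
    rw [ofReal_mul, ofReal_sum, mul_assoc, Finset.sum_mul, Finset.mul_sum]
    refine Finset.sum_congr rfl fun n _ => ?_
    rw [two_re]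
    have e1 : cexp (-((((ξ - Real.log n) * s : ℝ) : ℂ) * I)) =
        cexp (((Real.log n * s : ℝ) : ℂ) * I) * cexp (-(((ξ * s : ℝ) : ℂ) * I)) := by
      rw [← Complex.exp_add]
      congr 1
      push_cast
      ring
    have e2 : cexp (-((((ξ + Real.log n) * s : ℝ) : ℂ) * I)) =
        cexp (-(((Real.log n * s : ℝ) : ℂ) * I)) * cexp (-(((ξ * s : ℝ) : ℂ) * I)) := by
      rw [← Complex.exp_add]
      congr 1
      push_cast
      ring
    rw [e1, e2]
    ring
  unfold FF
  simp only [e]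
  rw [integral_finsetSum]
  · refine Finset.sum_congr rfl fun n _ => ?_
    rw [integral_add ((wM_integrable hM _).const_mul _) ((wM_integrable hM _).const_mul _),
      integral_const_mul, integral_const_mul, wM_FF hM, wM_FF hM]
    rfl
  · intro n _
    exact ((wM_integrable hM _).const_mul _).add ((wM_integrable hM _).const_mul _)

theorem ld (m n : ℕ) (hn : 1 ≤ n) (hmn : n < m) :
    1 / (m : ℝ) ≤ Real.log m - Real.log n := by
  have hn' : (0 : ℝ) < n := by exact_mod_cast hn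
  have hm' : (0 : ℝ) < m := by exact_mod_cast lt_of_lt_of_le hn hmn.le
  have h1 : (n : ℝ) + 1 ≤ m := by exact_mod_cast hmn
  have h := Real.one_sub_inv_le_log_of_pos (x := (m : ℝ) / n) (by positivity)
  rw [Real.log_div hm'.ne' hn'.ne'] at h
  refine le_trans ?_ h
  rw [inv_div, le_sub_iff_add_le, ← add_div, div_le_one hm']
  linarith

theorem ld' (m n N : ℕ) (hm : 1 ≤ m) (hn : 1 ≤ n) (hmN : m ≤ N) (hnN : n ≤ N) (hmn : m ≠ n) :
    1 / (N : ℝ) ≤ |Real.log m - Real.log n| := by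
  have hm' : (0 : ℝ) < m := by exact_mod_cast hm
  have hn' : (0 : ℝ) < n := by exact_mod_cast hn
  have h1 : (m : ℝ) ≤ N := by exact_mod_cast hmN
  have h2 : (n : ℝ) ≤ N := by exact_mod_cast hnN
  rcases lt_or_gt_of_ne hmn with h | h
  · have h3 := ld n m hm h
    have h4 : 1 / (N : ℝ) ≤ 1 / n := one_div_le_one_div_of_le hn' h2
    have h5 := neg_le_abs (Real.log m - Real.log n)
    linarith
  · have h3 := ld m n hn h
    have h4 : 1 / (N : ℝ) ≤ 1 / m := one_div_le_one_div_of_le hm' h1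
    have h5 := le_abs_self (Real.log m - Real.log n)
    linarith

theorem spacing (N1 : ℕ) (hN1 : 2 ≤ N1) : ∃ c : ℝ, 0 < c ∧ ∀ m n : ℕ, 2 ≤ m → 2 ≤ n → n ≤ N1 →
    (n ≠ m → c * (1 + Real.log m) ≤ |Real.log m - Real.log n|) ∧
    c * (1 + Real.log m) ≤ Real.log m + Real.log n := by
  have hN1' : (2 : ℝ) ≤ N1 := by exact_mod_cast hN1
  have hlog1 : 0 ≤ Real.log N1 := Real.log_nonneg (by linarith)
  have hl2 : 1 / 2 ≤ Real.log 2 := by linarith [Real.log_two_gt_d9]
  set P : ℕ := 3 * N1 ^ 2 with hP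
  have hPR : (P : ℝ) = 3 * (N1 : ℝ) ^ 2 := by rw [hP]; push_cast; ring
  have hP0 : (0 : ℝ) < P := by rw [hPR]; positivity
  set Lb : ℝ := 2 + 2 * Real.log N1 with hLb
  have hLb0 : 0 < Lb := by linarith
  refine ⟨min (1 / 2) (1 / (P * Lb)), lt_min (by norm_num) (by positivity), ?_⟩
  intro m n hm hn hnN
  have hm' : (2 : ℝ) ≤ m := by exact_mod_cast hm
  have hn' : (2 : ℝ) ≤ n := by exact_mod_cast hn
  have hnN' : (n : ℝ) ≤ N1 := by exact_mod_cast hnN
  have hlm : 0 ≤ Real.log m := Real.log_nonneg (by linarith)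
  have hln : 1 / 2 ≤ Real.log n := hl2.trans (Real.log_le_log (by norm_num) hn')
  have hlnN : Real.log n ≤ Real.log N1 := Real.log_le_log (by linarith) hnN'
  have hc1 : min (1 / 2) (1 / (P * Lb)) * (1 + Real.log m) ≤ 1 / 2 * (1 + Real.log m) :=
    mul_le_mul_of_nonneg_right (min_le_left _ _) (by linarith)
  have hc2 : min (1 / 2) (1 / (P * Lb)) * (1 + Real.log m) ≤ 1 / (P * Lb) * (1 + Real.log m) :=
    mul_le_mul_of_nonneg_right (min_le_right _ _) (by linarith)
  refine ⟨fun hmn => ?_, by linarith⟩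
  by_cases hcase : 2 * Real.log N1 + 1 ≤ Real.log m
  · refine hc1.trans ((?_ : _ ≤ Real.log m - Real.log n).trans (le_abs_self _))
    linarith
  · rw [not_le] at hcase
    have hmP : m ≤ P := by
      have h1 : (m : ℝ) < Real.exp (2 * Real.log N1 + 1) := by
        rw [← Real.log_lt_iff_lt_exp (by linarith)]
        exact hcase
      have h2 : Real.exp (2 * Real.log N1 + 1) = (N1 : ℝ) ^ 2 * Real.exp 1 := by
        rw [Real.exp_add, mul_comm 2, Real.exp_mul, Real.exp_log (by linarith)]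
        norm_num
      have h3 := Real.exp_one_lt_d9
      have h4 : (m : ℝ) ≤ P := by
        rw [hPR]
        have : (N1 : ℝ) ^ 2 * Real.exp 1 ≤ (N1 : ℝ) ^ 2 * 3 :=
          mul_le_mul_of_nonneg_left (by linarith) (by positivity)
        linarith
      exact_mod_cast h4
    have hnP : n ≤ P := by
      rw [hP]
      nlinarith
    have h5 := ld' m n P (by omega) (by omega) hmP hnP (fun h => hmn h.symm)
    refine hc2.trans (le_trans ?_ h5)
    rw [one_div_mul_eq_div, div_le_div_iff₀ (by positivity) hP0]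
    have : 1 + Real.log m ≤ Lb := by linarith
    nlinarith

theorem sm0 : Summable fun m : ℕ => ((m : ℝ) * (1 + Real.log m) ^ 2)⁻¹ := by
  have hlog : ∀ m : ℕ, 0 ≤ Real.log m := fun m => Real.log_natCast_nonneg m
  rw [← summable_condensed_iff_of_nonneg]
  · have hs : Summable fun k : ℕ => 4 * (1 / ((k : ℝ) + 1) ^ 2) := by
      have h1 := (summable_nat_add_iff 1).2 (Real.summable_one_div_nat_pow.2 one_lt_two)
      push_cast at h1
      exact h1.mul_left 4
    refine Summable.of_nonneg_of_le (fun k => by positivity) (fun k => ?_) hs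
    push_cast
    rw [Real.log_pow]
    have hl2 : 1 / 2 ≤ Real.log 2 := by linarith [Real.log_two_gt_d9]
    have h1 : ((k : ℝ) + 1) / 2 ≤ 1 + k * Real.log 2 := by
      have : (0 : ℝ) ≤ k := Nat.cast_nonneg k
      nlinarith
    have h2 : (((k : ℝ) + 1) / 2) ^ 2 ≤ (1 + k * Real.log 2) ^ 2 :=
      pow_le_pow_left₀ (by positivity) h1 2
    have h3 : (0 : ℝ) < 2 ^ k := by positivity
    rw [mul_inv, ← mul_assoc, mul_inv_cancel₀ h3.ne', one_mul]
    have h4 : ((1 + k * Real.log 2) ^ 2)⁻¹ ≤ ((((k : ℝ) + 1) / 2) ^ 2)⁻¹ :=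
      inv_anti₀ (by positivity) h2
    refine h4.trans (le_of_eq ?_)
    field_simp
    norm_num
  · intro m
    positivity
  · intro m n hm hmn
    have hm' : (0 : ℝ) < m := by exact_mod_cast hm
    have hmn' : (m : ℝ) ≤ n := by exact_mod_cast hmn
    have h1 := hlog m
    have h2 : Real.log m ≤ Real.log n := Real.log_le_log hm' hmn'
    refine inv_anti₀ (by positivity) ?_
    exact mul_le_mul hmn' (pow_le_pow_left₀ (by linarith) (by linarith) 2) (by positivity)
      (by positivity)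

/-- the weights -/
noncomputable def hw (m : ℕ) : ℝ :=
  (ArithmeticFunction.vonMangoldt m) ^ 2 / m * (1 / (1 + Real.log m) ^ 2) ^ 2

theorem hw_nonneg (m : ℕ) : 0 ≤ hw m := by
  unfold hw
  positivity

theorem hw_sum : Summable hw := by
  refine Summable.of_nonneg_of_le hw_nonneg (fun m => ?_) sm0
  have hlog : 0 ≤ Real.log m := Real.log_natCast_nonneg m
  have h1 : ArithmeticFunction.vonMangoldt m ≤ 1 + Real.log m :=
    ArithmeticFunction.vonMangoldt_le_log.trans (by linarith)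
  have h2 : (ArithmeticFunction.vonMangoldt m) ^ 2 ≤ (1 + Real.log m) ^ 2 :=
    pow_le_pow_left₀ ArithmeticFunction.vonMangoldt_nonneg h1 2
  unfold hw
  rcases Nat.eq_zero_or_pos m with hm | hm
  · subst hm
    simp
  · have hm' : (0 : ℝ) < m := by exact_mod_cast hm
    have h3 : (1 + Real.log m) ^ 2 / m * (1 / (1 + Real.log m) ^ 2) ^ 2 =
        ((m : ℝ) * (1 + Real.log m) ^ 2)⁻¹ := by
      have : (1 + Real.log m) ≠ 0 := by linarith
      field_simp
    rw [← h3]
    refine mul_le_mul_of_nonneg_right ?_ (by positivity)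
    exact div_le_div_of_nonneg_right h2 hm'.le

/-- the error of the interpolation -/
theorem rest_le {M c0 : ℝ} (hM : 0 < M) (hc0 : 0 < c0) (N1 : ℕ) (c : ℕ → ℂ)
    (hsp : ∀ m n : ℕ, 2 ≤ m → 2 ≤ n → n ≤ N1 →
      (n ≠ m → c0 * (1 + Real.log m) ≤ |Real.log m - Real.log n|) ∧
      c0 * (1 + Real.log m) ≤ Real.log m + Real.log n) (m : ℕ) (hm : 2 ≤ m) :
    ‖FF (Fi M (Finset.Icc 2 N1) c) (Real.log m) - (if m ∈ Finset.Icc 2 N1 then c m else 0)‖ ≤
      2 * (∑ n ∈ Finset.Icc 2 N1, ‖c n‖) * (∫ x : ℝ, |deriv (deriv w) x|) / (M * c0) ^ 2 *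
        (1 / (1 + Real.log m) ^ 2) := by
  set A : ℝ := ∫ x : ℝ, |deriv (deriv w) x| with hA
  have hA0 : 0 ≤ A := integral_nonneg fun x => abs_nonneg _
  have hlm : 0 ≤ Real.log m := Real.log_natCast_nonneg m
  have hg : 0 < 1 + Real.log m := by linarith
  have key : ∀ η : ℝ, c0 * (1 + Real.log m) ≤ |η| →
      ‖FF w (M * η)‖ ≤ A / (M * c0) ^ 2 * (1 / (1 + Real.log m) ^ 2) := by
    intro η hη
    have h0 : 0 < |η| := lt_of_lt_of_le (by positivity) hη
    have h1 : M * η ≠ 0 := mul_ne_zero hM.ne' (abs_pos.1 h0)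
    refine (Pool.Agent.H203.ME.FF_le2 w_c2c _ h1).trans ?_
    rw [div_mul_div_comm, mul_one, ← mul_pow]
    refine div_le_div_of_nonneg_left hA0 (by positivity) ?_
    rw [← sq_abs (M * η), abs_mul, abs_of_pos hM, mul_assoc]
    exact pow_le_pow_left₀ (by positivity) (mul_le_mul_of_nonneg_left hη hM.le) 2
  have e : FF (Fi M (Finset.Icc 2 N1) c) (Real.log m) -
      (if m ∈ Finset.Icc 2 N1 then c m else 0) =
      ∑ n ∈ Finset.Icc 2 N1, (c n * (FF w (M * (Real.log m - Real.log n)) - (if n = m then 1 else 0)) +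
        (starRingEnd ℂ) (c n) * FF w (M * (Real.log m + Real.log n))) := by
    rw [Fi_FF hM]
    have h1 : (if m ∈ Finset.Icc 2 N1 then c m else 0) =
        ∑ n ∈ Finset.Icc 2 N1, c n * (if n = m then 1 else 0) := by
      simp only [mul_ite, mul_one, mul_zero]
      rw [Finset.sum_ite_eq']
    rw [h1, ← Finset.sum_sub_distrib]
    refine Finset.sum_congr rfl fun n _ => ?_
    ring
  rw [e]
  refine (norm_sum_le _ _).trans ?_
  have h2 : 2 * (∑ n ∈ Finset.Icc 2 N1, ‖c n‖) * A / (M * c0) ^ 2 * (1 / (1 + Real.log m) ^ 2) =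
      ∑ n ∈ Finset.Icc 2 N1, ‖c n‖ * (2 * (A / (M * c0) ^ 2 * (1 / (1 + Real.log m) ^ 2))) := by
    rw [← Finset.sum_mul]
    ring
  rw [h2]
  refine Finset.sum_le_sum fun n hn => ?_
  rw [Finset.mem_Icc] at hn
  obtain ⟨s1, s2⟩ := hsp m n hm hn.1 hn.2
  set Bd : ℝ := A / (M * c0) ^ 2 * (1 / (1 + Real.log m) ^ 2) with hBd
  have hBd0 : 0 ≤ Bd := by positivity
  have h3 : ‖FF w (M * (Real.log m - Real.log n)) - (if n = m then 1 else 0)‖ ≤ Bd := by
    by_cases hnm : n = m
    · subst hnm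
      rw [if_pos rfl, sub_self, mul_zero, w_FF0, sub_self, norm_zero]
      exact hBd0
    · rw [if_neg hnm, sub_zero]
      exact key _ (s1 hnm)
  have h4 : ‖FF w (M * (Real.log m + Real.log n))‖ ≤ Bd := key _ (s2.trans (le_abs_self _))
  calc _ ≤ ‖c n * (FF w (M * (Real.log m - Real.log n)) - (if n = m then 1 else 0))‖ +
        ‖(starRingEnd ℂ) (c n) * FF w (M * (Real.log m + Real.log n))‖ := norm_add_le _ _
    _ ≤ ‖c n‖ * Bd + ‖c n‖ * Bd := by
        rw [norm_mul, norm_mul, RCLike.norm_conj]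
        exact add_le_add (mul_le_mul_of_nonneg_left h3 (norm_nonneg _))
          (mul_le_mul_of_nonneg_left h4 (norm_nonneg _))
    _ = _ := by ring

end INL

open INL in
theorem t_IN (hT : S_TL) : S_IN := by
  intro u hu F hF hFs ε hε
  have hs := hT F hF hFs
  set f : ℕ → ℝ := fun n => (ArithmeticFunction.vonMangoldt n) ^ 2 / n * ‖FF F (Real.log n)‖ ^ 2 with hf
  have hf0 : ∀ n, 0 ≤ f n := fun n => by simp only [hf]; positivity
  obtain ⟨s, hs1⟩ := summable_iff_vanishing_norm.1 hs (ε / 4) (by positivity)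
  set N1 : ℕ := max 2 (s.sup id) with hN1
  have hN12 : 2 ≤ N1 := le_max_left _ _
  have hsN : ∀ n ∈ s, n ≤ N1 := fun n hn => (Finset.le_sup (f := id) hn).trans (le_max_right _ _)
  obtain ⟨c0, hc0, hsp⟩ := spacing N1 hN12
  set c : ℕ → ℂ := fun n => u n * FF F (Real.log n) with hc
  set A : ℝ := ∫ x : ℝ, |deriv (deriv w) x| with hA
  have hA0 : 0 ≤ A := integral_nonneg fun x => abs_nonneg _
  set K : ℝ := ∑ n ∈ Finset.Icc 2 N1, ‖c n‖ with hK
  have hK0 : 0 ≤ K := Finset.sum_nonneg fun n _ => norm_nonneg _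
  set Sh : ℝ := ∑' m, hw m with hSh
  have hSh0 : 0 ≤ Sh := tsum_nonneg hw_nonneg
  set b0 : ℝ := min 1 (ε / (4 * (Sh + 1))) with hb0
  have hb0p : 0 < b0 := lt_min one_pos (by positivity)
  have hb01 : b0 ≤ 1 := min_le_left _ _
  have hb0S : b0 ^ 2 * Sh ≤ ε / 4 := by
    have h1 : b0 ^ 2 ≤ ε / (4 * (Sh + 1)) := by
      have : b0 ^ 2 ≤ b0 := by nlinarith
      exact this.trans (min_le_right _ _)
    have h2 : b0 ^ 2 * (Sh + 1) ≤ ε / 4 := by
      rw [le_div_iff₀ (by positivity)] at h1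
      linarith
    nlinarith [sq_nonneg b0]
  set M : ℝ := 1 + 2 * K * A / (c0 ^ 2 * b0) with hM
  have hM1 : 1 ≤ M := by
    have : 0 ≤ 2 * K * A / (c0 ^ 2 * b0) := by positivity
    linarith
  have hM0 : 0 < M := by linarith
  have hBb : 2 * K * A / (M * c0) ^ 2 ≤ b0 := by
    rw [div_le_iff₀ (by positivity)]
    have h1 : 2 * K * A = (M - 1) * (c0 ^ 2 * b0) := by
      rw [hM]
      field_simp
      ring
    have h2 : M ≤ M ^ 2 := by nlinarith
    have h3 : 0 < c0 ^ 2 * b0 := by positivity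
    rw [h1]
    nlinarith
  have hBb0 : 0 ≤ 2 * K * A / (M * c0) ^ 2 := by positivity
  refine ⟨Fi M (Finset.Icc 2 N1) c, Fi_cd _ _ _, Fi_supp hM0 _ _, fun N => ?_⟩
  have hterm : ∀ m ∈ Finset.Icc 1 N, (ArithmeticFunction.vonMangoldt m) ^ 2 / m *
      ‖u m * FF F (Real.log m) - FF (Fi M (Finset.Icc 2 N1) c) (Real.log m)‖ ^ 2 ≤
      2 * (if N1 < m then f m else 0) + 2 * (b0 ^ 2 * hw m) := by
    intro m hm
    rw [Finset.mem_Icc] at hm
    by_cases hm1 : m = 1
    · subst hm1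
      have h1 : 0 ≤ (if N1 < 1 then f 1 else 0) := by
        split_ifs
        · exact hf0 1
        · exact le_rfl
      have h2 := hw_nonneg 1
      rw [ArithmeticFunction.vonMangoldt_apply_one]
      have h3 : 0 ≤ b0 ^ 2 * hw 1 := by positivity
      have : (0 : ℝ) ^ 2 / ((1 : ℕ) : ℝ) = 0 := by norm_num
      rw [this, zero_mul]
      linarith
    · have hm2 : 2 ≤ m := by omega
      have hr := rest_le hM0 hc0 N1 c hsp m hm2
      rw [← hK, ← hA] at hr
      have hlm : 0 ≤ Real.log m := Real.log_natCast_nonneg m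
      set g : ℝ := 1 / (1 + Real.log m) ^ 2 with hg
      have hg0 : 0 ≤ g := by positivity
      set ρ : ℂ := FF (Fi M (Finset.Icc 2 N1) c) (Real.log m) -
        (if m ∈ Finset.Icc 2 N1 then c m else 0) with hρ
      have hr2 : ‖ρ‖ ≤ b0 * g := hr.trans (mul_le_mul_of_nonneg_right hBb hg0)
      have e1 : u m * FF F (Real.log m) - FF (Fi M (Finset.Icc 2 N1) c) (Real.log m) =
          (if N1 < m then c m else 0) - ρ := by
        have h1 : u m * FF F (Real.log m) = c m := rfl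
        rw [h1, hρ]
        by_cases h2 : N1 < m
        · rw [if_pos h2, if_neg (by rw [Finset.mem_Icc]; omega)]
          ring
        · rw [if_neg h2, if_pos (by rw [Finset.mem_Icc]; omega)]
          ring
      rw [e1]
      set z : ℂ := if N1 < m then c m else 0 with hz
      have h3 : ‖z - ρ‖ ^ 2 ≤ 2 * ‖z‖ ^ 2 + 2 * ‖ρ‖ ^ 2 := by
        have h4 := norm_sub_le z ρ
        have h5 : ‖z - ρ‖ ^ 2 ≤ (‖z‖ + ‖ρ‖) ^ 2 := pow_le_pow_left₀ (norm_nonneg _) h4 2
        nlinarith [sq_nonneg (‖z‖ - ‖ρ‖)]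
      have hΛ : 0 ≤ (ArithmeticFunction.vonMangoldt m) ^ 2 / m := by positivity
      have h6 : (ArithmeticFunction.vonMangoldt m) ^ 2 / m * ‖z‖ ^ 2 ≤
          (if N1 < m then f m else 0) := by
        rw [hz]
        split_ifs with h7
        · simp only [hf]
          refine mul_le_mul_of_nonneg_left ?_ hΛ
          refine pow_le_pow_left₀ (norm_nonneg _) ?_ 2
          simp only [hc]
          rw [norm_mul]
          exact mul_le_of_le_one_left (norm_nonneg _) (hu m)
        · simp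
      have h7 : (ArithmeticFunction.vonMangoldt m) ^ 2 / m * ‖ρ‖ ^ 2 ≤ b0 ^ 2 * hw m := by
        have h8 : ‖ρ‖ ^ 2 ≤ (b0 * g) ^ 2 := pow_le_pow_left₀ (norm_nonneg _) hr2 2
        calc (ArithmeticFunction.vonMangoldt m) ^ 2 / m * ‖ρ‖ ^ 2 ≤
            (ArithmeticFunction.vonMangoldt m) ^ 2 / m * (b0 * g) ^ 2 :=
              mul_le_mul_of_nonneg_left h8 hΛ
          _ = b0 ^ 2 * hw m := by
              unfold hw
              rw [hg]
              ring
      calc (ArithmeticFunction.vonMangoldt m) ^ 2 / m * ‖z - ρ‖ ^ 2 ≤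
          (ArithmeticFunction.vonMangoldt m) ^ 2 / m * (2 * ‖z‖ ^ 2 + 2 * ‖ρ‖ ^ 2) :=
            mul_le_mul_of_nonneg_left h3 hΛ
        _ = 2 * ((ArithmeticFunction.vonMangoldt m) ^ 2 / m * ‖z‖ ^ 2) +
            2 * ((ArithmeticFunction.vonMangoldt m) ^ 2 / m * ‖ρ‖ ^ 2) := by ring
        _ ≤ _ := by linarith
  refine (Finset.sum_le_sum hterm).trans ?_
  rw [Finset.sum_add_distrib, ← Finset.mul_sum, ← Finset.mul_sum, ← Finset.mul_sum]
  have h1 : ∑ m ∈ Finset.Icc 1 N, (if N1 < m then f m else 0) ≤ ε / 4 := by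
    rw [← Finset.sum_filter]
    have h2 := hs1 ((Finset.Icc 1 N).filter fun m => N1 < m) (by
      rw [Finset.disjoint_left]
      intro n hn hns
      rw [Finset.mem_filter] at hn
      have := hsN n hns
      omega)
    exact (le_abs_self _).trans h2.le
  have h2 : ∑ m ∈ Finset.Icc 1 N, hw m ≤ Sh := hw_sum.sum_le_tsum _ fun m _ => hw_nonneg m
  have h3 : b0 ^ 2 * ∑ m ∈ Finset.Icc 1 N, hw m ≤ b0 ^ 2 * Sh :=
    mul_le_mul_of_nonneg_left h2 (by positivity)
  linarith

end Pool.Agent.H203.MC
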