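import Pool.Agent.H203.MC.Defs

set_option autoImplicit false

/-! Leaf ML: approximation by finite sums for all test functions. -/

open Complex Filter Topology Set MeasureTheory

namespace Pool.Agent.H203.MC

open Pool.Agent.H203.ME (ee gR WR om FF KF C2c)
open Pool.Agent.H203.GE (Lf ZG XG)

namespace MLL

/-- the finite sum as a function of `t` -/
noncomputable def Zt (u : ℕ → ℂ) (F : ℝ → ℝ) (N : ℕ) (t : ℝ) : ℝ := Zs u F N (fun n => ee n t)

lemma Zt_cont (u : ℕ → ℂ) (F : ℝ → ℝ) (N : ℕ) : Continuous (Zt u F N) := by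
  unfold Zt Zs ee
  fun_prop

/-- the conclusion on one interval -/
def QQ (G : ℂ → ℂ) (u : ℕ → ℂ) (q : ℝ) (F : ℝ → ℝ) (a b : ℝ) : Prop := ∀ δ : ℝ, 0 < δ →
  ∀ᶠ N : ℕ in atTop, ∀ᶠ T : ℝ in atTop, ContinuousOn (XM G q F) (Icc (a * T) (b * T)) ∧
    ∫ t in (a * T)..(b * T), |XM G q F t + Zt u F N t| ≤ δ * T

lemma ev_log (c : ℝ) (hc : 0 < c) (w : ℝ) (hw : 0 < w) :
    ∀ᶠ T : ℝ in atTop, 2 * Real.log (w * T) ≤ c * T := by
  have h1 : Tendsto (fun T : ℝ => w * T) atTop atTop := tendsto_id.const_mul_atTop hw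
  have h2 := (Real.isLittleO_log_id_atTop.comp_tendsto h1).bound
    (show (0 : ℝ) < c / (2 * w) by positivity)
  filter_upwards [h2, h1.eventually_ge_atTop 1, eventually_gt_atTop 0] with T h3 h4 h5
  simp only [Function.comp, id, Real.norm_eq_abs] at h3
  rw [abs_of_nonneg (Real.log_nonneg h4), abs_of_nonneg (by linarith)] at h3
  have : c / (2 * w) * (w * T) = c * T / 2 := by field_simp
  linarith

/-- one piece -/
lemma piece (hA : S_AM) (hP : S_PM3) (hB : S_B3) (G : ℂ → ℂ) (u : ℕ → ℂ) (q : ℝ) (hL : Lf G u) (hq : 0 < q)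
    (hE : FE G q) (F : ℝ → ℝ) (hF : C2c F) (x : ℝ) (hx : 0 < x) : QQ G u q F x (5 / 4 * x) := by
  intro δ hδ
  obtain ⟨CA, TA, hCA, hTA, hA⟩ := hA G u q hL hq hE F hF
  set w : ℝ := 3 / 4 * x with hw
  have hwp : 0 < w := by positivity
  set δ' : ℝ := δ / x with hδ'
  have hδp : 0 < δ' := by positivity
  obtain ⟨N0, hN0⟩ := hP F hF (δ' ^ 2) (by positivity)
  filter_upwards [eventually_ge_atTop N0] with N hN
  obtain ⟨TP, hTP, hP⟩ := hN0 N hN
  have hwT : Tendsto (fun T : ℝ => w * T) atTop atTop := tendsto_id.const_mul_atTop hwp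
  filter_upwards [eventually_ge_atTop 10, hwT.eventually_ge_atTop TA, hwT.eventually_ge_atTop TP,
    ev_log (1 / 4 * x) (by positivity) w hwp,
    (Real.tendsto_log_atTop.comp hwT).eventually_ge_atTop (max 4 (3 * CA / δ'))] with T hT10 h1 h2 h3 h4
  simp only [Function.comp] at h4
  have hTp : 0 < T := by linarith
  obtain ⟨hle, hc, hAi⟩ := hA (w * T) h1
  have hPi := hP (w * T) h2 u hL.le1
  set W : ℝ := w * T with hW
  have hlW4 : 4 ≤ Real.log W := (le_max_left _ _).trans h4
  have hlW5 : 3 * CA / δ' ≤ Real.log W := (le_max_right _ _).trans h4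
  have hlW : 0 < Real.log W := by linarith
  obtain ⟨-, hBc, -⟩ := hB u hL.le1 F hF (Real.log W / 4) (by linarith)
  have hWe : W = 3 / 4 * x * T := by rw [hW, hw]
  have hsub : Icc (x * T) (5 / 4 * x * T) ⊆ Icc (W + 2 * Real.log W) (2 * W - 2 * Real.log W) :=
    Icc_subset_Icc (by linarith) (by linarith)
  have hsub2 : Icc (x * T) (5 / 4 * x * T) ⊆ Icc W (2 * W) :=
    hsub.trans (Icc_subset_Icc (by linarith) (by linarith))
  have hxT : x * T ≤ 5 / 4 * x * T := by nlinarith [mul_pos hx hTp]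
  have hcont : ContinuousOn (XM G q F) (Icc (x * T) (5 / 4 * x * T)) := hc.mono hsub
  refine ⟨hcont, ?_⟩
  have hYc := Zt_cont u F N
  have hpt : ∀ t, |XM G q F t + Zt u F N t| ≤
      |XM G q F t + B3 u F (Real.log W / 4) t| + δ' +
        1 / (4 * δ') * (B3 u F (Real.log W / 4) t - Zt u F N t) ^ 2 := by
    intro t
    set B := B3 u F (Real.log W / 4) t
    set Y := Zt u F N t
    have e1 : XM G q F t + Y = (XM G q F t + B) - (B - Y) := by ring
    have e2 : |B - Y| ≤ δ' + 1 / (4 * δ') * (B - Y) ^ 2 := by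
      have e3 : 0 ≤ (|B - Y| - 2 * δ') ^ 2 := sq_nonneg _
      have e4 : |B - Y| ^ 2 = (B - Y) ^ 2 := sq_abs _
      have e5 : |B - Y| ≤ (4 * δ' ^ 2 + (B - Y) ^ 2) / (4 * δ') := by
        rw [le_div_iff₀ (by positivity)]
        nlinarith
      refine e5.trans (le_of_eq ?_)
      field_simp
    rw [e1]
    calc |XM G q F t + B - (B - Y)| ≤ |XM G q F t + B| + |B - Y| := abs_sub _ _
      _ ≤ _ := by linarith
  have hI1 : IntervalIntegrable (fun t => |XM G q F t + B3 u F (Real.log W / 4) t|) volume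
      (x * T) (5 / 4 * x * T) := by
    apply ContinuousOn.intervalIntegrable
    rw [uIcc_of_le hxT]
    exact ((hc.mono hsub).add hBc.continuousOn).abs
  have hI1' : IntervalIntegrable (fun t => |XM G q F t + B3 u F (Real.log W / 4) t|) volume
      (W + 2 * Real.log W) (2 * W - 2 * Real.log W) := by
    apply ContinuousOn.intervalIntegrable
    rw [uIcc_of_le hle]
    exact (hc.add hBc.continuousOn).abs
  have hsqc : Continuous fun t => (B3 u F (Real.log W / 4) t - Zt u F N t) ^ 2 := (hBc.sub hYc).pow 2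
  have hI2 : IntervalIntegrable (fun t => 1 / (4 * δ') * (B3 u F (Real.log W / 4) t - Zt u F N t) ^ 2)
      volume (x * T) (5 / 4 * x * T) := (continuous_const.mul hsqc).intervalIntegrable _ _
  have hI0 : IntervalIntegrable (fun t => |XM G q F t + Zt u F N t|) volume (x * T) (5 / 4 * x * T) := by
    apply ContinuousOn.intervalIntegrable
    rw [uIcc_of_le hxT]
    exact (hcont.add hYc.continuousOn).abs
  have hb1 : ∫ t in (x * T)..(5 / 4 * x * T), |XM G q F t + B3 u F (Real.log W / 4) t| ≤ CA * W / Real.log W := by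
    refine le_trans ?_ hAi
    have hmem1 := hsub (left_mem_Icc.2 hxT)
    have hmem2 := hsub (right_mem_Icc.2 hxT)
    exact intervalIntegral.integral_mono_interval hmem1.1 hxT hmem2.2
      (Eventually.of_forall fun t => abs_nonneg _) hI1'
  have hb2 : ∫ t in (x * T)..(5 / 4 * x * T), (B3 u F (Real.log W / 4) t - Zt u F N t) ^ 2 ≤ δ' ^ 2 * W := by
    refine le_trans ?_ hPi
    have hmem1 := hsub2 (left_mem_Icc.2 hxT)
    have hmem2 := hsub2 (right_mem_Icc.2 hxT)
    exact intervalIntegral.integral_mono_interval hmem1.1 hxT hmem2.2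
      (Eventually.of_forall fun t => sq_nonneg _) (hsqc.intervalIntegrable _ _)
  have hmain : ∫ t in (x * T)..(5 / 4 * x * T), |XM G q F t + Zt u F N t| ≤
      CA * W / Real.log W + δ' * (1 / 4 * x * T) + 1 / (4 * δ') * (δ' ^ 2 * W) := by
    calc _ ≤ ∫ t in (x * T)..(5 / 4 * x * T), (|XM G q F t + B3 u F (Real.log W / 4) t| + δ' +
        1 / (4 * δ') * (B3 u F (Real.log W / 4) t - Zt u F N t) ^ 2) :=
          intervalIntegral.integral_mono_on hxT hI0
            ((hI1.add intervalIntegrable_const).add hI2) fun t _ => hpt t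
      _ = (∫ t in (x * T)..(5 / 4 * x * T), |XM G q F t + B3 u F (Real.log W / 4) t|) +
          δ' * (1 / 4 * x * T) +
          1 / (4 * δ') * ∫ t in (x * T)..(5 / 4 * x * T), (B3 u F (Real.log W / 4) t - Zt u F N t) ^ 2 := by
          rw [intervalIntegral.integral_add (hI1.add intervalIntegrable_const) hI2,
            intervalIntegral.integral_add hI1 intervalIntegrable_const,
            intervalIntegral.integral_const, intervalIntegral.integral_const_mul, smul_eq_mul]
          ring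
      _ ≤ _ := by gcongr
  refine hmain.trans ?_
  have f1 : CA * W / Real.log W ≤ δ' * W / 3 := by
    rw [div_le_iff₀ hlW]
    rw [div_le_iff₀ hδp] at hlW5
    have hWp : 0 < W := by positivity
    nlinarith
  have f2 : 1 / (4 * δ') * (δ' ^ 2 * W) = δ' * W / 4 := by field_simp
  have f3 : δ' * x = δ := by rw [hδ']; field_simp
  have f4 : δ' * W = 3 / 4 * (δ * T) := by rw [hWe, ← f3]; ring
  have f5 : δ' * (1 / 4 * x * T) = 1 / 4 * (δ * T) := by rw [← f3]; ring
  rw [f2, f4, f5]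
  rw [f4] at f1
  have : 0 < δ * T := by positivity
  linarith

/-- gluing two intervals -/
lemma glue (G : ℂ → ℂ) (u : ℕ → ℂ) (q : ℝ) (F : ℝ → ℝ) (a b c : ℝ) (hab : a ≤ b) (hbc : b ≤ c)
    (h1 : QQ G u q F a b) (h2 : QQ G u q F b c) : QQ G u q F a c := by
  intro δ hδ
  filter_upwards [h1 (δ / 2) (by positivity), h2 (δ / 2) (by positivity)] with N h1 h2
  filter_upwards [h1, h2, eventually_gt_atTop 0] with T h1 h2 hTp
  obtain ⟨c1, i1⟩ := h1
  obtain ⟨c2, i2⟩ := h2
  have hab' : a * T ≤ b * T := mul_le_mul_of_nonneg_right hab hTp.le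
  have hbc' : b * T ≤ c * T := mul_le_mul_of_nonneg_right hbc hTp.le
  have hc : ContinuousOn (XM G q F) (Icc (a * T) (c * T)) := by
    rw [← Icc_union_Icc_eq_Icc hab' hbc']
    exact c1.union_of_isClosed c2 isClosed_Icc isClosed_Icc
  refine ⟨hc, ?_⟩
  have hYc := Zt_cont u F N
  have j1 : IntervalIntegrable (fun t => |XM G q F t + Zt u F N t|) volume (a * T) (b * T) := by
    apply ContinuousOn.intervalIntegrable
    rw [uIcc_of_le hab']
    exact (c1.add hYc.continuousOn).abs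
  have j2 : IntervalIntegrable (fun t => |XM G q F t + Zt u F N t|) volume (b * T) (c * T) := by
    apply ContinuousOn.intervalIntegrable
    rw [uIcc_of_le hbc']
    exact (c2.add hYc.continuousOn).abs
  rw [← intervalIntegral.integral_add_adjacent_intervals j1 j2]
  linarith

/-- the interval `[9/10 T, 2 T + T / 10]` -/
lemma long (hA : S_AM) (hP : S_PM3) (hB : S_B3) (G : ℂ → ℂ) (u : ℕ → ℂ) (q : ℝ) (hL : Lf G u) (hq : 0 < q)
    (hE : FE G q) (F : ℝ → ℝ) (hF : C2c F) : QQ G u q F (9 / 10) (5 / 4 * (5 / 4 * (5 / 4 * (5 / 4 * (9 / 10))))) := by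
  have p := fun x hx => piece hA hP hB G u q hL hq hE F hF x hx
  refine glue _ _ _ _ _ _ _ ?_ ?_ (glue _ _ _ _ _ _ _ ?_ ?_ (glue _ _ _ _ _ _ _ ?_ ?_ (p _ ?_) (p _ ?_)) (p _ ?_)) (p _ ?_) <;>
    norm_num

/-- the zeros of a window -/
lemma fin_eq {G : ℂ → ℂ} {w : ℕ → ℂ} (hG : Lf G w) {F : ℝ → ℝ} {M : ℝ} (hF : ∀ x, M ≤ |x| → F x = 0) {U1 U2 t : ℝ}
    (hU : 1 ≤ U1) (h1 : U1 + M ≤ t) (h2 : t ≤ U2 - M) :
    ∑ᶠ s ∈ ZG G, (H370.mult G s : ℝ) * F (s.im - t) = ∑ s ∈ H370.Zf G U1 U2, (H370.mult G s : ℝ) * F (s.im - t) := by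
  unfold ZG
  have hZ : ∀ s : ℂ, s ∈ H370.Zf G U1 U2 ↔ s ∈ H370.zset G U1 U2 := fun s =>
    H370.mem_Zf hG.good hU
  rw [finsum_mem_eq_sum_of_inter_support_eq]
  ext s
  simp only [mem_inter_iff, Function.mem_support, SetLike.mem_coe, hZ]
  constructor
  · rintro ⟨⟨ha, hb, hc⟩, hd⟩
    refine ⟨⟨hb, hc, ?_, ?_, ha⟩, hd⟩
    · by_contra h
      push Not at h
      exact hd (by rw [hF _ (by rw [le_abs]; right; linarith), mul_zero])
    · by_contra h
      push Not at h
      exact hd (by rw [hF _ (by rw [le_abs]; left; linarith), mul_zero])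
  · rintro ⟨⟨ha, hb, hc, hd, he⟩, hf⟩
    exact ⟨⟨he, ha, hb⟩, hf⟩

/-- partition of unity -/
lemma decomp {F : ℝ → ℝ} (hF : ContDiff ℝ 2 F) (hc : HasCompactSupport F) :
    ∃ (M : ℕ) (f : Fin (2 * M + 1) → ℝ → ℝ) (a : Fin (2 * M + 1) → ℝ), (∀ j, C2c (f j)) ∧
      (∀ x, F x = ∑ j, f j (x - a j)) ∧ ∀ x : ℝ, (M : ℝ) ≤ |x| → F x = 0 := by
  obtain ⟨R, hR, hR0⟩ := hc.exists_pos_le_norm
  obtain ⟨M, hM⟩ := exists_nat_ge R
  have hM0 : ∀ x : ℝ, (M : ℝ) ≤ |x| → F x = 0 := fun x hx => hR0 x (by rw [Real.norm_eq_abs]; linarith)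
  refine ⟨M, fun j y => F (y + ((j : ℕ) - M : ℝ)) * (Real.smoothTransition (y + 1) - Real.smoothTransition y),
    fun j => ((j : ℕ) - M : ℝ), ?_, ?_, hM0⟩
  · intro j
    refine ⟨?_, ?_⟩
    · have h1 : ContDiff ℝ 2 Real.smoothTransition := Real.smoothTransition.contDiff
      have h2 : ContDiff ℝ 2 (fun y : ℝ => y + ((j : ℕ) - M : ℝ)) := contDiff_id.add contDiff_const
      have h3 : ContDiff ℝ 2 (fun y : ℝ => y + 1) := contDiff_id.add contDiff_const
      exact (hF.comp h2).mul ((h1.comp h3).sub h1)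
    · intro x hx
      show F (x + ((j : ℕ) - M : ℝ)) * (Real.smoothTransition (x + 1) - Real.smoothTransition x) = 0
      rcases le_abs.1 hx with h | h
      · rw [Real.smoothTransition.one_of_one_le (show 1 ≤ x + 1 by linarith), Real.smoothTransition.one_of_one_le h,
          sub_self, mul_zero]
      · rw [Real.smoothTransition.zero_of_nonpos (show x + 1 ≤ 0 by linarith),
          Real.smoothTransition.zero_of_nonpos (show x ≤ 0 by linarith), sub_self, mul_zero]
  · intro x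
    simp only
    have e : ∀ j : Fin (2 * M + 1), F (x - ((j : ℕ) - M : ℝ) + ((j : ℕ) - M : ℝ)) *
        (Real.smoothTransition (x - ((j : ℕ) - M : ℝ) + 1) - Real.smoothTransition (x - ((j : ℕ) - M : ℝ))) =
        F x * (Real.smoothTransition (x + M + 1 - ((j : ℕ) : ℝ)) - Real.smoothTransition (x + M + 1 - (((j : ℕ) + 1 : ℕ) : ℝ))) := by
      intro j
      have e1 : x - ((j : ℕ) - M : ℝ) + ((j : ℕ) - M : ℝ) = x := by ring
      have e2 : x - ((j : ℕ) - M : ℝ) + 1 = x + M + 1 - ((j : ℕ) : ℝ) := by ring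
      have e3 : x - ((j : ℕ) - M : ℝ) = x + M + 1 - (((j : ℕ) + 1 : ℕ) : ℝ) := by push_cast; ring
      rw [e1, e2, e3]
    rw [Finset.sum_congr rfl fun j _ => e j, ← Finset.mul_sum,
      Fin.sum_univ_eq_sum_range (fun j : ℕ => Real.smoothTransition (x + M + 1 - (j : ℝ)) -
        Real.smoothTransition (x + M + 1 - ((j + 1 : ℕ) : ℝ))) (2 * M + 1), Finset.sum_range_sub']
    by_cases hx : (M : ℝ) ≤ |x|
    · rw [hM0 x hx, zero_mul]
    · push Not at hx
      have h1 := abs_lt.1 hx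
      rw [Real.smoothTransition.one_of_one_le (by push_cast; linarith),
        Real.smoothTransition.zero_of_nonpos (by push_cast; linarith), sub_zero, mul_one]

/-- the transform of a decomposition -/
lemma FF_dec {F : ℝ → ℝ} {n : ℕ} {f : Fin n → ℝ → ℝ} {a : Fin n → ℝ} (hf : ∀ j, C2c (f j))
    (hs : ∀ x, F x = ∑ j, f j (x - a j)) (ξ : ℝ) :
    FF F ξ = ∑ j, FF (f j) ξ * cexp (-(((a j * ξ : ℝ) : ℂ) * I)) := by
  have e : ∀ j, FF (f j) ξ * cexp (-(((a j * ξ : ℝ) : ℂ) * I)) =
      ∫ s : ℝ, (f j (s - a j) : ℂ) * cexp (-(((ξ * s : ℝ) : ℂ) * I)) := by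
    intro j
    unfold FF
    rw [← integral_mul_const, ← integral_sub_right_eq_self _ (a j)]
    congr 1
    funext s
    rw [mul_assoc, ← Complex.exp_add]
    congr 2
    push_cast
    ring
  rw [Finset.sum_congr rfl fun j _ => e j]
  unfold FF
  rw [← integral_finsetSum]
  · congr 1
    funext s
    rw [hs s]
    push_cast
    rw [Finset.sum_mul]
  · intro j _
    have h1 : Continuous fun s : ℝ => cexp (-(((ξ * (s + a j) : ℝ) : ℂ) * I)) := by fun_prop
    have h2 := ((hf j).intmul h1).comp_sub_right (a j)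
    refine h2.congr ?_
    refine Eventually.of_forall fun s => ?_
    simp only [sub_add_cancel]

lemma Zt_dec (u : ℕ → ℂ) {F : ℝ → ℝ} {n : ℕ} {f : Fin n → ℝ → ℝ} {a : Fin n → ℝ} (hf : ∀ j, C2c (f j))
    (hs : ∀ x, F x = ∑ j, f j (x - a j)) (N : ℕ) (t : ℝ) :
    Zt u F N t = ∑ j, Zt u (f j) N (t + a j) := by
  unfold Zt Zs
  rw [← Complex.re_sum, Finset.sum_comm]
  congr 1
  apply Finset.sum_congr rfl
  intro m _
  rw [FF_dec hf hs, Finset.mul_sum, Finset.sum_mul]
  apply Finset.sum_congr rfl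
  intro j _
  have e : ee m (t + a j) = ee m t * cexp (-(((a j * Real.log m : ℝ) : ℂ) * I)) := by
    unfold ee
    rw [← Complex.exp_add]
    congr 1
    push_cast
    ring
  show _ = _ * (u m * ee m (t + a j))
  rw [e]
  ring

/-- the correction terms -/
noncomputable def Dj (q : ℝ) (f : ℝ → ℝ) (a t : ℝ) : ℝ :=
  (Real.log (q * (t + a) / (2 * Real.pi)) - Real.log (q * t / (2 * Real.pi))) / (2 * Real.pi) * ∫ x : ℝ, f x

lemma XM_dec {G : ℂ → ℂ} {u : ℕ → ℂ} (hL : Lf G u) (q : ℝ) {F : ℝ → ℝ} {n : ℕ} {f : Fin n → ℝ → ℝ} {a : Fin n → ℝ}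
    (hf : ∀ j, C2c (f j)) (hs : ∀ x, F x = ∑ j, f j (x - a j)) {M : ℝ} (hM : ∀ x, M ≤ |x| → F x = 0) (hM0 : 0 ≤ M)
    {A t : ℝ} (hA0 : 0 ≤ A) (hA : ∀ j, |a j| ≤ A) (ht : M + A + 2 ≤ t) :
    XM G q F t = ∑ j, (XM G q (f j) (t + a j) + Dj q (f j) (a j) t) := by
  have hI : ∫ x : ℝ, F x = ∑ j, ∫ x : ℝ, f j x := by
    have e : F = fun x => ∑ j, f j (x - a j) := funext hs
    rw [e, integral_finsetSum]
    · apply Finset.sum_congr rfl
      intro j _
      exact integral_sub_right_eq_self _ (a j)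
    · intro j _
      exact (hf j).int.comp_sub_right (a j)
  have e1 : ∀ j, XM G q (f j) (t + a j) + Dj q (f j) (a j) t =
      (∑ s ∈ H370.Zf G 1 (t + M + A + 1), (H370.mult G s : ℝ) * f j (s.im - t - a j)) -
        Real.log (q * t / (2 * Real.pi)) / (2 * Real.pi) * ∫ x : ℝ, f j x := by
    intro j
    have h1 := abs_le.1 (hA j)
    unfold XM Dj
    rw [fin_eq hL (hf j).supp (U1 := 1) (U2 := t + M + A + 1) le_rfl (by linarith) (by linarith)]
    have e2 : ∀ s : ℂ, s.im - (t + a j) = s.im - t - a j := fun s => by ring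
    simp only [e2]
    ring
  rw [Finset.sum_congr rfl fun j _ => e1 j, Finset.sum_sub_distrib, ← Finset.mul_sum, ← hI, Finset.sum_comm]
  unfold XM
  rw [fin_eq hL hM (U1 := 1) (U2 := t + M + A + 1) le_rfl (by linarith) (by linarith)]
  congr 1
  apply Finset.sum_congr rfl
  intro s _
  rw [hs, Finset.mul_sum]

lemma Dj_le {q : ℝ} (hq : 0 < q) (f : ℝ → ℝ) {a t T : ℝ} (hT : 0 < T) (hTt : T ≤ t) (ha : 2 * |a| ≤ T) :
    |Dj q f a t| ≤ 2 * |a| * |∫ x : ℝ, f x| / T := by
  have ht : 0 < t := by linarith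
  have ha1 := neg_abs_le a
  have ha2 := le_abs_self a
  have hta : 0 < t + a := by linarith
  have e1 : Real.log (q * (t + a) / (2 * Real.pi)) - Real.log (q * t / (2 * Real.pi)) = Real.log ((t + a) / t) := by
    have hp := Real.pi_pos
    rw [← Real.log_div (by positivity) (by positivity)]
    congr 1
    field_simp
  have h1 : Real.log ((t + a) / t) ≤ 2 * |a| / T := by
    have h2 := Real.log_le_sub_one_of_pos (show 0 < (t + a) / t by positivity)
    have e2 : (t + a) / t - 1 = a / t := by field_simp; ring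
    rw [e2] at h2
    have h3 : a / t ≤ |a| / t := div_le_div_of_nonneg_right ha2 ht.le
    have h4 : |a| / t ≤ |a| / T := div_le_div_of_nonneg_left (abs_nonneg _) hT hTt
    have h5 : 2 * |a| / T = |a| / T + |a| / T := by ring
    have h6 : 0 ≤ |a| / T := by positivity
    linarith
  have h2 : - (2 * |a| / T) ≤ Real.log ((t + a) / t) := by
    have h3 := Real.log_le_sub_one_of_pos (show 0 < t / (t + a) by positivity)
    have e2 : t / (t + a) - 1 = (-a) / (t + a) := by field_simp; ring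
    rw [e2] at h3
    have e3 : Real.log ((t + a) / t) = - Real.log (t / (t + a)) := by
      rw [← Real.log_inv, inv_div]
    rw [e3]
    have h4 : (-a) / (t + a) ≤ |a| / (t + a) := div_le_div_of_nonneg_right (neg_le_abs a) hta.le
    have h5 : |a| / (t + a) ≤ |a| / (T / 2) := div_le_div_of_nonneg_left (abs_nonneg _) (by positivity) (by linarith)
    have h6 : |a| / (T / 2) = 2 * |a| / T := by field_simp
    linarith
  have h3 : |Real.log ((t + a) / t)| ≤ 2 * |a| / T := abs_le.2 ⟨h2, h1⟩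
  unfold Dj
  rw [e1, abs_mul, abs_div, abs_of_pos (show (0 : ℝ) < 2 * Real.pi by positivity)]
  have h4 : |Real.log ((t + a) / t)| / (2 * Real.pi) ≤ 2 * |a| / T := by
    refine le_trans (div_le_self (abs_nonneg _) ?_) h3
    linarith [Real.pi_gt_three]
  calc _ ≤ 2 * |a| / T * |∫ x : ℝ, f x| := mul_le_mul_of_nonneg_right h4 (abs_nonneg _)
    _ = _ := by ring

lemma Dj_cont {q : ℝ} (hq : 0 < q) (f : ℝ → ℝ) {a T : ℝ} (hT : 0 < T) (ha : 2 * |a| ≤ T) :
    ContinuousOn (Dj q f a) (Icc T (2 * T)) := by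
  unfold Dj
  have hp := Real.pi_pos
  have ha1 := neg_abs_le a
  refine ContinuousOn.mul (ContinuousOn.div_const (ContinuousOn.sub ?_ ?_) _) continuousOn_const
  · refine ContinuousOn.log (by fun_prop) ?_
    intro t ht
    have : 0 < t + a := by linarith [ht.1]
    positivity
  · refine ContinuousOn.log (by fun_prop) ?_
    intro t ht
    have : 0 < t := by linarith [ht.1]
    positivity

end MLL

open MLL in
theorem t_ML (hA : S_AM) (hP : S_PM3) (hB : S_B3) : S_ML := by
  intro G u q hL hq hE F hF hFc ε hε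
  obtain ⟨M, f, a, hf, hs, hM⟩ := decomp hF hFc
  set A : ℝ := ∑ j, |a j| with hAd
  have hA0 : 0 ≤ A := Finset.sum_nonneg fun j _ => abs_nonneg _
  have hAj : ∀ j, |a j| ≤ A := fun j => Finset.single_le_sum (f := fun j => |a j|) (fun j _ => abs_nonneg _) (Finset.mem_univ j)
  set K : ℝ := ∑ j, 2 * |a j| * |∫ x : ℝ, f j x| with hK
  have hK0 : 0 ≤ K := Finset.sum_nonneg fun j _ => by positivity
  set δ : ℝ := ε / (2 * (2 * M + 1)) with hδ
  have hδp : 0 < δ := by positivity
  have hall : ∀ᶠ N : ℕ in atTop, ∀ j, ∀ᶠ T : ℝ in atTop,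
      ContinuousOn (XM G q (f j)) (Icc (9 / 10 * T) (5 / 4 * (5 / 4 * (5 / 4 * (5 / 4 * (9 / 10)))) * T)) ∧
      ∫ t in (9 / 10 * T)..(5 / 4 * (5 / 4 * (5 / 4 * (5 / 4 * (9 / 10)))) * T), |XM G q (f j) t + Zt u (f j) N t| ≤ δ * T :=
    eventually_all.2 fun j => long hA hP hB G u q hL hq hE (f j) (hf j) δ hδp
  obtain ⟨N0, hN0⟩ := eventually_atTop.1 hall
  refine ⟨N0, fun N hN => ?_⟩
  obtain ⟨T1, hT1⟩ := eventually_atTop.1 (eventually_all.2 (hN0 N hN))
  refine ⟨max 10 (max T1 (max (10 * A) (max (M + A + 2) (2 * K / ε)))), le_max_left _ _, fun T hT => ?_⟩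
  have hT10 : 10 ≤ T := (le_max_left _ _).trans hT
  have hT' := (le_max_right _ _).trans hT
  have hTT1 : T1 ≤ T := (le_max_left _ _).trans hT'
  have hT'' := (le_max_right _ _).trans hT'
  have hTA : 10 * A ≤ T := (le_max_left _ _).trans hT''
  have hT3 := (le_max_right _ _).trans hT''
  have hTM : M + A + 2 ≤ T := (le_max_left _ _).trans hT3
  have hTK : 2 * K / ε ≤ T := (le_max_right _ _).trans hT3
  have hTp : 0 < T := by linarith
  have hj := hT1 T hTT1
  have hT2 : T ≤ 2 * T := by linarith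
  -- the shifted functions
  have hmaps : ∀ j, ∀ t ∈ Icc T (2 * T), t + a j ∈ Icc (9 / 10 * T) (5 / 4 * (5 / 4 * (5 / 4 * (5 / 4 * (9 / 10)))) * T) := by
    intro j t ht
    have h1 := abs_le.1 (hAj j)
    constructor
    · linarith [ht.1]
    · linarith [ht.2]
  have hcj : ∀ j, ContinuousOn (fun t => XM G q (f j) (t + a j)) (Icc T (2 * T)) := fun j =>
    (hj j).1.comp (by fun_prop) (hmaps j)
  have hdj : ∀ j, ContinuousOn (Dj q (f j) (a j)) (Icc T (2 * T)) := fun j =>
    Dj_cont hq (f j) hTp (by linarith [hAj j])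
  have heq : ∀ t ∈ Icc T (2 * T), XM G q F t = ∑ j, (XM G q (f j) (t + a j) + Dj q (f j) (a j) t) := fun t ht =>
    XM_dec hL q hf hs hM (Nat.cast_nonneg M) hA0 hAj (hTM.trans ht.1)
  have hcont : ContinuousOn (XM G q F) (Icc T (2 * T)) := by
    refine ContinuousOn.congr ?_ heq
    exact continuousOn_finsetSum _ fun j _ => (hcj j).add (hdj j)
  refine ⟨hcont, ?_⟩
  have hpt : ∀ t ∈ Icc T (2 * T), |XM G q F t + Zt u F N t| ≤
      (∑ j, |XM G q (f j) (t + a j) + Zt u (f j) N (t + a j)|) + K / T := by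
    intro t ht
    rw [heq t ht, Zt_dec u hf hs]
    have e : (∑ j, (XM G q (f j) (t + a j) + Dj q (f j) (a j) t)) + ∑ j, Zt u (f j) N (t + a j) =
        (∑ j, (XM G q (f j) (t + a j) + Zt u (f j) N (t + a j))) + ∑ j, Dj q (f j) (a j) t := by
      simp only [Finset.sum_add_distrib]
      ring
    rw [e]
    refine (abs_add_le _ _).trans (add_le_add (Finset.abs_sum_le_sum_abs _ _) ?_)
    refine (Finset.abs_sum_le_sum_abs _ _).trans ?_
    rw [hK, Finset.sum_div]
    exact Finset.sum_le_sum fun j _ => Dj_le hq (f j) hTp ht.1 (by linarith [hAj j])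
  have hYc := Zt_cont u F N
  have hI0 : IntervalIntegrable (fun t => |XM G q F t + Zt u F N t|) volume T (2 * T) := by
    apply ContinuousOn.intervalIntegrable
    rw [uIcc_of_le hT2]
    exact (hcont.add hYc.continuousOn).abs
  have hIj : ∀ j, IntervalIntegrable (fun t => |XM G q (f j) (t + a j) + Zt u (f j) N (t + a j)|) volume T (2 * T) := by
    intro j
    apply ContinuousOn.intervalIntegrable
    rw [uIcc_of_le hT2]
    have h1 := Zt_cont u (f j) N
    exact ((hcj j).add (by fun_prop)).abs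
  have hbj : ∀ j, ∫ t in T..(2 * T), |XM G q (f j) (t + a j) + Zt u (f j) N (t + a j)| ≤ δ * T := by
    intro j
    have h1 := Zt_cont u (f j) N
    have hm1 := hmaps j T ⟨le_rfl, hT2⟩
    have hm2 := hmaps j (2 * T) ⟨hT2, le_rfl⟩
    rw [intervalIntegral.integral_comp_add_right (fun t => |XM G q (f j) t + Zt u (f j) N t|) (a j)]
    refine le_trans ?_ (hj j).2
    refine intervalIntegral.integral_mono_interval hm1.1 (by linarith) hm2.2
      (Eventually.of_forall fun t => abs_nonneg _) ?_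
    apply ContinuousOn.intervalIntegrable
    rw [uIcc_of_le (by linarith)]
    exact ((hj j).1.add h1.continuousOn).abs
  have hsum : IntervalIntegrable (fun t => ∑ j, |XM G q (f j) (t + a j) + Zt u (f j) N (t + a j)|) volume T (2 * T) := by
    have := IntervalIntegrable.sum Finset.univ (f := fun j t => |XM G q (f j) (t + a j) + Zt u (f j) N (t + a j)|)
      fun j _ => hIj j
    refine this.congr ?_
    intro t _
    simp only [Finset.sum_apply]
  show ∫ t in T..(2 * T), |XM G q F t + Zt u F N t| ≤ ε * T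
  calc ∫ t in T..(2 * T), |XM G q F t + Zt u F N t| ≤
      ∫ t in T..(2 * T), ((∑ j, |XM G q (f j) (t + a j) + Zt u (f j) N (t + a j)|) + K / T) :=
        intervalIntegral.integral_mono_on hT2 hI0 (hsum.add intervalIntegrable_const) hpt
    _ = (∑ j, ∫ t in T..(2 * T), |XM G q (f j) (t + a j) + Zt u (f j) N (t + a j)|) + K := by
        rw [intervalIntegral.integral_add hsum intervalIntegrable_const, intervalIntegral.integral_const,
          intervalIntegral.integral_finsetSum fun j _ => hIj j, smul_eq_mul]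
        congr 1
        field_simp
        ring
    _ ≤ (∑ _j : Fin (2 * M + 1), δ * T) + K := by
        gcongr with j _
        exact hbj j
    _ = ε / 2 * T + K := by
        rw [Finset.sum_const, Finset.card_univ, Fintype.card_fin, nsmul_eq_mul, hδ]
        push_cast
        congr 1
        field_simp
    _ ≤ ε * T := by
        rw [div_le_iff₀ hε] at hTK
        linarith

end Pool.Agent.H203.MC
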