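import Pool.Agent.H203.MC.Defs
import Pool.Agent.H203.GE.TRG

set_option autoImplicit false

/-! Leaf MM: all moments of the linear statistics at fixed distances are bounded (dyadic decomposition by
the cubic B-spline, which satisfies a refinement equation). -/

open Complex Filter Topology Set MeasureTheory

namespace Pool.Agent.H203.MC.MML



/-- the cube of the positive part -/
noncomputable def pp (x : ℝ) : ℝ := (max x 0) ^ 3

lemma pp_deriv (n : ℕ) (x : ℝ) : HasDerivAt (fun x : ℝ => (max x 0) ^ (n + 2)) (((n : ℝ) + 2) * (max x 0) ^ (n + 1)) x := by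
  rcases lt_trichotomy x 0 with h | h | h
  · have h1 : (fun x : ℝ => (max x 0) ^ (n + 2)) =ᶠ[𝓝 x] fun _ => (0 : ℝ) := by
      filter_upwards [gt_mem_nhds h] with y hy
      rw [max_eq_right hy.le, zero_pow (by omega)]
    rw [max_eq_right h.le, zero_pow (by omega), mul_zero]
    exact (hasDerivAt_const x (0 : ℝ)).congr_of_eventuallyEq h1
  · subst h
    rw [max_self, zero_pow (by omega), mul_zero]
    rw [hasDerivAt_iff_isLittleO_nhds_zero]
    simp only [zero_add, max_self, zero_pow (show n + 2 ≠ 0 by omega), sub_zero, smul_zero]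
    rw [Asymptotics.isLittleO_iff]
    intro c hc
    have h2 : ∀ᶠ y : ℝ in 𝓝 0, |y| < min c 1 := by
      have := Metric.ball_mem_nhds (0 : ℝ) (lt_min hc one_pos)
      filter_upwards [this] with y hy
      simpa [Real.dist_eq] using hy
    filter_upwards [h2] with y hy
    have h3 : |max y 0| ≤ |y| := by
      rcases le_total y 0 with h | h
      · rw [max_eq_right h]; simp
      · rw [max_eq_left h]
    rw [Real.norm_eq_abs, Real.norm_eq_abs, abs_pow]
    have h4 : |max y 0| ^ (n + 2) ≤ |y| ^ (n + 2) := pow_le_pow_left₀ (abs_nonneg _) h3 _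
    have h5 : |y| ^ (n + 2) = |y| ^ n * |y| * |y| := by ring
    have h6 : |y| ^ n ≤ 1 := pow_le_one₀ (abs_nonneg _) ((hy.trans_le (min_le_right _ _)).le)
    have h7 : |y| ^ n * |y| ≤ 1 * c :=
      mul_le_mul h6 ((hy.trans_le (min_le_left _ _)).le) (abs_nonneg _) zero_le_one
    calc |max y 0| ^ (n + 2) ≤ |y| ^ n * |y| * |y| := by rw [← h5]; exact h4
      _ ≤ (1 * c) * |y| := mul_le_mul_of_nonneg_right h7 (abs_nonneg _)
      _ = c * |y| := by ring
  · have h1 : (fun x : ℝ => (max x 0) ^ (n + 2)) =ᶠ[𝓝 x] fun y => y ^ (n + 2) := by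
      filter_upwards [lt_mem_nhds h] with y hy
      rw [max_eq_left hy.le]
    rw [max_eq_left h.le]
    have h2 := hasDerivAt_pow (n + 2) x
    have h3 : ((n + 2 : ℕ) : ℝ) * x ^ (n + 2 - 1) = ((n : ℝ) + 2) * x ^ (n + 1) := by
      push_cast
      rfl
    rw [h3] at h2
    exact h2.congr_of_eventuallyEq h1

lemma pp_cd : ContDiff ℝ 2 pp := by
  have h0 : Continuous fun x : ℝ => (max x 0) ^ 1 := by fun_prop
  have hd2 : deriv (fun x : ℝ => (max x 0) ^ 2) = fun x => 2 * (max x 0) ^ 1 := by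
    funext x
    have := (pp_deriv 0 x).deriv
    simpa using this
  have hd3 : deriv pp = fun x => 3 * (max x 0) ^ 2 := by
    funext x
    have := (pp_deriv 1 x).deriv
    unfold pp
    rw [this]
    norm_num
  have c1 : ContDiff ℝ 1 (fun x : ℝ => (max x 0) ^ 2) := by
    rw [show (1 : WithTop ℕ∞) = 0 + 1 from rfl, contDiff_succ_iff_deriv]
    refine ⟨fun x => (pp_deriv 0 x).differentiableAt, by simp, ?_⟩
    rw [hd2]
    exact contDiff_zero.mpr (continuous_const.mul h0)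
  rw [show (2 : WithTop ℕ∞) = 1 + 1 from rfl, contDiff_succ_iff_deriv]
  refine ⟨fun x => (pp_deriv 1 x).differentiableAt, by simp, ?_⟩
  rw [hd3]
  exact contDiff_const.mul c1

/-- the cubic B-spline -/
noncomputable def bs (x : ℝ) : ℝ :=
  (pp (x + 2) - 4 * pp (x + 1) + 6 * pp x - 4 * pp (x - 1) + pp (x - 2)) / 6

lemma bs_cd : ContDiff ℝ 2 bs := by
  unfold bs
  have h : ∀ c : ℝ, ContDiff ℝ 2 (fun x : ℝ => pp (x + c)) := fun c =>
    pp_cd.comp (contDiff_id.add contDiff_const)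
  have h' : ∀ c : ℝ, ContDiff ℝ 2 (fun x : ℝ => pp (x - c)) := fun c =>
    pp_cd.comp (contDiff_id.sub contDiff_const)
  exact (((((h 2).sub (contDiff_const.mul (h 1))).add (contDiff_const.mul pp_cd)).sub
    (contDiff_const.mul (h' 1))).add (h' 2)).div_const 6

lemma pp_pos {x : ℝ} (h : 0 ≤ x) : pp x = x ^ 3 := by unfold pp; rw [max_eq_left h]

lemma pp_neg {x : ℝ} (h : x ≤ 0) : pp x = 0 := by unfold pp; rw [max_eq_right h]; norm_num

lemma pp_two (x : ℝ) : pp (2 * x) = 8 * pp x := by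
  rcases le_total x 0 with h | h
  · rw [pp_neg h, pp_neg (by linarith)]; ring
  · rw [pp_pos h, pp_pos (by linarith)]; ring

lemma bs_zero {x : ℝ} (h : 2 ≤ |x|) : bs x = 0 := by
  unfold bs
  rcases le_abs.mp h with h1 | h1
  · rw [pp_pos (by linarith), pp_pos (by linarith), pp_pos (by linarith), pp_pos (by linarith),
      pp_pos (by linarith)]
    ring
  · rw [pp_neg (by linarith), pp_neg (by linarith), pp_neg (by linarith), pp_neg (by linarith),
      pp_neg (by linarith)]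
    ring

lemma bs_cs : HasCompactSupport bs := by
  refine HasCompactSupport.intro (isCompact_Icc (a := -2) (b := 2)) ?_
  intro x hx
  apply bs_zero
  by_contra h
  push Not at h
  rw [abs_lt] at h
  exact hx ⟨h.1.le, h.2.le⟩

/-- the refinement equation -/
lemma bs_ref (x : ℝ) : bs x = 1 / 8 * bs (2 * x - 2) + 1 / 2 * bs (2 * x - 1) + 3 / 4 * bs (2 * x) +
    1 / 2 * bs (2 * x + 1) + 1 / 8 * bs (2 * x + 2) := by
  have h : ∀ c : ℝ, pp (2 * x + c) = 8 * pp (x + c / 2) := by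
    intro c
    rw [← pp_two]
    ring_nf
  unfold bs
  have e1 : ∀ a b : ℝ, 2 * x - a + b = 2 * x + (b - a) := by intro a b; ring
  have e2 : ∀ a b : ℝ, 2 * x - a - b = 2 * x + (- b - a) := by intro a b; ring
  have e3 : ∀ a b : ℝ, 2 * x + a - b = 2 * x + (a - b) := by intro a b; ring
  have e4 : ∀ a b : ℝ, 2 * x + a + b = 2 * x + (a + b) := by intro a b; ring
  have e5 : ∀ a : ℝ, 2 * x - a = 2 * x + (- a) := by intro a; ring
  have e6 : ∀ a : ℝ, x - a = x + (- a) := by intro a; ring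
  simp only [e1, e2, e3, e4]
  simp only [e5, e6]
  simp only [h]
  norm_num
  have h0 : pp (2 * x) = 8 * pp x := pp_two x
  rw [h0]
  ring

lemma bs_1 {r : ℝ} (h0 : 0 ≤ r) (h1 : r ≤ 1) : bs (r + 1) = (1 - r) ^ 3 / 6 := by
  unfold bs
  rw [pp_pos (by linarith), pp_pos (by linarith), pp_pos (by linarith), pp_pos (by linarith),
    pp_neg (by linarith)]
  ring

lemma bs_2 {r : ℝ} (h0 : 0 ≤ r) (h1 : r ≤ 1) : bs r = (4 - 6 * r ^ 2 + 3 * r ^ 3) / 6 := by
  unfold bs
  rw [pp_pos (by linarith), pp_pos (by linarith), pp_pos (by linarith), pp_neg (by linarith),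
    pp_neg (by linarith)]
  ring

lemma bs_3 {r : ℝ} (h0 : 0 ≤ r) (h1 : r ≤ 1) : bs (r - 1) = (1 + 3 * r + 3 * r ^ 2 - 3 * r ^ 3) / 6 := by
  unfold bs
  rw [pp_pos (by linarith), pp_pos (by linarith), pp_neg (by linarith), pp_neg (by linarith),
    pp_neg (by linarith)]
  ring

lemma bs_4 {r : ℝ} (h0 : 0 ≤ r) (h1 : r ≤ 1) : bs (r - 2) = r ^ 3 / 6 := by
  unfold bs
  rw [pp_pos (by linarith), pp_neg (by linarith), pp_neg (by linarith), pp_neg (by linarith),
    pp_neg (by linarith)]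
  ring


lemma even_odd {f : ℤ → ℝ} {a b : ℝ} (he : HasSum (fun k : ℤ => f (2 * k)) a)
    (ho : HasSum (fun k : ℤ => f (2 * k + 1)) b) : HasSum f (a + b) := by
  have h1 : Function.Injective (fun k : ℤ => 2 * k) := mul_right_injective₀ (two_ne_zero' ℤ)
  have h2 : Function.Injective (fun k : ℤ => 2 * k + 1) := (add_left_injective 1).comp h1
  have ho' := h2.hasSum_range_iff.2 ho
  refine (h1.hasSum_range_iff.2 he).add_isCompl ?_ ho'
  have h3 : Set.range (fun k : ℤ => 2 * k) = {n : ℤ | Even n} := by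
    ext n
    simp only [Set.mem_range, Set.mem_ofPred_eq]
    constructor
    · rintro ⟨k, rfl⟩
      exact even_two_mul k
    · rintro ⟨k, hk⟩
      exact ⟨k, by omega⟩
  have h4 : Set.range (fun k : ℤ => 2 * k + 1) = {n : ℤ | Odd n} := by
    ext n
    simp only [Set.mem_range, Set.mem_ofPred_eq]
    constructor
    · rintro ⟨k, rfl⟩
      exact odd_two_mul_add_one k
    · rintro ⟨k, hk⟩
      exact ⟨k, by omega⟩
  rw [h3, h4]
  exact Int.isCompl_even_odd

/-- the refined coefficients -/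
noncomputable def rr (α : ℤ → ℝ) (k : ℤ) : ℝ :=
  if k % 2 = 0 then 3 / 4 * α (k / 2) + 1 / 8 * (α (k / 2 - 1) + α (k / 2 + 1))
  else 1 / 2 * (α (k / 2) + α (k / 2 + 1))

lemma refine_sum (α : ℤ → ℝ) (hα : (Function.support α).Finite) (y : ℝ) :
    HasSum (fun k : ℤ => rr α k * bs (y - k)) (∑' j : ℤ, α j * bs (y / 2 - j)) := by
  have hs : ∀ (g : ℤ → ℝ), Summable fun j => α j * g j := by
    intro g
    refine summable_of_hasFiniteSupport (hα.subset ?_)
    intro j hj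
    intro h0
    apply hj
    show α j * g j = 0
    rw [h0, zero_mul]
  have hL : HasSum (fun j : ℤ => α j * bs (y / 2 - j)) (∑' j : ℤ, α j * bs (y / 2 - j)) :=
    (hs _).hasSum
  -- the five sums
  set s1 := ∑' j : ℤ, α j * bs (y - 2 * j - 2) with h1
  set s2 := ∑' j : ℤ, α j * bs (y - 2 * j - 1) with h2
  set s3 := ∑' j : ℤ, α j * bs (y - 2 * j) with h3
  set s4 := ∑' j : ℤ, α j * bs (y - 2 * j + 1) with h4
  set s5 := ∑' j : ℤ, α j * bs (y - 2 * j + 2) with h5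
  have e1 : HasSum (fun j : ℤ => α j * bs (y - 2 * j - 2)) s1 := (hs (fun j => bs (y - 2 * j - 2))).hasSum
  have e2 : HasSum (fun j : ℤ => α j * bs (y - 2 * j - 1)) s2 := (hs (fun j => bs (y - 2 * j - 1))).hasSum
  have e3 : HasSum (fun j : ℤ => α j * bs (y - 2 * j)) s3 := (hs (fun j => bs (y - 2 * j))).hasSum
  have e4 : HasSum (fun j : ℤ => α j * bs (y - 2 * j + 1)) s4 := (hs (fun j => bs (y - 2 * j + 1))).hasSum
  have e5 : HasSum (fun j : ℤ => α j * bs (y - 2 * j + 2)) s5 := (hs (fun j => bs (y - 2 * j + 2))).hasSum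
  have hL2 : ∑' j : ℤ, α j * bs (y / 2 - j) = 1 / 8 * s1 + 1 / 2 * s2 + 3 / 4 * s3 + 1 / 2 * s4 + 1 / 8 * s5 := by
    have h6 := ((((e1.mul_left (1 / 8)).add (e2.mul_left (1 / 2))).add (e3.mul_left (3 / 4))).add
      (e4.mul_left (1 / 2))).add (e5.mul_left (1 / 8))
    refine HasSum.unique hL ?_
    have h7 : (fun j : ℤ => α j * bs (y / 2 - j)) = fun j : ℤ =>
        1 / 8 * (α j * bs (y - 2 * j - 2)) + 1 / 2 * (α j * bs (y - 2 * j - 1)) +
          3 / 4 * (α j * bs (y - 2 * j)) + 1 / 2 * (α j * bs (y - 2 * j + 1)) +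
          1 / 8 * (α j * bs (y - 2 * j + 2)) := by
      funext j
      rw [bs_ref (y / 2 - j), show 2 * (y / 2 - (j : ℝ)) = y - 2 * j by ring]
      ring
    rw [h7]
    exact h6
  rw [hL2]
  -- shifts
  have shift : ∀ {f : ℤ → ℝ} {a : ℝ}, HasSum f a → ∀ c : ℤ, HasSum (fun j => f (j + c)) a :=
    fun h c => (Equiv.addRight c).hasSum_iff.mpr h
  have e1' : HasSum (fun j : ℤ => α (j - 1) * bs (y - 2 * j)) s1 := by
    have h8 := shift e1 (-1)
    have h9 : (fun j : ℤ => α (j - 1) * bs (y - 2 * j)) =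
        fun j : ℤ => α (j + -1) * bs (y - 2 * ((j + -1 : ℤ) : ℝ) - 2) := by
      funext j
      rw [sub_eq_add_neg j 1]
      congr 2
      push_cast
      ring
    rw [h9]
    exact h8
  have e5' : HasSum (fun j : ℤ => α (j + 1) * bs (y - 2 * j)) s5 := by
    have h8 := shift e5 1
    have h9 : (fun j : ℤ => α (j + 1) * bs (y - 2 * j)) =
        fun j : ℤ => α (j + 1) * bs (y - 2 * ((j + 1 : ℤ) : ℝ) + 2) := by
      funext j
      congr 2
      push_cast
      ring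
    rw [h9]
    exact h8
  have e4' : HasSum (fun j : ℤ => α (j + 1) * bs (y - 2 * j - 1)) s4 := by
    have h8 := shift e4 1
    have h9 : (fun j : ℤ => α (j + 1) * bs (y - 2 * j - 1)) =
        fun j : ℤ => α (j + 1) * bs (y - 2 * ((j + 1 : ℤ) : ℝ) + 1) := by
      funext j
      congr 2
      push_cast
      ring
    rw [h9]
    exact h8
  have hE : HasSum (fun j : ℤ => rr α (2 * j) * bs (y - ((2 * j : ℤ) : ℝ)))
      (3 / 4 * s3 + 1 / 8 * (s1 + s5)) := by
    have h10 := (e3.mul_left (3 / 4)).add ((e1'.add e5').mul_left (1 / 8))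
    have h11 : (fun j : ℤ => rr α (2 * j) * bs (y - ((2 * j : ℤ) : ℝ))) = fun j : ℤ =>
        3 / 4 * (α j * bs (y - 2 * j)) +
          1 / 8 * (α (j - 1) * bs (y - 2 * j) + α (j + 1) * bs (y - 2 * j)) := by
      funext j
      unfold rr
      rw [if_pos (by omega), show (2 * j) / 2 = j by omega]
      push_cast
      ring
    rw [h11]
    exact h10
  have hO : HasSum (fun j : ℤ => rr α (2 * j + 1) * bs (y - ((2 * j + 1 : ℤ) : ℝ)))
      (1 / 2 * (s2 + s4)) := by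
    have h10 := (e2.add e4').mul_left (1 / 2)
    have h11 : (fun j : ℤ => rr α (2 * j + 1) * bs (y - ((2 * j + 1 : ℤ) : ℝ))) = fun j : ℤ =>
        1 / 2 * (α j * bs (y - 2 * j - 1) + α (j + 1) * bs (y - 2 * j - 1)) := by
      funext j
      unfold rr
      rw [if_neg (by omega), show (2 * j + 1) / 2 = j by omega]
      have : y - ((2 * j + 1 : ℤ) : ℝ) = y - 2 * j - 1 := by push_cast; ring
      rw [this]
      ring
    rw [h11]
    exact h10
  have h12 := even_odd (f := fun k : ℤ => rr α k * bs (y - k)) hE hO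
  have h13 : 1 / 8 * s1 + 1 / 2 * s2 + 3 / 4 * s3 + 1 / 2 * s4 + 1 / 8 * s5 =
      3 / 4 * s3 + 1 / 8 * (s1 + s5) + 1 / 2 * (s2 + s4) := by ring
  rw [h13]
  exact h12

/-! ### the sampling sums -/

/-- the samples -/
noncomputable def al (F : ℝ → ℝ) (i : ℕ) (j : ℤ) : ℝ := F ((j : ℝ) / 2 ^ i)

/-- the index sets -/
noncomputable def sx (A i : ℕ) : Finset ℤ := Finset.Icc (-(((A + 2) * 2 ^ i : ℕ) : ℤ)) (((A + 2) * 2 ^ i : ℕ) : ℤ)

/-- the coefficients of the differences -/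
noncomputable def wc (F : ℝ → ℝ) (i : ℕ) (k : ℤ) : ℝ := al F (i + 1) k - rr (al F i) k

lemma al_zero {F : ℝ → ℝ} {A : ℕ} (hF : ∀ x, (A : ℝ) ≤ |x| → F x = 0) {i : ℕ} {j : ℤ}
    (h : ((A * 2 ^ i : ℕ) : ℤ) ≤ |j|) : al F i j = 0 := by
  apply hF
  rw [abs_div, abs_of_pos (show (0 : ℝ) < 2 ^ i by positivity), le_div_iff₀ (by positivity)]
  have : (((A * 2 ^ i : ℕ) : ℤ) : ℝ) ≤ ((|j| : ℤ) : ℝ) := by exact_mod_cast h
  rw [Int.cast_abs] at this
  refine le_trans (le_of_eq ?_) this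
  push_cast
  ring

lemma al_supp {F : ℝ → ℝ} {A : ℕ} (hF : ∀ x, (A : ℝ) ≤ |x| → F x = 0) (i : ℕ) :
    (Function.support (al F i)).Finite := by
  refine (Set.finite_Icc (-(((A * 2 ^ i : ℕ)) : ℤ)) (((A * 2 ^ i : ℕ)) : ℤ)).subset ?_
  intro j hj
  by_contra h
  apply hj
  apply al_zero hF
  rw [Set.mem_Icc, not_and_or] at h
  rcases h with h | h
  · push Not at h
    rw [le_abs]; right; omega
  · push Not at h
    rw [le_abs]; left; omega

lemma al_out {F : ℝ → ℝ} {A : ℕ} (hF : ∀ x, (A : ℝ) ≤ |x| → F x = 0) {i : ℕ} {j : ℤ}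
    (h : j ∉ sx A i) : al F i j = 0 := by
  apply al_zero hF
  unfold sx at h
  rw [Finset.mem_Icc, not_and_or] at h
  have h1 : A * 2 ^ i ≤ (A + 2) * 2 ^ i := Nat.mul_le_mul_right _ (by omega)
  rcases h with h | h
  · push Not at h
    rw [le_abs]; right
    have : ((A * 2 ^ i : ℕ) : ℤ) ≤ (((A + 2) * 2 ^ i : ℕ) : ℤ) := by exact_mod_cast h1
    omega
  · push Not at h
    rw [le_abs]; left
    have : ((A * 2 ^ i : ℕ) : ℤ) ≤ (((A + 2) * 2 ^ i : ℕ) : ℤ) := by exact_mod_cast h1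
    omega

lemma wc_out {F : ℝ → ℝ} {A : ℕ} (hF : ∀ x, (A : ℝ) ≤ |x| → F x = 0) {i : ℕ} {k : ℤ}
    (h : k ∉ sx A (i + 1)) : wc F i k = 0 := by
  unfold wc
  rw [al_out hF h, zero_sub, neg_eq_zero]
  have hk : (((A + 2) * 2 ^ (i + 1) : ℕ) : ℤ) < |k| := by
    unfold sx at h
    rw [Finset.mem_Icc, not_and_or] at h
    rcases h with h | h
    · push Not at h
      rw [lt_abs]; right; omega
    · push Not at h
      rw [lt_abs]; left; omega
  have h1 : 1 ≤ 2 ^ i := Nat.one_le_two_pow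
  have h2 : (((A + 2) * 2 ^ (i + 1) : ℕ) : ℤ) = 2 * ((A * 2 ^ i : ℕ) : ℤ) + 4 * ((2 ^ i : ℕ) : ℤ) := by
    push_cast
    ring
  have h3 : (1 : ℤ) ≤ ((2 ^ i : ℕ) : ℤ) := by exact_mod_cast h1
  rw [h2] at hk
  have z : ∀ j : ℤ, |k / 2 - j| ≤ 1 → al F i j = 0 := by
    intro j hj
    apply al_zero hF
    rw [abs_le] at hj
    rcases lt_abs.mp hk with h4 | h4
    · rw [le_abs]; left; omega
    · rw [le_abs]; right; omega
  unfold rr
  rw [z (k / 2) (by simp), z (k / 2 - 1) (by simp), z (k / 2 + 1) (by simp)]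
  simp

/-- the sampling sum -/
noncomputable def SS (F : ℝ → ℝ) (A i : ℕ) (x : ℝ) : ℝ := ∑ k ∈ sx A i, al F i k * bs (2 ^ i * x - k)

lemma SS_eq {F : ℝ → ℝ} {A : ℕ} (hF : ∀ x, (A : ℝ) ≤ |x| → F x = 0) (i : ℕ) (x : ℝ) :
    HasSum (fun k : ℤ => al F i k * bs (2 ^ i * x - k)) (SS F A i x) := by
  unfold SS
  apply hasSum_sum_of_ne_finset_zero
  intro k hk
  rw [al_out hF hk, zero_mul]

lemma SS_succ {F : ℝ → ℝ} {A : ℕ} (hF : ∀ x, (A : ℝ) ≤ |x| → F x = 0) (i : ℕ) (x : ℝ) :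
    SS F A (i + 1) x - SS F A i x = ∑ k ∈ sx A (i + 1), wc F i k * bs (2 ^ (i + 1) * x - k) := by
  have h1 := SS_eq hF (i + 1) x
  have h2 := refine_sum (al F i) (al_supp hF i) (2 ^ (i + 1) * x)
  have h3 : (∑' j : ℤ, al F i j * bs (2 ^ (i + 1) * x / 2 - j)) = SS F A i x := by
    rw [← (SS_eq hF i x).tsum_eq]
    congr 1
    funext j
    congr 2
    rw [pow_succ]
    ring
  rw [h3] at h2
  have h4 := h1.sub h2
  have h5 : HasSum (fun k : ℤ => wc F i k * bs (2 ^ (i + 1) * x - k))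
      (∑ k ∈ sx A (i + 1), wc F i k * bs (2 ^ (i + 1) * x - k)) := by
    apply hasSum_sum_of_ne_finset_zero
    intro k hk
    rw [wc_out hF hk, zero_mul]
  refine HasSum.unique h4 ?_
  have h6 : (fun k : ℤ => al F (i + 1) k * bs (2 ^ (i + 1) * x - k) -
      rr (al F i) k * bs (2 ^ (i + 1) * x - k)) = fun k : ℤ => wc F i k * bs (2 ^ (i + 1) * x - k) := by
    funext k
    unfold wc
    ring
  rw [h6]
  exact h5

lemma SS_tele {F : ℝ → ℝ} {A : ℕ} (hF : ∀ x, (A : ℝ) ≤ |x| → F x = 0) (J n : ℕ) (x : ℝ) :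
    SS F A (J + n) x = SS F A J x +
      ∑ i ∈ Finset.range n, ∑ k ∈ sx A (J + i + 1), wc F (J + i) k * bs (2 ^ (J + i + 1) * x - k) := by
  induction n with
  | zero => simp
  | succ n ih =>
    rw [Finset.sum_range_succ, show J + (n + 1) = J + n + 1 by ring]
    have h := SS_succ hF (J + n) x
    linarith

/-! ### estimates -/

lemma tay {F : ℝ → ℝ} (hF : ContDiff ℝ 2 F) {M : ℝ} (hM : ∀ x, |deriv (deriv F) x| ≤ M) (x z : ℝ) :
    |F z - F x - deriv F x * (z - x)| ≤ M * (z - x) ^ 2 := by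
  have hd : Differentiable ℝ F := hF.differentiable (by norm_num)
  have hd1 : ContDiff ℝ 1 (deriv F) := by
    have h2 : ContDiff ℝ (1 + 1) F := by
      have : (1 + 1 : WithTop ℕ∞) = 2 := by norm_num
      rw [this]; exact hF
    exact ((contDiff_succ_iff_deriv).mp h2).2.2
  have hd2 : Differentiable ℝ (deriv F) := hd1.differentiable (by norm_num)
  have hM0 : 0 ≤ M := (abs_nonneg _).trans (hM 0)
  have lip : ∀ y : ℝ, |deriv F y - deriv F x| ≤ M * |y - x| := by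
    intro y
    have := convex_univ.norm_image_sub_le_of_norm_deriv_le (f := deriv F) (C := M) (s := Set.univ)
      (x := x) (y := y) (fun y _ => hd2 y) (fun y _ => by rw [Real.norm_eq_abs]; exact hM y)
      (Set.mem_univ _) (Set.mem_univ _)
    rw [Real.norm_eq_abs, Real.norm_eq_abs] at this
    exact this
  have hg : ∀ y, HasDerivAt (fun y => F y - deriv F x * y) (deriv F y - deriv F x) y := by
    intro y
    have h1 := (hd y).hasDerivAt
    have h2 := (hasDerivAt_id y).const_mul (deriv F x)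
    simp only [id, mul_one] at h2
    exact h1.sub h2
  have h3 := (convex_uIcc x z).norm_image_sub_le_of_norm_deriv_le
    (f := fun y => F y - deriv F x * y) (C := M * |z - x|) (x := x) (y := z)
    (fun y _ => (hg y).differentiableAt) (fun y hy => by
      rw [(hg y).deriv, Real.norm_eq_abs]
      refine (lip y).trans (mul_le_mul_of_nonneg_left ?_ hM0)
      exact Set.abs_sub_left_of_mem_uIcc hy) Set.left_mem_uIcc Set.right_mem_uIcc
  rw [Real.norm_eq_abs, Real.norm_eq_abs] at h3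
  have h4 : F z - deriv F x * z - (F x - deriv F x * x) = F z - F x - deriv F x * (z - x) := by ring
  rw [h4] at h3
  refine h3.trans (le_of_eq ?_)
  rw [mul_assoc, ← sq, sq_abs]

lemma sec {F : ℝ → ℝ} (hF : ContDiff ℝ 2 F) {M : ℝ} (hM : ∀ x, |deriv (deriv F) x| ≤ M) (x h : ℝ) :
    |F (x - h) + F (x + h) - 2 * F x| ≤ 2 * (M * h ^ 2) := by
  have h1 := tay hF hM x (x - h)
  have h2 := tay hF hM x (x + h)
  have e1 : x - h - x = -h := by ring
  have e2 : x + h - x = h := by ring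
  rw [e1, neg_sq] at h1
  rw [e2] at h2
  rw [abs_le] at *
  constructor <;> linarith [h1.1, h1.2, h2.1, h2.2]

lemma wc_le {F : ℝ → ℝ} (hF : ContDiff ℝ 2 F) {M : ℝ} (hM : ∀ x, |deriv (deriv F) x| ≤ M) (i : ℕ) (k : ℤ) :
    |wc F i k| ≤ M * (1 / 4) ^ i := by
  have hM0 : 0 ≤ M := (abs_nonneg _).trans (hM 0)
  have hh : ((1 : ℝ) / 2 ^ i) ^ 2 = (1 / 4) ^ i := by
    rw [div_pow, div_pow, one_pow, one_pow, ← pow_mul, mul_comm i 2, pow_mul]
    norm_num
  have h4 : (0 : ℝ) ≤ M * (1 / 4) ^ i := by positivity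
  unfold wc rr al
  split_ifs with hk
  · obtain ⟨j, rfl⟩ : ∃ j, k = 2 * j := ⟨k / 2, by omega⟩
    rw [show (2 * j) / 2 = j by omega]
    have e0 : (((2 * j : ℤ)) : ℝ) / 2 ^ (i + 1) = (j : ℝ) / 2 ^ i := by
      rw [pow_succ]; push_cast; field_simp
    have e1 : (((j - 1 : ℤ)) : ℝ) / 2 ^ i = (j : ℝ) / 2 ^ i - 1 / 2 ^ i := by push_cast; ring
    have e2 : (((j + 1 : ℤ)) : ℝ) / 2 ^ i = (j : ℝ) / 2 ^ i + 1 / 2 ^ i := by push_cast; ring
    rw [e0, e1, e2]
    have h5 := sec hF hM ((j : ℝ) / 2 ^ i) (1 / 2 ^ i)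
    rw [hh] at h5
    rw [abs_le] at *
    constructor <;> linarith [h5.1, h5.2]
  · obtain ⟨j, rfl⟩ : ∃ j, k = 2 * j + 1 := ⟨k / 2, by omega⟩
    rw [show (2 * j + 1) / 2 = j by omega]
    set x : ℝ := ((j : ℝ) + 1 / 2) / 2 ^ i with hx
    have e0 : (((2 * j + 1 : ℤ)) : ℝ) / 2 ^ (i + 1) = x := by
      rw [hx, pow_succ]; push_cast; field_simp
    have e1 : (j : ℝ) / 2 ^ i = x - 1 / 2 * (1 / 2 ^ i) := by rw [hx]; ring
    have e2 : (((j + 1 : ℤ)) : ℝ) / 2 ^ i = x + 1 / 2 * (1 / 2 ^ i) := by rw [hx]; push_cast; ring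
    rw [e0, e1, e2]
    have h5 := sec hF hM x (1 / 2 * (1 / 2 ^ i))
    rw [mul_pow, hh] at h5
    rw [abs_le] at *
    constructor <;> nlinarith [h5.1, h5.2]

lemma card_sx (A i : ℕ) : ((sx A i).card : ℝ) ≤ 3 * ((A : ℝ) + 2) * 2 ^ i := by
  unfold sx
  rw [Int.card_Icc]
  have h1 : ((((A + 2) * 2 ^ i : ℕ) : ℤ) + 1 - -(((A + 2) * 2 ^ i : ℕ) : ℤ)).toNat = 2 * ((A + 2) * 2 ^ i) + 1 := by
    omega
  rw [h1]
  have h2 : (1 : ℝ) ≤ 2 ^ i := one_le_pow₀ (by norm_num)
  push_cast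
  have h3 : (0 : ℝ) ≤ A := Nat.cast_nonneg A
  nlinarith

lemma wc_sum {F : ℝ → ℝ} (hF : ContDiff ℝ 2 F) {M : ℝ} (hM : ∀ x, |deriv (deriv F) x| ≤ M) (A i : ℕ) :
    ∑ k ∈ sx A (i + 1), |wc F i k| ≤ 6 * ((A : ℝ) + 2) * M * (1 / 2) ^ i := by
  have hM0 : 0 ≤ M := (abs_nonneg _).trans (hM 0)
  refine (Finset.sum_le_sum fun k _ => wc_le hF hM i k).trans ?_
  rw [Finset.sum_const, nsmul_eq_mul]
  have h1 := card_sx A (i + 1)
  have h2 : (2 : ℝ) ^ (i + 1) * (1 / 4) ^ i = 2 * (1 / 2) ^ i := by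
    rw [pow_succ, mul_comm ((2 : ℝ) ^ i) 2, mul_assoc, ← mul_pow]
    norm_num
  calc _ ≤ (3 * ((A : ℝ) + 2) * 2 ^ (i + 1)) * (M * (1 / 4) ^ i) :=
        mul_le_mul_of_nonneg_right h1 (by positivity)
    _ = 3 * ((A : ℝ) + 2) * M * (2 ^ (i + 1) * (1 / 4) ^ i) := by ring
    _ = _ := by rw [h2]; ring

lemma SS_approx {F : ℝ → ℝ} (hF : ContDiff ℝ 2 F) {A : ℕ} (hA : ∀ x, (A : ℝ) ≤ |x| → F x = 0) {M : ℝ}
    (hM : ∀ x, |deriv (deriv F) x| ≤ M) (i : ℕ) (x : ℝ) :
    |F x - SS F A i x| ≤ 4 * M * (1 / 4) ^ i := by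
  have hM0 : 0 ≤ M := (abs_nonneg _).trans (hM 0)
  set n : ℤ := ⌊2 ^ i * x⌋ with hn
  set r : ℝ := 2 ^ i * x - n with hr
  have hr0 : 0 ≤ r := by rw [hr, hn]; linarith [Int.floor_le (2 ^ i * x)]
  have hr1 : r ≤ 1 := by rw [hr, hn]; linarith [Int.lt_floor_add_one (2 ^ i * x)]
  have h1 := SS_eq hA i x
  have h2 : HasSum (fun k : ℤ => al F i k * bs (2 ^ i * x - k))
      (∑ k ∈ ({n - 1, n, n + 1, n + 2} : Finset ℤ), al F i k * bs (2 ^ i * x - k)) := by
    apply hasSum_sum_of_ne_finset_zero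
    intro k hk
    rw [bs_zero, mul_zero]
    simp only [Finset.mem_insert, Finset.mem_singleton, not_or] at hk
    have h3 : k ≤ n - 2 ∨ n + 3 ≤ k := by omega
    rcases h3 with h3 | h3
    · have : (k : ℝ) ≤ n - 2 := by exact_mod_cast h3
      rw [le_abs]; left; linarith
    · have : (n : ℝ) + 3 ≤ k := by exact_mod_cast h3
      rw [le_abs]; right; linarith
  have h3 := HasSum.unique h1 h2
  have hp : (0 : ℝ) < 2 ^ i := by positivity
  have h4 : (∑ k ∈ ({n - 1, n, n + 1, n + 2} : Finset ℤ), al F i k * bs (2 ^ i * x - k)) =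
      al F i (n - 1) * bs (r + 1) + al F i n * bs r + al F i (n + 1) * bs (r - 1) +
        al F i (n + 2) * bs (r - 2) := by
    rw [Finset.sum_insert (by simp only [Finset.mem_insert, Finset.mem_singleton]; omega),
      Finset.sum_insert (by simp only [Finset.mem_insert, Finset.mem_singleton]; omega),
      Finset.sum_insert (by simp only [Finset.mem_singleton]; omega), Finset.sum_singleton]
    have e1 : 2 ^ i * x - ((n - 1 : ℤ) : ℝ) = r + 1 := by rw [hr]; push_cast; ring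
    have e2 : 2 ^ i * x - ((n + 1 : ℤ) : ℝ) = r - 1 := by rw [hr]; push_cast; ring
    have e3 : 2 ^ i * x - ((n + 2 : ℤ) : ℝ) = r - 2 := by rw [hr]; push_cast; ring
    rw [e1, e2, e3, ← hr]
    ring
  rw [h3, h4, bs_1 hr0 hr1, bs_2 hr0 hr1, bs_3 hr0 hr1, bs_4 hr0 hr1]
  have hT : ∀ l : ℤ, -1 ≤ l → l ≤ 2 →
      |al F i (n + l) - F x - deriv F x * (((l : ℝ) - r) * (1 / 2 ^ i))| ≤ 4 * M * (1 / 4) ^ i := by
    intro l hl1 hl2
    have h5 := tay hF hM x (((n + l : ℤ) : ℝ) / 2 ^ i)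
    have h6 : ((n + l : ℤ) : ℝ) / 2 ^ i - x = ((l : ℝ) - r) * (1 / 2 ^ i) := by
      rw [hr]; push_cast; field_simp; ring
    rw [h6] at h5
    unfold al
    refine h5.trans ?_
    have h7 : (((l : ℝ) - r) * (1 / 2 ^ i)) ^ 2 = ((l : ℝ) - r) ^ 2 * (1 / 4) ^ i := by
      rw [mul_pow, div_pow, one_pow, ← pow_mul, mul_comm i 2, pow_mul, div_pow, one_pow]
      norm_num
    rw [h7]
    have hl1' : (-1 : ℝ) ≤ l := by exact_mod_cast hl1
    have hl2' : (l : ℝ) ≤ 2 := by exact_mod_cast hl2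
    have h8 : ((l : ℝ) - r) ^ 2 ≤ 4 := by
      have h9 : |(l : ℝ) - r| ≤ 2 := by rw [abs_le]; constructor <;> linarith
      calc ((l : ℝ) - r) ^ 2 = |(l : ℝ) - r| ^ 2 := (sq_abs _).symm
        _ ≤ 2 ^ 2 := pow_le_pow_left₀ (abs_nonneg _) h9 2
        _ = 4 := by norm_num
    have h10 : (0 : ℝ) ≤ (1 / 4) ^ i := by positivity
    calc M * (((l : ℝ) - r) ^ 2 * (1 / 4) ^ i) ≤ M * (4 * (1 / 4) ^ i) :=
          mul_le_mul_of_nonneg_left (mul_le_mul_of_nonneg_right h8 h10) hM0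
      _ = _ := by ring
  have t1 := hT (-1) (by norm_num) (by norm_num)
  have t2 := hT 0 (by norm_num) (by norm_num)
  have t3 := hT 1 (by norm_num) (by norm_num)
  have t4 := hT 2 (by norm_num) (by norm_num)
  rw [show n + -1 = n - 1 by ring] at t1
  rw [add_zero] at t2
  push_cast at t1 t2 t3 t4
  set B : ℝ := 4 * M * (1 / 4) ^ i with hB
  set h : ℝ := 1 / 2 ^ i with hh
  set D := deriv F x with hD
  set a1 := al F i (n - 1)
  set a2 := al F i n
  set a3 := al F i (n + 1)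
  set a4 := al F i (n + 2)
  have b1 : 0 ≤ (1 - r) ^ 3 / 6 := by
    have : 0 ≤ 1 - r := by linarith
    positivity
  have b2 : 0 ≤ (4 - 6 * r ^ 2 + 3 * r ^ 3) / 6 := by
    have : 0 ≤ 4 - 6 * r ^ 2 + 3 * r ^ 3 := by nlinarith [mul_nonneg hr0 hr0, mul_nonneg (mul_nonneg hr0 hr0) hr0]
    positivity
  have b3 : 0 ≤ (1 + 3 * r + 3 * r ^ 2 - 3 * r ^ 3) / 6 := by
    have h11 : r ^ 3 ≤ r ^ 2 := by
      calc r ^ 3 = r ^ 2 * r := by ring
        _ ≤ r ^ 2 * 1 := mul_le_mul_of_nonneg_left hr1 (by positivity)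
        _ = r ^ 2 := by ring
    have : 0 ≤ 1 + 3 * r + 3 * r ^ 2 - 3 * r ^ 3 := by linarith
    positivity
  have b4 : 0 ≤ r ^ 3 / 6 := by positivity
  have key : F x - (a1 * ((1 - r) ^ 3 / 6) + a2 * ((4 - 6 * r ^ 2 + 3 * r ^ 3) / 6) +
      a3 * ((1 + 3 * r + 3 * r ^ 2 - 3 * r ^ 3) / 6) + a4 * (r ^ 3 / 6)) =
      -((a1 - F x - D * ((-1 - r) * h)) * ((1 - r) ^ 3 / 6) +
        (a2 - F x - D * ((0 - r) * h)) * ((4 - 6 * r ^ 2 + 3 * r ^ 3) / 6) +
        (a3 - F x - D * ((1 - r) * h)) * ((1 + 3 * r + 3 * r ^ 2 - 3 * r ^ 3) / 6) +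
        (a4 - F x - D * ((2 - r) * h)) * (r ^ 3 / 6)) := by ring
  rw [key, abs_neg]
  have c1 := mul_le_mul_of_nonneg_right t1 b1
  have c2 := mul_le_mul_of_nonneg_right t2 b2
  have c3 := mul_le_mul_of_nonneg_right t3 b3
  have c4 := mul_le_mul_of_nonneg_right t4 b4
  have habs : ∀ u v : ℝ, 0 ≤ v → |u * v| = |u| * v := fun u v hv => by rw [abs_mul, abs_of_nonneg hv]
  refine (abs_add_le _ _).trans ?_
  have d1 := abs_add_le ((a1 - F x - D * ((-1 - r) * h)) * ((1 - r) ^ 3 / 6) +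
        (a2 - F x - D * ((0 - r) * h)) * ((4 - 6 * r ^ 2 + 3 * r ^ 3) / 6))
        ((a3 - F x - D * ((1 - r) * h)) * ((1 + 3 * r + 3 * r ^ 2 - 3 * r ^ 3) / 6))
  have d2 := abs_add_le ((a1 - F x - D * ((-1 - r) * h)) * ((1 - r) ^ 3 / 6))
        ((a2 - F x - D * ((0 - r) * h)) * ((4 - 6 * r ^ 2 + 3 * r ^ 3) / 6))
  rw [habs _ _ b1, habs _ _ b2] at d2
  rw [habs _ _ b3] at d1
  rw [habs _ _ b4]
  have e : B * ((1 - r) ^ 3 / 6) + B * ((4 - 6 * r ^ 2 + 3 * r ^ 3) / 6) +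
      B * ((1 + 3 * r + 3 * r ^ 2 - 3 * r ^ 3) / 6) + B * (r ^ 3 / 6) = B := by ring
  linarith

lemma SS_supp {F : ℝ → ℝ} {A : ℕ} (i : ℕ) {x : ℝ} (hx : (A : ℝ) + 5 ≤ |x|) : SS F A i x = 0 := by
  unfold SS
  refine Finset.sum_eq_zero fun k hk => ?_
  rw [bs_zero, mul_zero]
  unfold sx at hk
  rw [Finset.mem_Icc] at hk
  have h1 : |(k : ℝ)| ≤ ((A : ℝ) + 2) * 2 ^ i := by
    rw [abs_le]
    constructor
    · have : (((-(((A + 2) * 2 ^ i : ℕ) : ℤ)) : ℤ) : ℝ) ≤ k := by exact_mod_cast hk.1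
      push_cast at this
      linarith
    · have : (k : ℝ) ≤ (((((A + 2) * 2 ^ i : ℕ) : ℤ)) : ℝ) := by exact_mod_cast hk.2
      push_cast at this
      linarith
  have hp : (1 : ℝ) ≤ 2 ^ i := one_le_pow₀ (by norm_num)
  have h2 : |2 ^ i * x| = 2 ^ i * |x| := by rw [abs_mul, abs_of_pos (by positivity)]
  have h3 : 2 ^ i * ((A : ℝ) + 5) ≤ 2 ^ i * |x| := mul_le_mul_of_nonneg_left hx (by positivity)
  have h4 := abs_sub_abs_le_abs_sub (2 ^ i * x) (k : ℝ)
  rw [h2] at h4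
  nlinarith


open Pool.Agent.H203.GE (Lf ZG XG)



/-! ### the statistic of general test functions -/

lemma XGA {G : ℂ → ℂ} {u : ℕ → ℂ} (hG : Lf G u) {F : ℝ → ℝ} {A : ℝ} (hF : ∀ x, A ≤ |x| → F x = 0)
    {U1 U2 T t : ℝ} (hU : 1 ≤ U1) (h1 : U1 + A ≤ t) (h2 : t ≤ U2 - A) :
    XG G F T t = (∑ s ∈ H370.Zf G U1 U2, (H370.mult G s : ℝ) * F (s.im - t)) -
      Real.log T / (2 * Real.pi) * ∫ x : ℝ, F x := by
  unfold XG ZG
  congr 1
  have hZ : ∀ s : ℂ, s ∈ H370.Zf G U1 U2 ↔ s ∈ H370.zset G U1 U2 := fun s =>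
    H370.mem_Zf hG.good hU
  rw [finsum_mem_eq_sum_of_inter_support_eq]
  ext s
  simp only [mem_inter_iff, Function.mem_support, SetLike.mem_coe, hZ]
  constructor
  · rintro ⟨⟨ha, hb, hc⟩, hd⟩
    refine ⟨⟨hb, hc, ?_, ?_, ha⟩, hd⟩
    · by_contra h
      push Not at h
      exact hd (by rw [hF _ (by rw [le_abs]; right; linarith), mul_zero])
    · by_contra h
      push Not at h
      exact hd (by rw [hF _ (by rw [le_abs]; left; linarith), mul_zero])
  · rintro ⟨⟨ha, hb, hc, hd, he⟩, hf⟩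
    exact ⟨⟨he, ha, hb⟩, hf⟩

lemma XG_cont {G : ℂ → ℂ} {u : ℕ → ℂ} (hG : Lf G u) {F : ℝ → ℝ} (hFc : Continuous F) {A : ℝ}
    (hF : ∀ x, A ≤ |x| → F x = 0) (T : ℝ) {x y : ℝ} (hx : 1 + A ≤ x) :
    ContinuousOn (XG G F T) (Icc x y) := by
  have hc : Continuous fun t : ℝ => (∑ s ∈ H370.Zf G (x - A) (y + A), (H370.mult G s : ℝ) * F (s.im - t)) -
      Real.log T / (2 * Real.pi) * ∫ x : ℝ, F x := by
    fun_prop
  refine hc.continuousOn.congr fun t ht => ?_
  exact XGA hG hF (by linarith) (by linarith [ht.1]) (by linarith [ht.2])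

lemma XG_add {G : ℂ → ℂ} {u : ℕ → ℂ} (hG : Lf G u) {F H : ℝ → ℝ} (hFc : Continuous F) (hHc : Continuous H) {A : ℝ}
    (hF : ∀ x, A ≤ |x| → F x = 0) (hH : ∀ x, A ≤ |x| → H x = 0) {T t : ℝ} (ht : 1 + A ≤ t) :
    XG G (fun x => F x + H x) T t = XG G F T t + XG G H T t := by
  have hcs : ∀ F : ℝ → ℝ, (∀ x, A ≤ |x| → F x = 0) → HasCompactSupport F := by
    intro F hF
    refine HasCompactSupport.intro (isCompact_Icc (a := -A) (b := A)) ?_
    intro x hx
    apply hF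
    by_contra h
    push Not at h
    rw [abs_lt] at h
    exact hx ⟨h.1.le, h.2.le⟩
  have hFi : Integrable F := hFc.integrable_of_hasCompactSupport (hcs F hF)
  have hHi : Integrable H := hHc.integrable_of_hasCompactSupport (hcs H hH)
  rw [XGA hG hF (U1 := t - A) (U2 := t + A) (by linarith) (by linarith) (by linarith),
    XGA hG hH (U1 := t - A) (U2 := t + A) (by linarith) (by linarith) (by linarith),
    XGA hG (F := fun x => F x + H x) (A := A) (fun x hx => by rw [hF x hx, hH x hx, add_zero])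
      (U1 := t - A) (U2 := t + A) (by linarith) (by linarith) (by linarith)]
  rw [integral_add hFi hHi]
  simp only [mul_add, Finset.sum_add_distrib]
  ring

lemma XG_sum {G : ℂ → ℂ} {u : ℕ → ℂ} (hG : Lf G u) {ι : Type} (s : Finset ι) (c : ι → ℝ) (H : ι → ℝ → ℝ)
    (hHc : ∀ p ∈ s, Continuous (H p)) {A : ℝ} (hH : ∀ p ∈ s, ∀ x, A ≤ |x| → H p x = 0) {T t : ℝ}
    (ht : 1 + A ≤ t) :
    XG G (fun x => ∑ p ∈ s, c p * H p x) T t = ∑ p ∈ s, c p * XG G (H p) T t := by
  have hcs : ∀ p ∈ s, HasCompactSupport (H p) := by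
    intro p hp
    refine HasCompactSupport.intro (isCompact_Icc (a := -A) (b := A)) ?_
    intro x hx
    apply hH p hp
    by_contra h
    push Not at h
    rw [abs_lt] at h
    exact hx ⟨h.1.le, h.2.le⟩
  have hint : ∀ p ∈ s, Integrable (fun x => c p * H p x) := fun p hp =>
    ((hHc p hp).integrable_of_hasCompactSupport (hcs p hp)).const_mul _
  rw [XGA hG (F := fun x => ∑ p ∈ s, c p * H p x) (A := A)
      (fun x hx => Finset.sum_eq_zero fun p hp => by rw [hH p hp x hx, mul_zero])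
      (U1 := t - A) (U2 := t + A) (by linarith) (by linarith) (by linarith)]
  rw [integral_finsetSum _ hint]
  have e1 : ∀ p ∈ s, c p * XG G (H p) T t = c p * (∑ z ∈ H370.Zf G (t - A) (t + A),
      (H370.mult G z : ℝ) * H p (z.im - t)) - Real.log T / (2 * Real.pi) * ∫ x : ℝ, c p * H p x := by
    intro p hp
    rw [XGA hG (hH p hp) (U1 := t - A) (U2 := t + A) (by linarith) (by linarith) (by linarith),
      integral_const_mul]
    ring
  rw [Finset.sum_congr rfl e1, Finset.sum_sub_distrib, ← Finset.mul_sum]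
  congr 1
  simp only [Finset.mul_sum]
  rw [Finset.sum_comm]
  refine Finset.sum_congr rfl fun p _ => Finset.sum_congr rfl fun z _ => ?_
  ring

/-- translates and dilates -/
lemma XG_scale (G : ℂ → ℂ) (n : ℕ) (k : ℤ) (T t : ℝ) :
    XG G (fun x => bs (2 ^ n * x - k)) T t =
      XG G (fun x => bs (x / (1 / 2) ^ n)) T (t + k * (1 / 2) ^ n) := by
  have hp : (0 : ℝ) < (1 / 2) ^ n := by positivity
  have h2 : (2 : ℝ) ^ n * (1 / 2) ^ n = 1 := by rw [← mul_pow]; norm_num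
  have h3 : ∀ x : ℝ, x / (1 / 2) ^ n = 2 ^ n * x := by
    intro x
    rw [div_eq_iff hp.ne', mul_comm (2 ^ n * x), ← mul_assoc, mul_comm ((1 / 2 : ℝ) ^ n), h2, one_mul]
  have e1 : ∀ s : ℂ, bs (2 ^ n * (s.im - t) - k) = bs ((s.im - (t + k * (1 / 2) ^ n)) / (1 / 2) ^ n) := by
    intro s
    rw [h3]
    have : (2 : ℝ) ^ n * (s.im - (t + k * (1 / 2) ^ n)) = 2 ^ n * (s.im - t) - k * (2 ^ n * (1 / 2) ^ n) := by ring
    rw [this, h2, mul_one]
  have h4 : (fun x : ℝ => bs (2 ^ n * x - k)) = fun x => (fun y => bs (y / (1 / 2) ^ n)) (x - k * (1 / 2) ^ n) := by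
    funext x
    show bs (2 ^ n * x - k) = bs ((x - k * (1 / 2) ^ n) / (1 / 2) ^ n)
    rw [h3]
    have : (2 : ℝ) ^ n * (x - k * (1 / 2) ^ n) = 2 ^ n * x - k * (2 ^ n * (1 / 2) ^ n) := by ring
    rw [this, h2, mul_one]
  have e2 : ∫ x : ℝ, bs (2 ^ n * x - k) = ∫ x : ℝ, bs (x / (1 / 2) ^ n) := by
    rw [h4]
    exact integral_sub_right_eq_self (fun y : ℝ => bs (y / (1 / 2) ^ n)) (k * (1 / 2) ^ n)
  unfold XG
  rw [e2]
  have e3 : (∑ᶠ s ∈ ZG G, (H370.mult G s : ℝ) * bs (2 ^ n * (s.im - t) - k)) =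
      ∑ᶠ s ∈ ZG G, (H370.mult G s : ℝ) * bs ((s.im - (t + k * (1 / 2) ^ n)) / (1 / 2) ^ n) := by
    refine finsum_congr fun s => ?_
    rw [e1 s]
  rw [e3]

/-! ### powers of sums -/

lemma jensen {ι : Type} (s : Finset ι) (c x : ι → ℝ) (m : ℕ) {W : ℝ} (hW : ∑ p ∈ s, |c p| ≤ W) :
    |∑ p ∈ s, c p * x p| ^ (m + 1) ≤ W ^ m * ∑ p ∈ s, |c p| * |x p| ^ (m + 1) := by
  set V := ∑ p ∈ s, |c p| with hV
  have hV0 : 0 ≤ V := Finset.sum_nonneg fun p _ => abs_nonneg _
  have hW0 : 0 ≤ W := hV0.trans hW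
  have h1 : |∑ p ∈ s, c p * x p| ≤ ∑ p ∈ s, |c p| * |x p| := by
    refine (Finset.abs_sum_le_sum_abs _ _).trans (le_of_eq ?_)
    exact Finset.sum_congr rfl fun p _ => abs_mul _ _
  have hR0 : 0 ≤ ∑ p ∈ s, |c p| * |x p| ^ (m + 1) := Finset.sum_nonneg fun p _ => by positivity
  rcases hV0.eq_or_lt with h0 | hpos
  · have hz : ∀ p ∈ s, |c p| = 0 := by
      rw [hV] at h0
      exact (Finset.sum_eq_zero_iff_of_nonneg fun p _ => abs_nonneg _).mp h0.symm
    have h2 : ∑ p ∈ s, |c p| * |x p| = 0 := Finset.sum_eq_zero fun p hp => by rw [hz p hp, zero_mul]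
    rw [h2] at h1
    have h3 : |∑ p ∈ s, c p * x p| = 0 := le_antisymm h1 (abs_nonneg _)
    rw [h3, zero_pow (by omega)]
    positivity
  · have h4 := Real.pow_arith_mean_le_arith_mean_pow s (fun p => |c p| / V) (fun p => |x p|)
      (fun p _ => by positivity) (by rw [← Finset.sum_div, ← hV, div_self hpos.ne'])
      (fun p _ => abs_nonneg _) (m + 1)
    have h5 : ∑ p ∈ s, |c p| / V * |x p| = (∑ p ∈ s, |c p| * |x p|) / V := by
      rw [Finset.sum_div]
      exact Finset.sum_congr rfl fun p _ => by ring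
    have h6 : ∑ p ∈ s, |c p| / V * |x p| ^ (m + 1) = (∑ p ∈ s, |c p| * |x p| ^ (m + 1)) / V := by
      rw [Finset.sum_div]
      exact Finset.sum_congr rfl fun p _ => by ring
    rw [h5, h6, div_pow, div_le_div_iff₀ (by positivity) hpos] at h4
    have h7 : (∑ p ∈ s, |c p| * |x p|) ^ (m + 1) ≤ V ^ m * ∑ p ∈ s, |c p| * |x p| ^ (m + 1) := by
      have h8 : (∑ p ∈ s, |c p| * |x p|) ^ (m + 1) * V ≤
          (V ^ m * ∑ p ∈ s, |c p| * |x p| ^ (m + 1)) * V := by
        refine h4.trans (le_of_eq ?_)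
        rw [pow_succ]
        ring
      exact le_of_mul_le_mul_right h8 hpos
    calc |∑ p ∈ s, c p * x p| ^ (m + 1) ≤ (∑ p ∈ s, |c p| * |x p|) ^ (m + 1) :=
          pow_le_pow_left₀ (abs_nonneg _) h1 _
      _ ≤ V ^ m * ∑ p ∈ s, |c p| * |x p| ^ (m + 1) := h7
      _ ≤ W ^ m * ∑ p ∈ s, |c p| * |x p| ^ (m + 1) :=
          mul_le_mul_of_nonneg_right (pow_le_pow_left₀ hV0 hW m) hR0

lemma wsum {ι : Type} (s : Finset ι) (c : ι → ℝ) (X : ι → ℝ → ℝ) (m : ℕ) {a b B W : ℝ} (hab : a ≤ b)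
    (hX : ∀ p ∈ s, ContinuousOn (X p) (Icc a b)) (hB : ∀ p ∈ s, ∫ t in a..b, |X p t| ^ (m + 1) ≤ B)
    (hB0 : 0 ≤ B) (hW : ∑ p ∈ s, |c p| ≤ W) :
    ContinuousOn (fun t => ∑ p ∈ s, c p * X p t) (Icc a b) ∧
    ∫ t in a..b, |∑ p ∈ s, c p * X p t| ^ (m + 1) ≤ W ^ (m + 1) * B := by
  have hW0 : 0 ≤ W := (Finset.sum_nonneg fun p _ => abs_nonneg _).trans hW
  have hc : ContinuousOn (fun t => ∑ p ∈ s, c p * X p t) (Icc a b) :=
    continuousOn_finsetSum _ fun p hp => (hX p hp).const_smul (c p) |>.congr fun t _ => rfl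
  refine ⟨hc, ?_⟩
  have hi : ∀ p ∈ s, IntervalIntegrable (fun t => |X p t| ^ (m + 1)) volume a b := by
    intro p hp
    apply ContinuousOn.intervalIntegrable
    rw [uIcc_of_le hab]
    exact ((hX p hp).abs).pow _
  calc ∫ t in a..b, |∑ p ∈ s, c p * X p t| ^ (m + 1)
      ≤ ∫ t in a..b, W ^ m * ∑ p ∈ s, |c p| * |X p t| ^ (m + 1) := by
        apply intervalIntegral.integral_mono_on hab
        · apply ContinuousOn.intervalIntegrable
          rw [uIcc_of_le hab]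
          exact (hc.abs).pow _
        · apply ContinuousOn.intervalIntegrable
          rw [uIcc_of_le hab]
          refine continuousOn_const.mul (continuousOn_finsetSum _ fun p hp => ?_)
          exact continuousOn_const.mul (((hX p hp).abs).pow _)
        · intro t _
          exact jensen s c (fun p => X p t) m hW
    _ = W ^ m * ∑ p ∈ s, |c p| * ∫ t in a..b, |X p t| ^ (m + 1) := by
        rw [intervalIntegral.integral_const_mul, intervalIntegral.integral_finsetSum]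
        · congr 1
          refine Finset.sum_congr rfl fun p _ => ?_
          rw [intervalIntegral.integral_const_mul]
        · intro p hp
          exact (hi p hp).const_mul _
    _ ≤ W ^ m * ∑ p ∈ s, |c p| * B := by
        refine mul_le_mul_of_nonneg_left (Finset.sum_le_sum fun p hp => ?_) (by positivity)
        exact mul_le_mul_of_nonneg_left (hB p hp) (abs_nonneg _)
    _ = W ^ m * ((∑ p ∈ s, |c p|) * B) := by rw [Finset.sum_mul]
    _ ≤ W ^ m * (W * B) :=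
        mul_le_mul_of_nonneg_left (mul_le_mul_of_nonneg_right hW hB0) (by positivity)
    _ = W ^ (m + 1) * B := by rw [pow_succ]; ring




/-! ### the remainder -/

lemma rem {G : ℂ → ℂ} {u : ℕ → ℂ} (hG : Lf G u) (n : ℕ) : ∃ C T0 : ℝ, 0 < C ∧ 10 ≤ T0 ∧ ∀ T : ℝ, T0 ≤ T →
    ∀ t ∈ Icc T (2 * T), ∀ (r : ℝ → ℝ) (ρ : ℝ), Continuous r → (∀ x, |r x| ≤ ρ) →
      (∀ x, (n : ℝ) ≤ |x| → r x = 0) → |XG G r T t| ≤ C * ρ * Real.log T := by
  obtain ⟨Cz, hCz, hz⟩ := H370.zcount hG.good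
  have hn0 : (0 : ℝ) ≤ n := Nat.cast_nonneg n
  refine ⟨2 * n * Cz + 2 * n + 1, max 10 (n + 4), by positivity, le_max_left _ _, ?_⟩
  intro T hT t ht r ρ hrc hr hr0
  have hT10 : (10 : ℝ) ≤ T := (le_max_left _ _).trans hT
  have hTn : (n : ℝ) + 4 ≤ T := (le_max_right _ _).trans hT
  have hρ : 0 ≤ ρ := (abs_nonneg _).trans (hr 0)
  have hL : 0 ≤ Real.log T := Real.log_nonneg (by linarith)
  have h1 : (1 : ℝ) ≤ t - n := by linarith [ht.1]
  rw [XGA hG hr0 (U1 := t - n) (U2 := t + n) h1 (by linarith) (by linarith)]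
  have hlog : Real.log (t + n) ≤ 2 * Real.log T := by
    have h2 : Real.log (t + n) ≤ Real.log (T ^ 2) := Real.log_le_log (by linarith [ht.1]) (by nlinarith [ht.2])
    rw [Real.log_pow] at h2
    exact_mod_cast h2
  have hcnt : ∑ s ∈ H370.Zf G (t - n) (t + n), (H370.mult G s : ℝ) ≤ n * (Cz * (2 * Real.log T)) := by
    have h3 := Pool.Agent.H203.GE.TRGL.NN_le hG.good hCz hz (t - n) (by linarith [ht.1]) n
    have h4 : t - (n : ℝ) + 2 * n = t + n := by ring
    rw [h4, H370.NN_eq hG.good h1] at h3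
    push_cast at h3
    refine h3.trans ?_
    gcongr
  have hsum : |∑ s ∈ H370.Zf G (t - n) (t + n), (H370.mult G s : ℝ) * r (s.im - t)| ≤
      n * (Cz * (2 * Real.log T)) * ρ := by
    refine (Finset.abs_sum_le_sum_abs _ _).trans ?_
    have h5 : ∀ s ∈ H370.Zf G (t - n) (t + n), |(H370.mult G s : ℝ) * r (s.im - t)| ≤ (H370.mult G s : ℝ) * ρ := by
      intro s _
      rw [abs_mul, Nat.abs_cast]
      exact mul_le_mul_of_nonneg_left (hr _) (Nat.cast_nonneg _)
    refine (Finset.sum_le_sum h5).trans ?_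
    rw [← Finset.sum_mul]
    exact mul_le_mul_of_nonneg_right hcnt hρ
  have hint : |∫ x : ℝ, r x| ≤ ρ * (2 * n) := by
    have h6 : ∫ x in Icc (-(n : ℝ)) n, r x = ∫ x, r x := by
      apply setIntegral_eq_integral_of_forall_compl_eq_zero
      intro x hx
      apply hr0
      by_contra h
      push Not at h
      rw [abs_lt] at h
      exact hx ⟨h.1.le, h.2.le⟩
    rw [← h6, ← Real.norm_eq_abs]
    refine (norm_setIntegral_le_of_norm_le_const (C := ρ) (by rw [Real.volume_Icc]; exact ENNReal.ofReal_lt_top)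
      (fun x _ => hr x)).trans (le_of_eq ?_)
    rw [Measure.real, Real.volume_Icc, ENNReal.toReal_ofReal (by linarith)]
    ring
  have hint2 : |Real.log T / (2 * Real.pi) * ∫ x : ℝ, r x| ≤ Real.log T * (ρ * (2 * n)) := by
    rw [abs_mul]
    refine mul_le_mul ?_ hint (abs_nonneg _) hL
    rw [abs_of_nonneg (by positivity)]
    apply div_le_self hL
    linarith [Real.pi_gt_three]
  refine (abs_sub _ _).trans ?_
  have h7 : 0 ≤ ρ * Real.log T := mul_nonneg hρ hL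
  nlinarith

/-! ### the choice of the last scale -/

lemma lastscale (J : ℕ) : ∀ᶠ T : ℝ in atTop, ∃ n : ℕ,
    2 * (Real.log (Real.log T)) ^ 2 ≤ (1 / 2) ^ (J + n) * Real.log T ∧
    (1 / 4) ^ (J + n) * Real.log T ≤ 16 := by
  have hll : Tendsto (fun T : ℝ => Real.log (Real.log T)) atTop atTop :=
    Real.tendsto_log_atTop.comp Real.tendsto_log_atTop
  have he : ∀ᶠ y : ℝ in atTop, y ^ 4 * (2 ^ J + 1) ≤ Real.exp y / 2 := by
    have h1 := Real.tendsto_pow_mul_exp_neg_atTop_nhds_zero 4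
    have h2 : ∀ᶠ y : ℝ in atTop, y ^ 4 * Real.exp (-y) < 1 / (2 * (2 ^ J + 1)) :=
      h1.eventually (gt_mem_nhds (by positivity))
    filter_upwards [h2] with y hy
    rw [Real.exp_neg] at hy
    have h3 := Real.exp_pos y
    rw [← div_eq_mul_inv, div_lt_div_iff₀ h3 (by positivity)] at hy
    have : (0 : ℝ) < 2 ^ J + 1 := by positivity
    linarith
  filter_upwards [hll.eventually he, hll.eventually_ge_atTop 1, eventually_gt_atTop 1] with T h1 h2 h3
  have hL : 0 < Real.log T := Real.log_pos h3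
  have hE : Real.exp (Real.log (Real.log T)) = Real.log T := Real.exp_log hL
  rw [hE] at h1
  set y := Real.log (Real.log T) with hy
  set L := Real.log T with hLdef
  have hy2 : (1 : ℝ) ≤ y ^ 2 := one_le_pow₀ h2
  have hy4 : y ^ 2 ≤ y ^ 4 := pow_le_pow_right₀ h2 (by norm_num)
  have hJ : (1 : ℝ) ≤ 2 ^ J := one_le_pow₀ (by norm_num)
  -- `z = L / (2 y ^ 2)`
  set z := L / (2 * y ^ 2) with hz
  have hzJ : (2 : ℝ) ^ J ≤ z := by
    rw [hz, le_div_iff₀ (by positivity)]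
    nlinarith
  have hz1 : 1 ≤ z := hJ.trans hzJ
  set N := ⌊z⌋₊ with hN
  have hN1 : 1 ≤ N := Nat.one_le_iff_ne_zero.mpr (by
    intro h
    rw [hN, Nat.floor_eq_zero] at h
    linarith)
  set k := Nat.log 2 N with hk
  have hk1 : 2 ^ k ≤ N := Nat.pow_log_le_self 2 (by omega)
  have hk2 : N < 2 ^ (k + 1) := Nat.lt_pow_succ_log_self (by norm_num) N
  have hkz : (2 : ℝ) ^ k ≤ z := by
    have h4 : ((2 ^ k : ℕ) : ℝ) ≤ (N : ℝ) := by exact_mod_cast hk1
    push_cast at h4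
    exact h4.trans (Nat.floor_le (by linarith))
  have hkz2 : z < 2 ^ (k + 1) := by
    have h5 : z < N + 1 := Nat.lt_floor_add_one z
    have h6 : (N : ℝ) + 1 ≤ ((2 ^ (k + 1) : ℕ) : ℝ) := by exact_mod_cast hk2
    push_cast at h6
    linarith
  have hJk : J ≤ k := by
    rw [hk]
    apply Nat.le_log_of_pow_le (by norm_num)
    rw [hN]
    apply Nat.le_floor
    push_cast
    exact hzJ
  obtain ⟨n, hn⟩ := Nat.exists_eq_add_of_le hJk
  refine ⟨n, ?_, ?_⟩
  · rw [← hn]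
    have h7 : (1 / 2 : ℝ) ^ k = 1 / 2 ^ k := by rw [div_pow, one_pow]
    rw [h7]
    rw [hz, le_div_iff₀ (by positivity)] at hkz
    rw [one_div, inv_mul_eq_div, le_div_iff₀ (by positivity)]
    linarith
  · rw [← hn]
    have h8 : (1 / 4 : ℝ) ^ k * L = (1 / 2 ^ k) ^ 2 * L := by
      rw [div_pow, div_pow, one_pow, one_pow, ← pow_mul, mul_comm k 2, pow_mul]
      norm_num
    rw [h8]
    have h9 : 1 / 2 ^ k < 2 / z := by
      rw [div_lt_div_iff₀ (by positivity) (by linarith)]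
      rw [pow_succ] at hkz2
      linarith
    have h10 : (1 / 2 ^ k : ℝ) ^ 2 ≤ (2 / z) ^ 2 := pow_le_pow_left₀ (by positivity) h9.le 2
    have h11 : (2 / z) ^ 2 * L = 16 * (y ^ 4 / L) := by
      rw [hz]
      field_simp
      ring
    have h12 : y ^ 4 / L ≤ 1 := by
      rw [div_le_one hL]
      nlinarith [pow_pos (show (0 : ℝ) < y by linarith) 4]
    calc (1 / 2 ^ k : ℝ) ^ 2 * L ≤ (2 / z) ^ 2 * L := mul_le_mul_of_nonneg_right h10 hL.le
      _ = 16 * (y ^ 4 / L) := h11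
      _ ≤ 16 := by linarith

lemma bs_supp {A i : ℕ} {k : ℤ} (hk : k ∈ sx A i) {x : ℝ} (hx : (A : ℝ) + 5 ≤ |x|) :
    bs (2 ^ i * x - k) = 0 := by
  rw [bs_zero]
  unfold sx at hk
  rw [Finset.mem_Icc] at hk
  have h1 : |(k : ℝ)| ≤ ((A : ℝ) + 2) * 2 ^ i := by
    rw [abs_le]
    constructor
    · have : (((-(((A + 2) * 2 ^ i : ℕ) : ℤ)) : ℤ) : ℝ) ≤ k := by exact_mod_cast hk.1
      push_cast at this
      linarith
    · have : (k : ℝ) ≤ (((((A + 2) * 2 ^ i : ℕ) : ℤ)) : ℝ) := by exact_mod_cast hk.2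
      push_cast at this
      linarith
  have hp : (1 : ℝ) ≤ 2 ^ i := one_le_pow₀ (by norm_num)
  have h2 : |2 ^ i * x| = 2 ^ i * |x| := by rw [abs_mul, abs_of_pos (by positivity)]
  have h3 : 2 ^ i * ((A : ℝ) + 5) ≤ 2 ^ i * |x| := mul_le_mul_of_nonneg_left hx (by positivity)
  have h4 := abs_sub_abs_le_abs_sub (2 ^ i * x) (k : ℝ)
  rw [h2] at h4
  nlinarith

lemma k_le {A i : ℕ} {k : ℤ} (hk : k ∈ sx A i) : |(k : ℝ) * (1 / 2) ^ i| ≤ (A : ℝ) + 2 := by
  unfold sx at hk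
  rw [Finset.mem_Icc] at hk
  have h1 : |(k : ℝ)| ≤ ((A : ℝ) + 2) * 2 ^ i := by
    rw [abs_le]
    constructor
    · have : (((-(((A + 2) * 2 ^ i : ℕ) : ℤ)) : ℤ) : ℝ) ≤ k := by exact_mod_cast hk.1
      push_cast at this
      linarith
    · have : (k : ℝ) ≤ (((((A + 2) * 2 ^ i : ℕ) : ℤ)) : ℝ) := by exact_mod_cast hk.2
      push_cast at this
      linarith
  rw [abs_mul, abs_of_pos (show (0 : ℝ) < (1 / 2) ^ i by positivity)]
  calc |(k : ℝ)| * (1 / 2) ^ i ≤ (((A : ℝ) + 2) * 2 ^ i) * (1 / 2) ^ i :=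
        mul_le_mul_of_nonneg_right h1 (by positivity)
    _ = ((A : ℝ) + 2) * (2 * (1 / 2)) ^ i := by rw [mul_pow]; ring
    _ = _ := by norm_num

/-- one piece -/
lemma piece (G : ℂ → ℂ) (m : ℕ) {C1 T h : ℝ} {A i : ℕ} {k : ℤ} (hk : k ∈ sx A i) (hh : h = (1 / 2) ^ i)
    (hT : 2 * ((A : ℝ) + 2) ≤ T)
    (hc : ContinuousOn (XG G (fun x => bs (x / h)) T) (Icc (1 / 2 * T) (3 * T)))
    (hi : ∫ t in (1 / 2 * T)..(3 * T), |XG G (fun x => bs (x / h)) T t| ^ m ≤ C1 * T) :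
    ContinuousOn (fun t => XG G (fun x => bs (2 ^ i * x - k)) T t) (Icc T (2 * T)) ∧
    ∫ t in T..(2 * T), |XG G (fun x => bs (2 ^ i * x - k)) T t| ^ m ≤ C1 * T := by
  have hk2 := k_le hk
  rw [abs_le] at hk2
  have hA : (0 : ℝ) ≤ A := Nat.cast_nonneg A
  set c := (k : ℝ) * (1 / 2) ^ i with hcdef
  have e : ∀ t, XG G (fun x => bs (2 ^ i * x - k)) T t = XG G (fun x => bs (x / h)) T (t + c) := by
    intro t
    rw [XG_scale, hh]
  simp only [e]
  constructor
  · refine hc.comp (by fun_prop) ?_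
    intro t ht
    constructor
    · linarith [ht.1, hk2.1]
    · linarith [ht.2, hk2.2]
  · have h1 := intervalIntegral.integral_comp_add_right
      (a := T) (b := 2 * T) (fun t => |XG G (fun x => bs (x / h)) T t| ^ m) c
    rw [h1]
    refine le_trans ?_ hi
    apply intervalIntegral.integral_mono_interval
    · linarith
    · linarith
    · linarith
    · exact Eventually.of_forall fun t => by positivity
    · apply ContinuousOn.intervalIntegrable
      rw [uIcc_of_le (by linarith)]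
      exact (hc.abs).pow _




lemma bsk_cont (i : ℕ) (k : ℤ) : Continuous fun x : ℝ => bs (2 ^ i * x - k) :=
  bs_cd.continuous.comp (by fun_prop)

/-- the decomposition -/
lemma decomp {G : ℂ → ℂ} {u : ℕ → ℂ} (hG : Lf G u) {F : ℝ → ℝ} (hFc : Continuous F) {A : ℕ}
    (hA : ∀ x, (A : ℝ) ≤ |x| → F x = 0) (J n : ℕ) {T t : ℝ} (ht : 1 + ((A : ℝ) + 5) ≤ t) :
    XG G F T t = XG G (fun x => F x - SS F A (J + n) x) T t +
      (∑ k ∈ sx A J, al F J k * XG G (fun x => bs (2 ^ J * x - k)) T t +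
      ∑ i ∈ Finset.range n, (1 / 2) ^ i * ∑ k ∈ sx A (J + i + 1), (2 ^ i * wc F (J + i) k) *
        XG G (fun x => bs (2 ^ (J + i + 1) * x - k)) T t) := by
  have hSc : ∀ i, Continuous (SS F A i) := fun i => by
    unfold SS
    exact continuous_finsetSum _ fun k _ => continuous_const.mul (bsk_cont i k)
  have hA5 : ∀ x, (A : ℝ) + 5 ≤ |x| → F x = 0 := fun x hx => hA x (by linarith)
  have hS5 : ∀ i, ∀ x, (A : ℝ) + 5 ≤ |x| → SS F A i x = 0 := fun i x hx => SS_supp i hx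
  have h1 : XG G F T t = XG G (fun x => (F x - SS F A (J + n) x) + SS F A (J + n) x) T t := by
    congr 1
    funext x
    ring
  have h2 : XG G (fun x => (F x - SS F A (J + n) x) + SS F A (J + n) x) T t =
      XG G (fun x => F x - SS F A (J + n) x) T t + XG G (SS F A (J + n)) T t :=
    XG_add hG (F := fun x => F x - SS F A (J + n) x) (hFc.sub (hSc _)) (hSc _)
      (fun x hx => by rw [hA5 x hx, hS5 _ x hx, sub_zero]) (hS5 _) ht
  rw [h1, h2]
  congr 1
  have h3 : SS F A (J + n) = fun x => SS F A J x + ∑ i ∈ Finset.range n, (1 / 2) ^ i *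
      ∑ k ∈ sx A (J + i + 1), (2 ^ i * wc F (J + i) k) * bs (2 ^ (J + i + 1) * x - k) := by
    funext x
    rw [SS_tele hA J n x]
    congr 1
    refine Finset.sum_congr rfl fun i _ => ?_
    rw [Finset.mul_sum]
    refine Finset.sum_congr rfl fun k _ => ?_
    have : (1 / 2 : ℝ) ^ i * (2 ^ i * wc F (J + i) k * bs (2 ^ (J + i + 1) * x - k)) =
        (1 / 2 * 2 : ℝ) ^ i * (wc F (J + i) k * bs (2 ^ (J + i + 1) * x - k)) := by
      rw [mul_pow]; ring
    rw [this]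
    norm_num
  have hBc : ∀ i, Continuous fun x => ∑ k ∈ sx A (J + i + 1), (2 ^ i * wc F (J + i) k) *
      bs (2 ^ (J + i + 1) * x - k) := fun i =>
    continuous_finsetSum _ fun k _ => continuous_const.mul (bsk_cont _ k)
  have hB5 : ∀ i, ∀ x, (A : ℝ) + 5 ≤ |x| → ∑ k ∈ sx A (J + i + 1), (2 ^ i * wc F (J + i) k) *
      bs (2 ^ (J + i + 1) * x - k) = 0 := fun i x hx =>
    Finset.sum_eq_zero fun k hk => by rw [bs_supp hk hx, mul_zero]
  have h4 : XG G (SS F A (J + n)) T t = XG G (SS F A J) T t +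
      XG G (fun x => ∑ i ∈ Finset.range n, (1 / 2) ^ i *
      ∑ k ∈ sx A (J + i + 1), (2 ^ i * wc F (J + i) k) * bs (2 ^ (J + i + 1) * x - k)) T t := by
    rw [h3]
    refine XG_add hG (hSc J) ?_ (hS5 J) ?_ ht
    · exact continuous_finsetSum _ fun i _ => continuous_const.mul (hBc i)
    · intro x hx
      exact Finset.sum_eq_zero fun i _ => by rw [hB5 i x hx, mul_zero]
  rw [h4]
  congr 1
  · exact XG_sum hG (sx A J) (al F J) (fun k x => bs (2 ^ J * x - k)) (fun k _ => bsk_cont J k)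
      (fun k hk x hx => bs_supp hk hx) ht
  · rw [XG_sum hG (Finset.range n) (fun i => (1 / 2) ^ i) (fun i x => ∑ k ∈ sx A (J + i + 1),
      (2 ^ i * wc F (J + i) k) * bs (2 ^ (J + i + 1) * x - k)) (fun i _ => hBc i)
      (fun i _ x hx => hB5 i x hx) ht]
    refine Finset.sum_congr rfl fun i _ => ?_
    congr 1
    exact XG_sum hG (sx A (J + i + 1)) (fun k => 2 ^ i * wc F (J + i) k)
      (fun k x => bs (2 ^ (J + i + 1) * x - k)) (fun k _ => bsk_cont _ k)
      (fun k hk x hx => bs_supp hk hx) ht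

end Pool.Agent.H203.MC.MML

namespace Pool.Agent.H203.MC

open Pool.Agent.H203.GE (Lf ZG XG)
open MML

/-- (MM) -/
theorem t_MM (h : Pool.Agent.H203.GE.S_BMI) : S_MM := by
  intro G u q hG hq F hF hFs m
  have hFc : Continuous F := hF.continuous
  -- the support
  obtain ⟨A, hA⟩ : ∃ A : ℕ, ∀ x, (A : ℝ) ≤ |x| → F x = 0 := by
    obtain ⟨R, hR⟩ := hFs.isCompact.isBounded.subset_closedBall (0 : ℝ)
    refine ⟨⌈R⌉₊ + 1, fun x hx => ?_⟩
    by_contra hne
    have h1 : x ∈ tsupport F := subset_tsupport F (Function.mem_support.mpr hne)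
    have h2 := hR h1
    rw [Metric.mem_closedBall, Real.dist_eq, sub_zero] at h2
    have h3 := Nat.le_ceil R
    push_cast at hx
    linarith
  have hA0 : (0 : ℝ) ≤ A := Nat.cast_nonneg A
  -- continuity of the statistics
  have hA5 : ∀ x, (A : ℝ) + 5 ≤ |x| → F x = 0 := fun x hx => hA x (by linarith)
  have hXF : ∀ T : ℝ, 1 + ((A : ℝ) + 5) ≤ T → ContinuousOn (XG G F T) (Icc T (2 * T)) := fun T hT =>
    XG_cont hG hFc hA5 T hT
  set IF := ∫ x : ℝ, F x with hIF
  have hXM : ∀ T t : ℝ, XM G q F t = XG G F T t + (Real.log T - Real.log (q * t / (2 * Real.pi))) /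
      (2 * Real.pi) * IF := by
    intro T t
    unfold XM XG
    ring
  have hXMc : ∀ T : ℝ, 1 + ((A : ℝ) + 5) ≤ T → ContinuousOn (XM G q F) (Icc T (2 * T)) := by
    intro T hT
    have h1 : ContinuousOn (fun t => XG G F T t + (Real.log T - Real.log (q * t / (2 * Real.pi))) /
      (2 * Real.pi) * IF) (Icc T (2 * T)) := by
      refine (hXF T hT).add ?_
      refine ContinuousOn.mul ?_ continuousOn_const
      refine ContinuousOn.div_const ?_ _
      refine continuousOn_const.sub ?_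
      refine ContinuousOn.log (by fun_prop) ?_
      intro t ht
      have : 0 < t := by linarith [ht.1]
      positivity
    exact h1.congr fun t _ => hXM T t
  rcases Nat.eq_zero_or_pos m with hm | hm
  · subst hm
    refine ⟨1, max 10 (1 + ((A : ℝ) + 5)), le_max_left _ _, fun T hT => ?_⟩
    refine ⟨hXMc T ((le_max_right _ _).trans hT), ?_⟩
    simp only [pow_zero]
    rw [intervalIntegral.integral_const, smul_eq_mul, mul_one]
    linarith
  obtain ⟨m', rfl⟩ : ∃ m', m = m' + 1 := ⟨m - 1, by omega⟩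
  -- the bound of the second derivative
  obtain ⟨M, hM⟩ : ∃ M, ∀ x, |deriv (deriv F) x| ≤ M := by
    have hd1 : ContDiff ℝ 1 (deriv F) := by
      have h2 : ContDiff ℝ (1 + 1) F := by
        have : (1 + 1 : WithTop ℕ∞) = 2 := by norm_num
        rw [this]; exact hF
      exact ((contDiff_succ_iff_deriv).mp h2).2.2
    obtain ⟨M, hM⟩ := (hFs.deriv.deriv).exists_bound_of_continuous (hd1.continuous_deriv (by norm_num))
    exact ⟨M, fun x => by rw [← Real.norm_eq_abs]; exact hM x⟩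
  have hM0 : 0 ≤ M := (abs_nonneg _).trans (hM 0)
  obtain ⟨C1, K, T1, hC1, hK, hT1, hB⟩ := h G u hG (m' + 1) bs bs_cd bs_cs (1 / 2) 3 (by norm_num) (by norm_num)
  obtain ⟨J, hJ⟩ : ∃ J : ℕ, (1 / 2 : ℝ) ^ J ≤ 1 / K := by
    obtain ⟨J, hJ⟩ := exists_pow_lt_of_lt_one (show (0 : ℝ) < 1 / K by positivity) (show (1 / 2 : ℝ) < 1 by norm_num)
    exact ⟨J, hJ.le⟩
  obtain ⟨C2, T2, hC2, hT2, hrem⟩ := rem hG (A + 5)
  obtain ⟨T3, hT3⟩ := eventually_atTop.mp (lastscale J)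
  -- constants
  set WJ : ℝ := ∑ k ∈ sx A J, |al F J k| with hWJ
  set W' : ℝ := 6 * ((A : ℝ) + 2) * M with hW'
  set E1 : ℝ := (|Real.log (q / (2 * Real.pi))| + 1) * |IF| with hE1
  set E2 : ℝ := C2 * (4 * M) * 16 with hE2
  have hWJ0 : 0 ≤ WJ := Finset.sum_nonneg fun _ _ => abs_nonneg _
  have hW'0 : 0 ≤ W' := by positivity
  have hE10 : 0 ≤ E1 := by positivity
  have hE20 : 0 ≤ E2 := by positivity
  refine ⟨3 ^ (m' + 1) * ((E1 + E2) ^ (m' + 1) + WJ ^ (m' + 1) * C1 + 2 ^ (m' + 1) * (W' ^ (m' + 1) * C1)),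
    max (max (max 10 T1) (max T2 T3)) (2 * ((A : ℝ) + 5) + 2),
    ((le_max_left _ _).trans (le_max_left _ _)).trans (le_max_left _ _), fun T hT => ?_⟩
  have hTa : (10 : ℝ) ≤ T := (((le_max_left _ _).trans (le_max_left _ _)).trans (le_max_left _ _)).trans hT
  have hTb : T1 ≤ T := (((le_max_right _ _).trans (le_max_left _ _)).trans (le_max_left _ _)).trans hT
  have hTc : T2 ≤ T := (((le_max_left _ _).trans (le_max_right _ _)).trans (le_max_left _ _)).trans hT
  have hTd : T3 ≤ T := (((le_max_right _ _).trans (le_max_right _ _)).trans (le_max_left _ _)).trans hT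
  have hTe : 2 * ((A : ℝ) + 5) + 2 ≤ T := (le_max_right _ _).trans hT
  refine ⟨hXMc T (by linarith), ?_⟩
  obtain ⟨n, hn1, hn2⟩ := hT3 T hTd
  have hL0 : 0 ≤ Real.log T := Real.log_nonneg (by linarith)
  have hab : T ≤ 2 * T := by linarith
  -- the pieces
  have hpc : ∀ j : ℕ, J ≤ j → j ≤ J + n → ∀ k ∈ sx A j,
      ContinuousOn (fun t => XG G (fun x => bs (2 ^ j * x - k)) T t) (Icc T (2 * T)) ∧
      ∫ t in T..(2 * T), |XG G (fun x => bs (2 ^ j * x - k)) T t| ^ (m' + 1) ≤ C1 * T := by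
    intro j hj1 hj2 k hk
    have h1 : (1 / 2 : ℝ) ^ (J + n) ≤ (1 / 2) ^ j := pow_le_pow_of_le_one (by norm_num) (by norm_num) hj2
    have h2 : (1 / 2 : ℝ) ^ j ≤ (1 / 2) ^ J := pow_le_pow_of_le_one (by norm_num) (by norm_num) hj1
    obtain ⟨h3, h4⟩ := hB T hTb ((1 / 2) ^ j) (hn1.trans (mul_le_mul_of_nonneg_right h1 hL0)) (h2.trans hJ)
    exact piece G (m' + 1) hk rfl (by linarith) h3 h4
  -- the first scale
  have hY := wsum (sx A J) (al F J) (fun k t => XG G (fun x => bs (2 ^ J * x - k)) T t) m' hab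
    (fun k hk => (hpc J le_rfl (by omega) k hk).1) (fun k hk => (hpc J le_rfl (by omega) k hk).2)
    (by positivity) (le_of_eq hWJ.symm)
  -- the other scales
  have hZ : ∀ i ∈ Finset.range n, ContinuousOn (fun t => ∑ k ∈ sx A (J + i + 1), (2 ^ i * wc F (J + i) k) *
        XG G (fun x => bs (2 ^ (J + i + 1) * x - k)) T t) (Icc T (2 * T)) ∧
      ∫ t in T..(2 * T), |∑ k ∈ sx A (J + i + 1), (2 ^ i * wc F (J + i) k) *
        XG G (fun x => bs (2 ^ (J + i + 1) * x - k)) T t| ^ (m' + 1) ≤ W' ^ (m' + 1) * (C1 * T) := by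
    intro i hi
    rw [Finset.mem_range] at hi
    refine wsum (sx A (J + i + 1)) (fun k => 2 ^ i * wc F (J + i) k)
      (fun k t => XG G (fun x => bs (2 ^ (J + i + 1) * x - k)) T t) m' hab
      (fun k hk => (hpc (J + i + 1) (by omega) (by omega) k hk).1)
      (fun k hk => (hpc (J + i + 1) (by omega) (by omega) k hk).2) (by positivity) ?_
    have h1 : ∑ k ∈ sx A (J + i + 1), |2 ^ i * wc F (J + i) k| = 2 ^ i * ∑ k ∈ sx A (J + i + 1), |wc F (J + i) k| := by
      rw [Finset.mul_sum]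
      refine Finset.sum_congr rfl fun k _ => ?_
      rw [abs_mul, abs_of_pos (show (0 : ℝ) < 2 ^ i by positivity)]
    rw [h1]
    have h2 := wc_sum hF hM A (J + i)
    calc 2 ^ i * ∑ k ∈ sx A (J + i + 1), |wc F (J + i) k|
        ≤ 2 ^ i * (6 * ((A : ℝ) + 2) * M * (1 / 2) ^ (J + i)) := mul_le_mul_of_nonneg_left h2 (by positivity)
      _ = W' * ((2 * (1 / 2)) ^ i * (1 / 2) ^ J) := by rw [pow_add, mul_pow]; ring
      _ ≤ W' * 1 := by
          refine mul_le_mul_of_nonneg_left ?_ hW'0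
          have h9 : (2 * (1 / 2) : ℝ) ^ i = 1 := by norm_num
          rw [h9, one_mul]
          exact pow_le_one₀ (by norm_num) (by norm_num)
      _ = W' := mul_one _
  have hgeo : ∑ i ∈ Finset.range n, |(1 / 2 : ℝ) ^ i| ≤ 2 := by
    have h1 : ∀ i ∈ Finset.range n, |(1 / 2 : ℝ) ^ i| = (1 / 2) ^ i := fun i _ => abs_of_pos (by positivity)
    rw [Finset.sum_congr rfl h1, geom_sum_eq (by norm_num)]
    have h2 : (0 : ℝ) < (1 / 2) ^ n := by positivity
    rw [div_le_iff_of_neg (by norm_num)]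
    linarith
  have hZZ := wsum (Finset.range n) (fun i => (1 / 2 : ℝ) ^ i) (fun i t => ∑ k ∈ sx A (J + i + 1),
      (2 ^ i * wc F (J + i) k) * XG G (fun x => bs (2 ^ (J + i + 1) * x - k)) T t) m' hab
    (fun i hi => (hZ i hi).1) (fun i hi => (hZ i hi).2) (by positivity) hgeo
  set Y : ℝ → ℝ := fun t => ∑ k ∈ sx A J, al F J k * XG G (fun x => bs (2 ^ J * x - k)) T t with hYdef
  set Z : ℝ → ℝ := fun t => ∑ i ∈ Finset.range n, (1 / 2 : ℝ) ^ i * ∑ k ∈ sx A (J + i + 1),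
      (2 ^ i * wc F (J + i) k) * XG G (fun x => bs (2 ^ (J + i + 1) * x - k)) T t with hZdef
  -- the error
  have hSc : Continuous (SS F A (J + n)) := by
    unfold SS
    exact continuous_finsetSum _ fun k _ => continuous_const.mul (bsk_cont (J + n) k)
  have herr : ∀ t ∈ Icc T (2 * T), |XM G q F t - Y t - Z t| ≤ E1 + E2 := by
    intro t ht
    have ht0 : 0 < t := by linarith [ht.1]
    have h1 := decomp hG hFc hA J n (T := T) (t := t) (by linarith [ht.1])
    have h2 := hrem T hTc t ht (fun x => F x - SS F A (J + n) x) (4 * M * (1 / 4) ^ (J + n)) (hFc.sub hSc)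
      (fun x => SS_approx hF hA hM (J + n) x) (fun x hx => by
        push_cast at hx
        show F x - SS F A (J + n) x = 0
        rw [hA5 x hx, SS_supp (J + n) hx, sub_zero])
    have h3 : |XG G (fun x => F x - SS F A (J + n) x) T t| ≤ E2 := by
      refine h2.trans ?_
      have : C2 * (4 * M * (1 / 4) ^ (J + n)) * Real.log T = C2 * (4 * M) * ((1 / 4) ^ (J + n) * Real.log T) := by ring
      rw [this, hE2]
      exact mul_le_mul_of_nonneg_left hn2 (by positivity)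
    have h4 : XM G q F t - Y t - Z t = (Real.log T - Real.log (q * t / (2 * Real.pi))) /
      (2 * Real.pi) * IF + XG G (fun x => F x - SS F A (J + n) x) T t := by
      rw [hXM T t, h1, hYdef, hZdef]
      ring
    rw [h4]
    refine (abs_add_le _ _).trans (add_le_add ?_ h3)
    rw [abs_mul, hE1]
    refine mul_le_mul_of_nonneg_right ?_ (abs_nonneg _)
    rw [abs_div, abs_of_pos (show (0 : ℝ) < 2 * Real.pi by positivity)]
    have h5 : |Real.log T - Real.log (q * t / (2 * Real.pi))| ≤ |Real.log (q / (2 * Real.pi))| + 1 := by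
      have h6 : Real.log (q * t / (2 * Real.pi)) = Real.log (q / (2 * Real.pi)) + Real.log t := by
        rw [← Real.log_mul (by positivity) (by positivity)]
        congr 1
        ring
      have h7 : Real.log T ≤ Real.log t := Real.log_le_log (by linarith) ht.1
      have h8 : Real.log t ≤ Real.log 2 + Real.log T := by
        rw [← Real.log_mul (by norm_num) (by linarith)]
        exact Real.log_le_log ht0 ht.2
      have h9 := Real.log_two_lt_d9
      rw [h6]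
      have h10 := le_abs_self (Real.log (q / (2 * Real.pi)))
      have h11 := neg_abs_le (Real.log (q / (2 * Real.pi)))
      rw [abs_le]
      constructor <;> linarith
    refine (div_le_self (abs_nonneg _) ?_).trans h5
    linarith [Real.pi_gt_three]
  -- assembly
  have hYc : ContinuousOn Y (Icc T (2 * T)) := hY.1
  have hZc : ContinuousOn Z (Icc T (2 * T)) := hZZ.1
  have hEc : ContinuousOn (fun t => XM G q F t - Y t - Z t) (Icc T (2 * T)) :=
    ((hXMc T (by linarith)).sub hYc).sub hZc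
  have hEi : ∫ t in T..(2 * T), |XM G q F t - Y t - Z t| ^ (m' + 1) ≤ (E1 + E2) ^ (m' + 1) * T := by
    have h1 : ∫ t in T..(2 * T), |XM G q F t - Y t - Z t| ^ (m' + 1) ≤
        ∫ _t in T..(2 * T), (E1 + E2) ^ (m' + 1) := by
      apply intervalIntegral.integral_mono_on hab
      · apply ContinuousOn.intervalIntegrable
        rw [uIcc_of_le hab]
        exact (hEc.abs).pow _
      · exact intervalIntegrable_const
      · intro t ht
        exact pow_le_pow_left₀ (abs_nonneg _) (herr t ht) _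
    refine h1.trans (le_of_eq ?_)
    rw [intervalIntegral.integral_const, smul_eq_mul]
    ring
  set B : ℝ := ((E1 + E2) ^ (m' + 1) + WJ ^ (m' + 1) * C1 + 2 ^ (m' + 1) * (W' ^ (m' + 1) * C1)) * T with hBdef
  have p1 : 0 ≤ (E1 + E2) ^ (m' + 1) * T := by positivity
  have p2 : 0 ≤ WJ ^ (m' + 1) * C1 * T := by positivity
  have p3 : 0 ≤ 2 ^ (m' + 1) * (W' ^ (m' + 1) * C1) * T := by positivity
  have hB' : B = (E1 + E2) ^ (m' + 1) * T + WJ ^ (m' + 1) * C1 * T + 2 ^ (m' + 1) * (W' ^ (m' + 1) * C1) * T := by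
    rw [hBdef]; ring
  let X : Fin 3 → ℝ → ℝ := ![fun t => XM G q F t - Y t - Z t, Y, Z]
  have hX3 := wsum (Finset.univ : Finset (Fin 3)) (fun _ => (1 : ℝ)) X m' (a := T) (b := 2 * T) (B := B) (W := 3)
    hab (by
      intro p _
      fin_cases p
      · exact hEc
      · exact hYc
      · exact hZc) (by
      intro p _
      fin_cases p
      · refine le_trans hEi ?_
        rw [hB']; linarith
      · refine le_trans hY.2 ?_
        rw [hB']; nlinarith
      · refine le_trans hZZ.2 ?_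
        rw [hB']; nlinarith) (by rw [hB']; linarith) (by simp)
  have hfin : ∀ t, ∑ p : Fin 3, (1 : ℝ) * X p t = XM G q F t := by
    intro t
    rw [Fin.sum_univ_three]
    show 1 * (XM G q F t - Y t - Z t) + 1 * Y t + 1 * Z t = XM G q F t
    ring
  have h5 := hX3.2
  simp only [hfin] at h5
  refine h5.trans (le_of_eq ?_)
  rw [hBdef]
  ring

end Pool.Agent.H203.MC
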