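import Pool.Agent.H203.MC.Defs

set_option autoImplicit false

/-! The part (PM3) of project MC: the prime side against the finite sums (helper263, after `Pool.Agent.H203.GE.PRM`). -/

open Complex Filter Topology Set MeasureTheory

namespace Pool.Agent.H203.MC

open Pool.Agent.H203.ME (ee gR WR om FF KF C2c)
open Pool.Agent.H203.GE (Lf ZG XG)

namespace PM3L

open Pool.Agent.H203.ME.PRML

/-- normalised weight -/
noncomputable def k3 (R x : ℝ) : ℝ := 2 / Real.sqrt (2 * Real.pi) * c3 R x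

/-- the coefficients of the difference -/
noncomputable def dc (u : ℕ → ℂ) (F : ℝ → ℝ) (R : ℝ) (N n : ℕ) : ℂ :=
  ((k3 R (Real.log n) * (ArithmeticFunction.vonMangoldt n / Real.sqrt n) -
    (if n ≤ N then 1 / Real.pi * (ArithmeticFunction.vonMangoldt n / Real.sqrt n) else 0) : ℝ) : ℂ) *
      FF F (Real.log n) * u n

/-- the terms of the series -/
noncomputable def aa (F : ℝ → ℝ) (n : ℕ) : ℝ :=
  (ArithmeticFunction.vonMangoldt n) ^ 2 / n * ‖FF F (Real.log n)‖ ^ 2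

lemma aa_nonneg (F : ℝ → ℝ) (n : ℕ) : 0 ≤ aa F n := by
  unfold aa
  positivity

lemma tail_term {F : ℝ → ℝ} {A C L : ℝ} (hA : ∀ ξ, ‖FF F ξ‖ ≤ A) (hC : 0 ≤ C) (hL : 64 ≤ L)
    (h0 : ∀ x, 0 ≤ x → 0 ≤ c3 (L / 4) x)
    (h1 : ∀ x, 0 ≤ x → 2 * (L / 4) ≤ x → c3 (L / 4) x ≤ C * (L / 4) * Real.exp (-x ^ 2 / 8))
    {u : ℕ → ℂ} (hu : ∀ n, ‖u n‖ ≤ 1) (n : ℕ) (hn1 : 1 ≤ n) (hn : L / 2 ≤ Real.log n) (t : ℝ) :
    ‖((ArithmeticFunction.vonMangoldt n / Real.sqrt n * c3 (L / 4) (Real.log n) : ℝ) : ℂ) *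
      FF F (Real.log n) * (u n * ee n t)‖ ≤ 2 * C * A * Real.exp (-(L / 2)) * (1 / (n : ℝ) ^ 2) := by
  have hn0 : (0 : ℝ) < n := by exact_mod_cast hn1
  have hn1' : (1 : ℝ) ≤ n := by exact_mod_cast hn1
  have hA0 : 0 ≤ A := (norm_nonneg _).trans (hA 0)
  rw [norm_mul, norm_mul, norm_mul, norm_ee, mul_one, Complex.norm_real, Real.norm_eq_abs]
  have hl00 : 0 ≤ Real.log n := Real.log_natCast_nonneg n
  have hc0 := h0 (Real.log n) hl00
  have hc1 := h1 (Real.log n) hl00 (by linarith)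
  have hL0 : 0 ≤ ArithmeticFunction.vonMangoldt n := ArithmeticFunction.vonMangoldt_nonneg
  have hL1 : ArithmeticFunction.vonMangoldt n ≤ Real.log n := ArithmeticFunction.vonMangoldt_le_log
  have hs1 : 1 ≤ Real.sqrt n := by rw [Real.one_le_sqrt]; exact hn1'
  have hnexp : 1 / (n : ℝ) ≤ Real.exp (-(L / 2)) := by
    rw [Real.exp_neg, ← one_div]
    apply one_div_le_one_div_of_le (Real.exp_pos _)
    exact (Real.le_log_iff_exp_le hn0).1 hn
  set l := Real.log n with hl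
  have hl0 : 32 ≤ l := by linarith
  have h1 : ArithmeticFunction.vonMangoldt n / Real.sqrt n ≤ l :=
    (div_le_self hL0 hs1).trans hL1
  have h10 : 0 ≤ ArithmeticFunction.vonMangoldt n / Real.sqrt n := by positivity
  have h2 : Real.exp (-l ^ 2 / 8) ≤ 1 / (n : ℝ) ^ 4 := by
    have h3 : -l ^ 2 / 8 ≤ -(4 * l) := by nlinarith
    have h4 : Real.exp (-(4 * l)) = 1 / (n : ℝ) ^ 4 := by
      rw [Real.exp_neg, show 4 * l = Real.log ((n : ℝ) ^ 4) by rw [Real.log_pow, ← hl]; norm_num,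
        Real.exp_log (by positivity)]
      simp
    rw [← h4]
    exact Real.exp_le_exp.2 h3
  have h5 : l * (L / 4 * Real.exp (-l ^ 2 / 8)) ≤ 2 * (Real.exp (-(L / 2)) * (1 / (n : ℝ) ^ 2)) := by
    have h6 : l * (L / 4) ≤ 2 * n := by
      have := log_sq_le hn1'
      rw [← hl] at this
      nlinarith
    have h7 : (n : ℝ) * (1 / (n : ℝ) ^ 4) = 1 / (n : ℝ) * (1 / (n : ℝ) ^ 2) := by
      field_simp
    calc l * (L / 4 * Real.exp (-l ^ 2 / 8)) = (l * (L / 4)) * Real.exp (-l ^ 2 / 8) := by ring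
      _ ≤ (2 * n) * (1 / (n : ℝ) ^ 4) :=
          mul_le_mul h6 h2 (Real.exp_pos _).le (by positivity)
      _ = 2 * (1 / (n : ℝ) * (1 / (n : ℝ) ^ 2)) := by rw [← h7]; ring
      _ ≤ 2 * (Real.exp (-(L / 2)) * (1 / (n : ℝ) ^ 2)) := by
          apply mul_le_mul_of_nonneg_left _ (by norm_num)
          exact mul_le_mul_of_nonneg_right hnexp (by positivity)
  have h8 : ArithmeticFunction.vonMangoldt n / Real.sqrt n * c3 (L / 4) l ≤
      C * (2 * (Real.exp (-(L / 2)) * (1 / (n : ℝ) ^ 2))) := by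
    calc ArithmeticFunction.vonMangoldt n / Real.sqrt n * c3 (L / 4) l
        ≤ l * (C * (L / 4) * Real.exp (-l ^ 2 / 8)) := mul_le_mul h1 hc1 hc0 (by linarith)
      _ = C * (l * (L / 4 * Real.exp (-l ^ 2 / 8))) := by ring
      _ ≤ _ := mul_le_mul_of_nonneg_left h5 hC
  rw [abs_of_nonneg (mul_nonneg h10 hc0)]
  calc ArithmeticFunction.vonMangoldt n / Real.sqrt n * c3 (L / 4) l * ‖FF F l‖ * ‖u n‖
      ≤ (C * (2 * (Real.exp (-(L / 2)) * (1 / (n : ℝ) ^ 2)))) * A * 1 := by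
        apply mul_le_mul _ (hu n) (norm_nonneg _) (by positivity)
        exact mul_le_mul h8 (hA l) (norm_nonneg _) (by positivity)
    _ = _ := by ring

lemma split_main {F : ℝ → ℝ} {A C L : ℝ} (hA : ∀ ξ, ‖FF F ξ‖ ≤ A) (hC : 0 ≤ C) (hL : 64 ≤ L)
    (h0 : ∀ x, 0 ≤ x → 0 ≤ c3 (L / 4) x)
    (h1 : ∀ x, 0 ≤ x → 2 * (L / 4) ≤ x → c3 (L / 4) x ≤ C * (L / 4) * Real.exp (-x ^ 2 / 8))
    {u : ℕ → ℂ} (hu : ∀ n, ‖u n‖ ≤ 1) (X N : ℕ)
    (hX : ∀ n : ℕ, X < n → L / 2 ≤ Real.log n) (hNX : N ≤ X) (t : ℝ) :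
    ∃ w : ℂ, ‖w‖ ≤ 2 * C * A * Real.exp (-(L / 2)) * Z1 ∧
      B3 u F (L / 4) t - Zs u F N (fun n => ee n t) =
      ((∑ n ∈ Finset.Icc 1 X, dc u F (L / 4) N n * (n : ℂ) ^ (-(t : ℂ) * I)) + w).re := by
  have hA0 : 0 ≤ A := (norm_nonneg _).trans (hA 0)
  set f : ℕ → ℂ := fun n => ((ArithmeticFunction.vonMangoldt n / Real.sqrt n * c3 (L / 4) (Real.log n) : ℝ) : ℂ) *
      FF F (Real.log n) * (u n * ee n t) with hf
  set K : ℝ := 2 * C * A * Real.exp (-(L / 2)) with hK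
  have hK0 : 0 ≤ K := by positivity
  have hb : ∀ n : ℕ, ‖f (n + (X + 1))‖ ≤ K * (1 / ((n + 1 : ℕ) : ℝ) ^ 2) := by
    intro n
    have h1 := tail_term hA hC hL h0 h1 hu (n + (X + 1)) (by omega) (hX _ (by omega)) t
    refine h1.trans ?_
    apply mul_le_mul_of_nonneg_left _ hK0
    apply one_div_le_one_div_of_le (by positivity)
    apply pow_le_pow_left₀ (by positivity)
    push_cast
    have : (0 : ℝ) ≤ X := Nat.cast_nonneg X
    linarith
  have hsg : HasSum (fun n : ℕ => K * (1 / ((n + 1 : ℕ) : ℝ) ^ 2)) (K * Z1) :=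
    Z1_summable.hasSum.mul_left _
  have hsum' : Summable (fun n => f (n + (X + 1))) := Summable.of_norm_bounded hsg.summable hb
  have hsum : Summable f := (summable_nat_add_iff (X + 1)).1 hsum'
  have htail : ‖∑' n, f (n + (X + 1))‖ ≤ K * Z1 := tsum_of_norm_bounded hsg hb
  have hsplit := hsum.sum_add_tsum_nat_add (X + 1)
  have hfin : ∑ n ∈ Finset.range (X + 1), f n = ∑ n ∈ Finset.Icc 1 X, f n := by
    symm
    apply Finset.sum_subset
    · intro n hn
      rw [Finset.mem_Icc] at hn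
      rw [Finset.mem_range]; omega
    · intro n hn hn'
      rw [Finset.mem_range] at hn
      rw [Finset.mem_Icc] at hn'
      have : n = 0 := by omega
      subst this
      simp [hf]
  set c : ℝ := 2 / Real.sqrt (2 * Real.pi) with hc
  refine ⟨(c : ℂ) * ∑' n, f (n + (X + 1)), ?_, ?_⟩
  · rw [norm_mul, Complex.norm_real, Real.norm_eq_abs, abs_of_nonneg (by positivity)]
    have h1 := two_div_le_one
    rw [← hc] at h1
    have h2 := norm_nonneg (∑' n, f (n + (X + 1)))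
    nlinarith
  · have hBB : B3 u F (L / 4) t = ((c : ℂ) * ∑' n, f n).re := by
      unfold B3
      rw [Complex.re_ofReal_mul]
    have hY : Zs u F N (fun n => ee n t) = (∑ n ∈ Finset.Icc 1 X,
        (((if n ≤ N then 1 / Real.pi * (ArithmeticFunction.vonMangoldt n / Real.sqrt n) else 0 : ℝ) : ℂ) *
          FF F (Real.log n) * (u n * ee n t))).re := by
      unfold Zs
      congr 1
      rw [← Finset.sum_subset (Finset.Icc_subset_Icc le_rfl hNX)]
      · refine Finset.sum_congr rfl fun n hn => ?_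
        have hnN := (Finset.mem_Icc.1 hn).2
        rw [if_pos hnN]
      · intro n hn hn'
        rw [Finset.mem_Icc] at hn hn'
        rw [if_neg (fun hh => hn' ⟨hn.1, hh⟩)]; simp
    rw [hBB, hY, ← Complex.sub_re, ← hsplit, hfin, mul_add]
    congr 1
    rw [Finset.mul_sum, add_sub_right_comm, ← Finset.sum_sub_distrib]
    congr 1
    refine Finset.sum_congr rfl fun n hn => ?_
    have hn1 := (Finset.mem_Icc.1 hn).1
    rw [← ee_eq n hn1 t, hf]
    unfold dc k3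
    rw [← hc]
    push_cast
    ring

lemma dc_bound {F : ℝ → ℝ} {C R : ℝ} (hC : 0 ≤ C) (hR : 1 ≤ R)
    (h0 : ∀ x, 0 ≤ x → 0 ≤ c3 R x) (h1 : ∀ x, 0 ≤ x → k3 R x ≤ 1 / Real.pi)
    (h2 : ∀ x, 0 ≤ x → |k3 R x - 1 / Real.pi| ≤ C * (1 + x ^ 2) / R ^ 2)
    {u : ℕ → ℂ} (hu : ∀ n, ‖u n‖ ≤ 1) (N n : ℕ) (hn1 : 1 ≤ n) :
    ‖dc u F R N n‖ ^ 2 ≤ (C * (1 + (Real.log N) ^ 2) / R ^ 2) ^ 2 * aa F n +
      (if N < n then aa F n else 0) := by
  have hn0 : (0 : ℝ) < n := by exact_mod_cast hn1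
  have hl0 : 0 ≤ Real.log n := Real.log_natCast_nonneg n
  have hsq : Real.sqrt n ^ 2 = n := Real.sq_sqrt hn0.le
  have ha := aa_nonneg F n
  have hk0 : 0 ≤ k3 R (Real.log n) := by
    unfold k3
    exact mul_nonneg (by positivity) (h0 _ hl0)
  have hk1 : k3 R (Real.log n) ≤ 1 := by
    refine (h1 _ hl0).trans ?_
    rw [div_le_one Real.pi_pos]
    linarith [Real.pi_gt_three]
  have hu2 : ‖u n‖ ^ 2 ≤ 1 := pow_le_one₀ (norm_nonneg _) (hu n)
  have hnorm : ‖dc u F R N n‖ ^ 2 ≤ (k3 R (Real.log n) - (if n ≤ N then 1 / Real.pi else 0)) ^ 2 *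
      aa F n := by
    have e1 : ‖dc u F R N n‖ ^ 2 = ((k3 R (Real.log n) - (if n ≤ N then 1 / Real.pi else 0)) ^ 2 *
        aa F n) * ‖u n‖ ^ 2 := by
      unfold dc aa
      rw [norm_mul, norm_mul, mul_pow, mul_pow, Complex.norm_real, Real.norm_eq_abs, sq_abs]
      have e2 : k3 R (Real.log n) * (ArithmeticFunction.vonMangoldt n / Real.sqrt n) -
          (if n ≤ N then 1 / Real.pi * (ArithmeticFunction.vonMangoldt n / Real.sqrt n) else 0) =
          (k3 R (Real.log n) - (if n ≤ N then 1 / Real.pi else 0)) *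
            (ArithmeticFunction.vonMangoldt n / Real.sqrt n) := by
        split_ifs <;> ring
      rw [e2, mul_pow, div_pow, hsq]
      ring
    rw [e1]
    exact mul_le_of_le_one_right (mul_nonneg (sq_nonneg _) ha) hu2
  refine hnorm.trans ?_
  by_cases hnN : n ≤ N
  · rw [if_pos hnN, if_neg (by omega), add_zero]
    apply mul_le_mul_of_nonneg_right _ ha
    rw [← sq_abs]
    apply pow_le_pow_left₀ (abs_nonneg _)
    refine (h2 _ hl0).trans ?_
    have hlN : Real.log n ≤ Real.log N := Real.log_le_log hn0 (by exact_mod_cast hnN)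
    apply div_le_div_of_nonneg_right _ (by positivity)
    apply mul_le_mul_of_nonneg_left _ hC
    nlinarith
  · rw [if_neg hnN, if_pos (by omega), sub_zero]
    have e1 : k3 R (Real.log n) ^ 2 ≤ 1 := pow_le_one₀ hk0 hk1
    have e2 : k3 R (Real.log n) ^ 2 * aa F n ≤ aa F n := mul_le_of_le_one_left ha e1
    have e3 : 0 ≤ (C * (1 + (Real.log N) ^ 2) / R ^ 2) ^ 2 * aa F n := by positivity
    linarith

/-- the tail of a convergent series of nonnegative terms -/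
lemma tail_small {a : ℕ → ℝ} (ha : ∀ n, 0 ≤ a n) (hs : Summable a) {ε : ℝ} (hε : 0 < ε) :
    ∃ N0 : ℕ, ∀ N : ℕ, N0 ≤ N → ∀ X : ℕ, ∑ n ∈ Finset.Icc 1 X, (if N < n then a n else 0) ≤ ε := by
  have h1 : Tendsto (fun i => ∑' k, a (k + i)) atTop (𝓝 0) := tendsto_sum_nat_add a
  obtain ⟨N0, hN0⟩ := eventually_atTop.1 (h1.eventually (gt_mem_nhds hε))
  refine ⟨N0, fun N hN X => ?_⟩
  have h2 := (hN0 (N + 1) (by omega)).le
  refine le_trans ?_ h2
  rw [← Finset.sum_filter]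
  have hs' : Summable (fun k => a (k + (N + 1))) := (summable_nat_add_iff (N + 1)).2 hs
  have h3 : (Finset.Icc 1 X).filter (fun n => N < n) ⊆
      (Finset.range (X + 1)).image (fun k => k + (N + 1)) := by
    intro n hn
    rw [Finset.mem_filter, Finset.mem_Icc] at hn
    rw [Finset.mem_image]
    exact ⟨n - (N + 1), by rw [Finset.mem_range]; omega, by omega⟩
  refine (Finset.sum_le_sum_of_subset_of_nonneg h3 fun n _ _ => ha n).trans ?_
  rw [Finset.sum_image (fun x _ y _ h => by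
    have h' : x + (N + 1) = y + (N + 1) := h
    omega)]
  exact hs'.sum_le_tsum _ fun k _ => ha _

end PM3L

open PM3L in
/-- the part (PM3) -/
theorem t_PM3 (hC : S_C3) (hT : S_TL) (hB : S_B3) : S_PM3 := by
  intro F hF ε hε
  obtain ⟨C, hC0, hC3⟩ := hC
  have hsum : Summable (aa F) := hT F hF.cd (ME.PRML.F_hcs hF)
  obtain ⟨A, hA⟩ : ∃ A : ℝ, ∀ ξ, ‖FF F ξ‖ ≤ A := ⟨_, fun ξ => ME.PRML.FT_norm_le F ξ⟩
  have hA0 : 0 ≤ A := (norm_nonneg _).trans (hA 0)
  have hZ1 := ME.PRML.Z1_nonneg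
  obtain ⟨N0, hN0⟩ := tail_small (aa_nonneg F) hsum (ε := ε / 16) (by positivity)
  refine ⟨N0 + 1, fun N hN => ?_⟩
  have hNtail := hN0 N (by omega)
  have hN1 : 1 ≤ N := by omega
  have hNr : (0 : ℝ) < N := by exact_mod_cast hN1
  set S : ℝ := ∑' n, aa F n with hS
  have hS0 : 0 ≤ S := tsum_nonneg (aa_nonneg F)
  set K : ℝ := C * (1 + (Real.log N) ^ 2) * 16 with hK
  have t1 : Tendsto (fun T : ℝ => (K / (Real.log T) ^ 2) ^ 2 * S) atTop (𝓝 0) := by
    have h1 : Tendsto (fun T : ℝ => (Real.log T) ^ 2) atTop atTop :=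
      (tendsto_pow_atTop two_ne_zero).comp Real.tendsto_log_atTop
    have h2 : Tendsto (fun T : ℝ => K / (Real.log T) ^ 2) atTop (𝓝 0) :=
      tendsto_const_nhds.div_atTop h1
    have h3 := (h2.pow 2).mul_const S
    simpa using h3
  have t2 : Tendsto (fun T : ℝ => (2 * C * A * Real.exp (-(Real.log T / 2)) * ME.PRML.Z1) ^ 2)
      atTop (𝓝 0) := by
    have h1 : Tendsto (fun T : ℝ => Real.log T / 2) atTop atTop :=
      Real.tendsto_log_atTop.atTop_div_const (by norm_num)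
    have h2 : Tendsto (fun T : ℝ => Real.exp (-(Real.log T / 2))) atTop (𝓝 0) :=
      Real.tendsto_exp_neg_atTop_nhds_zero.comp h1
    have h3 := ((h2.const_mul (2 * C * A)).mul_const ME.PRML.Z1).pow 2
    simpa using h3
  have e1 := t1.eventually (ge_mem_nhds (show (0 : ℝ) < ε / 16 by positivity))
  have e2 := t2.eventually (ge_mem_nhds (show (0 : ℝ) < ε / 4 by positivity))
  have e3 := Real.tendsto_log_atTop.eventually_ge_atTop (64 + 2 * Real.log N)
  obtain ⟨T0, hT0⟩ := eventually_atTop.1 ((e1.and e2).and e3)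
  refine ⟨max 10 T0, le_max_left _ _, fun T hT' u hu => ?_⟩
  have hT10 : 10 ≤ T := (le_max_left _ _).trans hT'
  obtain ⟨⟨f1, f2⟩, f3⟩ := hT0 T ((le_max_right _ _).trans hT')
  have hT0' : 0 < T := by linarith
  have hlN0 : 0 ≤ Real.log N := Real.log_natCast_nonneg N
  obtain ⟨L, hLdef⟩ : ∃ L : ℝ, L = Real.log T := ⟨_, rfl⟩
  rw [← hLdef] at f1 f2 f3 ⊢
  have hL : 64 ≤ L := by linarith
  have hR : 1 ≤ L / 4 := by linarith
  obtain ⟨hcont1, hcont2, -⟩ := hB u hu F hF (L / 4) hR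
  set X := ⌊T ^ (1 / 2 : ℝ)⌋₊ with hX
  have hpos : ∀ s : ℝ, 0 < T ^ s := fun s => Real.rpow_pos_of_pos hT0' s
  have hT12 : T ^ (1 / 2 : ℝ) = Real.exp (L / 2) := by
    rw [Real.rpow_def_of_pos hT0', hLdef]; congr 1; ring
  have hNX : N ≤ X := by
    apply Nat.le_floor
    rw [hT12]
    refine (Real.log_le_iff_le_exp hNr).1 ?_
    linarith
  have hXn : ∀ n : ℕ, X < n → L / 2 ≤ Real.log n := by
    intro n hn
    have h1 : T ^ (1 / 2 : ℝ) < n := (Nat.floor_lt (hpos _).le).1 hn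
    have hn0 : (0 : ℝ) < n := (hpos _).trans h1
    rw [Real.le_log_iff_exp_le hn0, ← hT12]
    exact h1.le
  have hc0 : ∀ x, 0 ≤ x → 0 ≤ c3 (L / 4) x := fun x hx => (hC3 (L / 4) x hR hx).1
  have hc1 : ∀ x, 0 ≤ x → k3 (L / 4) x ≤ 1 / Real.pi := fun x hx => (hC3 (L / 4) x hR hx).2.1
  have hc2 : ∀ x, 0 ≤ x → |k3 (L / 4) x - 1 / Real.pi| ≤ C * (1 + x ^ 2) / (L / 4) ^ 2 :=
    fun x hx => (hC3 (L / 4) x hR hx).2.2.1
  have hc4 : ∀ x, 0 ≤ x → 2 * (L / 4) ≤ x →
      c3 (L / 4) x ≤ C * (L / 4) * Real.exp (-x ^ 2 / 8) :=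
    fun x hx => (hC3 (L / 4) x hR hx).2.2.2
  -- the mean square of the coefficients
  have hsq : ∑ n ∈ Finset.Icc 1 X, ‖dc u F (L / 4) N n‖ ^ 2 ≤ ε / 8 := by
    have h1 : ∑ n ∈ Finset.Icc 1 X, ‖dc u F (L / 4) N n‖ ^ 2 ≤
        ∑ n ∈ Finset.Icc 1 X, ((C * (1 + (Real.log N) ^ 2) / (L / 4) ^ 2) ^ 2 * aa F n +
          (if N < n then aa F n else 0)) :=
      Finset.sum_le_sum fun n hn =>
        dc_bound hC0.le hR hc0 hc1 hc2 hu N n (Finset.mem_Icc.1 hn).1
    rw [Finset.sum_add_distrib, ← Finset.mul_sum] at h1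
    have h2 : C * (1 + (Real.log N) ^ 2) / (L / 4) ^ 2 = K / L ^ 2 := by
      rw [hK]
      field_simp
      norm_num
    rw [h2] at h1
    have h3 : ∑ n ∈ Finset.Icc 1 X, aa F n ≤ S := hsum.sum_le_tsum _ fun n _ => aa_nonneg F n
    have h4 : (K / L ^ 2) ^ 2 * ∑ n ∈ Finset.Icc 1 X, aa F n ≤ (K / L ^ 2) ^ 2 * S :=
      mul_le_mul_of_nonneg_left h3 (sq_nonneg _)
    have h5 := hNtail X
    linarith
  -- pointwise bound
  set τ : ℝ := 2 * C * A * Real.exp (-(L / 2)) * ME.PRML.Z1 with hτ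
  have hτ0 : 0 ≤ τ := by positivity
  set D : ℝ → ℂ := fun t => ∑ n ∈ Finset.Icc 1 X, dc u F (L / 4) N n * (n : ℂ) ^ (-(t : ℂ) * I) with hD
  have hpt : ∀ t : ℝ, (B3 u F (L / 4) t - Zs u F N (fun n => ee n t)) ^ 2 ≤
      2 * ‖D t‖ ^ 2 + 2 * τ ^ 2 := by
    intro t
    obtain ⟨w, hw, he⟩ := split_main hA hC0.le hL hc0 hc4 hu X N hXn hNX t
    rw [he]
    have h1 : |(D t + w).re| ≤ ‖D t‖ + τ :=
      (Complex.abs_re_le_norm _).trans ((norm_add_le _ _).trans (by linarith))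
    have h2 : ((D t + w).re) ^ 2 ≤ (‖D t‖ + τ) ^ 2 := by
      rw [← sq_abs]
      exact pow_le_pow_left₀ (abs_nonneg _) h1 2
    calc ((D t + w).re) ^ 2 ≤ (‖D t‖ + τ) ^ 2 := h2
      _ ≤ _ := by nlinarith [sq_nonneg (‖D t‖ - τ)]
  have hDcont : Continuous D := by
    rw [hD]
    apply continuous_finsetSum
    intro n hn
    have hn1 := (Finset.mem_Icc.1 hn).1
    have : (fun t : ℝ => (n : ℂ) ^ (-(t : ℂ) * I)) = fun t => ee n t := by
      ext t; rw [ME.PRML.ee_eq n hn1]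
    apply Continuous.mul continuous_const
    rw [this]
    unfold ee
    fun_prop
  have hZcont : Continuous fun t : ℝ => Zs u F N (fun n => ee n t) := by
    unfold Zs
    apply Complex.continuous_re.comp
    apply continuous_finsetSum
    intro n _
    apply Continuous.mul continuous_const
    apply Continuous.mul continuous_const
    unfold ee
    fun_prop
  have hmv := H370.mean_value (dc u F (L / 4) N) X T (2 * T) (by linarith)
  have hXle : (X : ℝ) ≤ Real.exp (L / 2) := by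
    rw [← hT12]
    exact Nat.floor_le (hpos _).le
  have hX0 : (0 : ℝ) < X := by
    have : (N : ℝ) ≤ X := by exact_mod_cast hNX
    linarith
  have hlogX : Real.log X ≤ L / 2 := by
    rw [Real.log_le_iff_le_exp hX0]
    exact hXle
  have hlogX0 : 0 ≤ Real.log X := Real.log_natCast_nonneg X
  have hlen : 8 * (X : ℝ) * (1 + Real.log X) ≤ T := by
    have hTexp : T = Real.exp (L / 2) * Real.exp (L / 2) := by
      rw [← Real.exp_add, add_halves, hLdef, Real.exp_log hT0']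
    have h1 : 8 * (1 + L / 2) ≤ Real.exp (L / 2) := by
      have := Real.quadratic_le_exp_of_nonneg (by linarith : 0 ≤ L / 2)
      nlinarith
    calc 8 * (X : ℝ) * (1 + Real.log X) = X * (8 * (1 + Real.log X)) := by ring
      _ ≤ Real.exp (L / 2) * (8 * (1 + L / 2)) := by
          apply mul_le_mul hXle _ (by positivity) (Real.exp_pos _).le
          linarith
      _ ≤ Real.exp (L / 2) * Real.exp (L / 2) := mul_le_mul_of_nonneg_left h1 (Real.exp_pos _).le
      _ = T := hTexp.symm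
  have hint : ∫ t in T..(2 * T), ‖D t‖ ^ 2 ≤ (2 * T) * (ε / 8) := by
    refine hmv.trans ?_
    apply mul_le_mul _ hsq (Finset.sum_nonneg fun n _ => by positivity) (by positivity)
    linarith
  have h1 : ∫ t in T..(2 * T), (B3 u F (L / 4) t - Zs u F N (fun n => ee n t)) ^ 2 ≤
      ∫ t in T..(2 * T), (2 * ‖D t‖ ^ 2 + 2 * τ ^ 2) := by
    apply intervalIntegral.integral_mono_on (by linarith)
    · apply Continuous.intervalIntegrable
      exact (hcont2.sub hZcont).pow 2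
    · apply Continuous.intervalIntegrable
      fun_prop
    · intro t _; exact hpt t
  rw [intervalIntegral.integral_add (by apply Continuous.intervalIntegrable; fun_prop) (by simp),
    intervalIntegral.integral_const_mul, intervalIntegral.integral_const, smul_eq_mul] at h1
  have h2 : (2 * T - T) * (2 * τ ^ 2) ≤ T * (2 * (ε / 4)) := by
    have h3 : 2 * T - T = T := by ring
    rw [h3]
    apply mul_le_mul_of_nonneg_left _ hT0'.le
    linarith
  nlinarith

end Pool.Agent.H203.MC
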