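import Pool.Agent.H203.MC.Defs
import Pool.Graph.R_seed8.H370R2.DirGood
import Pool.Graph.R_seed8.H345R2.Chi

set_option autoImplicit false

/-! Project MC, part REF: the functional equation in logarithmic form with the exact conductor and the
error `O(1/t)` (helper800). -/

open Complex Filter Topology Set MeasureTheory

namespace Pool.Agent.H203.MC

namespace REFL

open H370.DL

/-- the digamma function and the complex conjugation -/
lemma dg_conj {z : ℂ} (hz : z.im ≠ 0) :
    logDeriv Gamma ((starRingEnd ℂ) z) = (starRingEnd ℂ) (logDeriv Gamma z) := by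
  have h1 := ((differentiableAt_Gamma z (ne_neg_nat_of_im hz)).hasDerivAt).conj_conj
  have e : (⇑(starRingEnd ℂ) ∘ Gamma ∘ ⇑(starRingEnd ℂ)) = Gamma := by
    funext w
    simp only [Function.comp_apply]
    rw [Gamma_conj, Complex.conj_conj]
  rw [e] at h1
  rw [logDeriv_apply, h1.deriv, Gamma_conj, logDeriv_apply, map_div₀]

/-- the digamma function in the upper half plane -/
lemma dg_close {w : ℂ} (h0 : -1 / 4 ≤ w.re) (h2 : w.re ≤ 3) (h1 : 12 ≤ w.im) :
    ‖logDeriv Gamma w - ((Real.log w.im : ℂ) + (Real.pi / 2 : ℂ) * I)‖ ≤ 14 / w.im := by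
  have hu0 : 0 < w.im := by linarith
  have hre : (w + 1).re = w.re + 1 := by simp
  have him : (w + 1).im = w.im := by simp
  have hw : ∀ m : ℕ, w ≠ -m := ne_neg_nat_of_im hu0.ne'
  have e := digamma_apply_add_one w hw
  rw [digamma_def] at e
  have hdg := H370.DG.logDeriv_Gamma' (s := w + 1) (by rw [hre]; linarith)
  have b1 := H345.Chi.log_close (s := w + 1) (by rw [hre]; linarith) (by rw [hre]; linarith)
    (by rw [him]; exact h1)
  have b2 := H345.Chi.tsum_er_le (s := w + 1) (by rw [hre]; linarith) (by rw [him]; linarith)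
  rw [him] at b1 b2
  have b4 : ‖1 / (w + 1)‖ ≤ 1 / w.im := by
    rw [norm_div, norm_one]
    apply one_div_le_one_div_of_le hu0
    refine le_trans ?_ (abs_im_le_norm (w + 1))
    rw [him]
    exact le_abs_self _
  have b5 : ‖1 / (w + 1 + 1)‖ ≤ 1 / w.im := by
    rw [norm_div, norm_one]
    apply one_div_le_one_div_of_le hu0
    refine le_trans ?_ (abs_im_le_norm (w + 1 + 1))
    have : (w + 1 + 1).im = w.im := by simp
    rw [this]
    exact le_abs_self _
  have b6 : ‖w⁻¹‖ ≤ 1 / w.im := by
    rw [norm_inv, inv_eq_one_div]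
    apply one_div_le_one_div_of_le hu0
    exact (le_abs_self _).trans (abs_im_le_norm w)
  have e2 : logDeriv Gamma w - ((Real.log w.im : ℂ) + (Real.pi / 2 : ℂ) * I) =
      (Complex.log (w + 1 + 2) - ((Real.log w.im : ℂ) + (Real.pi / 2 : ℂ) * I)) - 1 / (w + 1)
        - 1 / (w + 1 + 1) + ∑' n, H370.DG.er n (w + 1) - w⁻¹ := by
    rw [hdg] at e
    linear_combination -e
  rw [e2]
  refine (norm_sub_le _ _).trans ?_
  refine (add_le_add (norm_add_le _ _) le_rfl).trans ?_
  refine (add_le_add (add_le_add (norm_sub_le _ _) le_rfl) le_rfl).trans ?_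
  refine (add_le_add (add_le_add (add_le_add (norm_sub_le _ _) le_rfl) le_rfl) le_rfl).trans ?_
  calc _ ≤ 9 / w.im + 1 / w.im + 1 / w.im + 2 / w.im + 1 / w.im := by
        gcongr
    _ = 14 / w.im := by ring

/-- the digamma function in the lower half plane -/
lemma dg_close' {w : ℂ} (h0 : -1 / 4 ≤ w.re) (h2 : w.re ≤ 3) (h1 : w.im ≤ -12) :
    ‖logDeriv Gamma w - ((Real.log (-w.im) : ℂ) - (Real.pi / 2 : ℂ) * I)‖ ≤ 14 / (-w.im) := by
  have him : ((starRingEnd ℂ) w).im = -w.im := by simp
  have hre : ((starRingEnd ℂ) w).re = w.re := by simp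
  have hne : w.im ≠ 0 := by linarith
  have h := dg_close (w := (starRingEnd ℂ) w) (by rw [hre]; exact h0) (by rw [hre]; exact h2)
    (by rw [him]; linarith)
  rw [dg_conj hne, him] at h
  have e : (starRingEnd ℂ) (logDeriv Gamma w - ((Real.log (-w.im) : ℂ) - (Real.pi / 2 : ℂ) * I)) =
      (starRingEnd ℂ) (logDeriv Gamma w) - ((Real.log (-w.im) : ℂ) + (Real.pi / 2 : ℂ) * I) := by
    have e1 : (starRingEnd ℂ) (Real.pi / 2 : ℂ) = (Real.pi / 2 : ℂ) := by
      have : (Real.pi / 2 : ℂ) = ((Real.pi / 2 : ℝ) : ℂ) := by push_cast; ring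
      rw [this, Complex.conj_ofReal]
    rw [map_sub, map_sub, map_mul, Complex.conj_ofReal, Complex.conj_I, e1]
    ring
  rw [← e, Complex.norm_conj] at h
  exact h

/-- the logarithmic derivative of the Gamma factor in the upper half plane -/
lemma gr_close {z : ℂ} (h0 : -1 / 2 ≤ z.re) (h2 : z.re ≤ 6) (h1 : 24 ≤ z.im) :
    ‖logDeriv Gammaℝ z - (-(Real.log Real.pi : ℂ) / 2 + 1 / 2 * ((Real.log (z.im / 2) : ℂ) +
      (Real.pi / 2 : ℂ) * I))‖ ≤ 14 / z.im := by
  have hre : (z / 2).re = z.re / 2 := by simp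
  have him : (z / 2).im = z.im / 2 := by simp
  have h := dg_close (w := z / 2) (by rw [hre]; linarith) (by rw [hre]; linarith) (by rw [him]; linarith)
  rw [him] at h
  rw [logDeriv_Gammaℝ (by linarith : z.im ≠ 0)]
  have e : -(Real.log Real.pi : ℂ) / 2 + 1 / 2 * logDeriv Gamma (z / 2) -
      (-(Real.log Real.pi : ℂ) / 2 + 1 / 2 * ((Real.log (z.im / 2) : ℂ) + (Real.pi / 2 : ℂ) * I)) =
      1 / 2 * (logDeriv Gamma (z / 2) - ((Real.log (z.im / 2) : ℂ) + (Real.pi / 2 : ℂ) * I)) := by
    ring
  rw [e, norm_mul]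
  have e2 : ‖(1 / 2 : ℂ)‖ = 1 / 2 := by simp
  rw [e2]
  have hz : 0 < z.im := by linarith
  have e3 : 14 / z.im = 1 / 2 * (14 / (z.im / 2)) := by field_simp
  rw [e3]
  exact mul_le_mul_of_nonneg_left h (by norm_num)

/-- the logarithmic derivative of the Gamma factor in the lower half plane -/
lemma gr_close' {z : ℂ} (h0 : -1 / 2 ≤ z.re) (h2 : z.re ≤ 6) (h1 : z.im ≤ -24) :
    ‖logDeriv Gammaℝ z - (-(Real.log Real.pi : ℂ) / 2 + 1 / 2 * ((Real.log (-z.im / 2) : ℂ) -
      (Real.pi / 2 : ℂ) * I))‖ ≤ 14 / (-z.im) := by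
  have hre : (z / 2).re = z.re / 2 := by simp
  have him : (z / 2).im = z.im / 2 := by simp
  have h := dg_close' (w := z / 2) (by rw [hre]; linarith) (by rw [hre]; linarith) (by rw [him]; linarith)
  rw [him, ← neg_div] at h
  rw [logDeriv_Gammaℝ (by linarith : z.im ≠ 0)]
  have e : -(Real.log Real.pi : ℂ) / 2 + 1 / 2 * logDeriv Gamma (z / 2) -
      (-(Real.log Real.pi : ℂ) / 2 + 1 / 2 * ((Real.log (-z.im / 2) : ℂ) - (Real.pi / 2 : ℂ) * I)) =
      1 / 2 * (logDeriv Gamma (z / 2) - ((Real.log (-z.im / 2) : ℂ) - (Real.pi / 2 : ℂ) * I)) := by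
    ring
  rw [e, norm_mul]
  have e2 : ‖(1 / 2 : ℂ)‖ = 1 / 2 := by simp
  rw [e2]
  have hz : 0 < -z.im := by linarith
  have e3 : 14 / (-z.im) = 1 / 2 * (14 / (-z.im / 2)) := by field_simp
  rw [e3]
  exact mul_le_mul_of_nonneg_left h (by norm_num)

/-- the identity for the logarithmic derivatives -/
lemma fe_id {q : ℕ} [NeZero q] {χ : DirichletCharacter ℂ q} (hχ : χ.IsPrimitive) {s : ℂ} (h3 : 1 ≤ s.im)
    (h4 : DirichletCharacter.LFunction χ s ≠ 0) :
    deriv (DirichletCharacter.LFunction χ) s / DirichletCharacter.LFunction χ s +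
      (starRingEnd ℂ) (deriv (DirichletCharacter.LFunction χ)
      (1 - (starRingEnd ℂ) s) / DirichletCharacter.LFunction χ (1 - (starRingEnd ℂ) s)) =
      -(Real.log q : ℂ) - logDeriv Gammaℝ (1 - s + aa χ) - logDeriv Gammaℝ (s + aa χ) := by
  have hs : s.im ≠ 0 := by linarith
  have ha : AnalyticAt ℂ (DirichletCharacter.LFunction χ) (1 - (starRingEnd ℂ) s) :=
    analyticAt_L (ne_one_of_im (by rwa [im_osc]))
  have e1 : DirichletCharacter.LFunction χ =ᶠ[𝓝 s]
      fun z => XX χ z * refl (DirichletCharacter.LFunction χ) z := by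
    filter_upwards [eventually_im_ne hs] with z hz
    exact func_eq hχ hz
  have hr : refl (DirichletCharacter.LFunction χ) s ≠ 0 := by
    intro h
    apply h4
    rw [func_eq hχ hs, h, mul_zero]
  have e2 : logDeriv (DirichletCharacter.LFunction χ) s =
      logDeriv (XX χ) s + logDeriv (refl (DirichletCharacter.LFunction χ)) s := by
    rw [(logDeriv_congr_nhds e1).eq_of_nhds]
    exact logDeriv_mul s (XX_ne_zero hχ hs) hr (analyticAt_XX hs).differentiableAt
      (analyticAt_refl ha).differentiableAt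
  rw [logDeriv_refl ha.differentiableAt, logDeriv_XX hχ hs] at e2
  change logDeriv (DirichletCharacter.LFunction χ) s +
    (starRingEnd ℂ) (logDeriv (DirichletCharacter.LFunction χ) (1 - (starRingEnd ℂ) s)) = _
  rw [e2]
  ring

end REFL

open REFL H370.DL in
/-- (REF) -/
theorem t_REF : S_REF := by
  intro q _ χ hχ
  obtain ⟨C, hC⟩ := L_left hχ
  have hq : (0 : ℝ) < q := by exact_mod_cast NeZero.pos q
  refine ⟨max 28 (24 * (|C| + |Real.log (q / (2 * Real.pi))|)), fun s h1 h2 h3 h4 => ?_⟩
  have hs : 0 < s.im := by linarith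
  have hlog : Real.log (q * s.im / (2 * Real.pi)) = Real.log (q / (2 * Real.pi)) + Real.log s.im := by
    rw [← Real.log_mul (by positivity) hs.ne']
    congr 1
    ring
  rcases le_total s.im 24 with hsm | hbg
  · -- small ordinates
    have h5 := hC s h1 h2 h3 h4
    have e : deriv (DirichletCharacter.LFunction χ) s / DirichletCharacter.LFunction χ s +
        (Real.log (q * s.im / (2 * Real.pi)) : ℝ) +
        (starRingEnd ℂ) (deriv (DirichletCharacter.LFunction χ) (1 - (starRingEnd ℂ) s) /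
          DirichletCharacter.LFunction χ (1 - (starRingEnd ℂ) s)) =
        (deriv (DirichletCharacter.LFunction χ) s / DirichletCharacter.LFunction χ s +
          Real.log s.im + (starRingEnd ℂ) (deriv (DirichletCharacter.LFunction χ)
          (1 - (starRingEnd ℂ) s) / DirichletCharacter.LFunction χ (1 - (starRingEnd ℂ) s))) +
        (Real.log (q / (2 * Real.pi)) : ℂ) := by
      rw [hlog]
      push_cast
      ring
    rw [e]
    refine (norm_add_le _ _).trans ?_
    rw [Complex.norm_real, Real.norm_eq_abs]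
    refine (add_le_add (h5.trans (le_abs_self C)) le_rfl).trans ?_
    rw [le_div_iff₀ hs]
    refine le_trans ?_ (le_max_right _ _)
    rw [mul_comm]
    exact mul_le_mul_of_nonneg_right hsm (by positivity)
  · -- large ordinates
    have ha0 : 0 ≤ (aa χ).re ∧ (aa χ).re ≤ 1 := by
      unfold aa
      split_ifs <;> simp
    have i1 : (1 - s + aa χ).im = -s.im := by simp [aa_im]
    have i2 : (s + aa χ).im = s.im := by simp [aa_im]
    have r1 : (1 - s + aa χ).re = 1 - s.re + (aa χ).re := by simp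
    have r2 : (s + aa χ).re = s.re + (aa χ).re := by simp
    have b1 := gr_close' (z := 1 - s + aa χ) (by rw [r1]; linarith [ha0.1]) (by rw [r1]; linarith [ha0.2])
      (by rw [i1]; linarith)
    have b2 := gr_close (z := s + aa χ) (by rw [r2]; linarith [ha0.1]) (by rw [r2]; linarith [ha0.2])
      (by rw [i2]; linarith)
    rw [i1, neg_neg] at b1
    rw [i2] at b2
    have hid := fe_id hχ h3 h4
    have hl1 : Real.log (q * s.im / (2 * Real.pi)) =
        Real.log q + Real.log (s.im / 2) - Real.log Real.pi := by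
      rw [← Real.log_mul hq.ne' (by positivity), ← Real.log_div (by positivity) Real.pi_ne_zero]
      congr 1
      field_simp
    have e : deriv (DirichletCharacter.LFunction χ) s / DirichletCharacter.LFunction χ s +
        (Real.log (q * s.im / (2 * Real.pi)) : ℝ) +
        (starRingEnd ℂ) (deriv (DirichletCharacter.LFunction χ) (1 - (starRingEnd ℂ) s) /
          DirichletCharacter.LFunction χ (1 - (starRingEnd ℂ) s)) =
        -(logDeriv Gammaℝ (1 - s + aa χ) - (-(Real.log Real.pi : ℂ) / 2 + 1 / 2 * ((Real.log (s.im / 2) : ℂ) -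
          (Real.pi / 2 : ℂ) * I))) -
        (logDeriv Gammaℝ (s + aa χ) - (-(Real.log Real.pi : ℂ) / 2 + 1 / 2 * ((Real.log (s.im / 2) : ℂ) +
          (Real.pi / 2 : ℂ) * I))) := by
      rw [hl1, Complex.ofReal_sub, Complex.ofReal_add]
      linear_combination hid
    rw [e]
    refine (norm_sub_le _ _).trans ?_
    rw [norm_neg]
    refine (add_le_add b1 b2).trans ?_
    rw [← add_div]
    apply div_le_div_of_nonneg_right _ hs.le
    refine le_trans ?_ (le_max_left _ _)
    norm_num

end Pool.Agent.H203.MC
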