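import Pool.Agent.H203.MC.Defs

set_option autoImplicit false

/-! Leaf RN: the random completely multiplicative function. -/

open Complex Filter Topology Set MeasureTheory

namespace Pool.Agent.H203.MC

namespace RNL

theorem fsum (n : ℕ) (ω : Om) (s : Finset ℕ) (hs : n.factorization.support ⊆ s) :
    (n.factorization.sum fun p k => (k : ℝ) * (ω p : ℝ)) =
      ∑ p ∈ s, (n.factorization p : ℝ) * (ω p : ℝ) :=
  Finsupp.sum_of_support_subset _ hs _ (by simp)

theorem rn_prod (n : ℕ) (ω : Om) (s : Finset ℕ) (hs : n.factorization.support ⊆ s) :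
    rn ω n = ∏ p ∈ s, cexp (-(2 * Real.pi * (n.factorization p : ℂ) * (ω p : ℝ)) * I) := by
  unfold rn
  rw [fsum n ω s hs, ← Complex.exp_sum]
  congr 1
  push_cast
  rw [Finset.mul_sum, ← Finset.sum_mul, ← neg_mul, Finset.sum_neg_distrib]
  refine congrArg (fun z : ℂ => -z * I) (Finset.sum_congr rfl fun p _ => ?_)
  ring

theorem meas (n : ℕ) : Measurable fun ω : Om => rn ω n := by
  unfold rn
  have h1 : Measurable fun ω : Om => (n.factorization.sum fun p k => (k : ℝ) * (ω p : ℝ)) := by
    unfold Finsupp.sum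
    refine Finset.measurable_sum _ fun p _ => ?_
    exact measurable_const.mul (measurable_subtype_coe.comp (measurable_pi_apply p))
  have h2 : Measurable fun ω : Om => (2 * Real.pi * n.factorization.sum fun p k => (k : ℝ) * (ω p : ℝ)) :=
    measurable_const.mul h1
  exact Complex.measurable_exp.comp ((Complex.measurable_ofReal.comp h2).mul_const _).neg

theorem norm_one (ω : Om) (n : ℕ) : ‖rn ω n‖ = 1 := by
  unfold rn
  rw [← neg_mul, ← Complex.ofReal_neg, Complex.norm_exp_ofReal_mul_I]

theorem mult (ω : Om) (a b : ℕ) (ha : a ≠ 0) (hb : b ≠ 0) : rn ω (a * b) = rn ω a * rn ω b := by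
  unfold rn
  rw [← Complex.exp_add, Nat.factorization_mul ha hb, Finsupp.sum_add_index']
  · congr 1
    push_cast
    ring
  · intro p; simp
  · intro p k l; push_cast; ring

/-- the integral over one coordinate -/
theorem one_int (c : ℤ) : ∫ x : unitInterval, cexp (-(2 * Real.pi * (c : ℂ) * ((x : ℝ) : ℂ)) * I) =
    if c = 0 then 1 else 0 := by
  split_ifs with h
  · subst h
    simp
  · have h1 : ∫ x : unitInterval, cexp (-(2 * Real.pi * (c : ℂ) * ((x : ℝ) : ℂ)) * I) =
        ∫ x in unitInterval, cexp (-(2 * Real.pi * (c : ℂ) * ((x : ℝ) : ℂ)) * I) :=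
      integral_subtype measurableSet_Icc (fun x : ℝ => cexp (-(2 * Real.pi * (c : ℂ) * (x : ℂ)) * I))
    rw [h1, unitInterval, integral_Icc_eq_integral_Ioc, ← intervalIntegral.integral_of_le zero_le_one]
    have hc : (-(2 * Real.pi * (c : ℂ)) * I) ≠ 0 := by
      refine mul_ne_zero (neg_ne_zero.mpr (mul_ne_zero (mul_ne_zero two_ne_zero ?_) ?_)) I_ne_zero
      · exact_mod_cast Real.pi_ne_zero
      · exact_mod_cast h
    have h2 : (fun x : ℝ => cexp (-(2 * Real.pi * (c : ℂ) * (x : ℂ)) * I)) =
        fun x : ℝ => cexp ((-(2 * Real.pi * (c : ℂ)) * I) * x) := by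
      funext x; congr 1; ring
    rw [h2, integral_exp_mul_complex hc]
    have h3 : cexp ((-(2 * Real.pi * (c : ℂ)) * I) * ((1 : ℝ) : ℂ)) = 1 := by
      have : (-(2 * Real.pi * (c : ℂ)) * I) * ((1 : ℝ) : ℂ) = ((-c : ℤ) : ℂ) * (2 * Real.pi * I) := by
        push_cast; ring
      rw [this]
      exact Complex.exp_int_mul_two_pi_mul_I _
    rw [h3]
    simp

theorem prod_int (s : Finset ℕ) (f : ℕ → unitInterval → ℂ) (hf : ∀ p, Continuous (f p)) :
    ∫ ω, ∏ p ∈ s, f p (ω p) ∂PM = ∏ p ∈ s, ∫ x : unitInterval, f p x := by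
  have h1 : ∫ ω, ∏ p ∈ s, f p (ω p) ∂PM = ∫ y, ∏ i : s, f i (y i)
      ∂(Measure.infinitePi fun _ : ℕ => (volume : Measure unitInterval)).map s.restrict := by
    rw [integral_map]
    · refine integral_congr_ae (Eventually.of_forall fun ω => ?_)
      simp only [Finset.restrict]
      exact (Finset.prod_coe_sort s fun p => f p (ω p)).symm
    · exact (Finset.measurable_restrict s).aemeasurable
    · refine Continuous.aestronglyMeasurable ?_
      exact continuous_finsetProd _ fun i _ => (hf i).comp (continuous_apply i)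
  rw [h1, Measure.infinitePi_map_restrict,
    integral_fintype_prod_eq_prod (fun i : s => f i)]
  exact Finset.prod_coe_sort s fun p => ∫ x : unitInterval, f p x

theorem cov (a b : ℕ) (ha : a ≠ 0) (hb : b ≠ 0) :
    ∫ ω, rn ω a * (starRingEnd ℂ) (rn ω b) ∂PM = if a = b then 1 else 0 := by
  set s : Finset ℕ := a.factorization.support ∪ b.factorization.support with hs
  have h1 : ∀ ω : Om, rn ω a * (starRingEnd ℂ) (rn ω b) =
      ∏ p ∈ s, cexp (-(2 * Real.pi * ((((a.factorization p : ℤ) - (b.factorization p : ℤ)) : ℤ) : ℂ) *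
        ((ω p : ℝ) : ℂ)) * I) := by
    intro ω
    rw [rn_prod a ω s Finset.subset_union_left, rn_prod b ω s Finset.subset_union_right, map_prod,
      ← Finset.prod_mul_distrib]
    refine Finset.prod_congr rfl fun p _ => ?_
    rw [← Complex.exp_conj, ← Complex.exp_add]
    congr 1
    simp only [map_mul, map_neg, Complex.conj_ofReal, Complex.conj_I, map_natCast, map_ofNat]
    push_cast
    ring
  simp only [h1]
  rw [prod_int s (fun p x => cexp (-(2 * Real.pi *
    ((((a.factorization p : ℤ) - (b.factorization p : ℤ)) : ℤ) : ℂ) * ((x : ℝ) : ℂ)) * I))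
    (fun p => by fun_prop)]
  simp only [one_int]
  split_ifs with hab
  · subst hab
    simp
  · obtain ⟨p, hp⟩ : ∃ p, a.factorization p ≠ b.factorization p := by
      by_contra hcon
      push Not at hcon
      exact hab (Nat.eq_of_factorization_eq ha hb hcon)
    have hps : p ∈ s := by
      rw [hs, Finset.mem_union, Finsupp.mem_support_iff, Finsupp.mem_support_iff]
      by_contra hcon
      push Not at hcon
      exact hp (hcon.1.trans hcon.2.symm)
    refine Finset.prod_eq_zero hps ?_
    rw [if_neg]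
    intro h
    exact hp (by omega)

end RNL

theorem t_RN : S_RN := ⟨RNL.meas, RNL.norm_one, RNL.mult, RNL.cov⟩

end Pool.Agent.H203.MC
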