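import Pool.Agent.H203.MC.Defs
import Pool.Agent.H203.ME.VAR

set_option autoImplicit false

open Complex Filter Topology Set MeasureTheory

namespace Pool.Agent.H203.MC

open Pool.Agent.H203.ME (ee gR WR om FF KF C2c)

namespace TLL

theorem FF_sq {F : ℝ → ℝ} (hF : ContDiff ℝ 2 F) (hs : HasCompactSupport F) (ξ : ℝ) :
    ξ ^ 2 * ‖FF F ξ‖ ≤ ∫ x : ℝ, |deriv (deriv F) x| := by
  have h1 : ContDiff ℝ 1 F := hF.of_le (by norm_num)
  have h2 : ContDiff ℝ 1 (deriv F) := by
    have := hF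
    rw [show (2 : WithTop ℕ∞) = 1 + 1 by norm_num] at this
    exact (contDiff_succ_iff_deriv.1 this).2.2
  have h3 := ME.VARL.FF_der h1 hs ξ
  have h4 := ME.VARL.FF_der h2 hs.deriv ξ
  have h5 : FF (deriv (deriv F)) ξ = -(ξ : ℂ) ^ 2 * FF F ξ := by
    rw [h4, h3]
    linear_combination ((ξ : ℂ) ^ 2 * FF F ξ) * I_sq
  have h6 : ‖FF (deriv (deriv F)) ξ‖ = ξ ^ 2 * ‖FF F ξ‖ := by
    rw [h5, norm_mul, norm_neg, norm_pow, Complex.norm_real, Real.norm_eq_abs, sq_abs]
  have h7 : ‖FF (deriv (deriv F)) ξ‖ ≤ ∫ x : ℝ, |deriv (deriv F) x| := ME.VARL.le_l1 ξ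
  rw [h6] at h7
  exact h7

theorem step (x y : ℝ) (hx : 0 < x) (hxy : x ≤ y) :
    10 * x * (1 / x ^ 3 - 1 / y ^ 3) ≤ 15 * (1 / x ^ 2 - 1 / y ^ 2) := by
  have hy : 0 < y := lt_of_lt_of_le hx hxy
  have h : 15 * (1 / x ^ 2 - 1 / y ^ 2) - 10 * x * (1 / x ^ 3 - 1 / y ^ 3) =
      5 * (y - x) ^ 2 * (y + 2 * x) / (x ^ 2 * y ^ 3) := by
    field_simp
    ring
  have h2 : 0 ≤ 5 * (y - x) ^ 2 * (y + 2 * x) / (x ^ 2 * y ^ 3) := by positivity
  linarith

theorem part (m : ℕ) :
    ∑ k ∈ Finset.Icc 2 (m + 2), ArithmeticFunction.vonMangoldt k / k * (1 / Real.log k ^ 3) ≤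
      (∑ k ∈ Finset.Icc 1 (m + 2), ArithmeticFunction.vonMangoldt k / k) * (1 / Real.log ((m + 2 : ℕ) : ℝ) ^ 3) +
        15 * (1 / Real.log 2 ^ 2 - 1 / Real.log ((m + 2 : ℕ) : ℝ) ^ 2) := by
  induction m with
  | zero =>
    have h1 : Finset.Icc 2 (0 + 2) = {2} := by decide
    have h2 : Finset.Icc 1 (0 + 2) = {1, 2} := by decide
    rw [h1, h2, Finset.sum_singleton, Finset.sum_pair (by norm_num)]
    simp
  | succ m ih =>
    have hM : ∑ k ∈ Finset.Icc 1 (m + 2), ArithmeticFunction.vonMangoldt k / k ≤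
        10 * Real.log ((m + 2 : ℕ) : ℝ) := by
      have h1 := (abs_le.1 (ME.VARL.mert (m + 2) (by omega))).2
      have h2 : Real.log 2 ≤ Real.log ((m + 2 : ℕ) : ℝ) := by
        apply Real.log_le_log (by norm_num)
        push_cast
        have : (0 : ℝ) ≤ m := Nat.cast_nonneg m
        linarith
      have h3 := Real.log_two_gt_d9
      linarith
    have hx : 0 < Real.log ((m + 2 : ℕ) : ℝ) := Real.log_pos (by
      push_cast
      have : (0 : ℝ) ≤ m := Nat.cast_nonneg m
      linarith)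
    have hxy : Real.log ((m + 2 : ℕ) : ℝ) ≤ Real.log ((m + 1 + 2 : ℕ) : ℝ) := by
      apply Real.log_le_log
      · positivity
      · push_cast
        linarith
    have hy : 0 < Real.log ((m + 1 + 2 : ℕ) : ℝ) := lt_of_lt_of_le hx hxy
    have hs := step _ _ hx hxy
    have hd : 0 ≤ 1 / Real.log ((m + 2 : ℕ) : ℝ) ^ 3 - 1 / Real.log ((m + 1 + 2 : ℕ) : ℝ) ^ 3 := by
      rw [sub_nonneg]
      exact one_div_le_one_div_of_le (by positivity) (pow_le_pow_left₀ hx.le hxy 3)
    have hmul := mul_le_mul_of_nonneg_right hM hd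
    have e1 : Finset.Icc 2 (m + 1 + 2) = insert (m + 1 + 2) (Finset.Icc 2 (m + 2)) := by
      ext k
      simp only [Finset.mem_Icc, Finset.mem_insert]
      omega
    have e2 : Finset.Icc 1 (m + 1 + 2) = insert (m + 1 + 2) (Finset.Icc 1 (m + 2)) := by
      ext k
      simp only [Finset.mem_Icc, Finset.mem_insert]
      omega
    rw [e1, e2, Finset.sum_insert (by simp), Finset.sum_insert (by simp)]
    nlinarith

theorem part_le (N : ℕ) :
    ∑ k ∈ Finset.Icc 2 N, ArithmeticFunction.vonMangoldt k / k * (1 / Real.log k ^ 3) ≤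
      25 / Real.log 2 ^ 2 := by
  have hl2 : 0 < Real.log 2 := Real.log_pos (by norm_num)
  rcases Nat.lt_or_ge N 2 with h | h
  · rw [Finset.Icc_eq_empty (by omega), Finset.sum_empty]
    positivity
  · obtain ⟨m, rfl⟩ : ∃ m, N = m + 2 := ⟨N - 2, by omega⟩
    have h0 := part m
    have h2 : Real.log 2 ≤ Real.log ((m + 2 : ℕ) : ℝ) := by
      apply Real.log_le_log (by norm_num)
      push_cast
      have : (0 : ℝ) ≤ m := Nat.cast_nonneg m
      linarith
    have hM : ∑ k ∈ Finset.Icc 1 (m + 2), ArithmeticFunction.vonMangoldt k / k ≤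
        10 * Real.log ((m + 2 : ℕ) : ℝ) := by
      have h1 := (abs_le.1 (ME.VARL.mert (m + 2) (by omega))).2
      have h3 := Real.log_two_gt_d9
      linarith
    have hx : 0 < Real.log ((m + 2 : ℕ) : ℝ) := lt_of_lt_of_le hl2 h2
    have hmul := mul_le_mul_of_nonneg_right hM (show 0 ≤ 1 / Real.log ((m + 2 : ℕ) : ℝ) ^ 3 by positivity)
    have e : 10 * Real.log ((m + 2 : ℕ) : ℝ) * (1 / Real.log ((m + 2 : ℕ) : ℝ) ^ 3) =
        10 * (1 / Real.log ((m + 2 : ℕ) : ℝ) ^ 2) := by
      field_simp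
    have h4 : 1 / Real.log ((m + 2 : ℕ) : ℝ) ^ 2 ≤ 1 / Real.log 2 ^ 2 :=
      one_div_le_one_div_of_le (by positivity) (pow_le_pow_left₀ hl2.le h2 2)
    have h5 : 0 ≤ 1 / Real.log ((m + 2 : ℕ) : ℝ) ^ 2 := by positivity
    have h6 : (25 : ℝ) / Real.log 2 ^ 2 = 25 * (1 / Real.log 2 ^ 2) := by ring
    rw [h6]
    rw [e] at hmul
    linarith

theorem summ : Summable fun k : ℕ => ArithmeticFunction.vonMangoldt k / k * (1 / Real.log k ^ 3) := by
  refine summable_of_sum_range_le (c := 25 / Real.log 2 ^ 2) (fun k => ?_) (fun N => ?_)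
  · have h1 : 0 ≤ ArithmeticFunction.vonMangoldt k := ArithmeticFunction.vonMangoldt_nonneg
    have h2 : 0 ≤ Real.log k := Real.log_natCast_nonneg k
    positivity
  · refine le_trans ?_ (part_le N)
    have hz : ∀ k ∈ Finset.range N, k ∉ (Finset.range N).filter (fun k => 2 ≤ k) →
        ArithmeticFunction.vonMangoldt k / k * (1 / Real.log k ^ 3) = 0 := by
      intro k hk h
      have hk2 : k < 2 := by
        by_contra hc
        exact h (Finset.mem_filter.2 ⟨hk, by omega⟩)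
      interval_cases k <;> simp
    rw [← Finset.sum_subset (Finset.filter_subset (fun k => 2 ≤ k) _) hz]
    refine Finset.sum_le_sum_of_subset_of_nonneg (fun k hk => ?_) (fun k _ _ => ?_)
    · rw [Finset.mem_filter, Finset.mem_range] at hk
      exact Finset.mem_Icc.2 ⟨hk.2, hk.1.le⟩
    · have h1 : 0 ≤ ArithmeticFunction.vonMangoldt k := ArithmeticFunction.vonMangoldt_nonneg
      have h2 : 0 ≤ Real.log k := Real.log_natCast_nonneg k
      positivity

end TLL

theorem t_TL : S_TL := by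
  intro F hF hs
  set B : ℝ := ∫ x : ℝ, |deriv (deriv F) x| with hB
  have hB0 : 0 ≤ B := integral_nonneg fun x => abs_nonneg _
  refine Summable.of_nonneg_of_le (fun n => by positivity) (fun n => ?_) (TLL.summ.mul_left (B ^ 2))
  rcases Nat.lt_or_ge n 2 with h | h
  · have h0 : ArithmeticFunction.vonMangoldt n = 0 := by
      interval_cases n <;> simp
    rw [h0]
    simp
  · have hn : (2 : ℝ) ≤ n := by exact_mod_cast h
    have hl : 0 < Real.log n := Real.log_pos (by linarith)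
    have h1 := TLL.FF_sq hF hs (Real.log n)
    rw [← hB] at h1
    have h2 : ‖FF F (Real.log n)‖ ≤ B / Real.log n ^ 2 := by
      rw [le_div_iff₀ (by positivity)]
      linarith
    have h3 : ArithmeticFunction.vonMangoldt n ≤ Real.log n := ArithmeticFunction.vonMangoldt_le_log
    have h4 : 0 ≤ ArithmeticFunction.vonMangoldt n := ArithmeticFunction.vonMangoldt_nonneg
    have h5 : ‖FF F (Real.log n)‖ ^ 2 ≤ (B / Real.log n ^ 2) ^ 2 := pow_le_pow_left₀ (norm_nonneg _) h2 2
    calc (ArithmeticFunction.vonMangoldt n) ^ 2 / n * ‖FF F (Real.log n)‖ ^ 2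
        ≤ (ArithmeticFunction.vonMangoldt n * Real.log n) / n * (B / Real.log n ^ 2) ^ 2 := by
          apply mul_le_mul _ h5 (by positivity) (by positivity)
          apply div_le_div_of_nonneg_right _ (by positivity)
          rw [sq]
          exact mul_le_mul_of_nonneg_left h3 h4
      _ = B ^ 2 * (ArithmeticFunction.vonMangoldt n / n * (1 / Real.log n ^ 3)) := by
          field_simp

end Pool.Agent.H203.MC

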