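import Pool.Agent.H203.GE.ALLM
import Pool.Agent.H203.MC.FIN2
import Pool.Agent.H203.MC.REF
import Pool.Agent.H203.MC.EF3
import Pool.Agent.H203.MC.EFW3
import Pool.Agent.H203.MC.C3
import Pool.Agent.H203.MC.B3
import Pool.Agent.H203.MC.AM
import Pool.Agent.H203.MC.TL
import Pool.Agent.H203.MC.PM3
import Pool.Agent.H203.MC.ML
import Pool.Agent.H203.MC.MM
import Pool.Agent.H203.MC.RN
import Pool.Agent.H203.MC.EQD
import Pool.Agent.H203.MC.VR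
import Pool.Agent.H203.MC.HY
import Pool.Agent.H203.MC.GX
import Pool.Agent.H203.MC.AS
import Pool.Agent.H203.MC.IN

set_option autoImplicit false

open Complex Filter Topology Set MeasureTheory

namespace Pool.Agent.H203.MC

theorem p_B3 : S_B3 := t_B3 t_C3
theorem p_EFW3 : S_EFW3 := t_EFW3 t_EF3
theorem p_AM : S_AM := t_AM p_EFW3 p_B3 t_C3
theorem p_PM3 : S_PM3 := t_PM3 t_C3 t_TL p_B3
theorem p_ML : S_ML := t_ML p_AM p_PM3 p_B3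
theorem p_MM : S_MM := t_MM GE.p_BMI
theorem p_EQD : S_EQD := t_EQD t_RN
theorem p_VR : S_VR := t_VR t_RN
theorem p_HY : S_HY := t_HY t_RN t_TL
theorem p_GX : S_GX := t_GX t_RN p_VR t_TL p_HY
theorem p_IN : S_IN := t_IN t_TL

/-- **the limit theorem at fixed distances** -/
theorem final1 (k : ℕ) (q : Fin k → ℕ) (hq : ∀ j, NeZero (q j)) (χ : (j : Fin k) → DirichletCharacter ℂ (q j))
    (hχ : ∀ j, (χ j).IsPrimitive) (F : Fin k → ℝ → ℝ) (hFd : ∀ j, ContDiff ℝ 2 (F j))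
    (hFs : ∀ j, HasCompactSupport (F j)) :
    ∃ X : Fin k → Om → ℝ, (∀ j, Measurable (X j)) ∧ (∀ (j : Fin k) (m : ℕ), Integrable (fun ω => |X j ω| ^ m) PM) ∧
      (∀ j, Tendsto (fun N : ℕ => ∫ ω, (X j ω - -Zs (fun n : ℕ => χ j n) (F j) N (rn ω)) ^ 2 ∂PM) atTop (𝓝 0)) ∧
      (∀ i j, Tendsto (fun N : ℕ => 1 / 2 * ∑ n ∈ Finset.Icc 1 N,
          (co (fun n : ℕ => χ i n) (F i) n * (starRingEnd ℂ) (co (fun n : ℕ => χ j n) (F j) n)).re) atTop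
        (𝓝 (∫ ω, X i ω * X j ω ∂PM))) ∧
      ∀ Φ : (Fin k → ℝ) → ℝ, Continuous Φ → (∃ (C : ℝ) (m : ℕ), ∀ x, |Φ x| ≤ C * (1 + ‖x‖) ^ m) →
        Tendsto (fun T : ℝ => 1 / T * ∫ t in T..(2 * T), Φ (fun j =>
            XM (@DirichletCharacter.LFunction (q j) (hq j) (χ j)) (q j) (F j) t)) atTop
          (𝓝 (∫ ω, Φ (fun j => X j ω) ∂PM)) :=
  fin1 t_REF p_ML p_MM t_RN p_EQD p_VR p_GX t_AS k q hq χ hχ F hFd hFs

theorem final2 (q : ℕ) [hq : NeZero q] (χ : DirichletCharacter ℂ q) (hχ : χ.IsPrimitive) (F : ℝ → ℝ)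
    (hFd : ContDiff ℝ 2 F) (hFs : HasCompactSupport F) {ε : ℝ} (hε : 0 < ε) :
    ∃ F' : ℝ → ℝ, ContDiff ℝ 2 F' ∧ HasCompactSupport F' ∧ ∀ᶠ T : ℝ in atTop, 1 / T * ∫ t in T..(2 * T),
      (XM (DirichletCharacter.LFunction χ) q F t -
        XM (DirichletCharacter.LFunction (1 : DirichletCharacter ℂ 1)) 1 F' t) ^ 2 ≤ ε :=
  fin2 t_REF p_ML p_MM t_RN p_EQD p_VR p_GX t_AS p_IN q χ hχ F hFd hFs hε

end Pool.Agent.H203.MC
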