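import Pool.Agent.H203.GE.Defs4
import Mathlib.Probability.ProductMeasure
import Mathlib.MeasureTheory.Constructions.UnitInterval

set_option autoImplicit false

/-! The zeros of all Dirichlet L-functions at fixed distances (project MC): definitions and statements of the parts. -/

open Complex Filter Topology Set MeasureTheory

namespace Pool.Agent.H203.MC

open Pool.Agent.H203.ME (ee gR WR om FF KF C2c)
open Pool.Agent.H203.GE (Lf ZG XG)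

/-- the functional equation in logarithmic form, with the conductor `q` -/
def FE (G : ℂ → ℂ) (q : ℝ) : Prop := ∃ C : ℝ, ∀ s : ℂ, -1 / 2 ≤ s.re → s.re ≤ 1 / 2 → 1 ≤ s.im → G s ≠ 0 →
  ‖deriv G s / G s + (Real.log (q * s.im / (2 * Real.pi)) : ℝ) +
    (starRingEnd ℂ) (deriv G (1 - (starRingEnd ℂ) s) / G (1 - (starRingEnd ℂ) s))‖ ≤ C / s.im

/-- the linear statistic of the ordinates, centred by the exact local density `log(q t / 2π) / 2π` -/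
noncomputable def XM (G : ℂ → ℂ) (q : ℝ) (F : ℝ → ℝ) (t : ℝ) : ℝ :=
  (∑ᶠ s ∈ ZG G, (H370.mult G s : ℝ) * F (s.im - t)) - Real.log (q * t / (2 * Real.pi)) / (2 * Real.pi) * ∫ x : ℝ, F x

/-- the reflected prime side (compare `H370.PP`) -/
noncomputable def PQ (a : ℕ → ℂ) (u t : ℝ) : ℂ :=
  ∑' n : ℕ, (starRingEnd ℂ) (a n) * (Real.sqrt n : ℂ)⁻¹ * cexp (I * t * (u + Real.log n)) *
    Real.exp (-(u + Real.log n) ^ 2 / 2)

/-- the weight of the prime powers in the exact formula (compare `ME.cR`, the integral over `[0, R]`) -/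
noncomputable def c3 (R x : ℝ) : ℝ := ∫ u in (-R)..R, gR R u * Real.exp (-(u - x) ^ 2 / 2)

/-- the prime side for the kernel (compare `GE.PG`) -/
noncomputable def P3 (u : ℕ → ℂ) (R t : ℝ) : ℝ := 2 / Real.sqrt (2 * Real.pi) *
  (∑' n : ℕ, ((ArithmeticFunction.vonMangoldt n / Real.sqrt n * c3 R (Real.log n) : ℝ) : ℂ) * (u n * ee n t)).re

/-- the prime side for the test function `F` (compare `GE.BG`) -/
noncomputable def B3 (u : ℕ → ℂ) (F : ℝ → ℝ) (R t : ℝ) : ℝ := 2 / Real.sqrt (2 * Real.pi) *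
  (∑' n : ℕ, ((ArithmeticFunction.vonMangoldt n / Real.sqrt n * c3 R (Real.log n) : ℝ) : ℂ) *
    FF F (Real.log n) * (u n * ee n t)).re

/-- the sum over the prime powers up to `N`, as a function of a sequence `x` (for `x n = n^{-it}` or a random sequence) -/
noncomputable def Zs (u : ℕ → ℂ) (F : ℝ → ℝ) (N : ℕ) (x : ℕ → ℂ) : ℝ :=
  (∑ n ∈ Finset.Icc 1 N, ((1 / Real.pi * (ArithmeticFunction.vonMangoldt n / Real.sqrt n) : ℝ) : ℂ) *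
    FF F (Real.log n) * (u n * x n)).re

/-- the probability space of the random phases -/
abbrev Om := ℕ → unitInterval

/-- independent uniform phases -/
noncomputable def PM : Measure Om := Measure.infinitePi fun _ : ℕ => (volume : Measure unitInterval)

/-- the random completely multiplicative function (Steinhaus) -/
noncomputable def rn (ω : Om) (n : ℕ) : ℂ :=
  cexp (-(((2 * Real.pi * n.factorization.sum fun p k => (k : ℝ) * (ω p : ℝ) : ℝ) : ℂ) * I))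

/-! ### the statements of the parts -/

/-- (REF) Proof.  Pool/Graph/R_seed8/H370R2/DirGood.lean: `H370...logDeriv_XX` (`logDeriv (XX χ) s = -log q - logDeriv Γ_ℝ(1-s+a) -
logDeriv Γ_ℝ(s+a)`), `logDeriv_Gammaℝ` (`= -(log π)/2 + 1/2 logDeriv Gamma (z/2)`), `L_left` (this statement with `log s.im` and a
bounded error: copy its proof).  New: `‖logDeriv Gamma w - log w‖ ≤ C/|w.im|` for `-1/4 ≤ w.re ≤ 3`, `|w.im| ≥ 1/2`, from
`H370.DG.logDeriv_Gamma'` (Digamma.lean): `logDeriv Gamma w = log(w+2) - 1/w - 1/(w+1) + ∑' er n w`, the terms of the series are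
`O(1/((n+1)² + |w|²))`, its sum is `O(1/|w|)` (and `digamma_apply_add_one` for `w.re ≤ 0`).  Then
`(log((s+a)/2) + log((1-s+a)/2))/2 = log(s.im/2) + O(1/s.im)` (the arguments are `±π/2 + O(1/s.im)`), so the sum of the three logarithms is
`log q - log π + log(s.im/2) = log(q s.im/2π)`. -/
def S_REF : Prop := ∀ (q : ℕ) [NeZero q] (χ : DirichletCharacter ℂ q), χ.IsPrimitive →
  FE (DirichletCharacter.LFunction χ) q

/-- (EF3) exact version of `H370.A2.ef_known` (Pool/Graph/R_seed8/H345R2/A2/EFa.lean: copy the proof of `ef_of`).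
On the left side `G'/G(-1/2+iy) = -log(q y/2π) + conj(DD a (3/2+iy)) + E(y)`, `‖E y‖ ≤ C/y` by `FE`.  The integral of
`conj(DD a (3/2+iy)) hh(-1/2+iy)` over the line is `√(2π) PQ a u t` (termwise: `∫ e^{iv(w-1)} e^{-v²/2+1/2} dv = √(2π) e^{w - w²/2}`,
`w = u + log n`, as in `PP_integral`), `|log(q y/2π) - log(q t/2π)| ≤ 2|y-t|/T` on `[U1, U2]`, `∫ |y-t| ‖hh(-1/2+iy)‖ dy ≤ C e^{-u}`.  All the
other errors in `ef_of` are at most `C L² e^{L - (L-1)²/4} ≤ C/T`, `L = log T`. -/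
def S_EF3 : Prop := ∀ (G : ℂ → ℂ) (q : ℝ) (a : ℕ → ℂ), H370.GoodL G → 0 < q → FE G q →
  (∀ n, ‖a n‖ ≤ ArithmeticFunction.vonMangoldt n) →
  (∀ s : ℂ, 1 < s.re → 1 ≤ s.im → deriv G s / G s = - ∑' n : ℕ, a n * (n : ℂ) ^ (-s)) →
  ∃ C T0 : ℝ, 0 < C ∧ 10 ≤ T0 ∧ ∀ T : ℝ, T0 ≤ T →
    ∃ U1 U2 : ℝ, T ≤ U1 ∧ U1 ≤ T + 1 ∧ 2 * T - 1 ≤ U2 ∧ U2 ≤ 2 * T ∧
      ∀ u t : ℝ, 0 ≤ u → u ≤ Real.log T → T + Real.log T ≤ t → t ≤ 2 * T - Real.log T →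
        ‖H370.AA G U1 U2 u t - (1 / Real.sqrt (2 * Real.pi) : ℝ) *
            (Real.log (q * t / (2 * Real.pi)) * cexp (I * u * t) * Real.exp (-u ^ 2 / 2) - H370.PP a u t - PQ a u t)‖ ≤
          C / Real.sqrt T

/-- (EFW3) exact version of `GE.S_EFW` (copy GE/EFW.lean).  `∑ m WR R (z - t) = ∫_0^R g_R(v) 2 Re(e^{-ivt} AA(v,t)) dv` by the symmetry of
the zeros; `2 Re(e^{-ivt} PQ a v t) = 2 Re ∑ a_n n^{-1/2} n^{-it} e^{-(v + log n)²/2}`, so the two prime sums together give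
`∫_{-R}^R g_R(v) e^{-(v - log n)²/2} dv = c3 R (log n)`; `(1/√(2π)) 2 ∫_0^R g_R e^{-v²/2} dv = om R / (2π)`; the error is at most `R C/√T`. -/
def S_EFW3 : Prop := ∀ (G : ℂ → ℂ) (u : ℕ → ℂ) (q : ℝ), Lf G u → 0 < q → FE G q →
  ∃ C T0 : ℝ, 0 < C ∧ 10 ≤ T0 ∧ ∀ T : ℝ, T0 ≤ T →
    ∃ U1 U2 : ℝ, T ≤ U1 ∧ U1 ≤ T + 1 ∧ 2 * T - 1 ≤ U2 ∧ U2 ≤ 2 * T ∧
      ∀ R t : ℝ, 1 ≤ R → R ≤ Real.log T → T + Real.log T ≤ t → t ≤ 2 * T - Real.log T →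
        ‖(∑ s ∈ H370.Zf G U1 U2, (H370.mult G s : ℂ) * WR R (H370.zz s - t)) -
          ((Real.log (q * t / (2 * Real.pi)) / (2 * Real.pi) * om R - P3 u R t : ℝ) : ℂ)‖ ≤ C / (Real.log T) ^ 2

/-- (C3) the weights.  `2/√(2π) c3 R x = (1/π) (2π)^{-1/2} ∫_{-R}^R (1 - (v/R)²)^5 e^{-(v-x)²/2} dv`; `0 ≤ 1 - (1-s)^5 ≤ 5 s` for
`0 ≤ s = (v/R)² ≤ 1` and `1 ≤ (v/R)²` for `|v| > R`, so the difference from `1/π` is at most `(5/π) (1 + x²)/R²`; for `x ≥ 2R` one has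
`(v-x)² ≥ x²/4` on `[-R, R]`. -/
def S_C3 : Prop := ∃ C : ℝ, 0 < C ∧ ∀ R x : ℝ, 1 ≤ R → 0 ≤ x → 0 ≤ c3 R x ∧ 2 / Real.sqrt (2 * Real.pi) * c3 R x ≤ 1 / Real.pi ∧
  |2 / Real.sqrt (2 * Real.pi) * c3 R x - 1 / Real.pi| ≤ C * (1 + x ^ 2) / R ^ 2 ∧
  (2 * R ≤ x → c3 R x ≤ C * R * Real.exp (-x ^ 2 / 8))

/-- (B3) compare `GE.t_BBI` (GE/BBI.lean): the same proof with `c3` instead of `cR` (the tail bound of `S_C3`). -/
def S_B3 : Prop := ∀ u : ℕ → ℂ, (∀ n, ‖u n‖ ≤ 1) → ∀ (F : ℝ → ℝ), C2c F → ∀ R : ℝ, 1 ≤ R →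
  Continuous (P3 u R) ∧ Continuous (B3 u F R) ∧ ∀ t : ℝ, ∫ s : ℝ, F s * P3 u R (t + s) = B3 u F R t

/-- (AM) approximation in mean, for one function (`C` may depend on `F`).  Compare `GE.t_APX` (GE/APX.lean, ME/APX.lean, ME/APX2.lean,
ME/APX3.lean): the same proof with `R = L/4`, (EFW3) for (EFW) and (B3) for (BBI): `∑ m KF F R (z - t) = ∫ F(s) ∑ m WR(z - t - s) ds =
(log(q t/2π)/2π) ∫F · om R - B3 + O(L^{-2})` (`|log(t+s) - log t| ≤ 2/T`, `|s| ≤ 1`), `|om R - 1| ≤ C/R²` (`ME.t_OM`), which costs `C/L`;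
the differences `KF - F` and the second differences cost `C T L · L^{-2}` (`ME.t_L1A`) and `C ∑ m y² e^{R|y|} ≤ C T/L` (`ME.t_L1B`,
`Lf.dens`) in the mean, as there. -/
def S_AM : Prop := ∀ (G : ℂ → ℂ) (u : ℕ → ℂ) (q : ℝ), Lf G u → 0 < q → FE G q → ∀ F : ℝ → ℝ, C2c F →
  ∃ C T0 : ℝ, 0 < C ∧ 10 ≤ T0 ∧ ∀ T : ℝ, T0 ≤ T → T + 2 * Real.log T ≤ 2 * T - 2 * Real.log T ∧
    ContinuousOn (XM G q F) (Icc (T + 2 * Real.log T) (2 * T - 2 * Real.log T)) ∧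
    ∫ t in (T + 2 * Real.log T)..(2 * T - 2 * Real.log T), |XM G q F t + B3 u F (Real.log T / 4) t| ≤ C * T / Real.log T

/-- (TL) `‖FF F ξ‖ ≤ C/(1+ξ²)` (VARL.FF_le, VARL.FF_le2 in ME/VAR.lean for `C2c` functions; in general by scaling, or two integrations by
parts), and `∑ Λ(n)²/n (log n)^{-4} < ∞` by dyadic blocks `log n ∈ [2^i, 2^{i+1}]` and Mertens (`VARL.mert`, `H370.nt_mertens_upper`). -/
def S_TL : Prop := ∀ F : ℝ → ℝ, ContDiff ℝ 2 F → HasCompactSupport F →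
  Summable fun n : ℕ => (ArithmeticFunction.vonMangoldt n) ^ 2 / n * ‖FF F (Real.log n)‖ ^ 2

/-- (PM3) the prime side and the finite sums.  `B3 - Zs = Re ∑ d_n n^{-it}`; compare ME/PRM.lean, GE/PRM.lean.  For fixed `N` and
`T → ∞` (`R = L/4`) `∑_{n ≤ N} ‖d_n‖ → 0` by (C3); for `n > T^{1/2}` (`log n ≥ 2R`) the sum of the absolute values is at most `1/T`-small by
(C3); for `N < n ≤ T^{1/2}` `‖d_n‖ ≤ Λ(n)/√n ‖FF F(log n)‖` and `H370.mean_value` bounds the mean square by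
`2 T ∑_{n > N} ‖d_n‖²`, small for `N ≥ N0` by (TL). -/
def S_PM3 : Prop := ∀ F : ℝ → ℝ, C2c F → ∀ ε : ℝ, 0 < ε → ∃ N0 : ℕ, ∀ N : ℕ, N0 ≤ N → ∃ T0 : ℝ, 10 ≤ T0 ∧
  ∀ T : ℝ, T0 ≤ T → ∀ u : ℕ → ℂ, (∀ n, ‖u n‖ ≤ 1) →
    ∫ t in T..(2 * T), (B3 u F (Real.log T / 4) t - Zs u F N (fun n => ee n t)) ^ 2 ≤ ε * T

/-- (ML) approximation by finite sums for all test functions.
Proof.  For `F` in `C2c`: (AM), (PM3), Cauchy-Schwarz, and on the two edges of length `2 log T` the bounds `|XM| ≤ C log T`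
(`H370.zcount`, compare `ME.t_EDG`, ME/EDG.lean, and GE/APX.lean, AP.lean for the continuity) and `|Zs| ≤ C_N`.  In general
`F(x) = ∑_i F_i(x - a_i)` with finitely many `F_i` in `C2c` (partition of unity, supports `[a_i - 1, a_i + 1]`); `∑ m F(γ - t) =
∑_i ∑ m F_i(γ - (t + a_i))`, `FF F ξ = ∑_i FF F_i ξ e^{-i ξ a_i}`, so `Zs u F N (ee · t) = ∑_i Zs u F_i N (ee · (t + a_i))` exactly, and
`|log(t + a_i) - log t| ≤ C/T`; the integral over `[T + a_i, 2T + a_i]` differs from the one over `[T, 2T]` by edges. -/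
def S_ML : Prop := ∀ (G : ℂ → ℂ) (u : ℕ → ℂ) (q : ℝ), Lf G u → 0 < q → FE G q → ∀ F : ℝ → ℝ, ContDiff ℝ 2 F →
  HasCompactSupport F → ∀ ε : ℝ, 0 < ε → ∃ N0 : ℕ, ∀ N : ℕ, N0 ≤ N → ∃ T0 : ℝ, 10 ≤ T0 ∧ ∀ T : ℝ, T0 ≤ T →
    ContinuousOn (XM G q F) (Icc T (2 * T)) ∧
    ∫ t in T..(2 * T), |XM G q F t + Zs u F N (fun n => ee n t)| ≤ ε * T

/-- (MM) all moments are bounded.
Proof.  `|XM G q F t - XG G F T t| ≤ C` on `[T, 2T]`.  Let `ψ` be an even smooth bump, `∫ ψ = 1`, support in `[-1,1]`,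
`ψ_h(x) = ψ(x/h)/h`, `D(x) = 2 ψ(2x) - ψ(x) = E''(x)` with `E` smooth of compact support (`∫ D = ∫ x D = 0`).  Then
`F * ψ_{h/2} - F * ψ_h = F * (D(·/h)/h) = h F'' * E(·/h)`, so `XG(F * ψ_{h/2} - F * ψ_h)(t) = h ∫ F''(s) XG(E(·/h))(t + s) ds`, whose
`L^m[T,2T]` norm is at most `h ∫|F''| (C T)^{1/m}` by `GE.S_BMI` for `E` with `a = 1/2`, `b = 3` (`m ≥ 1`; Jensen instead of Minkowski:
use weights `2^{-i}`), for all `h` with `2 (log log T)² ≤ h log T`, `h ≤ h_0`.  Sum over `h = h_0 2^{-i}` down to `h_I log T ≤ 4 (log log T)²`: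
`XG F = XG(F * ψ_{h_0}) + ∑_i h_i (...) + XG(F - F * ψ_{h_I})`; the first by `S_BMI` for `ψ`, the last is at most
`C h_I² sup|F''| · C log T ≤ C (log log T)^4 / log T ≤ C` (`H370.zcount`; `∫ (F - F * ψ_h) = 0`). -/
def S_MM : Prop := ∀ (G : ℂ → ℂ) (u : ℕ → ℂ) (q : ℝ), Lf G u → 0 < q → ∀ F : ℝ → ℝ, ContDiff ℝ 2 F →
  HasCompactSupport F → ∀ m : ℕ, ∃ C T0 : ℝ, 10 ≤ T0 ∧ ∀ T : ℝ, T0 ≤ T →
    ContinuousOn (XM G q F) (Icc T (2 * T)) ∧ ∫ t in T..(2 * T), |XM G q F t| ^ m ≤ C * T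

/-- (RN) the random multiplicative function.  `factorization_mul`; the integral of `e(∑_p c_p ω_p)` (finitely many `p`) over the product
measure is `∏ ∫_0^1 e(c_p x) dx` (independence: `Measure.infinitePi_map_restrict` and `integral_fintype_prod_eq_prod`, or
`iIndepFun_infinitePi`), which is `0` unless all `c_p = v_p(a) - v_p(b)` vanish, i.e. `a = b`. -/
def S_RN : Prop := (∀ n : ℕ, Measurable fun ω : Om => rn ω n) ∧ (∀ (ω : Om) (n : ℕ), ‖rn ω n‖ = 1) ∧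
  (∀ (ω : Om) (a b : ℕ), a ≠ 0 → b ≠ 0 → rn ω (a * b) = rn ω a * rn ω b) ∧
  (∀ a b : ℕ, a ≠ 0 → b ≠ 0 → ∫ ω, rn ω a * (starRingEnd ℂ) (rn ω b) ∂PM = if a = b then 1 else 0)

/-- (EQD) equidistribution.  Proof.  All values of `v(t) = (Re ∑ c_j(n) n^{-it})_j` and of the random vector lie in one box; on the box
`Φ` is uniformly approximated by polynomials (Stone-Weierstrass, e.g.
`ContinuousMap.subalgebra_topologicalClosure_eq_top_of_separatesPoints`), so let `Φ` be a monomial; `Re z = (z + conj z)/2`; expand into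
finitely many products `∏ n_i^{-it} ∏ conj(n_i'^{-it}) = (a/b)^{-it}`, `a = ∏ n_i`, `b = ∏ n_i'` (`ee` is multiplicative on positive
integers), whose mean over `[T, 2T]` tends to `1` if `a = b` and to `0` otherwise; the same with `rn` by (RN). -/
def S_EQD : Prop := ∀ (k N : ℕ) (c : Fin k → ℕ → ℂ) (Φ : (Fin k → ℝ) → ℝ), Continuous Φ →
  Tendsto (fun T : ℝ => 1 / T * ∫ t in T..(2 * T), Φ (fun j => (∑ n ∈ Finset.Icc 1 N, c j n * ee n t).re)) atTop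
    (𝓝 (∫ ω, Φ (fun j => (∑ n ∈ Finset.Icc 1 N, c j n * rn ω n).re) ∂PM))

/-- (VR) covariance of random sums: `E rn(a) conj(rn(b)) = [a = b]`, `E rn(a) rn(b) = E rn(ab) = 0` unless `a = b = 1`. -/
def S_VR : Prop := ∀ (N : ℕ) (c d : ℕ → ℂ), c 1 = 0 →
  ∫ ω, (∑ n ∈ Finset.Icc 1 N, c n * rn ω n).re * (∑ n ∈ Finset.Icc 1 N, d n * rn ω n).re ∂PM =
    1 / 2 * ∑ n ∈ Finset.Icc 1 N, (c n * (starRingEnd ℂ) (d n)).re

/-- (HY) the moments of the random sums are bounded.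
Proof.  `Zs = ∑_k Re S_k`, `S_k` the sum over the `n = p^k ≤ N`; for fixed `k` the terms `Re(c_p e(-k ω_p))` are independent, centred and
bounded, so by Hoeffding's lemma `E exp(λ Re S_k) ≤ exp(λ² ∑_p |c_p|² / 2)` and `E |Re S_k|^{2m} ≤ C_m (∑_p |c_p|²)^m`,
`|c_p| ≤ (log p) p^{-k/2} ‖FF F(k log p)‖` (`k = 1`: finite by (TL); `k ≥ 2`: `∑_p (log p)² p^{-k} ≤ C 2^{-k}·16`); sum over `k` with the
weights `2^{-k/4}` (Hölder).  Or: any other proof, e.g. direct comparison `E |∑_p a_p rn(p)|^{2m} ≤ m! (∑|a_p|²)^m` by orthogonality of the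
`rn(p_1 ⋯ p_m)`. -/
def S_HY : Prop := ∀ (m : ℕ) (F : ℝ → ℝ), ContDiff ℝ 2 F → HasCompactSupport F → ∃ C : ℝ, ∀ u : ℕ → ℂ, (∀ n, ‖u n‖ ≤ 1) →
  ∀ N : ℕ, ∫ ω, (Zs u F N (rn ω)) ^ (2 * m) ∂PM ≤ C

/-- (GX) the limit of the random sums.  Proof.  By (VR) and (TL) the sums are Cauchy in `L²(PM)` (complete: `MeasureTheory.Lp`); a
subsequence converges almost everywhere, Fatou and (HY) give the moments. -/
def S_GX : Prop := ∀ u : ℕ → ℂ, (∀ n, ‖u n‖ ≤ 1) → ∀ F : ℝ → ℝ, ContDiff ℝ 2 F → HasCompactSupport F →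
  ∃ X : Om → ℝ, Measurable X ∧ (∀ m : ℕ, Integrable (fun ω => |X ω| ^ m) PM) ∧
    Tendsto (fun N : ℕ => ∫ ω, (X ω - -Zs u F N (rn ω)) ^ 2 ∂PM) atTop (𝓝 0)

/-- (AS) abstract assembly.
Proof.  First `Φ` bounded and Lipschitz: `|Φ(X) - Φ(Z_N)| ≤ K ∑_j |X_j - Z_{N,j}|` etc.  Then `Φ` continuous of compact support (uniformly
approximated by Lipschitz functions).  Then in general: `Φ = Φ χ_M + Φ (1 - χ_M)`, `χ_M` a cutoff equal to `1` for `‖x‖ ≤ M`, and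
`|Φ (1 - χ_M)| ≤ C (1 + ‖x‖)^{m+1} / M`, `(1 + ‖x‖)^{m+1} ≤ C (1 + ∑_j |x_j|^{m+1})`, whose means are bounded on both sides. -/
def S_AS : Prop := ∀ (Ω : Type) [MeasurableSpace Ω] (P : Measure Ω) [IsProbabilityMeasure P] (k : ℕ)
  (X : Fin k → ℝ → ℝ) (Z : ℕ → Fin k → ℝ → ℝ) (W : ℕ → Fin k → Ω → ℝ) (Y : Fin k → Ω → ℝ),
  (∀ j, ∀ᶠ T : ℝ in atTop, ContinuousOn (X j) (Icc T (2 * T))) → (∀ N j, Continuous (Z N j)) →
  (∀ N j, Measurable (W N j)) → (∀ N j, ∃ B : ℝ, ∀ ω, |W N j ω| ≤ B) → (∀ j, Measurable (Y j)) →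
  (∀ (j : Fin k) (m : ℕ), ∃ C : ℝ, ∀ᶠ T : ℝ in atTop, ∫ t in T..(2 * T), |X j t| ^ m ≤ C * T) →
  (∀ j, ∀ ε : ℝ, 0 < ε → ∃ N0 : ℕ, ∀ N : ℕ, N0 ≤ N → ∀ᶠ T : ℝ in atTop, ∫ t in T..(2 * T), |X j t - Z N j t| ≤ ε * T) →
  (∀ (N : ℕ) (Φ : (Fin k → ℝ) → ℝ), Continuous Φ →
    Tendsto (fun T : ℝ => 1 / T * ∫ t in T..(2 * T), Φ (fun j => Z N j t)) atTop (𝓝 (∫ ω, Φ (fun j => W N j ω) ∂P))) →
  (∀ (j : Fin k) (m : ℕ), Integrable (fun ω => |Y j ω| ^ m) P) →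
  (∀ j, Tendsto (fun N : ℕ => ∫ ω, (Y j ω - W N j ω) ^ 2 ∂P) atTop (𝓝 0)) →
  ∀ Φ : (Fin k → ℝ) → ℝ, Continuous Φ → (∃ (C : ℝ) (m : ℕ), ∀ x, |Φ x| ≤ C * (1 + ‖x‖) ^ m) →
    Tendsto (fun T : ℝ => 1 / T * ∫ t in T..(2 * T), Φ (fun j => X j t)) atTop (𝓝 (∫ ω, Φ (fun j => Y j ω) ∂P))

/-- (IN) interpolation.  Proof.  `c_n = u_n FF F(log n)` for the prime powers `n ≤ N1`, `N1` with `∑_{n > N1} Λ(n)²/n ‖FF F(log n)‖² ≤ ε/8`
(TL).  `F'(x) = (1/M) w(x/M) ∑_{n ≤ N1} (c_n e^{ix log n} + conj c_n e^{-ix log n})`, `w` a smooth bump with `∫ w = 1`; its transform at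
`log m`, `m ≥ 2`, is `∑_n (c_n ŵ(M(log m - log n)) + conj c_n ŵ(M(log m + log n)))`, which tends to `c_m` as `M → ∞` if `m ≤ N1`, and is at
most `C_{N1} M^{-2} / (1 + (log m)²)`-small for `m > N1`, where `|log m - log n| ≥ c (1 + log m)`. -/
def S_IN : Prop := ∀ u : ℕ → ℂ, (∀ n, ‖u n‖ ≤ 1) → ∀ F : ℝ → ℝ, ContDiff ℝ 2 F → HasCompactSupport F → ∀ ε : ℝ, 0 < ε →
  ∃ F' : ℝ → ℝ, ContDiff ℝ 2 F' ∧ HasCompactSupport F' ∧ ∀ N : ℕ, ∑ n ∈ Finset.Icc 1 N,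
    (ArithmeticFunction.vonMangoldt n) ^ 2 / n * ‖u n * FF F (Real.log n) - FF F' (Real.log n)‖ ^ 2 ≤ ε

end Pool.Agent.H203.MC
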