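import Pool.Agent.H203.MC.Defs
import Pool.Agent.H203.GE.LFX

set_option autoImplicit false

/-! The zeros of all Dirichlet L-functions at fixed distances: assembly. -/

open Complex Filter Topology Set MeasureTheory

namespace Pool.Agent.H203.MC

open Pool.Agent.H203.ME (ee gR WR om FF KF C2c)
open Pool.Agent.H203.GE (Lf ZG XG)

instance : IsProbabilityMeasure PM := by unfold PM; infer_instance

/-- the coefficients of `-Zs` -/
noncomputable def co (u : ℕ → ℂ) (F : ℝ → ℝ) (n : ℕ) : ℂ :=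
  -(((1 / Real.pi * (ArithmeticFunction.vonMangoldt n / Real.sqrt n) : ℝ) : ℂ) * FF F (Real.log n) * u n)

lemma neg_Zs (u : ℕ → ℂ) (F : ℝ → ℝ) (N : ℕ) (x : ℕ → ℂ) :
    -Zs u F N x = (∑ n ∈ Finset.Icc 1 N, co u F n * x n).re := by
  unfold Zs co
  rw [← Complex.neg_re, ← Finset.sum_neg_distrib]
  congr 2
  funext n
  ring

lemma co_one (u : ℕ → ℂ) (F : ℝ → ℝ) : co u F 1 = 0 := by
  unfold co
  simp

/-- products of sequences converging in `L²` -/
lemma l2lim {Ω : Type} [MeasurableSpace Ω] {P : Measure Ω} {f g : Ω → ℝ} {F G : ℕ → Ω → ℝ}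
    (hf : Integrable (fun ω => f ω ^ 2) P) (hg : Integrable (fun ω => g ω ^ 2) P)
    (hfm : AEStronglyMeasurable f P) (hgm : AEStronglyMeasurable g P)
    (hFm : ∀ N, AEStronglyMeasurable (F N) P) (hGm : ∀ N, AEStronglyMeasurable (G N) P)
    (hF2 : ∀ N, Integrable (fun ω => F N ω ^ 2) P) (hG2 : ∀ N, Integrable (fun ω => G N ω ^ 2) P)
    (hF : Tendsto (fun N => ∫ ω, (f ω - F N ω) ^ 2 ∂P) atTop (𝓝 0))
    (hG : Tendsto (fun N => ∫ ω, (g ω - G N ω) ^ 2 ∂P) atTop (𝓝 0)) :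
    Tendsto (fun N => ∫ ω, F N ω * G N ω ∂P) atTop (𝓝 (∫ ω, f ω * g ω ∂P)) := by
  have hmf : MemLp f 2 P := (memLp_two_iff_integrable_sq hfm).2 hf
  have hmg : MemLp g 2 P := (memLp_two_iff_integrable_sq hgm).2 hg
  have hmF : ∀ N, MemLp (F N) 2 P := fun N => (memLp_two_iff_integrable_sq (hFm N)).2 (hF2 N)
  have hmG : ∀ N, MemLp (G N) 2 P := fun N => (memLp_two_iff_integrable_sq (hGm N)).2 (hG2 N)
  rw [Metric.tendsto_atTop]
  intro ε hε
  set A := (∫ ω, f ω ^ 2 ∂P) + ∫ ω, g ω ^ 2 ∂P with hA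
  have hA0 : 0 ≤ A := by
    apply add_nonneg <;> exact integral_nonneg fun _ => sq_nonneg _
  set δ := ε / (A + 1) with hδ
  have hδ0 : 0 < δ := by positivity
  have h1 : Tendsto (fun N => (1 / (2 * δ) + 1 / 2) * ((∫ ω, (f ω - F N ω) ^ 2 ∂P) + ∫ ω, (g ω - G N ω) ^ 2 ∂P))
      atTop (𝓝 0) := by
    have := (hF.add hG).const_mul (1 / (2 * δ) + 1 / 2)
    simpa using this
  obtain ⟨N0, hN0⟩ := Metric.tendsto_atTop.1 h1 (ε / 2) (by positivity)
  refine ⟨N0, fun N hN => ?_⟩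
  have h2 := hN0 N hN
  rw [Real.dist_eq, sub_zero] at h2
  have h3 := lt_of_le_of_lt (le_abs_self _) h2
  have i1 : Integrable (fun ω => (f ω - F N ω) ^ 2) P := (hmf.sub (hmF N)).integrable_sq
  have i2 : Integrable (fun ω => (g ω - G N ω) ^ 2) P := (hmg.sub (hmG N)).integrable_sq
  have i3 : Integrable (fun ω => F N ω * G N ω) P := (hmF N).integrable_mul (hmG N)
  have i4 : Integrable (fun ω => f ω * g ω) P := hmf.integrable_mul hmg
  rw [Real.dist_eq, ← integral_sub i3 i4]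
  have hb : ∀ ω, |F N ω * G N ω - f ω * g ω| ≤
      (1 / (2 * δ) + 1 / 2) * ((f ω - F N ω) ^ 2 + (g ω - G N ω) ^ 2) + δ / 2 * (f ω ^ 2 + g ω ^ 2) := by
    intro ω
    set a := f ω - F N ω
    set b := g ω - G N ω
    have e : F N ω * G N ω - f ω * g ω = a * b - a * g ω - f ω * b := by ring
    rw [e]
    have k1 : |a * b| ≤ 1 / 2 * (a ^ 2 + b ^ 2) := by
      rw [abs_le]
      constructor <;> nlinarith [sq_nonneg (a + b), sq_nonneg (a - b)]
    have kk : ∀ x y : ℝ, |x * y| ≤ 1 / (2 * δ) * x ^ 2 + δ / 2 * y ^ 2 := by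
      intro x y
      have h4 : 1 / (2 * δ) * x ^ 2 + δ / 2 * y ^ 2 - |x * y| = 1 / (2 * δ) * (|x| - δ * |y|) ^ 2 := by
        rw [abs_mul]
        field_simp
        rw [sub_sq, mul_pow, sq_abs, sq_abs]
        ring
      have h5 : 0 ≤ 1 / (2 * δ) * (|x| - δ * |y|) ^ 2 := by positivity
      linarith
    have k2 := kk a (g ω)
    have k3 := kk b (f ω)
    rw [mul_comm b (f ω)] at k3
    calc |a * b - a * g ω - f ω * b| ≤ |a * b| + |a * g ω| + |f ω * b| := by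
          refine (abs_sub _ _).trans ?_
          gcongr
          exact abs_sub _ _
      _ ≤ _ := by nlinarith
  have i6 : Integrable (fun ω => (f ω - F N ω) ^ 2 + (g ω - G N ω) ^ 2) P := i1.add i2
  have i7 : Integrable (fun ω => f ω ^ 2 + g ω ^ 2) P := hf.add hg
  have i5 : Integrable (fun ω => (1 / (2 * δ) + 1 / 2) * ((f ω - F N ω) ^ 2 + (g ω - G N ω) ^ 2) +
      δ / 2 * (f ω ^ 2 + g ω ^ 2)) P := (i6.const_mul _).add (i7.const_mul _)
  calc |∫ ω, F N ω * G N ω - f ω * g ω ∂P| ≤ ∫ ω, |F N ω * G N ω - f ω * g ω| ∂P := abs_integral_le_integral_abs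
    _ ≤ ∫ ω, ((1 / (2 * δ) + 1 / 2) * ((f ω - F N ω) ^ 2 + (g ω - G N ω) ^ 2) +
      δ / 2 * (f ω ^ 2 + g ω ^ 2)) ∂P := integral_mono (i3.sub i4).abs i5 hb
    _ = (1 / (2 * δ) + 1 / 2) * ((∫ ω, (f ω - F N ω) ^ 2 ∂P) + ∫ ω, (g ω - G N ω) ^ 2 ∂P) + δ / 2 * A := by
        rw [integral_add (i6.const_mul _) (i7.const_mul _), integral_const_mul,
          integral_const_mul, integral_add i1 i2, integral_add hf hg]
    _ < ε := by
        have h6 : δ * A ≤ ε := by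
          rw [hδ, div_mul_eq_mul_div, div_le_iff₀ (by positivity)]
          nlinarith
        linarith

lemma rn_meas (hR : S_RN) (c : ℕ → ℂ) (N : ℕ) : Measurable fun ω : Om => (∑ n ∈ Finset.Icc 1 N, c n * rn ω n).re := by
  apply Complex.measurable_re.comp
  exact Finset.measurable_fun_sum _ fun n _ => (hR.1 n).const_mul (c n)

lemma rn_bd (hR : S_RN) (c : ℕ → ℂ) (N : ℕ) (ω : Om) :
    |(∑ n ∈ Finset.Icc 1 N, c n * rn ω n).re| ≤ ∑ n ∈ Finset.Icc 1 N, ‖c n‖ := by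
  refine (abs_re_le_norm _).trans ((norm_sum_le _ _).trans (le_of_eq ?_))
  refine Finset.sum_congr rfl fun n _ => ?_
  rw [norm_mul, hR.2.1, mul_one]

/-- **the limit theorem at fixed distances** -/
theorem fin1 (hF : S_REF) (hL : S_ML) (hM : S_MM) (hR : S_RN) (hE : S_EQD) (hV : S_VR) (hG : S_GX) (hA : S_AS)
    (k : ℕ) (q : Fin k → ℕ) (hq : ∀ j, NeZero (q j)) (χ : (j : Fin k) → DirichletCharacter ℂ (q j))
    (hχ : ∀ j, (χ j).IsPrimitive) (F : Fin k → ℝ → ℝ) (hFd : ∀ j, ContDiff ℝ 2 (F j))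
    (hFs : ∀ j, HasCompactSupport (F j)) :
    ∃ X : Fin k → Om → ℝ, (∀ j, Measurable (X j)) ∧ (∀ (j : Fin k) (m : ℕ), Integrable (fun ω => |X j ω| ^ m) PM) ∧
      (∀ j, Tendsto (fun N : ℕ => ∫ ω, (X j ω - -Zs (fun n : ℕ => χ j n) (F j) N (rn ω)) ^ 2 ∂PM) atTop (𝓝 0)) ∧
      (∀ i j, Tendsto (fun N : ℕ => 1 / 2 * ∑ n ∈ Finset.Icc 1 N,
          (co (fun n : ℕ => χ i n) (F i) n * (starRingEnd ℂ) (co (fun n : ℕ => χ j n) (F j) n)).re) atTop
        (𝓝 (∫ ω, X i ω * X j ω ∂PM))) ∧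
      ∀ Φ : (Fin k → ℝ) → ℝ, Continuous Φ → (∃ (C : ℝ) (m : ℕ), ∀ x, |Φ x| ≤ C * (1 + ‖x‖) ^ m) →
        Tendsto (fun T : ℝ => 1 / T * ∫ t in T..(2 * T), Φ (fun j =>
            XM (@DirichletCharacter.LFunction (q j) (hq j) (χ j)) (q j) (F j) t)) atTop
          (𝓝 (∫ ω, Φ (fun j => X j ω) ∂PM)) := by
  have hlf : ∀ j, Lf (@DirichletCharacter.LFunction (q j) (hq j) (χ j)) (fun n : ℕ => χ j n) := fun j => by
    have := hq j
    exact Pool.Agent.H203.GE.t_LFX (q j) (χ j) (hχ j)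
  have hfe : ∀ j, FE (@DirichletCharacter.LFunction (q j) (hq j) (χ j)) (q j) := fun j => by
    have := hq j
    exact hF (q j) (χ j) (hχ j)
  have hqp : ∀ j, (0 : ℝ) < q j := fun j => by
    have := hq j
    exact_mod_cast Nat.pos_of_ne_zero (NeZero.ne (q j))
  have hu : ∀ j n, ‖(fun n : ℕ => χ j n) n‖ ≤ 1 := fun j n => (hlf j).le1 n
  choose X hXm hXi hXt using fun j => hG (fun n : ℕ => χ j n) (hu j) (F j) (hFd j) (hFs j)
  refine ⟨X, hXm, hXi, hXt, ?_, ?_⟩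
  · intro i j
    have key : ∀ N : ℕ, 1 / 2 * ∑ n ∈ Finset.Icc 1 N,
          (co (fun n : ℕ => χ i n) (F i) n * (starRingEnd ℂ) (co (fun n : ℕ => χ j n) (F j) n)).re =
        ∫ ω, (-Zs (fun n : ℕ => χ i n) (F i) N (rn ω)) * (-Zs (fun n : ℕ => χ j n) (F j) N (rn ω)) ∂PM := by
      intro N
      rw [← hV N _ _ (co_one _ _)]
      refine integral_congr_ae (Eventually.of_forall fun ω => ?_)
      simp only
      rw [neg_Zs, neg_Zs]
    simp only [key]
    have hsq : ∀ j, Integrable (fun ω => X j ω ^ 2) PM := fun j => by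
      have := hXi j 2
      simpa [sq_abs] using this
    have hm : ∀ j N, AEStronglyMeasurable (fun ω => -Zs (fun n : ℕ => χ j n) (F j) N (rn ω)) PM := fun j N => by
      simp only [neg_Zs]
      exact (rn_meas hR _ N).aestronglyMeasurable
    have hb : ∀ j N, Integrable (fun ω => (-Zs (fun n : ℕ => χ j n) (F j) N (rn ω)) ^ 2) PM := fun j N => by
      refine Integrable.of_bound ((hm j N).pow 2) ((∑ n ∈ Finset.Icc 1 N, ‖co (fun n : ℕ => χ j n) (F j) n‖) ^ 2)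
        (Eventually.of_forall fun ω => ?_)
      rw [norm_pow, Real.norm_eq_abs, neg_Zs]
      exact pow_le_pow_left₀ (abs_nonneg _) (rn_bd hR _ N ω) 2
    exact l2lim (hsq i) (hsq j) (hXm i).aestronglyMeasurable (hXm j).aestronglyMeasurable (hm i) (hm j) (hb i) (hb j)
      (hXt i) (hXt j)
  · intro Φ hΦ hΦg
    refine hA Om PM k (fun j t => XM (@DirichletCharacter.LFunction (q j) (hq j) (χ j)) (q j) (F j) t)
      (fun N j t => -Zs (fun n : ℕ => χ j n) (F j) N (fun n => ee n t))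
      (fun N j ω => -Zs (fun n : ℕ => χ j n) (F j) N (rn ω)) X ?_ ?_ ?_ ?_ hXm ?_ ?_ ?_ hXi hXt Φ hΦ hΦg
    · intro j
      obtain ⟨C, T0, _, h⟩ := hM _ _ (q j) (hlf j) (hqp j) (F j) (hFd j) (hFs j) 0
      filter_upwards [eventually_ge_atTop T0] with T hT
      exact (h T hT).1
    · intro N j
      simp only [neg_Zs]
      apply Complex.continuous_re.comp
      refine continuous_finsetSum _ fun n _ => continuous_const.mul ?_
      unfold Pool.Agent.H203.ME.ee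
      fun_prop
    · intro N j
      simp only [neg_Zs]
      exact rn_meas hR _ N
    · intro N j
      refine ⟨∑ n ∈ Finset.Icc 1 N, ‖co (fun n : ℕ => χ j n) (F j) n‖, fun ω => ?_⟩
      rw [neg_Zs]
      exact rn_bd hR _ N ω
    · intro j m
      obtain ⟨C, T0, _, h⟩ := hM _ _ (q j) (hlf j) (hqp j) (F j) (hFd j) (hFs j) m
      refine ⟨C, ?_⟩
      filter_upwards [eventually_ge_atTop T0] with T hT
      exact (h T hT).2
    · intro j ε hε
      obtain ⟨N0, h⟩ := hL _ _ (q j) (hlf j) (hqp j) (hfe j) (F j) (hFd j) (hFs j) ε hε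
      refine ⟨N0, fun N hN => ?_⟩
      obtain ⟨T0, _, h1⟩ := h N hN
      filter_upwards [eventually_ge_atTop T0] with T hT
      have h2 := (h1 T hT).2
      simp only [sub_neg_eq_add]
      exact h2
    · intro N Ψ hΨ
      simp only [neg_Zs]
      exact hE k N (fun j => co (fun n : ℕ => χ j n) (F j)) Ψ hΨ

end Pool.Agent.H203.MC
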