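import Pool.Agent.H203.MC.Defs

set_option autoImplicit false

/-! Project MC, leaf VR: covariance of the random sums (helper878, for helper203). -/

open Complex Filter Topology Set MeasureTheory

namespace Pool.Agent.H203.MC

namespace VRL

theorem prob : IsProbabilityMeasure PM := by
  unfold PM
  infer_instance

theorem rn_one (h : S_RN) (ω : Om) : rn ω 1 = 1 := by
  obtain ⟨_, h2, h3, _⟩ := h
  have h4 := h3 ω 1 1 one_ne_zero one_ne_zero
  rw [mul_one] at h4
  have h5 : rn ω 1 ≠ 0 := by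
    intro h6
    have h7 := h2 ω 1
    rw [h6, norm_zero] at h7
    exact zero_ne_one h7
  exact mul_left_cancel₀ h5 (by rw [mul_one]; exact h4.symm)

theorem integ (h : S_RN) (a b : ℕ) :
    Integrable (fun ω => rn ω a * (starRingEnd ℂ) (rn ω b)) PM := by
  obtain ⟨h1, h2, _, _⟩ := h
  have := prob
  refine Integrable.of_bound (C := 1) ?_ ?_
  · exact ((h1 a).mul (continuous_conj.measurable.comp (h1 b))).aestronglyMeasurable
  · exact Filter.Eventually.of_forall fun ω => by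
      rw [norm_mul, h2, RCLike.norm_conj, h2, mul_one]

/-- double sums -/
theorem dbl (h : S_RN) (s : Finset ℕ) (k : ℕ → ℕ → ℂ) (f g : ℕ → ℕ → ℕ) :
    Integrable (fun ω => ∑ n ∈ s, ∑ m ∈ s, k n m * (rn ω (f n m) * (starRingEnd ℂ) (rn ω (g n m)))) PM ∧
    ∫ ω, ∑ n ∈ s, ∑ m ∈ s, k n m * (rn ω (f n m) * (starRingEnd ℂ) (rn ω (g n m))) ∂PM =
      ∑ n ∈ s, ∑ m ∈ s, k n m * ∫ ω, rn ω (f n m) * (starRingEnd ℂ) (rn ω (g n m)) ∂PM := by
  have i0 : ∀ n m, Integrable
      (fun ω => k n m * (rn ω (f n m) * (starRingEnd ℂ) (rn ω (g n m)))) PM :=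
    fun n m => (integ h (f n m) (g n m)).const_mul _
  have i1 : ∀ n, Integrable
      (fun ω => ∑ m ∈ s, k n m * (rn ω (f n m) * (starRingEnd ℂ) (rn ω (g n m)))) PM :=
    fun n => integrable_finsetSum _ fun m _ => i0 n m
  refine ⟨integrable_finsetSum _ fun n _ => i1 n, ?_⟩
  rw [integral_finsetSum _ fun n _ => i1 n]
  refine Finset.sum_congr rfl fun n _ => ?_
  rw [integral_finsetSum _ fun m _ => i0 n m]
  refine Finset.sum_congr rfl fun m _ => ?_
  exact integral_const_mul _ _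

end VRL

/-- **VR** -/
theorem t_VR (h : S_RN) : S_VR := by
  intro N c d hc
  obtain ⟨j1, k1⟩ := VRL.dbl h (Finset.Icc 1 N) (fun n m => c n * (starRingEnd ℂ) (d m))
    (fun n _ => n) (fun _ m => m)
  obtain ⟨j2, k2⟩ := VRL.dbl h (Finset.Icc 1 N) (fun n m => c n * d m)
    (fun n m => n * m) (fun _ _ => 1)
  have h4 := h.2.2.2
  have e1 : ∑ n ∈ Finset.Icc 1 N, ∑ m ∈ Finset.Icc 1 N, (c n * (starRingEnd ℂ) (d m)) *
      ∫ ω, rn ω n * (starRingEnd ℂ) (rn ω m) ∂PM =
      ∑ n ∈ Finset.Icc 1 N, c n * (starRingEnd ℂ) (d n) := by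
    refine Finset.sum_congr rfl fun n hn => ?_
    rw [Finset.sum_eq_single n]
    · have hn0 : n ≠ 0 := by
        have := (Finset.mem_Icc.mp hn).1
        omega
      rw [h4 n n hn0 hn0, if_pos rfl, mul_one]
    · intro m hm hmn
      have hn0 : n ≠ 0 := by
        have := (Finset.mem_Icc.mp hn).1
        omega
      have hm0 : m ≠ 0 := by
        have := (Finset.mem_Icc.mp hm).1
        omega
      rw [h4 n m hn0 hm0, if_neg (Ne.symm hmn), mul_zero]
    · intro hh
      exact absurd hn hh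
  have e2 : ∑ n ∈ Finset.Icc 1 N, ∑ m ∈ Finset.Icc 1 N, (c n * d m) *
      ∫ ω, rn ω (n * m) * (starRingEnd ℂ) (rn ω 1) ∂PM = 0 := by
    refine Finset.sum_eq_zero fun n hn => Finset.sum_eq_zero fun m hm => ?_
    have hn0 : n ≠ 0 := by
      have := (Finset.mem_Icc.mp hn).1
      omega
    have hm0 : m ≠ 0 := by
      have := (Finset.mem_Icc.mp hm).1
      omega
    rw [h4 (n * m) 1 (mul_ne_zero hn0 hm0) one_ne_zero]
    by_cases h5 : n * m = 1
    · have h6 : n = 1 := Nat.eq_one_of_mul_eq_one_right h5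
      rw [h6, hc, zero_mul, zero_mul]
    · rw [if_neg h5, mul_zero]
  have key : ∀ ω : Om, (∑ n ∈ Finset.Icc 1 N, c n * rn ω n).re *
      (∑ n ∈ Finset.Icc 1 N, d n * rn ω n).re =
      1 / 2 * (∑ n ∈ Finset.Icc 1 N, ∑ m ∈ Finset.Icc 1 N, (c n * (starRingEnd ℂ) (d m)) *
          (rn ω n * (starRingEnd ℂ) (rn ω m)) +
        ∑ n ∈ Finset.Icc 1 N, ∑ m ∈ Finset.Icc 1 N, (c n * d m) *
          (rn ω (n * m) * (starRingEnd ℂ) (rn ω 1))).re := by
    intro ω
    have f1 : ∑ n ∈ Finset.Icc 1 N, ∑ m ∈ Finset.Icc 1 N, (c n * (starRingEnd ℂ) (d m)) *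
          (rn ω n * (starRingEnd ℂ) (rn ω m)) =
        (∑ n ∈ Finset.Icc 1 N, c n * rn ω n) *
          (starRingEnd ℂ) (∑ n ∈ Finset.Icc 1 N, d n * rn ω n) := by
      rw [map_sum, Finset.sum_mul_sum]
      refine Finset.sum_congr rfl fun n _ => Finset.sum_congr rfl fun m _ => ?_
      rw [map_mul]
      ring
    have f2 : ∑ n ∈ Finset.Icc 1 N, ∑ m ∈ Finset.Icc 1 N, (c n * d m) *
          (rn ω (n * m) * (starRingEnd ℂ) (rn ω 1)) =
        (∑ n ∈ Finset.Icc 1 N, c n * rn ω n) * (∑ n ∈ Finset.Icc 1 N, d n * rn ω n) := by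
      rw [Finset.sum_mul_sum]
      refine Finset.sum_congr rfl fun n hn => Finset.sum_congr rfl fun m hm => ?_
      have hn0 : n ≠ 0 := by
        have := (Finset.mem_Icc.mp hn).1
        omega
      have hm0 : m ≠ 0 := by
        have := (Finset.mem_Icc.mp hm).1
        omega
      rw [h.2.2.1 ω n m hn0 hm0, VRL.rn_one h, map_one]
      ring
    rw [f1, f2]
    generalize (∑ n ∈ Finset.Icc 1 N, c n * rn ω n) = A
    generalize (∑ n ∈ Finset.Icc 1 N, d n * rn ω n) = B
    simp only [Complex.add_re, Complex.mul_re, Complex.conj_re, Complex.conj_im]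
    ring
  rw [integral_congr_ae (Filter.Eventually.of_forall key), integral_const_mul]
  congr 1
  have i3 := j1.add j2
  have r1 := integral_re i3
  simp only [Pi.add_apply] at r1
  have r2 := integral_add j1 j2
  rw [k1, k2, e1, e2, add_zero] at r2
  rw [r2] at r1
  refine r1.trans ?_
  exact map_sum Complex.reAddGroupHom _ _

end Pool.Agent.H203.MC
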